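import Mathlib

/-!
Sequences of rational numbers modulo a nonprincipal ultrafilter; the field of those of height at most
exponential in `L m`, and the subfield of those of height `exp (o (L m))`.
-/

namespace Pool.Agent.Lib.MP_d0d59f_nt.Auto

open Filter

/-- height of a rational number -/
def ht (q : ℚ) : ℕ := max q.num.natAbs q.den

theorem ht_pos (q : ℚ) : 0 < ht q := lt_of_lt_of_le q.pos (le_max_right _ _)

theorem ht_neg (q : ℚ) : ht (-q) = ht q := by simp [ht]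

theorem ah_div_le (a b : ℤ) (hb : b ≠ 0) : ht ((a : ℚ) / b) ≤ max a.natAbs b.natAbs := by
  rcases eq_or_ne a 0 with rfl | ha
  · have h1 : ((0 : ℤ) : ℚ) / b = 0 := by simp
    have h2 : 1 ≤ b.natAbs := Nat.one_le_iff_ne_zero.mpr (Int.natAbs_ne_zero.mpr hb)
    rw [h1]
    simp only [ht, Rat.num_zero, Rat.den_zero, Int.natAbs_zero]
    omega
  · have h1 : ((a : ℚ) / b).num ∣ a := by
      have := Rat.num_dvd a hb
      rwa [Rat.divInt_eq_div] at this
    have h2 : (((a : ℚ) / b).den : ℤ) ∣ b := by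
      have := Rat.den_dvd a b
      rwa [Rat.divInt_eq_div] at this
    refine max_le_max ?_ ?_
    · exact Nat.le_of_dvd (Nat.pos_of_ne_zero (Int.natAbs_ne_zero.mpr ha))
        (Int.natAbs_dvd_natAbs.mpr h1)
    · refine Nat.le_of_dvd (Nat.pos_of_ne_zero (Int.natAbs_ne_zero.mpr hb)) ?_
      have := Int.natAbs_dvd_natAbs.mpr h2
      rwa [Int.natAbs_natCast] at this

theorem ht_inv_le (q : ℚ) : ht q⁻¹ ≤ ht q := by
  rcases eq_or_ne q 0 with rfl | hq
  · rw [inv_zero]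
  · have h1 : q⁻¹ = ((q.den : ℤ) : ℚ) / (q.num : ℤ) := by
      conv_lhs => rw [← Rat.num_div_den q]
      rw [inv_div]
      push_cast
      rfl
    have h2 := ah_div_le (q.den : ℤ) q.num (Rat.num_ne_zero.mpr hq)
    rw [h1]
    refine h2.trans ?_
    rw [Int.natAbs_natCast, max_comm]
    exact le_refl _

theorem ah_num_le (q : ℚ) : q.num.natAbs ≤ ht q := le_max_left _ _
theorem ah_den_le (q : ℚ) : q.den ≤ ht q := le_max_right _ _

theorem ht_mul_le (a b : ℚ) : ht (a * b) ≤ ht a * ht b := by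
  have h1 : a * b = ((a.num * b.num : ℤ) : ℚ) / ((a.den * b.den : ℕ) : ℤ) := by
    conv_lhs => rw [← Rat.num_div_den a, ← Rat.num_div_den b]
    rw [div_mul_div_comm]
    push_cast
    rfl
  have h2 : ((a.den * b.den : ℕ) : ℤ) ≠ 0 := by
    have := a.pos
    have := b.pos
    positivity
  rw [h1]
  refine (ah_div_le _ _ h2).trans (max_le ?_ ?_)
  · rw [Int.natAbs_mul]
    exact Nat.mul_le_mul (ah_num_le a) (ah_num_le b)
  · rw [Int.natAbs_natCast]
    exact Nat.mul_le_mul (ah_den_le a) (ah_den_le b)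

theorem ht_add_le (a b : ℚ) : ht (a + b) ≤ 2 * (ht a * ht b) := by
  have ha0 : (a.den : ℚ) ≠ 0 := by exact_mod_cast a.pos.ne'
  have hb0 : (b.den : ℚ) ≠ 0 := by exact_mod_cast b.pos.ne'
  have h1 : a + b = ((a.num * b.den + a.den * b.num : ℤ) : ℚ) / ((a.den * b.den : ℕ) : ℤ) := by
    conv_lhs => rw [← Rat.num_div_den a, ← Rat.num_div_den b]
    rw [div_add_div _ _ ha0 hb0]
    push_cast
    rfl
  have h2 : ((a.den * b.den : ℕ) : ℤ) ≠ 0 := by
    have := a.pos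
    have := b.pos
    positivity
  rw [h1]
  refine (ah_div_le _ _ h2).trans (max_le ?_ ?_)
  · refine (Int.natAbs_add_le _ _).trans ?_
    rw [Int.natAbs_mul, Int.natAbs_mul, Int.natAbs_natCast, Int.natAbs_natCast, two_mul]
    exact Nat.add_le_add (Nat.mul_le_mul (ah_num_le a) (ah_den_le b))
      (Nat.mul_le_mul (ah_den_le a) (ah_num_le b))
  · rw [Int.natAbs_natCast]
    have := Nat.mul_le_mul (ah_den_le a) (ah_den_le b)
    omega

/-- an upper bound for the height from any representation as a fraction -/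
theorem ht_div_le (a b : ℤ) (hb : b ≠ 0) : ht ((a : ℚ) / b) ≤ max a.natAbs b.natAbs :=
  ah_div_le a b hb

/-- sequences of rational numbers modulo the hyperfilter -/
abbrev QU : Type := Germ (hyperfilter ℕ : Filter ℕ) ℚ

theorem ah_one : ht 1 = 1 := by simp [ht]
theorem ah_zero : ht 0 = 1 := by simp [ht]

theorem ah_L (L : ℕ → ℕ) (hL : Tendsto L atTop atTop) (c : ℕ) :
    ∀ᶠ m in (hyperfilter ℕ : Filter ℕ), c ≤ L m :=
  (Nat.hyperfilter_le_atTop) (hL.eventually_ge_atTop c)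

theorem ah_pow_abs (C : ℝ) (n : ℕ) : C ^ n ≤ |C| ^ n := by
  rw [← abs_pow]
  exact le_abs_self _

/-- the germs of height at most `C ^ L m` for some `C` -/
def bigField (L : ℕ → ℕ) (hL : Tendsto L atTop atTop) : Subfield QU where
  carrier := {z | ∃ f : ℕ → ℚ, (f : QU) = z ∧
    ∃ C : ℝ, ∀ᶠ m in (hyperfilter ℕ : Filter ℕ), (ht (f m) : ℝ) ≤ C ^ L m}
  mul_mem' := by
    rintro _ _ ⟨f, rfl, C, hf⟩ ⟨g, rfl, D, hg⟩
    refine ⟨f * g, Germ.coe_mul f g, |C| * |D|, ?_⟩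
    filter_upwards [hf, hg] with m h1 h2
    have h3 : (ht ((f * g) m) : ℝ) ≤ ht (f m) * ht (g m) := by exact_mod_cast ht_mul_le (f m) (g m)
    refine h3.trans ?_
    rw [mul_pow]
    exact mul_le_mul (h1.trans (ah_pow_abs _ _)) (h2.trans (ah_pow_abs _ _)) (Nat.cast_nonneg _)
      (by positivity)
  one_mem' := ⟨1, Germ.coe_one, 1, Eventually.of_forall fun m => by
    rw [one_pow, Pi.one_apply, ah_one, Nat.cast_one]⟩
  add_mem' := by
    rintro _ _ ⟨f, rfl, C, hf⟩ ⟨g, rfl, D, hg⟩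
    refine ⟨f + g, Germ.coe_add f g, 2 * (|C| * |D|), ?_⟩
    filter_upwards [hf, hg, ah_L L hL 1] with m h1 h2 hm
    have h3 : (ht ((f + g) m) : ℝ) ≤ 2 * (ht (f m) * ht (g m)) := by
      exact_mod_cast ht_add_le (f m) (g m)
    refine h3.trans ?_
    rw [mul_pow, mul_pow]
    have h4 : (2 : ℝ) ≤ 2 ^ L m := by
      calc (2 : ℝ) = 2 ^ 1 := (pow_one 2).symm
        _ ≤ 2 ^ L m := pow_le_pow_right₀ (by norm_num) hm
    refine mul_le_mul h4 ?_ (by positivity) (by positivity)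
    exact mul_le_mul (h1.trans (ah_pow_abs _ _)) (h2.trans (ah_pow_abs _ _)) (Nat.cast_nonneg _)
      (by positivity)
  zero_mem' := ⟨0, Germ.coe_zero, 1, Eventually.of_forall fun m => by
    rw [one_pow, Pi.zero_apply, ah_zero, Nat.cast_one]⟩
  neg_mem' := by
    rintro _ ⟨f, rfl, C, hf⟩
    refine ⟨-f, Germ.coe_neg f, C, ?_⟩
    filter_upwards [hf] with m h1
    rwa [Pi.neg_apply, ht_neg]
  inv_mem' := by
    rintro _ ⟨f, rfl, C, hf⟩
    refine ⟨f⁻¹, Germ.coe_inv f, C, ?_⟩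
    filter_upwards [hf] with m h1
    refine le_trans ?_ h1
    exact_mod_cast ht_inv_le (f m)

theorem ah_delta {ε : ℝ} (hε : 0 < ε) : ∃ δ : ℝ, 0 < δ ∧ (1 + δ) ^ 3 ≤ 1 + ε := by
  refine ⟨min 1 (ε / 7), lt_min one_pos (by positivity), ?_⟩
  set δ := min 1 (ε / 7) with hδ
  have h1 : δ ≤ 1 := min_le_left _ _
  have h2 : δ ≤ ε / 7 := min_le_right _ _
  have h0 : 0 < δ := lt_min one_pos (by positivity)
  nlinarith [mul_nonneg h0.le (sub_nonneg.mpr h1), mul_nonneg (mul_nonneg h0.le h0.le) (sub_nonneg.mpr h1)]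

/-- the germs of height at most `(1 + ε) ^ L m` for all `ε > 0` -/
def smallField (L : ℕ → ℕ) (hL : Tendsto L atTop atTop) : Subfield QU where
  carrier := {z | ∃ f : ℕ → ℚ, (f : QU) = z ∧
    ∀ ε : ℝ, 0 < ε → ∀ᶠ m in (hyperfilter ℕ : Filter ℕ), (ht (f m) : ℝ) ≤ (1 + ε) ^ L m}
  mul_mem' := by
    rintro _ _ ⟨f, rfl, hf⟩ ⟨g, rfl, hg⟩
    refine ⟨f * g, Germ.coe_mul f g, fun ε hε => ?_⟩
    obtain ⟨δ, hδ, hδε⟩ := ah_delta hε
    filter_upwards [hf δ hδ, hg δ hδ] with m h1 h2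
    have h3 : (ht ((f * g) m) : ℝ) ≤ ht (f m) * ht (g m) := by exact_mod_cast ht_mul_le (f m) (g m)
    refine h3.trans ?_
    have h4 : (ht (f m) : ℝ) * ht (g m) ≤ (1 + δ) ^ L m * (1 + δ) ^ L m :=
      mul_le_mul h1 h2 (Nat.cast_nonneg _) (by positivity)
    refine h4.trans ?_
    rw [← mul_pow]
    refine pow_le_pow_left₀ (by positivity) ?_ _
    refine le_trans ?_ hδε
    have h5 : (1 + δ) * (1 + δ) * 1 ≤ (1 + δ) * (1 + δ) * (1 + δ) :=
      mul_le_mul_of_nonneg_left (by linarith) (by positivity)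
    calc (1 + δ) * (1 + δ) = (1 + δ) * (1 + δ) * 1 := (mul_one _).symm
      _ ≤ (1 + δ) * (1 + δ) * (1 + δ) := h5
      _ = (1 + δ) ^ 3 := by ring
  one_mem' := ⟨1, Germ.coe_one, fun ε hε => Eventually.of_forall fun m => by
    rw [Pi.one_apply, ah_one, Nat.cast_one]
    exact one_le_pow₀ (by linarith)⟩
  add_mem' := by
    rintro _ _ ⟨f, rfl, hf⟩ ⟨g, rfl, hg⟩
    refine ⟨f + g, Germ.coe_add f g, fun ε hε => ?_⟩
    obtain ⟨δ, hδ, hδε⟩ := ah_delta hε
    obtain ⟨c, hc⟩ := pow_unbounded_of_one_lt (2 : ℝ) (by linarith : (1 : ℝ) < 1 + δ)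
    filter_upwards [hf δ hδ, hg δ hδ, ah_L L hL c] with m h1 h2 hm
    have h3 : (ht ((f + g) m) : ℝ) ≤ 2 * (ht (f m) * ht (g m)) := by
      exact_mod_cast ht_add_le (f m) (g m)
    refine h3.trans ?_
    have h4 : (ht (f m) : ℝ) * ht (g m) ≤ (1 + δ) ^ L m * (1 + δ) ^ L m :=
      mul_le_mul h1 h2 (Nat.cast_nonneg _) (by positivity)
    have h5 : (2 : ℝ) ≤ (1 + δ) ^ L m :=
      hc.le.trans (pow_le_pow_right₀ (by linarith) hm)
    have h6 : 2 * ((ht (f m) : ℝ) * ht (g m)) ≤ (1 + δ) ^ L m * ((1 + δ) ^ L m * (1 + δ) ^ L m) :=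
      mul_le_mul h5 h4 (by positivity) (by positivity)
    refine h6.trans ?_
    rw [← mul_pow, ← mul_pow]
    refine pow_le_pow_left₀ (by positivity) ?_ _
    refine le_trans (le_of_eq ?_) hδε
    ring
  zero_mem' := ⟨0, Germ.coe_zero, fun ε hε => Eventually.of_forall fun m => by
    rw [Pi.zero_apply, ah_zero, Nat.cast_one]
    exact one_le_pow₀ (by linarith)⟩
  neg_mem' := by
    rintro _ ⟨f, rfl, hf⟩
    refine ⟨-f, Germ.coe_neg f, fun ε hε => ?_⟩
    filter_upwards [hf ε hε] with m h1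
    rwa [Pi.neg_apply, ht_neg]
  inv_mem' := by
    rintro _ ⟨f, rfl, hf⟩
    refine ⟨f⁻¹, Germ.coe_inv f, fun ε hε => ?_⟩
    filter_upwards [hf ε hε] with m h1
    refine le_trans ?_ h1
    exact_mod_cast ht_inv_le (f m)

theorem smallField_le (L : ℕ → ℕ) (hL : Tendsto L atTop atTop) : smallField L hL ≤ bigField L hL := by
  rintro _ ⟨f, rfl, hf⟩
  exact ⟨f, rfl, 1 + 1, hf 1 one_pos⟩

end Pool.Agent.Lib.MP_d0d59f_nt.Auto
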