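import Mathlib

/-!
Row U2a: a dichotomy along an ultrafilter.
-/

namespace Pool.Agent.Lib.MP_d0d59f_nt.Lin

open Filter Topology

/-- For every type `a` either `ℓ m a` is bounded below along the ultrafilter or it tends to zero. -/
theorem dichotomy {K : ℕ} (l : ℕ → Fin K → ℝ) : ∃ (S : Finset (Fin K)) (δ : ℝ), 0 < δ ∧
    (∀ᶠ m in (hyperfilter ℕ : Filter ℕ), ∀ a ∈ S, δ ≤ l m a) ∧
    ∀ ε : ℝ, 0 < ε → ∀ᶠ m in (hyperfilter ℕ : Filter ℕ), ∀ a ∉ S, l m a < ε := by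
  classical
  set S : Finset (Fin K) := Finset.univ.filter fun a =>
    ∃ δ : ℝ, 0 < δ ∧ ∀ᶠ m in (hyperfilter ℕ : Filter ℕ), δ ≤ l m a with hS
  have hS1 : ∀ a : Fin K, ∃ δ : ℝ, 0 < δ ∧ (a ∈ S →
      ∀ᶠ m in (hyperfilter ℕ : Filter ℕ), δ ≤ l m a) := by
    intro a
    by_cases ha : a ∈ S
    · obtain ⟨δ, h1, h2⟩ := (Finset.mem_filter.mp ha).2
      exact ⟨δ, h1, fun _ => h2⟩
    · exact ⟨1, one_pos, fun h => absurd h ha⟩
  choose δ hδ0 hδ using hS1
  obtain ⟨δ₀, hδ₀, hle⟩ : ∃ δ₀ : ℝ, 0 < δ₀ ∧ ∀ a, δ₀ ≤ δ a := by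
    rcases isEmpty_or_nonempty (Fin K) with h | h
    · exact ⟨1, one_pos, fun a => h.elim a⟩
    · obtain ⟨a, ha⟩ := Finite.exists_min δ
      exact ⟨δ a, hδ0 a, ha⟩
  refine ⟨S, δ₀, hδ₀, ?_, ?_⟩
  · rw [Filter.eventually_all]
    intro a
    by_cases ha : a ∈ S
    · filter_upwards [hδ a ha] with m hm _
      exact (hle a).trans hm
    · exact Eventually.of_forall fun m h => absurd h ha
  · intro ε hε
    rw [Filter.eventually_all]
    intro a
    by_cases ha : a ∈ S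
    · exact Eventually.of_forall fun m h => absurd ha h
    · have h1 : ¬ ∀ᶠ m in (hyperfilter ℕ : Filter ℕ), ε ≤ l m a := by
        intro h
        exact ha (Finset.mem_filter.mpr ⟨Finset.mem_univ _, ε, hε, h⟩)
      rw [← Ultrafilter.eventually_not] at h1
      filter_upwards [h1] with m hm _
      exact not_le.mp hm

end Pool.Agent.Lib.MP_d0d59f_nt.Lin
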