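import Pool.Agent.Lib.MP_d0d59f_nt.LinVal

/-!
Row B0: denominators and bounds.
-/

namespace Pool.Agent.Lib.MP_d0d59f_nt.Lin

open Module Filter Topology

variable {κ 𝕂 : Type} [Field κ] [Field 𝕂] [Algebra κ 𝕂] {X : ℝ → 𝕂} {O : Subring 𝕂} {T : ℕ → 𝕂}
  {v N : AbsoluteValue 𝕂 ℝ} {x τ : ℝ}

theorem denom_finset (hI : IntData κ X O T) (S : Finset κ) :
    ∃ D : κ, D ≠ 0 ∧ algebraMap κ 𝕂 D ∈ O ∧ ∀ c ∈ S, algebraMap κ 𝕂 (D * c) ∈ O := by
  classical
  induction S using Finset.induction_on with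
  | empty => exact ⟨1, one_ne_zero, by rw [map_one]; exact O.one_mem, by simp⟩
  | insert a S ha ih =>
    obtain ⟨D, hD, hDO, h⟩ := ih
    obtain ⟨E, hE, hEO, hEa⟩ := hI.frac_const a
    refine ⟨D * E, mul_ne_zero hD hE, ?_, ?_⟩
    · rw [map_mul]; exact O.mul_mem hDO hEO
    · intro c hc
      rcases Finset.mem_insert.1 hc with rfl | hc
      · rw [mul_assoc, map_mul]; exact O.mul_mem hDO hEa
      · have : D * E * c = E * (D * c) := by ring
        rw [this, map_mul]; exact O.mul_mem hEO (h c hc)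

/-- Common denominators: a vector of polynomials with exponents in `[0, i+1)` is multiplied into `O`
by `D * T i` for some constant `D ≠ 0` of `κ`. Proof: `mem_polysIn` gives finitely many coefficients
in `κ`; `frac_const` for each of them, `D` the product; `T_mul`. -/
theorem exists_denom (hI : IntData κ X O T) {H : ℕ} (i : ℕ) (P : Fin H → 𝕂)
    (hP : ∀ j, P j ∈ polysIn κ X (Set.Ico 0 (i + 1 : ℝ))) :
    ∃ D : κ, D ≠ 0 ∧ ∀ j, algebraMap κ 𝕂 D * T i * P j ∈ O := by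
  classical
  have hc : ∀ j, ∃ c : ℝ →₀ κ, (∀ t, c t ≠ 0 → t ∈ Set.Ico 0 (i + 1 : ℝ)) ∧
      Finsupp.linearCombination κ X c = P j := fun j => (mem_polysIn _ _).1 (hP j)
  choose c hcS hcP using hc
  obtain ⟨D, hD, -, h⟩ := denom_finset hI
    (Finset.univ.biUnion fun j => (c j).support.image (c j))
  refine ⟨D, hD, fun j => ?_⟩
  rw [← hcP j, Finsupp.linearCombination_apply, Finsupp.sum, Finset.mul_sum]
  refine O.sum_mem fun t ht => ?_
  have ht0 : c j t ≠ 0 := Finsupp.mem_support_iff.1 ht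
  have h1 : algebraMap κ 𝕂 D * T i * (c j t • X t) = algebraMap κ 𝕂 (D * c j t) * (T i * X t) := by
    rw [Algebra.smul_def, map_mul]; ring
  rw [h1]
  refine O.mul_mem (h _ ?_) (hI.T_mul i t (hcS j t ht0).1 (hcS j t ht0).2)
  exact Finset.mem_biUnion.2 ⟨j, Finset.mem_univ _, Finset.mem_image_of_mem _ ht⟩

/-- Bounds: `v P ≤ 1` and `N P ≤ 1` for a polynomial `P` with exponents `≥ 0`
(`val_le_of_mem` with `r = 0`; for `N` by `mem_polysIn`, `N_const`, `N_X`, `N_nonarch`,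
`Auto.ad_sum_le`). -/
theorem place_le_one (hp : Place κ X O T v x N τ) {P : 𝕂} (hP : P ∈ polysIn κ X (Set.Ici 0)) :
    v P ≤ 1 ∧ N P ≤ 1 := by
  constructor
  · have := val_le_of_mem hp.mval hp.lt_one hP
    rwa [Real.rpow_zero] at this
  · obtain ⟨c, hc, rfl⟩ := (mem_polysIn _ _).1 hP
    rw [Finsupp.linearCombination_apply, Finsupp.sum]
    refine Auto.ad_sum_le N hp.N_nonarch _ _ zero_le_one fun t ht => ?_
    have ht0 : c t ≠ 0 := Finsupp.mem_support_iff.1 ht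
    rw [Algebra.smul_def, map_mul, hp.N_const _ ht0, one_mul]
    exact hp.N_X t (hc t ht0)

end Pool.Agent.Lib.MP_d0d59f_nt.Lin
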