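import Mathlib

/-!
Row W5: a long run of short blocks is periodic.
-/

namespace Pool.Agent.Lib.MP_d0d59f_nt.Lin

theorem linRun_step {jt : ℕ → ℕ} {ε k k' : ℕ}
    (hshort : ∀ i, k ≤ i → i < k' → jt (i + 1) ≤ jt i + ε) {i : ℕ} (hi : k ≤ i) :
    ∀ j, i + j ≤ k' → jt (i + j) ≤ jt i + j * ε := by
  intro j
  induction j with
  | zero => intro _; simp
  | succ j ih =>
    intro hj
    have h1 := ih (by omega)
    have h2 := hshort (i + j) (by omega) (by omega)
    rw [← add_assoc, Nat.succ_mul]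
    omega

theorem linRun_locate {jt : ℕ → ℕ} {a k' t : ℕ} (h1 : jt a ≤ t) (hak : a ≤ k') (h2 : t < jt k') :
    ∃ c, a ≤ c ∧ c < k' ∧ jt c ≤ t ∧ t < jt (c + 1) := by
  obtain ⟨j, rfl⟩ := Nat.exists_eq_add_of_le hak
  clear hak
  induction j with
  | zero => exact absurd h2 (by simpa using h1)
  | succ j ih =>
    rcases Nat.lt_or_ge t (jt (a + j)) with h | h
    · obtain ⟨c, hc1, hc2, hc3, hc4⟩ := ih h
      exact ⟨c, hc1, by omega, hc3, hc4⟩
    · exact ⟨a + j, by omega, by omega, h, h2⟩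

/-- Proof: `hrep` for `c = k` gives `a < b ≤ k + R ≤ k'`; `p = jt b - jt a ≤ R ε`. Show
`w t = w (t + p)` for `jt a ≤ t < jt k'` by strong induction on `t`. If `t < jt a + n` this is `hrep`.
Let `t ≥ jt a + n`. Let `c'` be such that `jt c' ≤ t < jt (c' + 1)`; `c' < k'`. Then `c' ≥ a + R`
(else `t < jt (c' + 1) ≤ jt a + R ε ≤ jt a + n`). `hrep` for `c = c' - R` gives
`c₁ < c₂`, `c ≤ c₁`, `c₂ ≤ c'`. Put `u = t - jt c₂`, so `t = jt c₂ + u`. As
`t < jt (c' + 1) ≤ jt c₁ + (R + 1) ε` and `p ≤ R ε` we have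
`u + p < n`; so `w t = w (jt c₁ + u)`, `w (t + p) = w (jt c₁ + u + p)` and by the induction hypothesis
for `jt c₁ + u < t` (and `≥ jt a`) these are equal. -/
theorem run_periodic {w : ℕ → ℤ} {jt : ℕ → ℕ} (hjt : StrictMono jt) {n R ε k k' : ℕ}
    (hrep : ∀ c, ∃ a b, c ≤ a ∧ a < b ∧ b ≤ c + R ∧ ∀ t < n, w (jt a + t) = w (jt b + t))
    (hε : (3 * R + 3) * ε ≤ n) (hkk : k + R ≤ k')
    (hshort : ∀ i, k ≤ i → i < k' → jt (i + 1) ≤ jt i + ε) :
    ∃ a p, k ≤ a ∧ a ≤ k + R ∧ 0 < p ∧ p ≤ R * ε ∧ ∀ t, jt a ≤ t → t < jt k' → w t = w (t + p) := by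
  obtain ⟨a, b, hka, hab, hbk, hw⟩ := hrep k
  have hjab : jt a < jt b := hjt hab
  have hbound : ∀ i j m, k ≤ i → i ≤ j → j ≤ k' → j ≤ i + m → jt j ≤ jt i + m * ε := by
    intro i j m h1 h2 h3 h4
    have h5 := linRun_step hshort h1 (j - i) (by omega)
    have e : i + (j - i) = j := by omega
    rw [e] at h5
    have h6 : (j - i) * ε ≤ m * ε := Nat.mul_le_mul_right _ (by omega)
    omega
  have hp : jt b ≤ jt a + R * ε := hbound a b R hka hab.le (by omega) (by omega)
  have hexp : (3 * R + 3) * ε = 3 * (R * ε) + 3 * ε := by ring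
  refine ⟨a, jt b - jt a, hka, by omega, by omega, by omega, ?_⟩
  intro t
  induction t using Nat.strong_induction_on with
  | _ t ih =>
    intro ht1 ht2
    rcases Nat.lt_or_ge t (jt a + n) with hlt | hge
    · have h1 := hw (t - jt a) (by omega)
      have e1 : jt a + (t - jt a) = t := by omega
      have e2 : jt b + (t - jt a) = t + (jt b - jt a) := by omega
      rw [e1, e2] at h1
      exact h1
    · obtain ⟨c', hc1, hc2, hc3, hc4⟩ := linRun_locate ht1 (by omega) ht2
      have hcR : a + R ≤ c' := by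
        by_contra hlt
        have h1 := hbound a (c' + 1) R hka (by omega) (by omega) (by omega)
        omega
      obtain ⟨c₁, c₂, hd1, hd2, hd3, hd4⟩ := hrep (c' - R)
      have hle2 : c₂ ≤ c' := by omega
      have hj2 : jt c₂ ≤ jt c' := hjt.monotone hle2
      have hj12 : jt c₁ < jt c₂ := hjt hd2
      have hja1 : jt a ≤ jt c₁ := hjt.monotone (by omega)
      have hb1 := hbound c₁ (c' + 1) (R + 1) (by omega) (by omega) (by omega) (by omega)
      have hexp2 : (R + 1) * ε = R * ε + ε := by ring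
      have hu1 : t - jt c₂ < n := by omega
      have hu2 : t - jt c₂ + (jt b - jt a) < n := by omega
      have h1 := hd4 _ hu1
      have h2 := hd4 _ hu2
      have e1 : jt c₂ + (t - jt c₂) = t := by omega
      have e2 : jt c₂ + (t - jt c₂ + (jt b - jt a)) = t + (jt b - jt a) := by omega
      rw [e1] at h1
      rw [e2] at h2
      have h3 := ih (jt c₁ + (t - jt c₂)) (by omega) (by omega) (by omega)
      rw [← h1, ← h2, h3, add_assoc]

end Pool.Agent.Lib.MP_d0d59f_nt.Lin
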