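import Pool.Agent.Lib.MP_d0d59f_nt.AutoRk

/-!
Adjoining one element to a stage.
-/

namespace Pool.Agent.Lib.MP_d0d59f_nt.Auto

open Module Polynomial

variable {𝕂 L Ω₁ Ω₂ : Type} [Field 𝕂] [Field L] [Field Ω₁] [Field Ω₂]

/-- there is a field `F` containing `𝕂` and `A` which embeds, compatibly with the values of the elements
of `A` at the two places, into `Ω₁` and `Ω₂`, and the slope inequalities hold over `A` -/
def IsStage (e₁ : L →+* Ω₁) (e₂ : L →+* Ω₂) (k₁ : 𝕂 →+* Ω₁) (k₂ : 𝕂 →+* Ω₂) (w₁ w₂ : ℝ)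
    (A : Subfield L) : Prop :=
  ∃ (F : Type) (_ : Field F) (j₁ : F →+* Ω₁) (j₂ : F →+* Ω₂) (i : A →+* F) (k : 𝕂 →+* F),
    (∀ a, j₁ (i a) = e₁ a) ∧ (∀ a, j₂ (i a) = e₂ a) ∧ (∀ z, j₁ (k z) = k₁ z) ∧
    (∀ z, j₂ (k z) = k₂ z) ∧ SlopeIneq A j₁ e₁ w₁ ∧ SlopeIneq A j₂ e₂ w₂

variable {e₁ : L →+* Ω₁} {e₂ : L →+* Ω₂} {k₁ : 𝕂 →+* Ω₁} {k₂ : 𝕂 →+* Ω₂} {w₁ w₂ : ℝ}

/-- extension of an embedding of `A` to `A(f)` -/
theorem exists_extend {F' : Type} [Field F'] {A : Subfield L} (f : L) (i : A →+* F')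
    (j₁ : F' →+* Ω₁) (j₂ : F' →+* Ω₂) (h₁ : ∀ a, j₁ (i a) = e₁ a) (h₂ : ∀ a, j₂ (i a) = e₂ a)
    (x : F') (hx₁ : j₁ x = e₁ f) (hx₂ : j₂ x = e₂ f) :
    ∃ i' : (A ⊔ Subfield.closure {f} : Subfield L) →+* F',
      (∀ a, j₁ (i' a) = e₁ a) ∧ (∀ a, j₂ (i' a) = e₂ a) := by
  let S : Subfield L :=
    { carrier := {a | ∃ z : F', j₁ z = e₁ a ∧ j₂ z = e₂ a}
      mul_mem' := by
        rintro a b ⟨z, hz1, hz2⟩ ⟨y, hy1, hy2⟩
        exact ⟨z * y, by rw [map_mul, map_mul, hz1, hy1], by rw [map_mul, map_mul, hz2, hy2]⟩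
      one_mem' := ⟨1, by rw [map_one, map_one], by rw [map_one, map_one]⟩
      add_mem' := by
        rintro a b ⟨z, hz1, hz2⟩ ⟨y, hy1, hy2⟩
        exact ⟨z + y, by rw [map_add, map_add, hz1, hy1], by rw [map_add, map_add, hz2, hy2]⟩
      zero_mem' := ⟨0, by rw [map_zero, map_zero], by rw [map_zero, map_zero]⟩
      neg_mem' := by
        rintro a ⟨z, hz1, hz2⟩
        exact ⟨-z, by rw [map_neg, map_neg, hz1], by rw [map_neg, map_neg, hz2]⟩
      inv_mem' := by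
        rintro a ⟨z, hz1, hz2⟩
        exact ⟨z⁻¹, by rw [map_inv₀, map_inv₀, hz1], by rw [map_inv₀, map_inv₀, hz2]⟩ }
  have hS : (A ⊔ Subfield.closure {f} : Subfield L) ≤ S := by
    apply sup_le
    · intro a ha
      exact ⟨i ⟨a, ha⟩, h₁ ⟨a, ha⟩, h₂ ⟨a, ha⟩⟩
    · rw [Subfield.closure_le]
      intro a ha
      rw [Set.mem_singleton_iff] at ha
      rw [ha]
      exact ⟨x, hx₁, hx₂⟩
  have hS' : ∀ a : (A ⊔ Subfield.closure {f} : Subfield L), ∃ z : F', j₁ z = e₁ a ∧ j₂ z = e₂ a :=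
    fun a => hS a.2
  choose g hg1 hg2 using hS'
  refine ⟨{ toFun := g, map_one' := ?_, map_mul' := ?_, map_zero' := ?_, map_add' := ?_ },
    fun a => hg1 a, fun a => hg2 a⟩
  · apply j₁.injective
    rw [hg1, map_one]
    exact map_one e₁
  · intro a b
    apply j₁.injective
    rw [hg1, map_mul, hg1, hg1]
    exact map_mul e₁ _ _
  · apply j₁.injective
    rw [hg1, map_zero]
    exact map_zero e₁
  · intro a b
    apply j₁.injective
    rw [hg1, map_add, hg1, hg1]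
    exact map_add e₁ _ _

/-- the extension of a field embedding to rational functions -/
theorem exists_ratFunc_lift {F Ω : Type} [Field F] [Field Ω] (j : F →+* Ω) (y : Ω)
    (h : ∀ p : F[X], p.eval₂ j y = 0 → p = 0) :
    ∃ j' : RatFunc F →+* Ω, (∀ z, j' (algebraMap F (RatFunc F) z) = j z) ∧ j' RatFunc.X = y := by
  have hφ : nonZeroDivisors F[X] ≤ (nonZeroDivisors Ω).comap (eval₂RingHom j y) := by
    intro p hp
    rw [Submonoid.mem_comap, mem_nonZeroDivisors_iff_ne_zero]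
    intro h0
    exact nonZeroDivisors.ne_zero hp (h p (by rwa [coe_eval₂RingHom] at h0))
  refine ⟨RatFunc.liftRingHom (eval₂RingHom j y) hφ, ?_, ?_⟩
  · intro z
    have h1 : algebraMap F (RatFunc F) z = algebraMap F[X] (RatFunc F) (C z) := by
      rw [RatFunc.algebraMap_C, RatFunc.algebraMap_eq_C]
    rw [h1, RatFunc.liftRingHom_algebraMap]
    rw [coe_eval₂RingHom, eval₂_C]
  · rw [← RatFunc.algebraMap_X, RatFunc.liftRingHom_algebraMap]
    rw [coe_eval₂RingHom, eval₂_X]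

/-- the minimal polynomial over `F` of an element, integral via `j` -/
theorem exists_minpoly {F Ω : Type} [Field F] [Field Ω] (j : F →+* Ω) (y : Ω) (m : F[X])
    (hm : m.Monic) (hy : m.eval₂ j y = 0) :
    ∃ μ : F[X], μ.Monic ∧ Irreducible μ ∧ μ.eval₂ j y = 0 ∧ μ ∣ m := by
  let _ := j.toAlgebra
  have hint : IsIntegral F y := ⟨m, hm, hy⟩
  exact ⟨minpoly F y, minpoly.monic hint, minpoly.irreducible hint, minpoly.aeval F y,
    minpoly.dvd F y hy⟩

/-- Adjoining one element to a stage. -/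
theorem stage_adjoin (h1 : 0 < w₁) (h2 : 0 < w₂) (h12 : w₁ + w₂ = 1) (hirr : Irrational w₁)
    {A : Subfield L} (hA : IsStage e₁ e₂ k₁ k₂ w₁ w₂ A) (f : L) :
    IsStage e₁ e₂ k₁ k₂ w₁ w₂ (A ⊔ Subfield.closure {f}) := by
  obtain ⟨F, _, j₁, j₂, i, k, hi1, hi2, hk1, hk2, hs1, hs2⟩ := hA
  have hfA : f ∈ (A ⊔ Subfield.closure {f} : Subfield L) :=
    (le_sup_right : Subfield.closure _ ≤ _) (Subfield.subset_closure rfl)
  have hAA : A ≤ A ⊔ Subfield.closure {f} := le_sup_left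
  by_cases hf : Transcendental A f
  · -- transcendental case
    obtain ⟨j₁', hj1, hx1⟩ := exists_ratFunc_lift j₁ (e₁ f) (value_transcendental h1 hs1 hf)
    obtain ⟨j₂', hj2, hx2⟩ := exists_ratFunc_lift j₂ (e₂ f) (value_transcendental h2 hs2 hf)
    have hgen : ∀ z : RatFunc F, ∃ p q : F[X],
        q.eval₂ (algebraMap F (RatFunc F)) RatFunc.X ≠ 0 ∧
        z * q.eval₂ (algebraMap F (RatFunc F)) RatFunc.X =
          p.eval₂ (algebraMap F (RatFunc F)) RatFunc.X := by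
      have hev : ∀ p : F[X], p.eval₂ (algebraMap F (RatFunc F)) RatFunc.X =
          algebraMap F[X] (RatFunc F) p := by
        intro p
        have := aeval_algebraMap_apply (RatFunc F) (X : F[X]) p
        rw [aeval_X_left_apply, RatFunc.algebraMap_X] at this
        exact this
      intro z
      refine ⟨z.num, z.denom, ?_, ?_⟩
      · rw [hev]
        exact RatFunc.algebraMap_ne_zero z.denom_ne_zero
      · rw [hev, hev]
        have h3 := RatFunc.num_div_denom z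
        rw [div_eq_iff (RatFunc.algebraMap_ne_zero z.denom_ne_zero)] at h3
        exact h3.symm
    obtain ⟨i', hi1', hi2'⟩ := exists_extend (e₁ := e₁) (e₂ := e₂) f
      ((algebraMap F (RatFunc F)).comp i) j₁' j₂'
      (fun a => by rw [RingHom.comp_apply, hj1, hi1]) (fun a => by rw [RingHom.comp_apply, hj2, hi2])
      RatFunc.X hx1 hx2
    exact ⟨RatFunc F, inferInstance, j₁', j₂', i', (algebraMap F (RatFunc F)).comp k, hi1', hi2',
      fun z => by rw [RingHom.comp_apply, hj1, hk1], fun z => by rw [RingHom.comp_apply, hj2, hk2],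
      slope_transcendental hs1 hf (algebraMap F (RatFunc F)) j₁' hj1 RatFunc.X hx1 hgen _ hAA hfA,
      slope_transcendental hs2 hf (algebraMap F (RatFunc F)) j₂' hj2 RatFunc.X hx2 hgen _ hAA hfA⟩
  · -- algebraic case
    have hfi : IsIntegral A f := by
      rw [Transcendental, not_not] at hf
      exact hf.isIntegral
    set m := minpoly A f with hm
    have hmm : m.Monic := minpoly.monic hfi
    have hmi : (m.map i).Monic := hmm.map i
    have hev1 : (m.map i).eval₂ j₁ (e₁ f) = 0 := by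
      rw [eval₂_map]
      have h3 : j₁.comp i = e₁.comp A.subtype := RingHom.ext fun a => hi1 a
      rw [h3]
      have h4 : m.eval₂ A.subtype f = 0 := minpoly.aeval A f
      rw [← hom_eval₂, h4, map_zero]
    have hev2 : (m.map i).eval₂ j₂ (e₂ f) = 0 := by
      rw [eval₂_map]
      have h3 : j₂.comp i = e₂.comp A.subtype := RingHom.ext fun a => hi2 a
      rw [h3]
      have h4 : m.eval₂ A.subtype f = 0 := minpoly.aeval A f
      rw [← hom_eval₂, h4, map_zero]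
    obtain ⟨μ₁, hm1, hirr1, hμ1, hd1⟩ := exists_minpoly j₁ (e₁ f) (m.map i) hmi hev1
    obtain ⟨μ₂, hm2, hirr2, hμ2, hd2⟩ := exists_minpoly j₂ (e₂ f) (m.map i) hmi hev2
    have hv1 := value_degree hi1 hs1 hfi μ₁ hm1 hμ1
    have hv2 := value_degree hi2 hs2 hfi μ₂ hm2 hμ2
    rw [← hm] at hv1 hv2
    have hδ : 0 < m.natDegree := minpoly.natDegree_pos hfi
    have hle1 : μ₁.natDegree ≤ m.natDegree := by
      have := natDegree_le_of_dvd hd1 hmi.ne_zero
      rwa [hmm.natDegree_map] at this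
    have heq : μ₁ = μ₂ := by
      by_contra hne
      have hcop : IsCoprime μ₁ μ₂ := by
        rcases (EuclideanDomain.dvd_or_coprime μ₁ μ₂ hirr1) with h | h
        · exfalso
          apply hne
          have h5 : Associated μ₁ μ₂ := hirr1.associated_of_dvd hirr2 h
          exact eq_of_monic_of_associated hm1 hm2 h5
        · exact h
      have hdvd : μ₁ * μ₂ ∣ m.map i := hcop.mul_dvd hd1 hd2
      have hdeg := natDegree_le_of_dvd hdvd hmi.ne_zero
      rw [hmm.natDegree_map, natDegree_mul hm1.ne_zero hm2.ne_zero] at hdeg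
      have hdeg' : (μ₁.natDegree : ℝ) + μ₂.natDegree ≤ m.natDegree := by exact_mod_cast hdeg
      have h6 : w₁ * m.natDegree + w₂ * m.natDegree = m.natDegree := by
        rw [← add_mul, h12, one_mul]
      have h7 : w₁ * m.natDegree = μ₁.natDegree := by linarith
      have h8 : (m.natDegree : ℝ) ≠ 0 := by exact_mod_cast hδ.ne'
      apply hirr
      refine ⟨(μ₁.natDegree : ℚ) / (m.natDegree : ℚ), ?_⟩
      push_cast
      rw [← h7]
      field_simp
    subst heq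
    have : Fact (Irreducible μ₁) := ⟨hirr1⟩
    have hgen : ∀ z : AdjoinRoot μ₁, ∃ p : F[X], p.natDegree < (minpoly A f).natDegree ∧
        z = p.eval₂ (AdjoinRoot.of μ₁) (AdjoinRoot.root μ₁) := by
      intro z
      obtain ⟨p, rfl⟩ := AdjoinRoot.mk_surjective z
      refine ⟨p %ₘ μ₁, ?_, ?_⟩
      · refine lt_of_lt_of_le (natDegree_modByMonic_lt p hm1 hirr1.ne_one) ?_
        rw [← hm]
        exact hle1
      · have h9 : (p %ₘ μ₁).eval₂ (AdjoinRoot.of μ₁) (AdjoinRoot.root μ₁) =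
            AdjoinRoot.mk μ₁ (p %ₘ μ₁) := AdjoinRoot.aeval_eq _
        rw [h9, AdjoinRoot.mk_eq_mk]
        exact ⟨p /ₘ μ₁, by linear_combination (-1 : F[X]) * modByMonic_add_div p μ₁⟩
    have hj1 : ∀ z, AdjoinRoot.lift j₁ (e₁ f) hμ1 (AdjoinRoot.of μ₁ z) = j₁ z :=
      fun z => AdjoinRoot.lift_of hμ1
    have hj2 : ∀ z, AdjoinRoot.lift j₂ (e₂ f) hμ2 (AdjoinRoot.of μ₁ z) = j₂ z :=
      fun z => AdjoinRoot.lift_of hμ2
    have hx1 : AdjoinRoot.lift j₁ (e₁ f) hμ1 (AdjoinRoot.root μ₁) = e₁ f :=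
      AdjoinRoot.lift_root hμ1
    have hx2 : AdjoinRoot.lift j₂ (e₂ f) hμ2 (AdjoinRoot.root μ₁) = e₂ f :=
      AdjoinRoot.lift_root hμ2
    obtain ⟨i', hi1', hi2'⟩ := exists_extend (e₁ := e₁) (e₂ := e₂) f
      ((AdjoinRoot.of μ₁).comp i) (AdjoinRoot.lift j₁ (e₁ f) hμ1) (AdjoinRoot.lift j₂ (e₂ f) hμ2)
      (fun a => by rw [RingHom.comp_apply, hj1, hi1]) (fun a => by rw [RingHom.comp_apply, hj2, hi2])
      (AdjoinRoot.root μ₁) hx1 hx2
    exact ⟨AdjoinRoot μ₁, inferInstance, AdjoinRoot.lift j₁ (e₁ f) hμ1,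
      AdjoinRoot.lift j₂ (e₂ f) hμ2, i', (AdjoinRoot.of μ₁).comp k, hi1', hi2',
      fun z => by rw [RingHom.comp_apply, hj1, hk1], fun z => by rw [RingHom.comp_apply, hj2, hk2],
      slope_algebraic hs1 hfi (AdjoinRoot.of μ₁) _ hj1 (AdjoinRoot.root μ₁) hx1 hgen _ hAA hfA,
      slope_algebraic hs2 hfi (AdjoinRoot.of μ₁) _ hj2 (AdjoinRoot.root μ₁) hx2 hgen _ hAA hfA⟩

/-- Adjoining finitely many elements to a stage. -/
theorem stage_adjoin_finite (h1 : 0 < w₁) (h2 : 0 < w₂) (h12 : w₁ + w₂ = 1)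
    (hirr : Irrational w₁) {A : Subfield L} (hA : IsStage e₁ e₂ k₁ k₂ w₁ w₂ A) {n : ℕ}
    (f : Fin n → L) : ∃ A' : Subfield L, (∀ a, f a ∈ A') ∧ IsStage e₁ e₂ k₁ k₂ w₁ w₂ A' := by
  suffices h : ∀ m : ℕ, m ≤ n →
      ∃ A' : Subfield L, (∀ a : Fin n, (a : ℕ) < m → f a ∈ A') ∧ IsStage e₁ e₂ k₁ k₂ w₁ w₂ A' by
    obtain ⟨A', h3, h4⟩ := h n le_rfl
    exact ⟨A', fun a => h3 a a.2, h4⟩
  intro m
  induction m with
  | zero => intro _; exact ⟨A, fun a ha => absurd ha (Nat.not_lt_zero _), hA⟩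
  | succ m ih =>
    intro hm
    obtain ⟨A', h3, h4⟩ := ih (by omega)
    refine ⟨A' ⊔ Subfield.closure {f ⟨m, by omega⟩}, fun a ha => ?_, stage_adjoin h1 h2 h12 hirr h4 _⟩
    rcases Nat.lt_succ_iff_lt_or_eq.mp ha with h | h
    · exact (le_sup_left : A' ≤ _) (h3 a h)
    · have : a = ⟨m, by omega⟩ := Fin.ext h
      rw [this]
      exact (le_sup_right : Subfield.closure _ ≤ _) (Subfield.subset_closure rfl)

/-- A `𝕂`-linear relation between the values of elements of a stage holds at both places or at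
neither. -/
theorem stage_transfer {A : Subfield L} (hA : IsStage e₁ e₂ k₁ k₂ w₁ w₂ A) {n : ℕ} {f : Fin n → L}
    (hf : ∀ a, f a ∈ A) (g : Fin n → 𝕂) (x : 𝕂) (h : ∑ a, k₁ (g a) * e₁ (f a) = k₁ x) :
    ∑ a, k₂ (g a) * e₂ (f a) = k₂ x := by
  obtain ⟨F, _, j₁, j₂, i, k, hi1, hi2, hk1, hk2, -, -⟩ := hA
  have h3 : ∑ a, k (g a) * i ⟨f a, hf a⟩ = k x := by
    apply j₁.injective
    rw [map_sum, hk1, ← h]
    exact Finset.sum_congr rfl fun a _ => by rw [map_mul, hk1, hi1]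
  have h4 := congrArg j₂ h3
  rw [map_sum, hk2] at h4
  rw [← h4]
  exact Finset.sum_congr rfl fun a _ => by rw [map_mul, hk2, hi2]

end Pool.Agent.Lib.MP_d0d59f_nt.Auto
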