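import Pool.Agent.Lib.MP_d0d59f_nt.AutoTransfer

/-!
The transfer theorem for a field with two non-archimedean absolute values, without completions.
-/

namespace Pool.Agent.Lib.MP_d0d59f_nt.Auto

open Module PowerSeries Filter

/-- a non-archimedean absolute value `v`, trivial on `κ` and small at `X`, together with the product `N`
of the other absolute values that are not bounded by one on `O` -/
structure AbsData (κ : Type*) {𝕂 : Type*} [Field κ] [Field 𝕂] [Algebra κ 𝕂] (O : Subring 𝕂)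
    (X T : 𝕂) (v N : AbsoluteValue 𝕂 ℝ) (τ : ℝ) : Prop where
  v_nonarch : ∀ a b, v (a + b) ≤ max (v a) (v b)
  v_const : ∀ c : κ, c ≠ 0 → v (algebraMap κ 𝕂 c) = 1
  v_X : v X < 1
  N_const : ∀ c : κ, c ≠ 0 → N (algebraMap κ 𝕂 c) = 1
  N_X : N X ≤ 1
  N_nonarch : ∀ a b, N (a + b) ≤ max (N a) (N b)
  liouville : ∀ z ∈ O, z ≠ 0 → 1 ≤ v z * N z
  tau : v T * N T = τ

/-- completion -/
theorem exists_completion {𝕂 : Type} [Field 𝕂] (v : AbsoluteValue 𝕂 ℝ)
    (hv : ∀ a b, v (a + b) ≤ max (v a) (v b)) :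
    ∃ (Ω : Type) (_ : NormedField Ω) (_ : CompleteSpace Ω) (_ : IsUltrametricDist Ω)
      (_ : Algebra 𝕂 Ω), ∀ z, ‖algebraMap 𝕂 Ω z‖ = v z := by
  have hnorm : ∀ z : WithAbs v, ‖z‖ = v z.ofAbs := fun z => rfl
  have hult : IsUltrametricDist v.Completion := by
    refine IsUltrametricDist.isUltrametricDist_of_forall_norm_add_le_max_norm fun x y => ?_
    induction x, y using UniformSpace.Completion.induction_on₂ with
    | hp => exact isClosed_le (by fun_prop) (by fun_prop)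
    | ih a b =>
      rw [← UniformSpace.Completion.coe_add, UniformSpace.Completion.norm_coe,
        UniformSpace.Completion.norm_coe, UniformSpace.Completion.norm_coe, hnorm, hnorm, hnorm]
      exact hv _ _
  refine ⟨v.Completion, inferInstance, inferInstance, hult,
    (UniformSpace.Completion.coeRingHom.comp
      ((WithAbs.equiv v).symm : 𝕂 →+* WithAbs v)).toAlgebra, fun z => ?_⟩
  change ‖((WithAbs.toAbs v z : WithAbs v) : v.Completion)‖ = v z
  rw [UniformSpace.Completion.norm_coe]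
  rfl

variable {κ 𝕂 : Type} [Field κ] [Field 𝕂] [Algebra κ 𝕂] {O : Subring 𝕂} {X T : 𝕂}
  {v₁ v₂ N₁ N₂ : AbsoluteValue 𝕂 ℝ} {τ : ℝ}

/-- the value at `X` of the truncation of order `E` of a power series -/
noncomputable def trunc (X : 𝕂) (f : PowerSeries κ) (E : ℕ) : 𝕂 :=
  ∑ k ∈ Finset.range E, algebraMap κ 𝕂 (coeff k f) * X ^ k

theorem aa_placeData {Ω : Type} [NormedField Ω] [Algebra 𝕂 Ω] {v N : AbsoluteValue 𝕂 ℝ}
    (h : AbsData κ O X T v N τ) (hΩ : ∀ z, ‖algebraMap 𝕂 Ω z‖ = v z) :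
    PlaceData κ Ω O X T N τ where
  norm_const c hc := by rw [hΩ]; exact h.v_const c hc
  norm_X := by rw [hΩ]; exact h.v_X
  N_const := h.N_const
  N_X := h.N_X
  N_nonarch := h.N_nonarch
  liouville z hz hz0 := by rw [hΩ]; exact h.liouville z hz hz0
  tau := by rw [hΩ]; exact h.tau

theorem aa_tendsto {Ω : Type} [NormedField Ω] [CompleteSpace Ω] [IsUltrametricDist Ω]
    [Algebra 𝕂 Ω] {v : AbsoluteValue 𝕂 ℝ} (hΩ : ∀ z, ‖algebraMap 𝕂 Ω z‖ = v z)
    (hs : Spec ((algebraMap 𝕂 Ω).comp (algebraMap κ 𝕂)) (algebraMap 𝕂 Ω X)) {n : ℕ}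
    (f : Fin n → PowerSeries κ) (g : Fin n → 𝕂) (x : 𝕂) :
    Tendsto (fun E => v (x - ∑ a, g a * trunc X (f a) E)) atTop
      (nhds ‖algebraMap 𝕂 Ω x - ∑ a, algebraMap 𝕂 Ω (g a) * ev hs (f a)‖) := by
  have h1 : ∀ a, Tendsto (fun E => algebraMap 𝕂 Ω (trunc X (f a) E)) atTop
      (nhds (ev hs (f a))) := by
    intro a
    have h2 := (ev_hasSum hs (f a)).tendsto_sum_nat
    refine h2.congr fun E => ?_
    rw [trunc, map_sum]
    refine Finset.sum_congr rfl fun k _ => ?_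
    rw [map_mul, map_pow]
    rfl
  have h3 : Tendsto (fun E => algebraMap 𝕂 Ω x
      - ∑ a, algebraMap 𝕂 Ω (g a) * algebraMap 𝕂 Ω (trunc X (f a) E)) atTop
      (nhds (algebraMap 𝕂 Ω x - ∑ a, algebraMap 𝕂 Ω (g a) * ev hs (f a))) :=
    tendsto_const_nhds.sub (tendsto_finsetSum _ fun a _ => tendsto_const_nhds.mul (h1 a))
  refine h3.norm.congr fun E => ?_
  rw [← hΩ, map_sub, map_sum]
  simp only [map_mul]

/-- The transfer theorem for two absolute values. -/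
theorem transfer_abs (hb : BaseData κ O X T) (h₁ : AbsData κ O X T v₁ N₁ τ)
    (h₂ : AbsData κ O X T v₂ N₂ τ) (hτ : 1 < τ)
    (hsum : Real.log (1 / v₁ X) + Real.log (1 / v₂ X) = Real.log τ)
    (hirr : Irrational (Real.log (1 / v₁ X) / Real.log τ)) {n : ℕ}
    (f : Fin n → PowerSeries κ) (g : Fin n → 𝕂) (x : 𝕂)
    (h : Tendsto (fun E => v₁ (x - ∑ a, g a * trunc X (f a) E)) atTop (nhds 0)) :
    Tendsto (fun E => v₂ (x - ∑ a, g a * trunc X (f a) E)) atTop (nhds 0) := by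
  obtain ⟨Ω₁, _, _, _, _, hΩ₁⟩ := exists_completion v₁ h₁.v_nonarch
  obtain ⟨Ω₂, _, _, _, _, hΩ₂⟩ := exists_completion v₂ h₂.v_nonarch
  have hp₁ : PlaceData κ Ω₁ O X T N₁ τ := aa_placeData h₁ hΩ₁
  have hp₂ : PlaceData κ Ω₂ O X T N₂ τ := aa_placeData h₂ hΩ₂
  have e1 := tendsto_nhds_unique (aa_tendsto hΩ₁ (hp₁.spec hb) f g x) h
  have e2 : ∑ a, algebraMap 𝕂 Ω₁ (g a) * ev (hp₁.spec hb) (f a) = algebraMap 𝕂 Ω₁ x :=
    (sub_eq_zero.mp (norm_eq_zero.mp e1)).symm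
  have e3 := transfer hb hp₁ hp₂ hτ (by rw [hΩ₁, hΩ₂]; exact hsum) (by rw [hΩ₁]; exact hirr)
    f g x e2
  have e4 := aa_tendsto hΩ₂ (hp₂.spec hb) f g x
  rw [e3, sub_self, norm_zero] at e4
  exact e4

end Pool.Agent.Lib.MP_d0d59f_nt.Auto
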