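import Pool.Agent.Lib.MP_d0d59f_nt.LinSlope

/-!
Row B2: the slope inequality for all families.
-/

namespace Pool.Agent.Lib.MP_d0d59f_nt.Lin

open Module Filter Topology

variable {κ 𝕂 : Type} [Field κ] [Field 𝕂] [Algebra κ 𝕂] {X : ℝ → 𝕂} {O : Subring 𝕂} {T : ℕ → 𝕂}
  {v N d : AbsoluteValue 𝕂 ℝ} {x y τ : ℝ} {Ω : Type} [NormedField Ω] [IsUltrametricDist Ω]
  [Algebra 𝕂 Ω]

/-- Composition of families of forms: if `P : Fin t → Fin H → 𝕂` and `Q : Fin t' → Fin t → 𝕂` are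
independent then so are the `∑_l Q_ml P_l`. -/
theorem indep_comp {H t t' : ℕ} {P : Fin t → Fin H → 𝕂} {Q : Fin t' → Fin t → 𝕂}
    (hP : LinearIndependent 𝕂 P) (hQ : LinearIndependent 𝕂 Q) :
    LinearIndependent 𝕂 (fun m => ∑ l, Q m l • P l) := by
  rw [Fintype.linearIndependent_iff]
  intro g hg
  have h1 : ∑ k, (∑ l, g l • Q l) k • P k = 0 := by
    rw [← hg]
    simp only [Finset.sum_apply, Finset.smul_sum, Finset.sum_smul, Pi.smul_apply,
      smul_smul, smul_eq_mul]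
    rw [Finset.sum_comm]
  have h2 := Fintype.linearIndependent_iff.1 hP _ h1
  have h3 : ∑ l, g l • Q l = 0 := funext h2
  exact Fintype.linearIndependent_iff.1 hQ g h3

theorem ls2_mul_mem (hX : Mono κ X) {a : 𝕂} (ha : a ∈ polys κ X) {z : Ω}
    (hz : z ∈ closure (algebraMap 𝕂 Ω '' (polys κ X : Set 𝕂))) :
    algebraMap 𝕂 Ω a * z ∈ closure (algebraMap 𝕂 Ω '' (polys κ X : Set 𝕂)) := by
  refine map_mem_closure (f := fun w => algebraMap 𝕂 Ω a * w)
    (continuous_const.mul continuous_id) hz ?_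
  rintro _ ⟨b, hb, rfl⟩
  exact ⟨a * b, mul_mem_polys hX ha hb, by rw [map_mul]⟩

theorem ls2_sum_mem {ι : Type} (S : Finset ι) (f : ι → Ω)
    (hf : ∀ i ∈ S, f i ∈ closure (algebraMap 𝕂 Ω '' (polys κ X : Set 𝕂))) :
    ∑ i ∈ S, f i ∈ closure (algebraMap 𝕂 Ω '' (polys κ X : Set 𝕂)) := by
  let Z : AddSubgroup Ω := (polys κ X).toAddSubgroup.map (algebraMap 𝕂 Ω).toAddMonoidHom
  have hZ : (Z.topologicalClosure : Set Ω)
      = closure (algebraMap 𝕂 Ω '' (polys κ X : Set 𝕂)) := rfl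
  have h := Z.topologicalClosure.sum_mem (t := S) (f := f) (fun i hi => by
    have := hf i hi
    rw [← hZ] at this
    exact this)
  rw [← hZ]
  exact h

theorem ls2_spanRank_le {H : ℕ} (G : Fin H → Ω) : spanRank 𝕂 G ≤ H := by
  unfold spanRank
  have h := finrank_range_le_card (R := 𝕂) G
  rwa [Fintype.card_fin] at h

theorem ls2_spanRank_pos {H : ℕ} (G : Fin H → Ω) (i : Fin H) (hi : G i ≠ 0) :
    0 < spanRank 𝕂 G := by
  unfold spanRank
  rw [Nat.pos_iff_ne_zero]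
  intro h
  have hfin : Module.Finite 𝕂 (Submodule.span 𝕂 (Set.range G)) :=
    FiniteDimensional.span_of_finite 𝕂 (Set.finite_range _)
  have h1 := Submodule.finrank_eq_zero.1 h
  have h2 : G i ∈ Submodule.span 𝕂 (Set.range G) := Submodule.subset_span ⟨i, rfl⟩
  rw [h1, Submodule.mem_bot] at h2
  exact hi h2

/-- the form with coefficients `P`, evaluated at `G` -/
theorem ls2_comp {H t : ℕ} (G : Fin H → Ω) (P : Fin t → Fin H → 𝕂) (Q : Fin t → 𝕂) :
    ∑ l, algebraMap 𝕂 Ω (Q l) * ∑ i, algebraMap 𝕂 Ω (P l i) * G i =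
      ∑ i, algebraMap 𝕂 Ω ((∑ l, Q l • P l) i) * G i := by
  simp only [Finset.sum_apply, Pi.smul_apply, smul_eq_mul, map_sum, map_mul, Finset.mul_sum,
    Finset.sum_mul]
  rw [Finset.sum_comm]
  refine Finset.sum_congr rfl fun i _ => Finset.sum_congr rfl fun l _ => ?_
  ring

theorem ls2_single {H : ℕ} (G : Fin H → Ω) (l : Fin H) :
    ∑ i, algebraMap 𝕂 Ω ((Pi.single l 1 : Fin H → 𝕂) i) * G i = G l := by
  classical
  rw [Finset.sum_eq_single l]
  · rw [Pi.single_eq_same, map_one, one_mul]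
  · intro i _ hi
    rw [Pi.single_eq_of_ne hi, map_zero, zero_mul]
  · intro h
    exact absurd (Finset.mem_univ l) h

/-- The slope inequality: elements of the closure of the polynomials which are linearly independent
over the polynomials span a large space over `𝕂`. Proof as for `Auto.slope`: among all pairs
`(t, r)` with `t ≥ 1`, `r = spanRank 𝕂 (∑_i P_li G_i)_l` for a family `P : Fin t → Fin H → 𝕂`,
independent over `𝕂` with polynomial entries (`t ≤ H` and `1 ≤ r ≤ t`: a finite set, and `r ≥ 1`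
because the value of `P_0` is not zero by `hind`), choose one with `t / r` maximal (`1 ≤ H`: the pair
`(H, spanRank G)` from the unit vectors is there). Apply `slope_of_max'` to the family
`G'_l = ∑_i P_li G_i` (in the closure: `mul_mem_polys`, continuity; `hind` for `G'`: if
`∑ Q_l G'_l = 0` then `∑_l Q_l P_l = 0` by `hind`, so `Q = 0`; `hmax` by `indep_comp`), which gives
`t log (1/x) ≤ r log τ`, and `H / spanRank G ≤ t / r`. (`log τ ≥ 0` by `liouville` for `T 0`.) -/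
theorem slope' (hX : Mono κ X) (hI : IntData κ X O T) (hp : Place κ X O T v x N τ)
    (hd : MVal κ X d y) (hy : 1 < y) (hΩ : ∀ z, ‖algebraMap 𝕂 Ω z‖ = v z) {H : ℕ} (G : Fin H → Ω)
    (hG : ∀ i, G i ∈ closure (algebraMap 𝕂 Ω '' (polys κ X : Set 𝕂)))
    (hind : ∀ P : Fin H → 𝕂, (∀ i, P i ∈ polys κ X) →
      ∑ i, algebraMap 𝕂 Ω (P i) * G i = 0 → P = 0) :
    (H : ℝ) * Real.log (1 / x) ≤ spanRank 𝕂 G * Real.log τ := by
  classical
  have hτ1 : 1 ≤ τ := by
    have h1 := hp.liouville (T 0) (hI.T_mem 0) (hI.T_ne 0)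
    rw [hp.tau 0] at h1
    simpa using h1
  rcases Nat.eq_zero_or_pos H with hH | hH
  · subst hH
    have h0 : spanRank 𝕂 G = 0 := Nat.le_zero.1 (ls2_spanRank_le G)
    rw [h0]
    simp
  -- the finite set of pairs
  let S : Set (ℕ × ℕ) := {q | 1 ≤ q.1 ∧ ∃ P : Fin q.1 → Fin H → 𝕂,
    LinearIndependent 𝕂 P ∧ (∀ l i, P l i ∈ polys κ X) ∧
      q.2 = spanRank 𝕂 (fun l => ∑ i, algebraMap 𝕂 Ω (P l i) * G i)}
  have hle : ∀ (t : ℕ) (P : Fin t → Fin H → 𝕂), LinearIndependent 𝕂 P → t ≤ H := by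
    intro t P hP
    have h := hP.fintype_card_le_finrank
    rwa [Fintype.card_fin, Module.finrank_fin_fun] at h
  have hpos : ∀ (t : ℕ) (P : Fin t → Fin H → 𝕂), 1 ≤ t →
      LinearIndependent 𝕂 P → (∀ l i, P l i ∈ polys κ X) →
      0 < spanRank 𝕂 (fun l => ∑ i, algebraMap 𝕂 Ω (P l i) * G i) := by
    intro t P ht hP hPp
    have h1 : ∑ i, algebraMap 𝕂 Ω (P ⟨0, ht⟩ i) * G i ≠ 0 := by
      intro h
      exact hP.ne_zero ⟨0, ht⟩ (hind (P ⟨0, ht⟩) (hPp _) h)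
    exact ls2_spanRank_pos (fun l => ∑ i, algebraMap 𝕂 Ω (P l i) * G i) ⟨0, ht⟩ h1
  have hSfin : S.Finite := by
    refine Set.Finite.subset ((Set.finite_Iic H).prod (Set.finite_Iic H)) ?_
    rintro ⟨t, s⟩ ⟨_, P, hP, _, hs⟩
    refine ⟨hle t P hP, ?_⟩
    change s = spanRank 𝕂 (fun l => ∑ i, algebraMap 𝕂 Ω (P l i) * G i) at hs
    change s ≤ H
    rw [hs]
    exact (ls2_spanRank_le _).trans (hle t P hP)
  have hsingle : LinearIndependent 𝕂
      (fun l : Fin H => (Pi.single l 1 : Fin H → 𝕂)) :=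
    Pi.linearIndependent_single_one (Fin H) 𝕂
  have hsinglep : ∀ l i : Fin H, (Pi.single l 1 : Fin H → 𝕂) i ∈ polys κ X := by
    intro l i
    by_cases h : i = l
    · subst h
      rw [Pi.single_eq_same]
      exact one_mem_polys hX
    · rw [Pi.single_eq_of_ne h]
      exact (polys κ X).zero_mem
  have hmem : (H, spanRank 𝕂 G) ∈ S := by
    refine ⟨hH, fun l => Pi.single l 1, hsingle, hsinglep, ?_⟩
    change spanRank 𝕂 G = spanRank 𝕂 (fun l => ∑ i,
      algebraMap 𝕂 Ω ((Pi.single l 1 : Fin H → 𝕂) i) * G i)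
    simp only [ls2_single]
  obtain ⟨⟨t, s⟩, ⟨ht, P, hP, hPp, hs⟩, hmax⟩ := Set.exists_max_image S
    (fun q => (q.1 : ℚ) / (q.2 : ℚ)) hSfin ⟨_, hmem⟩
  change 1 ≤ t at ht
  change s = spanRank 𝕂 (fun l => ∑ i, algebraMap 𝕂 Ω (P l i) * G i) at hs
  have hs0 : 0 < s := by
    rw [hs]
    exact hpos t P ht hP hPp
  -- comparison of ratios
  have hcmp : ∀ (t' s' : ℕ), (t', s') ∈ S → 0 < s' → t' * s ≤ t * s' := by
    intro t' s' h' hs'
    have h1 := hmax (t', s') h'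
    simp only at h1
    rw [div_le_div_iff₀ (by exact_mod_cast hs') (by exact_mod_cast hs0)] at h1
    exact_mod_cast h1
  -- entries of the composition
  have hcompp : ∀ (Q : Fin t → 𝕂), (∀ l, Q l ∈ polys κ X) →
      ∀ i, (∑ l, Q l • P l) i ∈ polys κ X := by
    intro Q hQ i
    simp only [Finset.sum_apply, Pi.smul_apply, smul_eq_mul]
    exact (polys κ X).sum_mem fun l _ => mul_mem_polys hX (hQ l) (hPp l i)
  -- the family of maximal slope
  have hG'mem : ∀ l, (∑ i, algebraMap 𝕂 Ω (P l i) * G i) ∈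
      closure (algebraMap 𝕂 Ω '' (polys κ X : Set 𝕂)) := fun l =>
    ls2_sum_mem _ _ fun i _ => ls2_mul_mem hX (hPp l i) (hG i)
  have hind' : ∀ Q : Fin t → 𝕂, (∀ l, Q l ∈ polys κ X) →
      ∑ l, algebraMap 𝕂 Ω (Q l) * ∑ i, algebraMap 𝕂 Ω (P l i) * G i = 0 → Q = 0 := by
    intro Q hQp hQ
    rw [ls2_comp] at hQ
    have h1 := hind _ (hcompp Q hQp) hQ
    funext l
    exact (Fintype.linearIndependent_iff.1 hP) Q h1 l
  have hmax' : ∀ (t' : ℕ) (Q : Fin t' → Fin t → 𝕂), LinearIndependent 𝕂 Q →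
      (∀ l i, Q l i ∈ polys κ X) →
      t' * spanRank 𝕂 (fun l => ∑ i, algebraMap 𝕂 Ω (P l i) * G i) ≤
        t * spanRank 𝕂 (fun m => ∑ l, algebraMap 𝕂 Ω (Q m l) *
          ∑ i, algebraMap 𝕂 Ω (P l i) * G i) := by
    intro t' Q hQ hQp
    rcases Nat.eq_zero_or_pos t' with h0 | h0
    · subst h0
      rw [Nat.zero_mul]
      exact Nat.zero_le _
    have hQP : LinearIndependent 𝕂 (fun l => ∑ k, Q l k • P k) := indep_comp hP hQ
    have hQPp : ∀ m i, (∑ k, Q m k • P k) i ∈ polys κ X := fun m i => hcompp (Q m) (hQp m) i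
    have h4 : spanRank 𝕂 (fun m => ∑ l, algebraMap 𝕂 Ω (Q m l) *
          ∑ i, algebraMap 𝕂 Ω (P l i) * G i) =
        spanRank 𝕂 (fun m => ∑ i, algebraMap 𝕂 Ω ((∑ k, Q m k • P k) i) * G i) := by
      simp only [ls2_comp]
    rw [← hs, h4]
    refine hcmp t' _ ⟨h0, fun l => ∑ k, Q l k • P k, hQP, hQPp, rfl⟩ ?_
    exact hpos t' _ h0 hQP hQPp
  have hfinal := slope_of_max' hX hI hp hd hy hΩ
    (fun l => ∑ i, algebraMap 𝕂 Ω (P l i) * G i) hG'mem hind' hmax'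
  rw [← hs] at hfinal
  have hlog : 0 ≤ Real.log (1 / x) := by
    refine Real.log_nonneg ?_
    have h1 : 0 < x := hp.mval.pos
    rw [le_div_iff₀ h1, one_mul]
    exact hp.lt_one.le
  have hG0 : 0 < spanRank 𝕂 G := by
    refine ls2_spanRank_pos G ⟨0, hH⟩ ?_
    intro h
    have h1 : ∑ i, algebraMap 𝕂 Ω ((Pi.single ⟨0, hH⟩ 1 : Fin H → 𝕂) i) * G i = 0 := by
      rw [ls2_single G ⟨0, hH⟩, h]
    have h2 := congrFun (hind (Pi.single ⟨0, hH⟩ 1) (hsinglep _) h1) ⟨0, hH⟩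
    rw [Pi.single_eq_same, Pi.zero_apply] at h2
    exact one_ne_zero h2
  have h5 : H * s ≤ t * spanRank 𝕂 G := hcmp H _ hmem hG0
  have h6 : ((H : ℝ) * s) ≤ t * spanRank 𝕂 G := by exact_mod_cast h5
  have hs1 : (0 : ℝ) < s := by exact_mod_cast hs0
  have hG1 : (0 : ℝ) ≤ spanRank 𝕂 G := Nat.cast_nonneg _
  have h7 : (s : ℝ) * ((H : ℝ) * Real.log (1 / x)) ≤
      s * (spanRank 𝕂 G * Real.log τ) := by
    calc (s : ℝ) * ((H : ℝ) * Real.log (1 / x))
        = ((H : ℝ) * s) * Real.log (1 / x) := by ring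
      _ ≤ (t * spanRank 𝕂 G) * Real.log (1 / x) :=
          mul_le_mul_of_nonneg_right h6 hlog
      _ = spanRank 𝕂 G * (t * Real.log (1 / x)) := by ring
      _ ≤ spanRank 𝕂 G * (s * Real.log τ) := mul_le_mul_of_nonneg_left hfinal hG1
      _ = s * (spanRank 𝕂 G * Real.log τ) := by ring
  exact le_of_mul_le_mul_left h7 hs1

end Pool.Agent.Lib.MP_d0d59f_nt.Lin
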