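import Pool.Agent.Lib.MP_d0d59f_nt.Complexity
import Pool.Agent.Lib.MP_d0d59f_nt.AutoHt

/-!
The affine map of a block of the parity sequence.
-/

namespace Pool.Agent.Lib.MP_d0d59f_nt

open Filter Topology Auto

/-- the translation part of the affine map of the first `n` steps of the orbit of `y` -/
def shift (d y : ℤ) (n : ℕ) : ℤ := 2 ^ n * (T d)^[n] y - 3 ^ ones d y n * y

theorem shift_zero (d y : ℤ) : shift d y 0 = 0 := by simp [shift, ones_zero]

theorem shift_succ {d : ℤ} (hd : Odd d) (y : ℤ) (n : ℕ) :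
    shift d y (n + 1) = if (T d)^[n] y % 2 = 1 then 3 * shift d y n + 2 ^ n * d
      else shift d y n := by
  unfold shift
  rw [Function.iterate_succ_apply', ones_succ]
  set z := (T d)^[n] y with hz
  rcases Int.emod_two_eq_zero_or_one z with h | h
  · rw [if_neg (by omega), if_neg (by omega), add_zero, pow_succ, mul_assoc, T_even h]
  · rw [if_pos h, if_pos h, pow_succ, mul_assoc, T_odd hd h, pow_succ]
    ring

theorem abs_shift_le {d : ℤ} (hd : Odd d) (y : ℤ) (n : ℕ) : |shift d y n| ≤ |d| * (3 ^ n - 2 ^ n) := by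
  induction n with
  | zero => simp [shift_zero]
  | succ n ih =>
    rw [shift_succ hd]
    have h3 : (2 : ℤ) ^ n ≤ 3 ^ n := pow_le_pow_left₀ (by norm_num) (by norm_num) n
    have h0 : (0 : ℤ) ≤ |d| := abs_nonneg d
    split_ifs with h
    · calc |3 * shift d y n + 2 ^ n * d| ≤ |3 * shift d y n| + |2 ^ n * d| := abs_add_le _ _
        _ = 3 * |shift d y n| + 2 ^ n * |d| := by
          rw [abs_mul, abs_mul, abs_of_pos (by norm_num : (0 : ℤ) < 3),
            abs_of_pos (by positivity : (0 : ℤ) < 2 ^ n)]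
        _ ≤ 3 * (|d| * (3 ^ n - 2 ^ n)) + 2 ^ n * |d| := by linarith
        _ = |d| * (3 ^ (n + 1) - 2 ^ (n + 1)) := by ring
    · refine ih.trans ?_
      have : (3 : ℤ) ^ n - 2 ^ n ≤ 3 ^ (n + 1) - 2 ^ (n + 1) := by
        have h4 : (0 : ℤ) ≤ 3 ^ n := by positivity
        rw [pow_succ, pow_succ]; linarith
      exact mul_le_mul_of_nonneg_left this h0

/-- ones and shift depend only on the parities -/
theorem ones_shift_congr {d : ℤ} (hd : Odd d) {y z : ℤ} (n : ℕ)
    (h : ∀ k < n, (T d)^[k] y % 2 = (T d)^[k] z % 2) :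
    ones d y n = ones d z n ∧ shift d y n = shift d z n := by
  induction n with
  | zero => simp [ones_zero, shift_zero]
  | succ n ih =>
    obtain ⟨h1, h2⟩ := ih fun k hk => h k (by omega)
    rw [ones_succ, ones_succ, shift_succ hd, shift_succ hd, h n (by omega), h1, h2]
    exact ⟨rfl, rfl⟩

theorem ones_add (d y : ℤ) (a b : ℕ) : ones d y (a + b) = ones d y a + ones d ((T d)^[a] y) b := by
  induction b with
  | zero => simp [ones_zero]
  | succ b ih =>
    rw [← add_assoc, ones_succ, ih, ones_succ, ← Function.iterate_add_apply, add_comm a b, add_assoc]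

/-- the constant of a block -/
noncomputable def gval (d y : ℤ) (L : ℕ) : ℚ := (-shift d y L : ℤ) / ((3 ^ ones d y L : ℤ) : ℚ)

theorem gval_eq (d y : ℤ) (L : ℕ) :
    gval d y L = y - 2 ^ L / 3 ^ ones d y L * ((T d)^[L] y : ℤ) := by
  have h3 : (3 : ℚ) ^ ones d y L ≠ 0 := by positivity
  unfold gval shift
  push_cast
  field_simp
  ring

theorem ht_gval_le {d : ℤ} (hd : Odd d) (y : ℤ) (L : ℕ) :
    (ht (gval d y L) : ℝ) ≤ (|d| + 1) * 3 ^ L := by
  have h1 := ht_div_le (-shift d y L) (3 ^ ones d y L) (by positivity)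
  have h2 := abs_shift_le hd y L
  have h3 : (ones d y L) ≤ L := ones_le d y L
  have h4 : ((-shift d y L).natAbs : ℤ) ≤ (|d| + 1) * 3 ^ L := by
    rw [Int.natAbs_neg, Int.natCast_natAbs]
    have : (0 : ℤ) ≤ 2 ^ L := by positivity
    have h0 : (0 : ℤ) ≤ |d| := abs_nonneg d
    have h5 : (0 : ℤ) ≤ 3 ^ L := by positivity
    nlinarith
  have h5 : (((3 : ℤ) ^ ones d y L).natAbs : ℤ) ≤ (|d| + 1) * 3 ^ L := by
    rw [Int.natCast_natAbs, abs_of_pos (by positivity)]
    have h6 : (3 : ℤ) ^ ones d y L ≤ 3 ^ L := pow_le_pow_right₀ (by norm_num) h3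
    have h0 : (0 : ℤ) ≤ |d| := abs_nonneg d
    have h7 : (0 : ℤ) ≤ 3 ^ L := by positivity
    nlinarith
  have h6 : ((ht (gval d y L) : ℕ) : ℤ) ≤ (|d| + 1) * 3 ^ L := by
    refine le_trans (Int.ofNat_le.mpr h1) ?_
    rw [Nat.cast_max]
    exact max_le h4 h5
  exact_mod_cast h6

end Pool.Agent.Lib.MP_d0d59f_nt
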