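import Mathlib

/-!
A basis adapted to an increasing chain of spanning sets.
-/

namespace Pool.Agent.Lib.MP_d0d59f_nt.Auto

open Module

/-- Extension of a linearly independent finset inside a set with finite dimensional span. -/
theorem chain_extend {K V : Type*} [Field K] [AddCommGroup V] [Module K V] {A : Set V}
    (hfin : FiniteDimensional K (Submodule.span K A)) (S : Finset V) (hS : ↑S ⊆ A)
    (hli : LinearIndepOn K id (S : Set V)) :
    ∃ S' : Finset V, S ⊆ S' ∧ (S' : Set V) ⊆ A ∧ LinearIndepOn K id (S' : Set V) ∧
      Submodule.span K (S' : Set V) = Submodule.span K A := by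
  obtain ⟨b, hbA, hSb, hAb, hb⟩ := exists_linearIndepOn_id_extension hli hS
  have hspan : Submodule.span K b = Submodule.span K A :=
    le_antisymm (Submodule.span_mono hbA) (Submodule.span_le.2 hAb)
  have hfb : b.Finite := by
    have hb' : LinearIndependent K ((↑) : b → V) := hb
    let B := Basis.span hb'
    have h1 : Submodule.span K (Set.range ((↑) : b → V)) = Submodule.span K A := by
      rw [Subtype.range_coe, hspan]
    have : FiniteDimensional K (Submodule.span K (Set.range ((↑) : b → V))) := by
      rw [h1]; exact hfin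
    have hf : Finite b := Module.Finite.finite_basis B
    exact Set.toFinite b
  refine ⟨hfb.toFinset, ?_, ?_, ?_, ?_⟩
  · intro x hx
    exact hfb.mem_toFinset.2 (hSb hx)
  · rw [hfb.coe_toFinset]; exact hbA
  · rw [hfb.coe_toFinset]; exact hb
  · rw [hfb.coe_toFinset]; exact hspan

theorem chain_finset {K V : Type*} [Field K] [AddCommGroup V] [Module K V] (A : ℕ → Set V)
    (hA : Monotone A) (hfin : ∀ M, FiniteDimensional K (Submodule.span K (A M))) (M : ℕ) :
    ∃ (S : Finset V) (m : V → ℕ), (S : Set V) ⊆ A M ∧ LinearIndepOn K id (S : Set V) ∧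
      Submodule.span K (S : Set V) = Submodule.span K (A M) ∧ (∀ x ∈ S, x ∈ A (m x)) ∧
      ∑ x ∈ S, m x + ∑ i ∈ Finset.range M, finrank K (Submodule.span K (A i)) = M * S.card := by
  classical
  induction M with
  | zero =>
    obtain ⟨S, _, hSA, hli, hsp⟩ := chain_extend (hfin 0) ∅ (by simp) (by simp)
    exact ⟨S, fun _ => 0, hSA, hli, hsp, fun x hx => hSA hx, by simp⟩
  | succ M ih =>
    obtain ⟨S, m, hSA, hli, hsp, hm, hsum⟩ := ih
    obtain ⟨S', hSS', hSA', hli', hsp'⟩ :=
      chain_extend (hfin (M + 1)) S (hSA.trans (hA (Nat.le_succ M))) hli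
    refine ⟨S', fun x => if x ∈ S then m x else M + 1, hSA', hli', hsp', ?_, ?_⟩
    · intro x hx
      by_cases h : x ∈ S
      · simp only [h, if_true]; exact hm x h
      · simp only [h, if_false]; exact hSA' hx
    · have hcard : finrank K (Submodule.span K (A M)) = S.card := by
        rw [← hsp]; exact finrank_span_finset_eq_card hli
      rw [Finset.sum_range_succ, hcard]
      have h1 : ∑ x ∈ S', (if x ∈ S then m x else M + 1) =
          ∑ x ∈ S, m x + (S' \ S).card * (M + 1) := by
        rw [← Finset.sum_sdiff hSS', add_comm]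
        congr 1
        · exact Finset.sum_congr rfl fun x hx => by rw [if_pos hx]
        · rw [Finset.sum_congr rfl fun x hx => if_neg (Finset.mem_sdiff.1 hx).2, Finset.sum_const,
            smul_eq_mul]
      have h2 : (S' \ S).card + S.card = S'.card := Finset.card_sdiff_add_card_eq_card hSS'
      rw [h1, ← h2]
      linarith [hsum, Nat.add_mul M 1 S.card]

theorem chain_basis {K V : Type*} [Field K] [AddCommGroup V] [Module K V] (A : ℕ → Set V)
    (hA : Monotone A) (hfin : ∀ M, FiniteDimensional K (Submodule.span K (A M))) (M : ℕ) :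
    ∃ (v : Fin (finrank K (Submodule.span K (A M))) → V)
      (m : Fin (finrank K (Submodule.span K (A M))) → ℕ),
      LinearIndependent K v ∧ (∀ j, v j ∈ A (m j)) ∧
      ∑ j, m j + ∑ i ∈ Finset.range M, finrank K (Submodule.span K (A i))
        = M * finrank K (Submodule.span K (A M)) := by
  obtain ⟨S, m, _, hli, hsp, hm, hsum⟩ := chain_finset A hA hfin M
  have hcard : finrank K (Submodule.span K (A M)) = S.card := by
    rw [← hsp]; exact finrank_span_finset_eq_card hli
  let e : Fin (finrank K (Submodule.span K (A M))) ≃ S := (Finset.equivFinOfCardEq hcard.symm).symm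
  refine ⟨fun j => (e j : V), fun j => m (e j), ?_, fun j => hm _ (e j).2, ?_⟩
  · have hli' : LinearIndependent K (fun x : S => (x : V)) := hli
    exact hli'.comp e e.injective
  · have h1 : ∑ j, m (e j : V) = ∑ x ∈ S, m x := by
      rw [Equiv.sum_comp e (fun x : S => m (x : V))]
      exact Finset.sum_coe_sort S m
    rw [h1, hsum, hcard]

end Pool.Agent.Lib.MP_d0d59f_nt.Auto
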