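import Mathlib

/-!
The determinant estimate: linear forms over a ring in which a product formula inequality holds.
-/

namespace Pool.Agent.Lib.MP_d0d59f_nt.Auto

open Module

/-- non-archimedean bound for a finite sum -/
theorem ad_sum_le {𝕂 : Type*} [Field 𝕂] (N : AbsoluteValue 𝕂 ℝ)
    (hN : ∀ a b, N (a + b) ≤ max (N a) (N b)) {ι : Type*} (S : Finset ι) (f : ι → 𝕂) {M : ℝ}
    (hM : 0 ≤ M) (h : ∀ i ∈ S, N (f i) ≤ M) : N (∑ i ∈ S, f i) ≤ M := by
  classical
  induction S using Finset.induction_on with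
  | empty => simpa using hM
  | insert a S ha ih =>
    rw [Finset.sum_insert ha]
    refine (hN _ _).trans (max_le (h a (Finset.mem_insert_self _ _)) (ih fun i hi => ?_))
    exact h i (Finset.mem_insert_of_mem hi)

/-- Leibniz formula and the bound for a determinant -/
theorem ad_det_le {𝕂 : Type*} [Field 𝕂] (N : AbsoluteValue 𝕂 ℝ)
    (hN : ∀ a b, N (a + b) ≤ max (N a) (N b)) {m : Type*} [Fintype m] [DecidableEq m]
    (A : Matrix m m 𝕂) (β : m → ℝ) (hβ : ∀ i, 0 ≤ β i) (h : ∀ i k, N (A i k) ≤ β i) :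
    N A.det ≤ ∏ i, β i := by
  rw [Matrix.det_apply]
  refine ad_sum_le N hN _ _ (Finset.prod_nonneg fun i _ => hβ i) fun σ _ => ?_
  have h1 : N (Equiv.Perm.sign σ • ∏ i, A (σ i) i) = ∏ i, N (A (σ i) i) := by
    rcases Int.units_eq_one_or (Equiv.Perm.sign σ) with hs | hs
    · rw [hs, one_smul, map_prod]
    · rw [hs, Units.neg_smul, one_smul, AbsoluteValue.map_neg, map_prod]
  rw [h1]
  calc ∏ i, N (A (σ i) i) ≤ ∏ i, β (σ i) :=
        Finset.prod_le_prod (fun i _ => N.nonneg _) fun i _ => h _ _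
    _ = ∏ i, β i := Equiv.prod_comp σ β

/-- the absolute value on `𝕂` induced by the norm of `Ω` -/
noncomputable def adW (𝕂 Ω : Type*) [Field 𝕂] [NormedField Ω] [Algebra 𝕂 Ω] :
    AbsoluteValue 𝕂 ℝ where
  toFun z := ‖algebraMap 𝕂 Ω z‖
  map_mul' a b := by simp
  nonneg' a := norm_nonneg _
  eq_zero' a := by simp
  add_le' a b := by
    rw [map_add]
    exact norm_add_le _ _

theorem adW_apply {𝕂 Ω : Type*} [Field 𝕂] [NormedField Ω] [Algebra 𝕂 Ω] (z : 𝕂) :
    adW 𝕂 Ω z = ‖algebraMap 𝕂 Ω z‖ := rfl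

theorem adW_nonarch {𝕂 Ω : Type*} [Field 𝕂] [NormedField Ω] [IsUltrametricDist Ω] [Algebra 𝕂 Ω]
    (a b : 𝕂) : adW 𝕂 Ω (a + b) ≤ max (adW 𝕂 Ω a) (adW 𝕂 Ω b) := by
  rw [adW_apply, map_add]
  exact IsUltrametricDist.norm_add_le_max _ _

/-- scaling a finite vector into `O` -/
theorem ad_scale {𝕂 : Type*} [Field 𝕂] (O : Subring 𝕂)
    (hfrac : ∀ z : 𝕂, ∃ D ∈ O, D ≠ 0 ∧ D * z ∈ O) {H : ℕ} (z : Fin H → 𝕂) :
    ∃ D : 𝕂, D ≠ 0 ∧ ∀ i, D * z i ∈ O := by
  choose D hD hD0 hDz using hfrac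
  refine ⟨∏ i, D (z i), Finset.prod_ne_zero_iff.mpr fun i _ => hD0 _, fun i => ?_⟩
  rw [← Finset.mul_prod_erase Finset.univ _ (Finset.mem_univ i), mul_assoc, mul_comm _ (z i),
    ← mul_assoc]
  exact O.mul_mem (hDz _) (O.prod_mem fun j _ => hD _)

/-- Let `γ ∈ Ω^H` have a `𝕂`-span of dimension `s`. If `s` vectors `v_j` over the ring `O` have linearly
independent values `∑ v_{ji} γ_i` then these values cannot all be small. The other `H - s` rows of
the determinant are fixed `𝕂`-linear relations of `γ`. -/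
theorem det_bound {𝕂 Ω : Type*} [Field 𝕂] [NormedField Ω] [IsUltrametricDist Ω] [Algebra 𝕂 Ω]
    (N : AbsoluteValue 𝕂 ℝ) (hN : ∀ a b, N (a + b) ≤ max (N a) (N b)) (O : Subring 𝕂)
    (hfrac : ∀ z : 𝕂, ∃ D ∈ O, D ≠ 0 ∧ D * z ∈ O)
    (hL : ∀ z ∈ O, z ≠ 0 → 1 ≤ ‖algebraMap 𝕂 Ω z‖ * N z)
    {H s : ℕ} (γ : Fin H → Ω) (hγ : γ ≠ 0)
    (hs : finrank 𝕂 (Submodule.span 𝕂 (Set.range γ)) = s) :
    ∃ C : ℝ, 0 < C ∧ ∀ (v : Fin s → Fin H → 𝕂) (a b : Fin s → ℝ) (ε : ℝ),
      (∀ j i, v j i ∈ O) → (∀ j i, ‖algebraMap 𝕂 Ω (v j i)‖ ≤ a j) → (∀ j i, N (v j i) ≤ b j) →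
      LinearIndependent 𝕂 (fun j => ∑ i, v j i • γ i) →
      (∀ j, ‖∑ i, v j i • γ i‖ ≤ ε * a j) →
      1 ≤ C * ε * (∏ j, a j) * ∏ j, b j := by
  classical
  set φ : (Fin H → 𝕂) →ₗ[𝕂] Ω := Fintype.linearCombination 𝕂 γ with hφ
  have hφa : ∀ c : Fin H → 𝕂, φ c = ∑ i, c i • γ i := fun c => by
    rw [hφ, Fintype.linearCombination_apply]
  set r := finrank 𝕂 (LinearMap.ker φ) with hr
  have hrs : r + s = H := by
    have h1 := LinearMap.finrank_range_add_finrank_ker φ
    rw [hφ, Fintype.range_linearCombination, hs, ← hφ, ← hr, Module.finrank_fin_fun] at h1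
    omega
  set B := Module.finBasis 𝕂 (LinearMap.ker φ) with hB
  -- the fixed relations, scaled into `O`
  have hsc : ∀ j : Fin r, ∃ D : 𝕂, D ≠ 0 ∧ ∀ i, D * (B j : Fin H → 𝕂) i ∈ O := fun j =>
    ad_scale O hfrac _
  choose D hD0 hDO using hsc
  set c : Fin r → Fin H → 𝕂 := fun j i => D j * (B j : Fin H → 𝕂) i with hc
  have hcφ : ∀ j, φ (c j) = 0 := by
    intro j
    have h1 : c j = D j • (B j : Fin H → 𝕂) := by
      funext i
      rfl
    rw [h1, map_smul, LinearMap.mem_ker.mp (B j).2, smul_zero]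
  have hcli : LinearIndependent 𝕂 c := by
    have h1 : LinearIndependent 𝕂 (fun j => (B j : Fin H → 𝕂)) :=
      B.linearIndependent.map' (LinearMap.ker φ).subtype (Submodule.ker_subtype _)
    have h2 := h1.units_smul fun j => Units.mk0 (D j) (hD0 j)
    exact h2
  -- bounds for the relations
  obtain ⟨Mc, hMc1, hMc⟩ : ∃ Mc : ℝ, 1 ≤ Mc ∧ ∀ j i, adW 𝕂 Ω (c j i) ≤ Mc := by
    refine ⟨1 + ∑ j, ∑ i, adW 𝕂 Ω (c j i), ?_, fun j i => ?_⟩
    · have : 0 ≤ ∑ j, ∑ i, adW 𝕂 Ω (c j i) :=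
        Finset.sum_nonneg fun j _ => Finset.sum_nonneg fun i _ => (adW 𝕂 Ω).nonneg _
      linarith
    · have h1 : adW 𝕂 Ω (c j i) ≤ ∑ i, adW 𝕂 Ω (c j i) :=
        Finset.single_le_sum (f := fun i => adW 𝕂 Ω (c j i)) (fun i _ => (adW 𝕂 Ω).nonneg _)
          (Finset.mem_univ i)
      have h2 : ∑ i, adW 𝕂 Ω (c j i) ≤ ∑ j, ∑ i, adW 𝕂 Ω (c j i) :=
        Finset.single_le_sum (f := fun j => ∑ i, adW 𝕂 Ω (c j i))
          (fun j _ => Finset.sum_nonneg fun i _ => (adW 𝕂 Ω).nonneg _) (Finset.mem_univ j)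
      linarith
  obtain ⟨Nc, hNc1, hNc⟩ : ∃ Nc : ℝ, 1 ≤ Nc ∧ ∀ j i, N (c j i) ≤ Nc := by
    refine ⟨1 + ∑ j, ∑ i, N (c j i), ?_, fun j i => ?_⟩
    · have : 0 ≤ ∑ j, ∑ i, N (c j i) :=
        Finset.sum_nonneg fun j _ => Finset.sum_nonneg fun i _ => N.nonneg _
      linarith
    · have h1 : N (c j i) ≤ ∑ i, N (c j i) :=
        Finset.single_le_sum (f := fun i => N (c j i)) (fun i _ => N.nonneg _)
          (Finset.mem_univ i)
      have h2 : ∑ i, N (c j i) ≤ ∑ j, ∑ i, N (c j i) :=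
        Finset.single_le_sum (f := fun j => ∑ i, N (c j i))
          (fun j _ => Finset.sum_nonneg fun i _ => N.nonneg _) (Finset.mem_univ j)
      linarith
  obtain ⟨i0, hi0⟩ : ∃ i0, γ i0 ≠ 0 := Function.ne_iff.mp hγ
  have hγ0 : 0 < ‖γ i0‖ := norm_pos_iff.mpr hi0
  refine ⟨Mc ^ r * Nc ^ r / ‖γ i0‖, by positivity, fun v a b ε hvO hva hvb hvli hvε => ?_⟩
  set e : Fin r ⊕ Fin s ≃ Fin H := finSumFinEquiv.trans (finCongr hrs) with he
  set A : Matrix (Fin H) (Fin H) 𝕂 := fun i k => Sum.elim c v (e.symm i) k with hA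
  have hAc : ∀ j, A (e (Sum.inl j)) = c j := fun j => by
    funext k
    simp [hA]
  have hAv : ∀ j, A (e (Sum.inr j)) = v j := fun j => by
    funext k
    simp [hA]
  have hAO : ∀ i k, A i k ∈ O := by
    intro i k
    obtain ⟨x, rfl⟩ := e.surjective i
    rcases x with j | j
    · rw [hAc]
      exact hDO j k
    · rw [hAv]
      exact hvO j k
  have ha0 : ∀ j, 0 ≤ a j := fun j => (norm_nonneg _).trans (hva j i0)
  have hb0 : ∀ j, 0 ≤ b j := fun j => (N.nonneg _).trans (hvb j i0)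
  -- the determinant does not vanish
  have hdet : A.det ≠ 0 := by
    intro h0
    obtain ⟨x, hx0, hx⟩ := Matrix.exists_vecMul_eq_zero_iff.mpr h0
    have h1 : ∑ i, x i • A i = 0 := by
      funext k
      have := congrFun hx k
      simpa [Matrix.vecMul, dotProduct] using this
    have h2 : ∑ j, x (e (Sum.inl j)) • c j + ∑ j, x (e (Sum.inr j)) • v j = 0 := by
      rw [← e.sum_comp, Fintype.sum_sum_type] at h1
      simpa only [hAc, hAv] using h1
    have h3 : ∑ j, x (e (Sum.inr j)) • (∑ i, v j i • γ i) = 0 := by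
      have := congrArg φ h2
      rw [map_add, map_sum, map_sum, map_zero] at this
      simp only [map_smul, hcφ, smul_zero, Finset.sum_const_zero, zero_add] at this
      simpa only [hφa] using this
    have h4 := Fintype.linearIndependent_iff.mp hvli _ h3
    have h5 : ∑ j, x (e (Sum.inl j)) • c j = 0 := by
      simpa only [h4, zero_smul, Finset.sum_const_zero, add_zero] using h2
    have h6 := Fintype.linearIndependent_iff.mp hcli _ h5
    apply hx0
    funext i
    obtain ⟨y, rfl⟩ := e.surjective i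
    rcases y with j | j
    · exact h6 j
    · exact h4 j
  have hdetO : A.det ∈ O := by
    rw [Matrix.det_apply]
    refine O.sum_mem fun σ _ => ?_
    rcases Int.units_eq_one_or (Equiv.Perm.sign σ) with hs' | hs'
    · rw [hs', one_smul]
      exact O.prod_mem fun i _ => hAO _ _
    · rw [hs', Units.neg_smul, one_smul]
      exact O.neg_mem (O.prod_mem fun i _ => hAO _ _)
  have hprod : ∀ (M : ℝ) (w : Fin s → ℝ), ∏ i, Sum.elim (fun _ : Fin r => M) w (e.symm i)
      = M ^ r * ∏ j, w j := by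
    intro M w
    rw [← e.prod_comp]
    simp only [Equiv.symm_apply_apply]
    rw [Fintype.prod_sum_type]
    simp
  -- bound for `N`
  have hNdet : N A.det ≤ Nc ^ r * ∏ j, b j := by
    rw [← hprod]
    refine ad_det_le N hN A _ ?_ ?_
    · intro i
      obtain ⟨x, rfl⟩ := e.surjective i
      rcases x with j | j
      · simp only [Equiv.symm_apply_apply, Sum.elim_inl]
        linarith
      · simp only [Equiv.symm_apply_apply, Sum.elim_inr]
        exact hb0 j
    · intro i k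
      obtain ⟨x, rfl⟩ := e.surjective i
      rcases x with j | j
      · simp only [Equiv.symm_apply_apply, Sum.elim_inl]
        rw [hAc]
        exact hNc j k
      · simp only [Equiv.symm_apply_apply, Sum.elim_inr]
        rw [hAv]
        exact hvb j k
  -- bound for the norm
  have hadj : ∀ j : Fin s, adW 𝕂 Ω (A.adjugate i0 (e (Sum.inr j)))
      ≤ Mc ^ r * ∏ l ∈ Finset.univ.erase j, a l := by
    intro j
    have h1 : Mc ^ r * ∏ l ∈ Finset.univ.erase j, a l
        = ∏ i, Sum.elim (fun _ : Fin r => Mc) (Function.update a j 1) (e.symm i) := by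
      rw [hprod, ← Finset.mul_prod_erase Finset.univ _ (Finset.mem_univ j),
        Function.update_self, one_mul]
      congr 1
      refine Finset.prod_congr rfl fun l hl => ?_
      rw [Function.update_of_ne (Finset.ne_of_mem_erase hl)]
    rw [h1, Matrix.adjugate_apply]
    refine ad_det_le (adW 𝕂 Ω) adW_nonarch _ _ ?_ ?_
    · intro i
      obtain ⟨x, rfl⟩ := e.surjective i
      rcases x with l | l
      · simp only [Equiv.symm_apply_apply, Sum.elim_inl]
        linarith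
      · simp only [Equiv.symm_apply_apply, Sum.elim_inr]
        by_cases hl : l = j
        · subst hl
          rw [Function.update_self]
          exact zero_le_one
        · rw [Function.update_of_ne hl]
          exact ha0 l
    · intro i k
      obtain ⟨x, rfl⟩ := e.surjective i
      rcases x with l | l
      · simp only [Equiv.symm_apply_apply, Sum.elim_inl]
        rw [Matrix.updateRow_ne (by simp), hAc]
        exact hMc l k
      · simp only [Equiv.symm_apply_apply, Sum.elim_inr]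
        by_cases hl : l = j
        · subst hl
          rw [Function.update_self, Matrix.updateRow_self]
          by_cases hk : k = i0
          · subst hk
            rw [Pi.single_eq_same, map_one]
          · rw [Pi.single_eq_of_ne hk, map_zero]
            exact zero_le_one
        · rw [Function.update_of_ne hl, Matrix.updateRow_ne (by simpa using hl), hAv]
          exact hva l k
  have hid : A.det • γ i0 = ∑ j : Fin s, A.adjugate i0 (e (Sum.inr j)) • (∑ k, v j k • γ k) := by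
    have h1 : ∀ k, ∑ j, A.adjugate i0 j * A j k = if i0 = k then A.det else 0 := by
      intro k
      have := congrFun (congrFun (Matrix.adjugate_mul A) i0) k
      rw [Matrix.mul_apply] at this
      rw [this]
      simp [Matrix.one_apply]
    have h2 : ∑ j, A.adjugate i0 j • (∑ k, A j k • γ k) = A.det • γ i0 := by
      simp only [Finset.smul_sum, smul_smul]
      rw [Finset.sum_comm]
      simp only [← Finset.sum_smul, h1]
      simp
    rw [← h2, ← e.sum_comp, Fintype.sum_sum_type]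
    have h3 : ∀ j : Fin r, A.adjugate i0 (e (Sum.inl j)) • (∑ k, A (e (Sum.inl j)) k • γ k) = 0 := by
      intro j
      rw [hAc, ← hφa, hcφ, smul_zero]
    simp only [h3, Finset.sum_const_zero, zero_add, hAv]
  have hterm : ∀ j : Fin s, ‖A.adjugate i0 (e (Sum.inr j)) • (∑ k, v j k • γ k)‖
      ≤ Mc ^ r * (ε * ∏ l, a l) := by
    intro j
    rw [Algebra.smul_def, norm_mul]
    calc ‖algebraMap 𝕂 Ω (A.adjugate i0 (e (Sum.inr j)))‖ * ‖∑ k, v j k • γ k‖
        ≤ (Mc ^ r * ∏ l ∈ Finset.univ.erase j, a l) * (ε * a j) := by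
          refine mul_le_mul (hadj j) (hvε j) (norm_nonneg _) ?_
          have : 0 ≤ ∏ l ∈ Finset.univ.erase j, a l := Finset.prod_nonneg fun l _ => ha0 l
          positivity
      _ = Mc ^ r * (ε * ∏ l, a l) := by
          rw [← Finset.mul_prod_erase Finset.univ _ (Finset.mem_univ j)]
          ring
  have hs0 : 0 < s := by
    rcases Nat.eq_zero_or_pos s with h0 | h0
    · exfalso
      subst h0
      rw [Finset.univ_eq_empty, Finset.sum_empty] at hid
      rcases smul_eq_zero.mp hid with h | h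
      · exact hdet h
      · exact hi0 h
    · exact h0
  have hnorm : ‖algebraMap 𝕂 Ω A.det‖ * ‖γ i0‖ ≤ Mc ^ r * (ε * ∏ l, a l) := by
    rw [← norm_mul, ← Algebra.smul_def, hid]
    have : Nonempty (Fin s) := ⟨⟨0, hs0⟩⟩
    obtain ⟨j, _, hj⟩ := IsUltrametricDist.exists_norm_finsetSum_le_of_nonempty
      (Finset.univ_nonempty (α := Fin s))
      (fun j : Fin s => A.adjugate i0 (e (Sum.inr j)) • (∑ k, v j k • γ k))
    exact hj.trans (hterm j)
  have h1 : ‖algebraMap 𝕂 Ω A.det‖ ≤ Mc ^ r * (ε * ∏ l, a l) / ‖γ i0‖ := by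
    rw [le_div_iff₀ hγ0]
    exact hnorm
  calc (1 : ℝ) ≤ ‖algebraMap 𝕂 Ω A.det‖ * N A.det := hL _ hdetO hdet
    _ ≤ (Mc ^ r * (ε * ∏ l, a l) / ‖γ i0‖) * (Nc ^ r * ∏ j, b j) :=
        mul_le_mul h1 hNdet (N.nonneg _) ((norm_nonneg _).trans h1)
    _ = Mc ^ r * Nc ^ r / ‖γ i0‖ * ε * (∏ j, a j) * ∏ j, b j := by ring

end Pool.Agent.Lib.MP_d0d59f_nt.Auto
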