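import Mathlib

/-!
Evaluation of power series over `κ` at a point `x`, `0 < ‖x‖ < 1`, of a complete ultrametric field in
which the nonzero elements of `κ` have norm one.
-/

namespace Pool.Agent.Lib.MP_d0d59f_nt.Auto

open PowerSeries

variable {κ Ω : Type*} [Field κ] [NormedField Ω]

/-- the nonzero constants have norm one, and `0 < ‖x‖ < 1` -/
structure Spec (φ : κ →+* Ω) (x : Ω) : Prop where
  norm_const : ∀ c : κ, c ≠ 0 → ‖φ c‖ = 1
  x_ne : x ≠ 0
  norm_x : ‖x‖ < 1

variable {φ : κ →+* Ω} {x : Ω}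

theorem Spec.norm_le (h : Spec φ x) (c : κ) : ‖φ c‖ ≤ 1 := by
  by_cases hc : c = 0
  · simp [hc]
  · exact (h.norm_const c hc).le

theorem Spec.summable_norm (h : Spec φ x) (G : PowerSeries κ) :
    Summable fun n => ‖φ (coeff n G) * x ^ n‖ := by
  refine Summable.of_nonneg_of_le (fun n => norm_nonneg _) (fun n => ?_)
    (summable_geometric_of_lt_one (norm_nonneg x) h.norm_x)
  rw [norm_mul, norm_pow]
  exact mul_le_of_le_one_left (by positivity) (h.norm_le _)

variable [CompleteSpace Ω]

theorem Spec.summable (h : Spec φ x) (G : PowerSeries κ) :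
    Summable fun n => φ (coeff n G) * x ^ n := (h.summable_norm G).of_norm

/-- the value of the power series `G` at `x` -/
noncomputable def ev (h : Spec φ x) : PowerSeries κ →+* Ω where
  toFun G := ∑' n, φ (coeff n G) * x ^ n
  map_one' := by
    rw [tsum_eq_single 0]
    · simp
    · intro n hn
      simp [coeff_one, hn]
  map_mul' G G' := by
    rw [tsum_mul_tsum_eq_tsum_sum_antidiagonal_of_summable_norm (h.summable_norm G)
      (h.summable_norm G')]
    refine tsum_congr fun n => ?_
    rw [coeff_mul, map_sum, Finset.sum_mul]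
    refine Finset.sum_congr rfl fun p hp => ?_
    rw [← Finset.HasAntidiagonal.mem_antidiagonal.mp hp, map_mul, pow_add]
    ring
  map_zero' := by simp
  map_add' G G' := by
    rw [← (h.summable G).tsum_add (h.summable G')]
    refine tsum_congr fun n => ?_
    rw [map_add, map_add, add_mul]

theorem ev_apply (h : Spec φ x) (G : PowerSeries κ) :
    ev h G = ∑' n, φ (coeff n G) * x ^ n := rfl

theorem ev_hasSum (h : Spec φ x) (G : PowerSeries κ) :
    HasSum (fun n => φ (coeff n G) * x ^ n) (ev h G) := (h.summable G).hasSum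

/-- the value is the limit of the values of the truncations -/
theorem ev_eq_of_tendsto (h : Spec φ x) (G : PowerSeries κ) {y : Ω}
    (hy : Filter.Tendsto (fun E : ℕ => ∑ n ∈ Finset.range E, φ (coeff n G) * x ^ n)
      Filter.atTop (nhds y)) : ev h G = y :=
  tendsto_nhds_unique (ev_hasSum h G).tendsto_sum_nat hy

@[simp] theorem ev_C (h : Spec φ x) (c : κ) : ev h (C c) = φ c := by
  rw [ev_apply, tsum_eq_single 0]
  · simp
  · intro n hn
    simp [coeff_C, hn]

@[simp] theorem ev_X (h : Spec φ x) : ev h X = x := by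
  rw [ev_apply, tsum_eq_single 1]
  · simp
  · intro n hn
    simp [coeff_X, hn]

theorem ev_poly (h : Spec φ x) (p : Polynomial κ) : ev h (p : PowerSeries κ) = p.eval₂ φ x := by
  induction p using Polynomial.induction_on' with
  | add p q hp hq => rw [Polynomial.coe_add, map_add, hp, hq, Polynomial.eval₂_add]
  | monomial n a =>
    rw [Polynomial.coe_monomial, Polynomial.eval₂_monomial, ev_apply, tsum_eq_single n]
    · simp
    · intro k hk
      simp [coeff_monomial, hk]

variable [IsUltrametricDist Ω]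

theorem norm_ev_le_one (h : Spec φ x) (G : PowerSeries κ) : ‖ev h G‖ ≤ 1 := by
  rw [ev_apply]
  refine IsUltrametricDist.norm_tsum_le_of_forall_le_of_nonneg zero_le_one fun n => ?_
  rw [norm_mul, norm_pow]
  exact mul_le_one₀ (h.norm_le _) (by positivity) (pow_le_one₀ (norm_nonneg x) h.norm_x.le)

theorem norm_ev_le (h : Spec φ x) (G : PowerSeries κ) (E : ℕ)
    (hG : ∀ n < E, coeff n G = 0) : ‖ev h G‖ ≤ ‖x‖ ^ E := by
  obtain ⟨G', rfl⟩ := X_pow_dvd_iff.mpr hG
  rw [map_mul, map_pow, ev_X, norm_mul, norm_pow]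
  exact mul_le_of_le_one_right (by positivity) (norm_ev_le_one h G')

theorem norm_ev_eq (h : Spec φ x) (G : PowerSeries κ) (e : ℕ)
    (hG : ∀ n < e, coeff n G = 0) (hne : coeff e G ≠ 0) : ‖ev h G‖ = ‖x‖ ^ e := by
  obtain ⟨G', rfl⟩ := X_pow_dvd_iff.mpr hG
  have h0 : coeff 0 G' ≠ 0 := by
    have h3 := coeff_X_pow_mul G' e 0
    rw [zero_add] at h3
    rwa [h3] at hne
  rw [map_mul, map_pow, ev_X, norm_mul, norm_pow]
  suffices hs : ‖ev h G'‖ = 1 by rw [hs, mul_one]
  have hd : ‖ev h (G' - C (coeff 0 G'))‖ < 1 := by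
    refine lt_of_le_of_lt (norm_ev_le h _ 1 ?_) (by simpa using h.norm_x)
    intro n hn
    obtain rfl : n = 0 := by omega
    simp
  have h1 : ‖ev h (C (coeff 0 G'))‖ = 1 := by rw [ev_C]; exact h.norm_const _ h0
  have h2 : ev h G' = ev h (G' - C (coeff 0 G')) + ev h (C (coeff 0 G')) := by
    rw [← map_add, sub_add_cancel]
  rw [h2, IsUltrametricDist.norm_add_eq_max_of_norm_ne_norm (by rw [h1]; exact hd.ne), h1]
  exact max_eq_right hd.le

theorem ev_ne_zero (h : Spec φ x) {G : PowerSeries κ} (hG : G ≠ 0) : ev h G ≠ 0 := by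
  classical
  have hex : ∃ n, coeff n G ≠ 0 := by
    by_contra hc
    push Not at hc
    exact hG (PowerSeries.ext fun n => by simpa using hc n)
  have := norm_ev_eq h G (Nat.find hex) (fun n hn => not_not.mp (Nat.find_min hex hn))
    (Nat.find_spec hex)
  rw [← norm_ne_zero_iff, this]
  exact pow_ne_zero _ (norm_ne_zero_iff.mpr h.x_ne)

theorem ev_injective (h : Spec φ x) : Function.Injective (ev h) := by
  rw [injective_iff_map_eq_zero]
  intro G hG
  by_contra hne
  exact ev_ne_zero h hne hG

end Pool.Agent.Lib.MP_d0d59f_nt.Auto
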