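import Mathlib

/-!
Fixed points of substitutions of constant length in which some letter occurs with bounded gaps have
uniform letter frequencies.
-/

namespace Pool.Agent.Lib.MP_d0d59f_nt

open Filter Topology

/-- number of `j < n` with `u (i + j) ∈ B` -/
noncomputable def occ {A : Type} (u : ℕ → A) (B : Set A) (i n : ℕ) : ℕ :=
  open scoped Classical in ((Finset.range n).filter fun j => u (i + j) ∈ B).card

theorem occ_add {A : Type} (u : ℕ → A) (B : Set A) (i a b : ℕ) :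
    occ u B i (a + b) = occ u B i a + occ u B (i + a) b := by
  classical
  induction b with
  | zero => simp [occ]
  | succ b ih =>
    have h : ∀ i n, occ u B i (n + 1) = occ u B i n + if u (i + n) ∈ B then 1 else 0 := by
      intro i n
      unfold occ
      rw [Finset.range_add_one, Finset.filter_insert]
      split_ifs with h
      · rw [Finset.card_insert_of_notMem (by simp)]
      · simp
    rw [← add_assoc, h, ih, h, add_assoc, add_assoc i a b]

theorem occ_le {A : Type} (u : ℕ → A) (B : Set A) (i n : ℕ) : occ u B i n ≤ n := by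
  classical
  unfold occ
  exact (Finset.card_filter_le _ _).trans (by simp)

theorem occ_blocks {A : Type} (u : ℕ → A) (B : Set A) (ℓ i n : ℕ) :
    occ u B i (n * ℓ) = ∑ m ∈ Finset.range n, occ u B (i + m * ℓ) ℓ := by
  induction n with
  | zero => simp [occ]
  | succ n ih => rw [add_mul, one_mul, occ_add, ih, Finset.sum_range_succ]

section
variable {A : Type} {k : ℕ} {σ : A → Fin k → A} {u : ℕ → A}

/-- the block of length `k ^ e` at `k ^ e * m` depends only on the letter `u m` -/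
theorem block_congr (hu : ∀ n (r : Fin k), u (k * n + r) = σ (u n) r) (e : ℕ) :
    ∀ m m' : ℕ, u m = u m' → ∀ j < k ^ e, u (k ^ e * m + j) = u (k ^ e * m' + j) := by
  induction e with
  | zero =>
    intro m m' h j hj
    obtain rfl : j = 0 := by simpa using hj
    simpa using h
  | succ e ih =>
    intro m m' h j hj
    have hk : 0 < k ^ e := by
      rcases Nat.eq_zero_or_pos (k ^ e) with h0 | h0
      · rw [pow_succ, h0, zero_mul] at hj; omega
      · exact h0
    have hr : j / k ^ e < k := by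
      rw [Nat.div_lt_iff_lt_mul hk]
      rw [pow_succ, mul_comm] at hj
      exact hj
    have h1 : u (k * m + j / k ^ e) = u (k * m' + j / k ^ e) := by
      rw [hu m ⟨j / k ^ e, hr⟩, hu m' ⟨j / k ^ e, hr⟩, h]
    have h2 := ih _ _ h1 (j % k ^ e) (Nat.mod_lt _ hk)
    have e1 : ∀ m, k ^ (e + 1) * m + j = k ^ e * (k * m + j / k ^ e) + j % k ^ e := by
      intro m
      have := Nat.div_add_mod j (k ^ e)
      calc k ^ (e + 1) * m + j = k ^ e * (k * m) + j := by rw [pow_succ]; ring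
        _ = k ^ e * (k * m) + (k ^ e * (j / k ^ e) + j % k ^ e) := by rw [this]
        _ = _ := by ring
    rw [e1, e1, h2]

theorem occ_block_congr (hu : ∀ n (r : Fin k), u (k * n + r) = σ (u n) r) (B : Set A) (e : ℕ)
    {m m' : ℕ} (h : u m = u m') : occ u B (k ^ e * m) (k ^ e) = occ u B (k ^ e * m') (k ^ e) := by
  classical
  unfold occ
  congr 1
  apply Finset.filter_congr
  intro j hj
  rw [block_congr hu e m m' h j (Finset.mem_range.mp hj)]

/-- two sums with the same number of terms -/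
theorem abs_sum_sub_sum_le {ι ι' : Type*} [DecidableEq ι] [DecidableEq ι'] (s : Finset ι)
    (s' : Finset ι') (h : s.card = s'.card) (f : ι → ℝ) (f' : ι' → ℝ) (D : ℝ)
    (hD : ∀ i ∈ s, ∀ j ∈ s', |f i - f' j| ≤ D) :
    |∑ i ∈ s, f i - ∑ j ∈ s', f' j| ≤ s.card * D := by
  have e := Finset.equivOfCardEq h
  have h1 : ∑ j ∈ s', f' j = ∑ i : s, f' (e i) := by
    rw [← Finset.sum_coe_sort s' f']
    exact (Equiv.sum_comp e fun j : s' => f' j).symm
  rw [h1, ← Finset.sum_coe_sort s f, ← Finset.sum_sub_distrib]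
  refine (Finset.abs_sum_le_sum_abs _ _).trans ?_
  refine (Finset.sum_le_card_nsmul _ _ D fun i _ => hD _ i.2 _ (e i).2).trans ?_
  simp

/-- contraction of the oscillation of the block counts -/
theorem occ_osc (hk : 0 < k) (hu : ∀ n (r : Fin k), u (k * n + r) = σ (u n) r) (B : Set A) (b : A)
    (E : ℕ) (hb : ∀ m, ∃ j < k ^ E, u (k ^ E * m + j) = b) (s : ℕ) :
    ∀ m m' : ℕ, |(occ u B (k ^ (s * E) * m) (k ^ (s * E)) : ℝ)
      - occ u B (k ^ (s * E) * m') (k ^ (s * E))| ≤ ((k : ℝ) ^ E - 1) ^ s := by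
  classical
  induction s with
  | zero =>
    intro m m'
    simp only [zero_mul, pow_zero, one_mul]
    have h1 := occ_le u B m 1
    have h2 := occ_le u B m' 1
    have h3 : (occ u B m 1 : ℝ) ≤ 1 := by exact_mod_cast h1
    have h4 : (occ u B m' 1 : ℝ) ≤ 1 := by exact_mod_cast h2
    have h5 : (0 : ℝ) ≤ occ u B m 1 := by positivity
    have h6 : (0 : ℝ) ≤ occ u B m' 1 := by positivity
    rw [abs_le]
    constructor <;> linarith
  | succ s ih =>
    intro m m'
    have e1 : ∀ m, (occ u B (k ^ ((s + 1) * E) * m) (k ^ ((s + 1) * E)) : ℝ)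
        = ∑ j ∈ Finset.range (k ^ E),
          (occ u B (k ^ (s * E) * (k ^ E * m + j)) (k ^ (s * E)) : ℝ) := by
      intro m
      have h1 : k ^ ((s + 1) * E) = k ^ E * k ^ (s * E) := by rw [← pow_add]; ring_nf
      rw [h1, occ_blocks]
      push_cast
      refine Finset.sum_congr rfl fun j _ => ?_
      have : k ^ E * k ^ (s * E) * m + j * k ^ (s * E) = k ^ (s * E) * (k ^ E * m + j) := by ring
      rw [this]
    obtain ⟨j, hj, hjb⟩ := hb m
    obtain ⟨j', hj', hjb'⟩ := hb m'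
    rw [e1, e1, ← Finset.add_sum_erase _ _ (Finset.mem_range.mpr hj),
      ← Finset.add_sum_erase _ _ (Finset.mem_range.mpr hj'),
      occ_block_congr hu B (s * E) (hjb.trans hjb'.symm), add_sub_add_left_eq_sub]
    have hc : ((Finset.range (k ^ E)).erase j).card = k ^ E - 1 := by
      rw [Finset.card_erase_of_mem (Finset.mem_range.mpr hj), Finset.card_range]
    have hc' : ((Finset.range (k ^ E)).erase j').card = k ^ E - 1 := by
      rw [Finset.card_erase_of_mem (Finset.mem_range.mpr hj'), Finset.card_range]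
    refine (abs_sum_sub_sum_le _ _ (hc.trans hc'.symm) _ _ _ fun i _ i' _ => ih _ _).trans ?_
    rw [hc, Nat.cast_sub (Nat.one_le_pow _ _ hk), pow_succ, mul_comm]
    push_cast
    exact le_rfl

/-- Uniform letter frequencies. -/
theorem uniform_frequency_of_substitution (hk : 2 ≤ k)
    (hu : ∀ n (r : Fin k), u (k * n + r) = σ (u n) r) (B : Set A) (b : A) (g : ℕ)
    (hb : ∀ n, ∃ j < g, u (n + j) = b) :
    ∃ θ : ℝ, ∀ ε : ℝ, 0 < ε → ∃ N : ℕ, ∀ n : ℕ, N ≤ n → ∀ i : ℕ,
      |(occ u B i n : ℝ) - θ * n| ≤ ε * n := by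
  classical
  have hg0 : 0 < g := by obtain ⟨j, hj, -⟩ := hb 0; omega
  obtain ⟨E, hE⟩ : ∃ E : ℕ, g ≤ k ^ E := ⟨g, (Nat.lt_pow_self (by omega)).le⟩
  have hbE : ∀ m, ∃ j < k ^ E, u (k ^ E * m + j) = b := by
    intro m
    obtain ⟨j, hj, h⟩ := hb (k ^ E * m)
    exact ⟨j, by omega, h⟩
  have hosc := occ_osc (by omega) hu B b E hbE
  set Q : ℝ := (k : ℝ) ^ E with hQ
  have hQ1 : 1 ≤ Q := one_le_pow₀ (by exact_mod_cast (by omega : 1 ≤ k))
  have hQ0 : 0 < Q := by linarith
  set q : ℝ := (Q - 1) / Q with hq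
  have hq0 : 0 ≤ q := div_nonneg (by linarith) hQ0.le
  have hq1 : q < 1 := by rw [hq, div_lt_one hQ0]; linarith
  -- normalised counts
  set c : ℕ → ℕ → ℝ := fun s m => (occ u B (k ^ (s * E) * m) (k ^ (s * E)) : ℝ) / Q ^ s with hc
  have hcosc : ∀ s m m', |c s m - c s m'| ≤ q ^ s := by
    intro s m m'
    rw [hc]
    simp only
    rw [← sub_div, abs_div, abs_of_pos (by positivity : 0 < Q ^ s), hq, div_pow]
    exact div_le_div_of_nonneg_right (hosc s m m') (by positivity)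
  have hstep : ∀ s m m', |c (s + 1) m - c s m'| ≤ q ^ s := by
    intro s m m'
    have e1 : c (s + 1) m = (∑ j ∈ Finset.range (k ^ E), c s (k ^ E * m + j)) / Q := by
      rw [hc]
      simp only
      have h1 : k ^ ((s + 1) * E) = k ^ E * k ^ (s * E) := by rw [← pow_add]; ring_nf
      rw [h1, occ_blocks, ← Finset.sum_div, div_div, ← pow_succ]
      push_cast
      congr 1
      refine Finset.sum_congr rfl fun j _ => ?_
      have : k ^ E * k ^ (s * E) * m + j * k ^ (s * E) = k ^ (s * E) * (k ^ E * m + j) := by ring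
      rw [this]
    have e2 : c s m' = (∑ _j ∈ Finset.range (k ^ E), c s m') / Q := by
      rw [Finset.sum_const, Finset.card_range, nsmul_eq_mul, Nat.cast_pow, ← hQ]
      field_simp
    rw [e1, e2, ← sub_div, abs_div, abs_of_pos hQ0, div_le_iff₀ hQ0]
    have := abs_sum_sub_sum_le (Finset.range (k ^ E)) (Finset.range (k ^ E)) rfl
      (fun j => c s (k ^ E * m + j)) (fun _ => c s m') (q ^ s) fun i _ j _ => hcosc s _ _
    rw [Finset.card_range, Nat.cast_pow, ← hQ] at this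
    linarith
  obtain ⟨θ, hθ⟩ : ∃ θ, Tendsto (fun s => c s 0) atTop (𝓝 θ) := by
    apply cauchySeq_tendsto_of_complete
    refine cauchySeq_of_le_geometric q 1 hq1 fun s => ?_
    rw [Real.dist_eq, abs_sub_comm, one_mul]
    exact hstep s 0 0
  have hclose : ∀ s m, |c s m - θ| ≤ q ^ s + q ^ s / (1 - q) := by
    intro s m
    have h1 : dist (c s 0) θ ≤ 1 * q ^ s / (1 - q) :=
      dist_le_of_le_geometric_of_tendsto q 1 hq1 (fun s => by
        rw [Real.dist_eq, abs_sub_comm, one_mul]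
        exact hstep s 0 0) hθ s
    rw [Real.dist_eq, one_mul] at h1
    calc |c s m - θ| = |(c s m - c s 0) + (c s 0 - θ)| := by congr 1; ring
      _ ≤ |c s m - c s 0| + |c s 0 - θ| := abs_add_le _ _
      _ ≤ q ^ s + q ^ s / (1 - q) := add_le_add (hcosc s m 0) h1
  have hθb : |θ| ≤ 1 := by
    have h1 : ∀ s, |c s 0| ≤ 1 := by
      intro s
      have h2 : (occ u B (k ^ (s * E) * 0) (k ^ (s * E)) : ℝ) ≤ Q ^ s := by
        have := occ_le u B (k ^ (s * E) * 0) (k ^ (s * E))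
        rw [hQ, ← pow_mul, mul_comm E s]
        exact_mod_cast this
      rw [hc]
      simp only
      rw [abs_of_nonneg (by positivity), div_le_one (by positivity)]
      exact h2
    exact le_of_tendsto hθ.abs (Eventually.of_forall h1)
  refine ⟨θ, fun ε hε => ?_⟩
  -- choose the level
  obtain ⟨s, hs⟩ : ∃ s : ℕ, q ^ s + q ^ s / (1 - q) < ε / 2 := by
    have h1 : Tendsto (fun s : ℕ => q ^ s + q ^ s / (1 - q)) atTop (𝓝 (0 + 0 / (1 - q))) :=
      (tendsto_pow_atTop_nhds_zero_of_lt_one hq0 hq1).add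
        ((tendsto_pow_atTop_nhds_zero_of_lt_one hq0 hq1).div_const _)
    rw [zero_div, add_zero] at h1
    exact (h1.eventually (gt_mem_nhds (by positivity : (0 : ℝ) < ε / 2))).exists
  set δ : ℝ := q ^ s + q ^ s / (1 - q) with hδ
  have hδ0 : 0 ≤ δ := add_nonneg (by positivity) (div_nonneg (by positivity) (by linarith))
  set ℓ : ℕ := k ^ (s * E) with hℓ
  have hℓ0 : 0 < ℓ := Nat.pow_pos (by omega)
  have hℓQ : (ℓ : ℝ) = Q ^ s := by rw [hℓ, hQ, ← pow_mul, mul_comm E s]; push_cast; rfl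
  obtain ⟨N, hN⟩ := exists_nat_gt (2 * ((δ + 3) * ℓ) / ε)
  refine ⟨N, fun n hn i => ?_⟩
  have hn' : (δ + 3) * ℓ ≤ ε / 2 * n := by
    have h1 : 2 * ((δ + 3) * ℓ) / ε ≤ n := hN.le.trans (by exact_mod_cast hn)
    rw [div_le_iff₀ hε] at h1
    linarith
  set a := i / ℓ with ha
  set b' := (i + n) / ℓ with hb'
  have hab : a ≤ b' := Nat.div_le_div_right (by omega)
  have ha1 : a * ℓ ≤ i := Nat.div_mul_le_self i ℓ
  have ha2 : i < a * ℓ + ℓ := by
    have := Nat.lt_div_mul_add hℓ0 (a := i); omega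
  have hb1 : b' * ℓ ≤ i + n := Nat.div_mul_le_self (i + n) ℓ
  have hb2 : i + n < b' * ℓ + ℓ := by
    have := Nat.lt_div_mul_add hℓ0 (a := i + n); omega
  -- occ 0 (i + n) = occ 0 (aℓ) + blocks + rest, and so on
  have e1 : occ u B 0 (i + n) = occ u B 0 i + occ u B i n := by
    have := occ_add u B 0 i n; rwa [zero_add] at this
  have e2 : occ u B 0 i = occ u B 0 (a * ℓ) + occ u B (a * ℓ) (i - a * ℓ) := by
    have := occ_add u B 0 (a * ℓ) (i - a * ℓ)
    rwa [zero_add, Nat.add_sub_cancel' ha1] at this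
  have e3 : occ u B 0 (i + n) = occ u B 0 (b' * ℓ) + occ u B (b' * ℓ) (i + n - b' * ℓ) := by
    have := occ_add u B 0 (b' * ℓ) (i + n - b' * ℓ)
    rwa [zero_add, Nat.add_sub_cancel' hb1] at this
  have e4 : occ u B 0 (b' * ℓ) = occ u B 0 (a * ℓ) + occ u B (a * ℓ) ((b' - a) * ℓ) := by
    have := occ_add u B 0 (a * ℓ) ((b' - a) * ℓ)
    rwa [zero_add, ← add_mul, Nat.add_sub_cancel' hab] at this
  have r1 : (occ u B (a * ℓ) (i - a * ℓ) : ℝ) ≤ ℓ := by
    have := occ_le u B (a * ℓ) (i - a * ℓ)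
    have h2 : occ u B (a * ℓ) (i - a * ℓ) ≤ ℓ := by omega
    exact_mod_cast h2
  have r2 : (occ u B (b' * ℓ) (i + n - b' * ℓ) : ℝ) ≤ ℓ := by
    have := occ_le u B (b' * ℓ) (i + n - b' * ℓ)
    have h2 : occ u B (b' * ℓ) (i + n - b' * ℓ) ≤ ℓ := by omega
    exact_mod_cast h2
  have r1' : (0 : ℝ) ≤ occ u B (a * ℓ) (i - a * ℓ) := by positivity
  have r2' : (0 : ℝ) ≤ occ u B (b' * ℓ) (i + n - b' * ℓ) := by positivity
  have e5 : (occ u B i n : ℝ) = occ u B (a * ℓ) ((b' - a) * ℓ)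
      + occ u B (b' * ℓ) (i + n - b' * ℓ) - occ u B (a * ℓ) (i - a * ℓ) := by
    have h1 : (occ u B 0 (i + n) : ℝ) = occ u B 0 i + occ u B i n := by exact_mod_cast e1
    have h2 : (occ u B 0 i : ℝ) = occ u B 0 (a * ℓ) + occ u B (a * ℓ) (i - a * ℓ) := by
      exact_mod_cast e2
    have h3 : (occ u B 0 (i + n) : ℝ) = occ u B 0 (b' * ℓ)
        + occ u B (b' * ℓ) (i + n - b' * ℓ) := by exact_mod_cast e3
    have h4 : (occ u B 0 (b' * ℓ) : ℝ) = occ u B 0 (a * ℓ)
        + occ u B (a * ℓ) ((b' - a) * ℓ) := by exact_mod_cast e4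
    linarith
  have hblocks : |(occ u B (a * ℓ) ((b' - a) * ℓ) : ℝ) - θ * ((b' - a : ℕ) * ℓ)|
      ≤ δ * ((b' - a : ℕ) * ℓ) := by
    rw [occ_blocks]
    push_cast
    have h1 : θ * ((b' - a : ℕ) * ℓ) = ∑ _m ∈ Finset.range (b' - a), θ * ℓ := by
      rw [Finset.sum_const, Finset.card_range, nsmul_eq_mul]; ring
    rw [h1, ← Finset.sum_sub_distrib]
    refine (Finset.abs_sum_le_sum_abs _ _).trans ?_
    have h2 : ∀ m ∈ Finset.range (b' - a), |(occ u B (a * ℓ + m * ℓ) ℓ : ℝ) - θ * ℓ| ≤ δ * ℓ := by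
      intro m _
      have h3 := hclose s (a + m)
      have h4 : (occ u B (a * ℓ + m * ℓ) ℓ : ℝ) = c s (a + m) * ℓ := by
        rw [hc]
        simp only
        rw [hℓQ, div_mul_cancel₀ _ (by positivity), ← hℓ, mul_add, mul_comm ℓ a, mul_comm ℓ m]
      rw [h4, ← sub_mul, abs_mul, abs_of_nonneg (by positivity : (0 : ℝ) ≤ ℓ)]
      exact mul_le_mul_of_nonneg_right h3 (by positivity)
    refine (Finset.sum_le_card_nsmul _ _ _ h2).trans ?_
    rw [Finset.card_range, nsmul_eq_mul]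
    exact le_of_eq (by ring)
  have hlen : |((b' - a : ℕ) * ℓ : ℝ) - n| ≤ ℓ := by
    have h1 : ((b' - a : ℕ) : ℝ) = (b' : ℝ) - a := Nat.cast_sub hab
    rw [h1, sub_mul]
    have h2 : (a : ℝ) * ℓ ≤ i := by exact_mod_cast ha1
    have h3 : (i : ℝ) ≤ a * ℓ + ℓ := by exact_mod_cast ha2.le
    have h4 : (b' : ℝ) * ℓ ≤ i + n := by exact_mod_cast hb1
    have h5 : (i : ℝ) + n ≤ b' * ℓ + ℓ := by exact_mod_cast hb2.le
    rw [abs_le]
    constructor <;> linarith
  have hlen2 : ((b' - a : ℕ) * ℓ : ℝ) ≤ n + ℓ := by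
    have := (abs_le.mp hlen).2; linarith
  have h6 : |θ * ((b' - a : ℕ) * ℓ) - θ * n| ≤ ℓ := by
    rw [← mul_sub, abs_mul]
    calc |θ| * |((b' - a : ℕ) * ℓ : ℝ) - n| ≤ 1 * ℓ :=
          mul_le_mul hθb hlen (abs_nonneg _) zero_le_one
      _ = ℓ := one_mul _
  have h7 := abs_le.mp hblocks
  have h8 := abs_le.mp h6
  have h9 : δ * ((b' - a : ℕ) * ℓ) ≤ δ * (n + ℓ) := mul_le_mul_of_nonneg_left hlen2 hδ0
  have h10 : δ * (n : ℝ) ≤ ε / 2 * n := mul_le_mul_of_nonneg_right hs.le (by positivity)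
  have hℓR : (0 : ℝ) ≤ ℓ := by positivity
  rw [e5, abs_le]
  constructor <;> nlinarith

end

end Pool.Agent.Lib.MP_d0d59f_nt
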