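import Pool.Agent.Lib.MP_d0d59f_nt.AutoKernel
import Pool.Agent.Lib.MP_d0d59f_nt.AutoSubst

/-!
Parity sequences that are codings of fixed points of substitutions of constant length.
-/

namespace Pool.Agent.Lib.MP_d0d59f_nt

open Filter Topology

/-- the orbit of `x` under `T_d` is eventually periodic -/
def EventuallyPeriodic (d x : ℤ) : Prop := ∃ m p : ℕ, 0 < p ∧ (T d)^[m + p] x = (T d)^[m] x

theorem ones_eq_occ (d x : ℤ) {A : Type} (u : ℕ → A) (τ : A → ℤ)
    (hw : ∀ n, (T d)^[n] x % 2 = τ (u n)) (i n : ℕ) :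
    ones d ((T d)^[i] x) n = occ u {a | τ a = 1} i n := by
  classical
  unfold ones occ
  congr 1
  ext j
  simp only [Finset.mem_filter, Finset.mem_range, Set.mem_setOf_eq]
  rw [← Function.iterate_add_apply, add_comm j i, hw]

/-- codings of fixed points of substitutions of constant length are automatic -/
theorem isAutomatic_of_substitution {A : Type} [Finite A] {k : ℕ} {σ : A → Fin k → A} {u : ℕ → A}
    (hu : ∀ n (r : Fin k), u (k * n + r) = σ (u n) r) (τ : A → ℤ) :
    IsAutomatic k fun n => τ (u n) := by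
  classical
  have hfin : (Set.range fun F : A → A => fun n => τ (F (u n))).Finite := Set.finite_range _
  refine hfin.subset ?_
  rintro f ⟨e, r, hr, rfl⟩
  refine ⟨fun a => if h : ∃ n, u n = a then u (k ^ e * h.choose + r) else a, ?_⟩
  funext n
  have hex : ∃ n', u n' = u n := ⟨n, rfl⟩
  simp only [dif_pos hex]
  rw [block_congr hu e _ _ hex.choose_spec r hr]

/-- A parity sequence which is the coding of a fixed point of a substitution of constant length in
which some letter occurs with bounded gaps. -/
theorem eventually_periodic_of_substitution {d : ℤ} (hd : Odd d) {x : ℤ} {A : Type} [Finite A]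
    {k : ℕ} (hk : 2 ≤ k) (σ : A → Fin k → A) (u : ℕ → A)
    (hu : ∀ n (r : Fin k), u (k * n + r) = σ (u n) r) (b : A) (g : ℕ)
    (hb : ∀ n, ∃ j < g, u (n + j) = b) (τ : A → ℤ) (hw : ∀ n, (T d)^[n] x % 2 = τ (u n)) :
    EventuallyPeriodic d x := by
  obtain ⟨θ, hθ⟩ := uniform_frequency_of_substitution hk hu {a | τ a = 1} b g hb
  refine eventually_periodic_of_automatic (θ := θ) hd ?_ hk ?_
  · intro ε hε
    obtain ⟨N, hN⟩ := hθ ε hε
    refine ⟨N, fun n hn i => ?_⟩
    rw [ones_eq_occ d x u τ hw]
    exact hN n hn i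
  · have := isAutomatic_of_substitution hu τ
    rwa [show (fun n => (T d)^[n] x % 2) = fun n => τ (u n) from funext hw]

end Pool.Agent.Lib.MP_d0d59f_nt
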