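import Pool.Agent.Lib.MP_d0d59f_nt.AutoOrbit

/-!
Automatic parity sequences.
-/

namespace Pool.Agent.Lib.MP_d0d59f_nt

open Filter Topology Auto

/-- the `k`-kernel of a sequence: the sequences `n ↦ w (k ^ e n + r)`, `r < k ^ e` -/
def kernel {α : Type*} (k : ℕ) (w : ℕ → α) : Set (ℕ → α) :=
  {f | ∃ e r : ℕ, r < k ^ e ∧ f = fun n => w (k ^ e * n + r)}

/-- `w` is `k`-automatic: its `k`-kernel is finite -/
def IsAutomatic {α : Type*} (k : ℕ) (w : ℕ → α) : Prop := (kernel k w).Finite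

section AKaux

theorem ak_sum_mul (m b : ℕ) (f : ℕ → ℚ) :
    ∑ j ∈ Finset.range (m * b), f j =
      ∑ r ∈ Finset.range b, ∑ j ∈ Finset.range m, f (m * r + j) := by
  induction b with
  | zero => simp
  | succ b ih => rw [Nat.mul_succ, Finset.sum_range_add, ih, Finset.sum_range_succ]

open Classical in
theorem ak_ncard (w : ℕ → Prop) (m i : ℕ) :
    (Set.ncard {j | j < m ∧ w (i + j)} : ℚ) =
      ∑ j ∈ Finset.range m, if w (i + j) then (1 : ℚ) else 0 := by
  have h : {j | j < m ∧ w (i + j)} = ((Finset.range m).filter fun j => w (i + j) : Finset ℕ) := by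
    ext j
    simp
  rw [h, Set.ncard_coe_finset, Finset.card_filter]
  push_cast
  rfl

open Classical in
theorem ak_main {α : Type*} [Finite α] (u : ℕ → α) (hu : Function.Surjective u) {k : ℕ}
    (hk : 2 ≤ k) (w : ℕ → Prop)
    (h1 : ∀ n n', u n = u n' → ∀ r < k, u (k * n + r) = u (k * n' + r))
    (h2 : ∀ n n', u n = u n' → (w n ↔ w n')) {θ : ℝ}
    (hθ : ∀ ε : ℝ, 0 < ε → ∃ N : ℕ, ∀ n : ℕ, N ≤ n → ∀ i : ℕ,
      |(Set.ncard {j | j < n ∧ w (i + j)} : ℝ) - θ * n| ≤ ε * n) :
    ∃ q : ℚ, (q : ℝ) = θ := by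
  have := Fintype.ofFinite α
  have hk0 : (k : ℚ) ≠ 0 := by
    have : 0 < k := by omega
    positivity
  set s : α → ℕ := Function.surjInv hu with hs
  have hus : ∀ a, u (s a) = a := fun a => Function.surjInv_eq hu a
  let P : (α → ℚ) →ₗ[ℚ] (α → ℚ) :=
    { toFun := fun g a => (1 / (k : ℚ)) * ∑ r ∈ Finset.range k, g (u (k * s a + r))
      map_add' := by
        intro g g'
        funext a
        simp only [Pi.add_apply, Finset.sum_add_distrib]
        ring
      map_smul' := by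
        intro c g
        funext a
        simp only [Pi.smul_apply, smul_eq_mul, RingHom.id_apply]
        rw [← Finset.mul_sum]
        ring }
  have hP : ∀ g a, P g a = (1 / (k : ℚ)) * ∑ r ∈ Finset.range k, g (u (k * s a + r)) :=
    fun _ _ => rfl
  have hPu : ∀ g n, P g (u n) = (1 / (k : ℚ)) * ∑ r ∈ Finset.range k, g (u (k * n + r)) := by
    intro g n
    rw [hP]
    congr 1
    refine Finset.sum_congr rfl fun r hr => ?_
    rw [h1 (s (u n)) n (hus (u n)) r (Finset.mem_range.1 hr)]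
  have hP1 : P 1 = 1 := by
    funext a
    rw [hP]
    simp only [Pi.one_apply, Finset.sum_const, Finset.card_range, nsmul_eq_mul, mul_one]
    field_simp
  have hPb : ∀ (C : ℚ) (g : α → ℚ), (∀ a, |g a| ≤ C) → ∀ a, |P g a| ≤ C := by
    intro C g hg a
    rw [hP, abs_mul, abs_of_nonneg (by positivity : (0 : ℚ) ≤ 1 / (k : ℚ))]
    have : |∑ r ∈ Finset.range k, g (u (k * s a + r))| ≤ k * C := by
      refine (Finset.abs_sum_le_sum_abs _ _).trans ?_
      refine (Finset.sum_le_sum fun r _ => hg _).trans ?_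
      simp
    calc 1 / (k : ℚ) * |∑ r ∈ Finset.range k, g (u (k * s a + r))|
        ≤ 1 / (k : ℚ) * (k * C) := mul_le_mul_of_nonneg_left this (by positivity)
      _ = C := by field_simp
  have hnot : (1 : α → ℚ) ∉ LinearMap.range (LinearMap.id - P) := by
    rintro ⟨x, hx⟩
    have hx' : P x = x - 1 := by
      have : x - P x = 1 := by simpa using hx
      rw [← this]
      abel
    obtain ⟨C, hC⟩ : ∃ C : ℚ, ∀ a, |x a| ≤ C := by
      obtain ⟨C, hC⟩ := (Set.finite_range fun a => |x a|).bddAbove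
      exact ⟨C, fun a => hC ⟨a, rfl⟩⟩
    have hiter : ∀ n : ℕ, ∀ a, |x a - n| ≤ C := by
      intro n
      have key : ∃ y : α → ℚ, (∀ a, y a = x a - n) ∧ ∀ a, |y a| ≤ C := by
        induction n with
        | zero => exact ⟨x, by simp, hC⟩
        | succ n ih =>
          obtain ⟨y, hy, hyC⟩ := ih
          refine ⟨P y, ?_, hPb C y hyC⟩
          have hy' : y = x - (n : ℚ) • (1 : α → ℚ) := by
            funext a
            simp [hy a]
          rw [hy', map_sub, map_smul, hP1, hx']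
          intro a
          simp only [Pi.sub_apply, Pi.smul_apply, Pi.one_apply, smul_eq_mul, mul_one]
          push_cast
          ring
      obtain ⟨y, hy, hyC⟩ := key
      intro a
      rw [← hy a]
      exact hyC a
    obtain ⟨n, hn⟩ := exists_nat_gt (C + |x (u 0)|)
    have h3 := hiter n (u 0)
    rw [abs_le] at h3
    have h4 := le_abs_self (x (u 0))
    linarith [h3.1]
  obtain ⟨ν, hν1, hν⟩ := Submodule.exists_le_ker_of_notMem hnot
  have hνP : ∀ g, ν (P g) = ν g := by
    intro g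
    have : (LinearMap.id - P : (α → ℚ) →ₗ[ℚ] (α → ℚ)) g ∈ LinearMap.ker ν := hν ⟨g, rfl⟩
    rw [LinearMap.mem_ker] at this
    simp only [LinearMap.sub_apply, LinearMap.id_coe, id_eq, map_sub] at this
    linarith
  set τ : α → ℚ := fun a => if w (s a) then 1 else 0 with hτ
  have hτu : ∀ n, τ (u n) = if w n then 1 else 0 := by
    intro n
    have := h2 (s (u n)) n (hus (u n))
    simp only [hτ, this]
  have hF : ∀ e n, (P ^ e) τ (u n) =
      (∑ j ∈ Finset.range (k ^ e), if w (k ^ e * n + j) then (1 : ℚ) else 0) / (k : ℚ) ^ e := by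
    intro e
    induction e with
    | zero =>
      intro n
      simp only [pow_zero, Module.End.one_apply, Finset.range_one, Finset.sum_singleton, one_mul,
        add_zero, div_one]
      exact hτu n
    | succ e ih =>
      intro n
      rw [pow_succ', Module.End.mul_apply, hPu]
      simp only [ih]
      rw [pow_succ, pow_succ, ak_sum_mul, ← Finset.sum_div]
      have h5 : ∀ r ∈ Finset.range k,
          (∑ j ∈ Finset.range (k ^ e), if w (k ^ e * (k * n + r) + j) then (1 : ℚ) else 0) =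
          ∑ j ∈ Finset.range (k ^ e), if w (k ^ e * k * n + (k ^ e * r + j)) then (1 : ℚ) else 0 := by
        intro r _
        refine Finset.sum_congr rfl fun j _ => ?_
        have : k ^ e * (k * n + r) + j = k ^ e * k * n + (k ^ e * r + j) := by ring
        rw [this]
      rw [Finset.sum_congr rfl h5]
      field_simp
  have hνe : ∀ e, ν ((P ^ e) τ) = ν τ := by
    intro e
    induction e with
    | zero => simp
    | succ e ih => rw [pow_succ', Module.End.mul_apply, hνP, ih]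
  have hlim : ∀ a, Tendsto (fun e : ℕ => (((P ^ e) τ a : ℚ) : ℝ)) atTop (𝓝 θ) := by
    intro a
    obtain ⟨n, rfl⟩ := hu a
    rw [Metric.tendsto_atTop]
    intro ε hε
    obtain ⟨N, hN⟩ := hθ (ε / 2) (by positivity)
    refine ⟨N, fun e he => ?_⟩
    have hke : N ≤ k ^ e := he.trans (Nat.lt_pow_self (by omega)).le
    have h6 := hN (k ^ e) hke (k ^ e * n)
    have hkpos : (0 : ℝ) < ((k ^ e : ℕ) : ℝ) := by
      have : 0 < k ^ e := by positivity
      exact_mod_cast this
    have h7 : (((P ^ e) τ (u n) : ℚ) : ℝ) =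
        (Set.ncard {j | j < k ^ e ∧ w (k ^ e * n + j)} : ℝ) / ((k ^ e : ℕ) : ℝ) := by
      rw [hF, ← ak_ncard w (k ^ e) (k ^ e * n)]
      push_cast
      rfl
    rw [h7, Real.dist_eq]
    have h8 : (Set.ncard {j | j < k ^ e ∧ w (k ^ e * n + j)} : ℝ) / ((k ^ e : ℕ) : ℝ) - θ =
        ((Set.ncard {j | j < k ^ e ∧ w (k ^ e * n + j)} : ℝ) - θ * ((k ^ e : ℕ) : ℝ)) /
          ((k ^ e : ℕ) : ℝ) := by
      field_simp
    rw [h8, abs_div, abs_of_pos hkpos, div_lt_iff₀ hkpos]
    have : ε / 2 * ((k ^ e : ℕ) : ℝ) < ε * ((k ^ e : ℕ) : ℝ) := by nlinarith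
    linarith
  have hνsum : ∀ g : α → ℚ, ν g = ∑ a, g a * ν (Pi.single a 1) := by
    intro g
    have := LinearMap.pi_apply_eq_sum_univ ν g
    rw [this]
    refine Finset.sum_congr rfl fun a _ => ?_
    rw [smul_eq_mul]
    congr 2
    funext b
    by_cases hb : a = b
    · subst hb; simp
    · simp [hb, Ne.symm hb]
  have hlim2 : Tendsto (fun e : ℕ => ((ν ((P ^ e) τ) : ℚ) : ℝ)) atTop (𝓝 (θ * (ν 1 : ℚ))) := by
    have h9 : (θ * ((ν 1 : ℚ) : ℝ)) = ∑ a, θ * ((ν (Pi.single a 1) : ℚ) : ℝ) := by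
      rw [hνsum 1]
      push_cast
      rw [Finset.mul_sum]
      simp
    rw [h9]
    have h10 : (fun e : ℕ => ((ν ((P ^ e) τ) : ℚ) : ℝ)) =
        fun e : ℕ => ∑ a, (((P ^ e) τ a : ℚ) : ℝ) * ((ν (Pi.single a 1) : ℚ) : ℝ) := by
      funext e
      rw [hνsum ((P ^ e) τ)]
      push_cast
      rfl
    rw [h10]
    exact tendsto_finsetSum _ fun a _ => (hlim a).mul_const _
  have h11 : ((ν τ : ℚ) : ℝ) = θ * ((ν 1 : ℚ) : ℝ) := by
    refine tendsto_nhds_unique (?_ : Tendsto (fun e : ℕ => ((ν ((P ^ e) τ) : ℚ) : ℝ)) atTop _) hlim2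
    simp only [hνe]
    exact tendsto_const_nhds
  have h12 : ((ν 1 : ℚ) : ℝ) ≠ 0 := by exact_mod_cast hν1
  refine ⟨ν τ / ν 1, ?_⟩
  push_cast
  rw [h11]
  field_simp

/-- the letters of an automatic sequence -/
def akLetter {α : Type*} (k : ℕ) (w : ℕ → α) (n : ℕ) : kernel k w → α := fun f => f.1 n

theorem ak_letter_succ {α : Type*} {k : ℕ} (w : ℕ → α) {n n' : ℕ}
    (h : akLetter k w n = akLetter k w n') {r : ℕ} (hr : r < k) :
    akLetter k w (k * n + r) = akLetter k w (k * n' + r) := by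
  funext ⟨f, e, s, hs, hf⟩
  have hmem : (fun n => w (k ^ (e + 1) * n + (k ^ e * r + s))) ∈ kernel k w := by
    refine ⟨e + 1, k ^ e * r + s, ?_, rfl⟩
    calc k ^ e * r + s < k ^ e * r + k ^ e := by omega
      _ = k ^ e * (r + 1) := by ring
      _ ≤ k ^ e * k := Nat.mul_le_mul_left _ hr
      _ = k ^ (e + 1) := (pow_succ _ _).symm
  have h1 := congrFun h ⟨_, hmem⟩
  simp only [akLetter] at h1 ⊢
  subst hf
  have e1 : ∀ n, k ^ e * (k * n + r) + s = k ^ (e + 1) * n + (k ^ e * r + s) := by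
    intro n
    rw [pow_succ]
    ring
  simp only [e1]
  exact h1

theorem ak_mem_kernel {α : Type*} {k : ℕ} (w : ℕ → α) {e j : ℕ} (hj : j < k ^ e) :
    (fun n => w (k ^ e * n + j)) ∈ kernel k w := ⟨e, j, hj, rfl⟩

theorem ak_self_mem {α : Type*} (k : ℕ) (w : ℕ → α) : w ∈ kernel k w :=
  ⟨0, 0, by simp, by simp⟩

end AKaux

/-- the uniform frequency of the ones in an automatic sequence is rational -/
theorem frequency_rational {k : ℕ} (hk : 2 ≤ k) {w : ℕ → Prop} (hw : IsAutomatic k w) {θ : ℝ}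
    (hθ : ∀ ε : ℝ, 0 < ε → ∃ N : ℕ, ∀ n : ℕ, N ≤ n → ∀ i : ℕ,
      |(Set.ncard {j | j < n ∧ w (i + j)} : ℝ) - θ * n| ≤ ε * n) :
    ∃ q : ℚ, (q : ℝ) = θ := by
  have : Finite (kernel k w) := hw
  have : Finite (kernel k w → Prop) := Pi.finite
  refine ak_main (α := Set.range (akLetter k w)) (Set.rangeFactorization (akLetter k w))
    Set.rangeFactorization_surjective hk w ?_ ?_ hθ
  · intro n n' h r hr
    have h' : akLetter k w n = akLetter k w n' := congrArg Subtype.val h
    exact Subtype.ext (ak_letter_succ w h' hr)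
  · intro n n' h
    have h' : akLetter k w n = akLetter k w n' := congrArg Subtype.val h
    have h3 := congrFun h' ⟨w, ak_self_mem k w⟩
    simp only [akLetter] at h3
    rw [h3]

theorem ak_logb_irrational : Irrational (Real.logb 2 3) := by
  rintro ⟨q, hq⟩
  have hpos : 0 < Real.logb 2 3 := Real.logb_pos (by norm_num) (by norm_num)
  have hq0 : 0 < q := by
    rw [← hq] at hpos
    exact_mod_cast hpos
  have hnum : 0 < q.num := Rat.num_pos.2 hq0
  have h1 : (q : ℝ) * q.den = q.num := by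
    have : (q * q.den : ℚ) = q.num := Rat.mul_den_eq_num q
    exact_mod_cast this
  have h2 : (2 : ℝ) ^ (q.num.toNat) = 3 ^ q.den := by
    have h3 : (2 : ℝ) ^ Real.logb 2 3 = 3 := Real.rpow_logb (by norm_num) (by norm_num) (by norm_num)
    calc (2 : ℝ) ^ (q.num.toNat) = (2 : ℝ) ^ ((q.num.toNat : ℕ) : ℝ) := (Real.rpow_natCast _ _).symm
      _ = (2 : ℝ) ^ ((q : ℝ) * q.den) := by
          congr 1
          rw [h1]
          have : ((q.num.toNat : ℤ) : ℝ) = (q.num : ℝ) := by
            rw [Int.toNat_of_nonneg hnum.le]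
          exact_mod_cast this
      _ = ((2 : ℝ) ^ (q : ℝ)) ^ (q.den : ℕ) := by
          rw [Real.rpow_mul (by norm_num), Real.rpow_natCast]
      _ = 3 ^ q.den := by rw [hq, h3]
  have h4 : (2 : ℕ) ^ (q.num.toNat) = 3 ^ q.den := by exact_mod_cast h2
  have h5 : q.num.toNat ≠ 0 := by omega
  have h6 : Even (3 ^ q.den : ℕ) := by
    rw [← h4]
    exact (even_two.pow_of_ne_zero h5)
  have h7 : Odd (3 ^ q.den : ℕ) := Odd.pow (by decide)
  exact (Nat.not_even_iff_odd.2 h7) h6

theorem ak_ncard_ones (d x : ℤ) (n i : ℕ) :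
    Set.ncard {j | j < n ∧ (T d)^[i + j] x % 2 = 1} = ones d ((T d)^[i] x) n := by
  have h : {j | j < n ∧ (T d)^[i + j] x % 2 = 1} =
      ((Finset.range n).filter fun j => (T d)^[j] ((T d)^[i] x) % 2 = 1 : Finset ℕ) := by
    ext j
    simp only [Set.mem_ofPred_eq, Finset.coe_filter, Finset.mem_range]
    rw [← Function.iterate_add_apply, add_comm i j]
  rw [h, Set.ncard_coe_finset, ones]

theorem ak_theta_ne_zero {d : ℤ} (hd : Odd d) {x : ℤ}
    (hx : ∀ m p : ℕ, 0 < p → (T d)^[m + p] x ≠ (T d)^[m] x)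
    (hθ : UniformFrequency d x 0) : False := by
  obtain ⟨β, hβ, hlim⟩ := tendsto_normalized hx hd
  obtain ⟨B, hB⟩ := hlim.norm.bddAbove_range
  obtain ⟨N, hN⟩ := hθ (1 / 2) (by norm_num)
  have key : ∀ n : ℕ, N ≤ n → 1 ≤ B ^ 2 * (3 / 4 : ℝ) ^ n := by
    intro n hn
    have h1 := hN n hn 0
    simp only [Function.iterate_zero, id_eq, zero_mul, sub_zero] at h1
    have h1' := (le_abs_self _).trans h1
    have h2 : 2 * ones d x n ≤ n := by
      have : (2 * ones d x n : ℝ) ≤ n := by linarith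
      exact_mod_cast this
    have h3 := hB ⟨n, rfl⟩
    simp only [norm_mul, norm_div, norm_pow, Real.norm_eq_abs] at h3
    rw [abs_of_pos (by norm_num : (0:ℝ) < 2), abs_of_pos (by norm_num : (0:ℝ) < 3)] at h3
    have h4 : (1 : ℝ) ≤ |((T d)^[n] x : ℝ)| := by
      have := Int.one_le_abs (orbit_ne_zero hx n)
      exact_mod_cast this
    have h5 : (2 : ℝ) ^ n / 3 ^ (ones d x n) ≤ B := by
      refine le_trans ?_ h3
      exact le_mul_of_one_le_right (by positivity) h4
    have h6 : (4 / 3 : ℝ) ^ n ≤ ((2 : ℝ) ^ n / 3 ^ (ones d x n)) ^ 2 := by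
      rw [div_pow, div_pow, ← pow_mul, ← pow_mul, mul_comm n 2, pow_mul, mul_comm _ 2]
      norm_num only [show (2 : ℝ) ^ 2 = 4 by norm_num]
      apply div_le_div_of_nonneg_left (by positivity) (by positivity)
      exact pow_le_pow_right₀ (by norm_num) h2
    have h7 : ((2 : ℝ) ^ n / 3 ^ (ones d x n)) ^ 2 ≤ B ^ 2 :=
      pow_le_pow_left₀ (by positivity) h5 2
    have h8 : (4 / 3 : ℝ) ^ n * (3 / 4) ^ n = 1 := by
      rw [← mul_pow]
      norm_num
    calc (1 : ℝ) = (4 / 3 : ℝ) ^ n * (3 / 4) ^ n := h8.symm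
      _ ≤ B ^ 2 * (3 / 4) ^ n := mul_le_mul_of_nonneg_right (h6.trans h7) (by positivity)
  have h9 : Tendsto (fun n : ℕ => B ^ 2 * (3 / 4 : ℝ) ^ n) atTop (𝓝 (B ^ 2 * 0)) :=
    (tendsto_pow_atTop_nhds_zero_of_lt_one (by norm_num) (by norm_num)).const_mul _
  rw [mul_zero] at h9
  have h10 : (1 : ℝ) ≤ 0 := ge_of_tendsto h9 (Filter.eventually_atTop.2 ⟨N, key⟩)
  linarith

/-- An orbit with an automatic parity sequence with uniform frequency is eventually periodic. -/
theorem eventually_periodic_of_automatic {d : ℤ} (hd : Odd d) {x : ℤ} {θ : ℝ}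
    (hθ : UniformFrequency d x θ) {k : ℕ} (hk : 2 ≤ k)
    (hw : IsAutomatic k fun n => (T d)^[n] x % 2) :
    ∃ m p : ℕ, 0 < p ∧ (T d)^[m + p] x = (T d)^[m] x := by
  by_contra hcon
  have hx : ∀ m p : ℕ, 0 < p → (T d)^[m + p] x ≠ (T d)^[m] x := by
    intro m p hp h
    exact hcon ⟨m, p, hp, h⟩
  set w : ℕ → ℤ := fun n => (T d)^[n] x % 2 with hwdef
  -- the frequency is rational
  have hwP : IsAutomatic k fun n => w n = 1 := by
    refine (hw.image fun f : ℕ → ℤ => fun n => f n = 1).subset ?_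
    rintro f ⟨e, r, hr, rfl⟩
    exact ⟨fun n => w (k ^ e * n + r), ⟨e, r, hr, rfl⟩, rfl⟩
  obtain ⟨q, hq⟩ : ∃ q : ℚ, (q : ℝ) = θ := by
    refine frequency_rational hk hwP ?_
    intro ε hε
    obtain ⟨N, hN⟩ := hθ ε hε
    refine ⟨N, fun n hn i => ?_⟩
    have := hN n hn i
    rwa [← ak_ncard_ones] at this
  by_cases hirr : Irrational (θ * Real.logb 2 3)
  · -- bounded number of blocks
    apply hcon
    have hfin : Finite (kernel k w) := hw
    have hrange : (Set.range (akLetter k w)).Finite := by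
      have h1 : (Set.univ.pi fun _ : kernel k w => ({0, 1} : Set ℤ)).Finite :=
        Set.Finite.pi fun _ => Set.toFinite _
      refine h1.subset ?_
      rintro _ ⟨n, rfl⟩
      rintro ⟨f, e, r, hr, rfl⟩ _
      simp only [akLetter, hwdef]
      rcases Int.emod_two_eq_zero_or_one ((T d)^[k ^ e * n + r] x) with h | h <;> rw [h] <;> simp
    refine eventually_periodic_of_blocks hd hθ hirr (Set.range (akLetter k w)).ncard 0 ?_
    rw [Filter.frequently_atTop]
    intro a
    refine ⟨k ^ a, (Nat.lt_pow_self (by omega)).le, 0, Nat.zero_le _, ?_⟩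
    have h2 : (Set.range fun n => factor d x (k ^ a) (0 + n * k ^ a)) ⊆
        (fun l : kernel k w → ℤ => fun j : Fin (k ^ a) =>
          l ⟨fun n => w (k ^ a * n + j), ak_mem_kernel w j.2⟩) '' Set.range (akLetter k w) := by
      rintro _ ⟨n, rfl⟩
      refine ⟨akLetter k w n, ⟨n, rfl⟩, ?_⟩
      funext j
      simp only [akLetter, factor, hwdef]
      rw [zero_add, mul_comm n]
    unfold blockCount
    exact (Set.ncard_le_ncard h2 (hrange.image _)).trans (Set.ncard_image_le hrange)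
  · -- rational
    rw [Irrational, not_not] at hirr
    obtain ⟨q', hq'⟩ := hirr
    by_cases h0 : θ = 0
    · rw [h0] at hθ
      exact ak_theta_ne_zero hd hx hθ
    · apply ak_logb_irrational
      refine ⟨q' / q, ?_⟩
      push_cast
      rw [hq', hq]
      field_simp

end Pool.Agent.Lib.MP_d0d59f_nt
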