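import Pool.Agent.Lib.MP_d0d59f_nt.AutoHt

/-!
The absolute values `lim n(f m) ^ (1 / L m)` on the ultraproduct field.
-/

namespace Pool.Agent.Lib.MP_d0d59f_nt.Auto

open Filter Topology

variable {L : ℕ → ℕ} {hL : Tendsto L atTop atTop}

/-- `n` is an absolute value on `ℚ` bounded in terms of the height -/
structure HtBound (n : AbsoluteValue ℚ ℝ) : Prop where
  le : ∀ q, n q ≤ ht q
  ge : ∀ q, q ≠ 0 → 1 ≤ n q * ht q

theorem al_den_le (q : ℚ) : (q.den : ℝ) ≤ ht q := by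
  exact_mod_cast le_max_right _ _

theorem al_num_le (q : ℚ) : |(q.num : ℝ)| ≤ ht q := by
  have h : ((q.num.natAbs : ℕ) : ℝ) ≤ ht q := by exact_mod_cast le_max_left _ _
  rwa [Nat.cast_natAbs, Int.cast_abs] at h

theorem htBound_real : HtBound Rat.AbsoluteValue.real := by
  refine ⟨fun q => ?_, fun q hq => ?_⟩
  · rw [Rat.AbsoluteValue.real_eq_abs]
    have hd : (1 : ℝ) ≤ q.den := by exact_mod_cast q.pos
    have h1 : (q : ℝ) = q.num / q.den := by exact_mod_cast (Rat.num_div_den q).symm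
    push_cast
    rw [h1, abs_div, abs_of_pos (by linarith : (0 : ℝ) < q.den), div_le_iff₀ (by linarith)]
    calc |(q.num : ℝ)| ≤ ht q := al_num_le q
      _ = ht q * 1 := (mul_one _).symm
      _ ≤ ht q * q.den := by gcongr
  · rw [Rat.AbsoluteValue.real_eq_abs]
    have hd : (1 : ℝ) ≤ q.den := by exact_mod_cast q.pos
    have h1 : (q : ℝ) = q.num / q.den := by exact_mod_cast (Rat.num_div_den q).symm
    have hn : (1 : ℝ) ≤ |(q.num : ℝ)| := by
      have : (1 : ℤ) ≤ |q.num| := Int.one_le_abs (Rat.num_ne_zero.mpr hq)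
      exact_mod_cast this
    push_cast
    calc (1 : ℝ) ≤ |(q.num : ℝ)| := hn
      _ = |(q : ℝ)| * q.den := by
        rw [h1, abs_div, abs_of_pos (by linarith : (0 : ℝ) < q.den)]
        field_simp
      _ ≤ |(q : ℝ)| * ht q := mul_le_mul_of_nonneg_left (al_den_le q) (abs_nonneg _)

theorem al_padic_int (z : ℤ) (hz : z ≠ 0) : (1 : ℝ) ≤ Rat.AbsoluteValue.padic 2 (z : ℚ) * |(z : ℝ)| := by
  have h1 : (2 : ℤ) ^ padicValInt 2 z ∣ z := by
    have := padicValInt_dvd (p := 2) z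
    simpa using this
  have h2 : (2 : ℤ) ^ padicValInt 2 z ≤ |z| :=
    Int.le_of_dvd (abs_pos.mpr hz) ((dvd_abs _ _).mpr h1)
  have h3 : (2 : ℝ) ^ padicValInt 2 z ≤ |(z : ℝ)| := by exact_mod_cast h2
  have h4 : Rat.AbsoluteValue.padic 2 (z : ℚ) = ((2 : ℝ) ^ padicValInt 2 z)⁻¹ := by
    rw [Rat.AbsoluteValue.padic_eq_padicNorm, padicNorm.eq_zpow_of_nonzero (by exact_mod_cast hz),
      padicValRat.of_int]
    push_cast
    rw [zpow_neg, zpow_natCast]
  rw [h4, ← div_eq_inv_mul, le_div_iff₀ (by positivity), one_mul]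
  exact h3

theorem al_padic_int_le (z : ℤ) : Rat.AbsoluteValue.padic 2 (z : ℚ) ≤ 1 := by
  rw [Rat.AbsoluteValue.padic_eq_padicNorm]
  exact_mod_cast padicNorm.of_int (p := 2) z

theorem htBound_padic : HtBound (Rat.AbsoluteValue.padic 2) := by
  have hdiv : ∀ q : ℚ, Rat.AbsoluteValue.padic 2 q * Rat.AbsoluteValue.padic 2 ((q.den : ℤ) : ℚ) =
      Rat.AbsoluteValue.padic 2 (q.num : ℚ) := by
    intro q
    rw [← map_mul]
    congr 1
    push_cast
    exact Rat.mul_den_eq_num q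
  have hd : ∀ q : ℚ, (1 : ℝ) ≤ q.den := fun q => by exact_mod_cast q.pos
  refine ⟨fun q => ?_, fun q hq => ?_⟩
  · have h1 := al_padic_int (q.den : ℤ) (by exact_mod_cast q.den_ne_zero)
    have h2 := hdiv q
    have h3 := al_padic_int_le q.num
    have h4 : |(((q.den : ℤ)) : ℝ)| = q.den := by
      push_cast
      exact abs_of_nonneg (by positivity)
    rw [h4] at h1
    calc Rat.AbsoluteValue.padic 2 q = Rat.AbsoluteValue.padic 2 q * 1 := (mul_one _).symm
      _ ≤ Rat.AbsoluteValue.padic 2 q * (Rat.AbsoluteValue.padic 2 ((q.den : ℤ) : ℚ) * q.den) :=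
        mul_le_mul_of_nonneg_left h1 (AbsoluteValue.nonneg _ _)
      _ = Rat.AbsoluteValue.padic 2 (q.num : ℚ) * q.den := by rw [← mul_assoc, h2]
      _ ≤ 1 * q.den := mul_le_mul_of_nonneg_right h3 (by positivity)
      _ ≤ ht q := by rw [one_mul]; exact al_den_le q
  · have h1 := al_padic_int q.num (Rat.num_ne_zero.mpr hq)
    have h2 := hdiv q
    have h3 := al_padic_int_le (q.den : ℤ)
    calc (1 : ℝ) ≤ Rat.AbsoluteValue.padic 2 (q.num : ℚ) * |(q.num : ℝ)| := h1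
      _ ≤ Rat.AbsoluteValue.padic 2 (q.num : ℚ) * ht q :=
        mul_le_mul_of_nonneg_left (al_num_le q) (AbsoluteValue.nonneg _ _)
      _ = Rat.AbsoluteValue.padic 2 q * Rat.AbsoluteValue.padic 2 ((q.den : ℤ) : ℚ) * ht q := by
        rw [h2]
      _ ≤ Rat.AbsoluteValue.padic 2 q * 1 * ht q := by
        gcongr
      _ = Rat.AbsoluteValue.padic 2 q * ht q := by rw [mul_one]

theorem al_hyper_le : (hyperfilter ℕ : Filter ℕ) ≤ atTop := by
  rw [← Nat.cofinite_eq_atTop]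
  exact hyperfilter_le_cofinite

theorem al_pow_le (L : ℕ) (hL : 1 ≤ L) (C : ℝ) (hC : 0 ≤ C) (a : ℝ) (ha : 0 ≤ a) (h : a ≤ C ^ L) :
    a ^ ((1 : ℝ) / L) ≤ C := by
  have h1 : a ^ ((1 : ℝ) / L) ≤ (C ^ L) ^ ((1 : ℝ) / L) :=
    Real.rpow_le_rpow ha h (by positivity)
  rw [one_div] at h1 ⊢
  rwa [Real.pow_rpow_inv_natCast hC (by omega)] at h1

theorem al_le_pow (L : ℕ) (hL : 1 ≤ L) (C : ℝ) (hC : 0 ≤ C) (a : ℝ) (h : C ^ L ≤ a) :
    C ≤ a ^ ((1 : ℝ) / L) := by
  have h1 : (C ^ L) ^ ((1 : ℝ) / L) ≤ a ^ ((1 : ℝ) / L) :=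
    Real.rpow_le_rpow (by positivity) h (by positivity)
  rw [one_div] at h1 ⊢
  rwa [Real.pow_rpow_inv_natCast hC (by omega)] at h1

/-- The limit exists for every element. -/
theorem al_exists_lim (n : AbsoluteValue ℚ ℝ) (hn : HtBound n) (z : bigField L hL) :
    ∃ x : ℝ, 0 ≤ x ∧ (x = 0 ↔ z = 0) ∧ ∀ f : ℕ → ℚ, (f : QU) = (z : QU) →
      Tendsto (fun m => n (f m) ^ ((1 : ℝ) / L m)) (hyperfilter ℕ) (𝓝 x) := by
  obtain ⟨f0, hf0, C, hC⟩ := z.2
  set C' : ℝ := max |C| 1 with hC'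
  have hC'1 : 1 ≤ C' := le_max_right _ _
  have hLpos : ∀ᶠ m in (hyperfilter ℕ : Filter ℕ), 1 ≤ L m :=
    (hL.eventually_ge_atTop 1).filter_mono al_hyper_le
  have hht : ∀ᶠ m in (hyperfilter ℕ : Filter ℕ), (ht (f0 m) : ℝ) ≤ C' ^ L m := by
    filter_upwards [hC] with m hm
    calc (ht (f0 m) : ℝ) ≤ C ^ L m := hm
      _ ≤ |C ^ L m| := le_abs_self _
      _ = |C| ^ L m := abs_pow _ _
      _ ≤ C' ^ L m := pow_le_pow_left₀ (abs_nonneg _) (le_max_left _ _) _
  have hup : ∀ᶠ m in (hyperfilter ℕ : Filter ℕ), n (f0 m) ^ ((1 : ℝ) / L m) ≤ C' := by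
    filter_upwards [hht, hLpos] with m hm hLm
    exact al_pow_le _ hLm _ (by linarith) _ (n.nonneg _) ((hn.le _).trans hm)
  have hmem : Set.Icc 0 C' ∈ Ultrafilter.map (fun m => n (f0 m) ^ ((1 : ℝ) / L m))
      (hyperfilter ℕ) := by
    rw [Ultrafilter.mem_map]
    filter_upwards [hup] with m hm
    exact ⟨Real.rpow_nonneg (n.nonneg _) _, hm⟩
  obtain ⟨x, hx, hlim⟩ := isCompact_Icc.ultrafilter_le_nhds' _ hmem
  have hlim' : Tendsto (fun m => n (f0 m) ^ ((1 : ℝ) / L m)) (hyperfilter ℕ) (𝓝 x) := hlim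
  refine ⟨x, hx.1, ⟨fun hx0 => ?_, fun hz => ?_⟩, fun f hf => ?_⟩
  · by_contra hz
    have hf0ne : ∀ᶠ m in (hyperfilter ℕ : Filter ℕ), f0 m ≠ 0 := by
      rw [Ultrafilter.eventually_not]
      intro hev
      apply hz
      apply Subtype.ext
      rw [← hf0]
      exact Filter.Germ.coe_eq.mpr hev
    have hlow : ∀ᶠ m in (hyperfilter ℕ : Filter ℕ), 1 / C' ≤ n (f0 m) ^ ((1 : ℝ) / L m) := by
      filter_upwards [hht, hLpos, hf0ne] with m hm hLm h0
      refine al_le_pow _ hLm _ (by positivity) _ ?_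
      have h1 := hn.ge _ h0
      have h2 : n (f0 m) * ht (f0 m) ≤ n (f0 m) * C' ^ L m :=
        mul_le_mul_of_nonneg_left hm (n.nonneg _)
      rw [div_pow, one_pow, div_le_iff₀ (by positivity)]
      linarith
    have h3 := ge_of_tendsto hlim' hlow
    rw [hx0] at h3
    have : 0 < 1 / C' := by positivity
    linarith
  · have hev : ∀ᶠ m in (hyperfilter ℕ : Filter ℕ), f0 m = 0 := by
      have h1 : (f0 : QU) = ((fun _ => 0 : ℕ → ℚ) : QU) := by
        rw [hf0, hz]; rfl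
      exact Filter.Germ.coe_eq.mp h1
    have h2 : Tendsto (fun m => n (f0 m) ^ ((1 : ℝ) / L m)) (hyperfilter ℕ) (𝓝 0) := by
      refine Tendsto.congr' ?_ tendsto_const_nhds
      filter_upwards [hev, hLpos] with m hm hLm
      have hL' : (L m : ℝ) ≠ 0 := by
        have : (1 : ℝ) ≤ L m := by exact_mod_cast hLm
        linarith
      rw [hm, map_zero, Real.zero_rpow (by simpa using hL')]
    exact tendsto_nhds_unique hlim' h2
  · have h1 : (f0 : QU) = (f : QU) := by rw [hf0, hf]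
    refine hlim'.congr' ?_
    filter_upwards [Filter.Germ.coe_eq.mp h1] with m hm
    rw [hm]

/-- The limit absolute value exists. -/
theorem exists_absLim (n : AbsoluteValue ℚ ℝ) (hn : HtBound n) :
    ∃ v : AbsoluteValue (bigField L hL) ℝ, (∀ a b, v (a + b) ≤ max (v a) (v b)) ∧
      ∀ (f : ℕ → ℚ) (z : bigField L hL), (f : QU) = (z : QU) →
        Tendsto (fun m => n (f m) ^ ((1 : ℝ) / L m)) (hyperfilter ℕ) (𝓝 (v z)) := by
  choose x hx0 hxz hxlim using fun z => al_exists_lim (L := L) (hL := hL) n hn z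
  have hrep : ∀ z : bigField L hL, ∃ f : ℕ → ℚ, (f : QU) = (z : QU) := fun z =>
    ⟨_, z.2.choose_spec.1⟩
  have hLr : Tendsto (fun m => (1 : ℝ) / L m) (hyperfilter ℕ) (𝓝 0) := by
    have h1 : Tendsto (fun m => (L m : ℝ)) atTop atTop := tendsto_natCast_atTop_atTop.comp hL
    have h2 : Tendsto (fun m => (1 : ℝ) / L m) atTop (𝓝 0) := tendsto_const_nhds.div_atTop h1
    exact h2.mono_left al_hyper_le
  have h2L : Tendsto (fun m => (2 : ℝ) ^ ((1 : ℝ) / L m)) (hyperfilter ℕ) (𝓝 1) := by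
    have h1 : ContinuousAt (fun t : ℝ => (2 : ℝ) ^ t) 0 := Real.continuousAt_const_rpow (by norm_num)
    have h3 := h1.tendsto.comp hLr
    rw [Real.rpow_zero] at h3
    exact h3
  have hadd : ∀ a b, x (a + b) ≤ max (x a) (x b) := by
    intro a b
    obtain ⟨f, hf⟩ := hrep a
    obtain ⟨g, hg⟩ := hrep b
    have h1 := hxlim (a + b) (f + g) (by push_cast; rw [hf, hg])
    have h2 := h2L.mul ((hxlim a f hf).max (hxlim b g hg))
    rw [one_mul] at h2
    refine le_of_tendsto_of_tendsto h1 h2 (Eventually.of_forall fun m => ?_)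
    have hm0 : (0 : ℝ) ≤ 1 / L m := by positivity
    have h3 : n ((f + g) m) ≤ 2 * max (n (f m)) (n (g m)) := by
      have h4 := n.add_le (f m) (g m)
      have h5 := le_max_left (n (f m)) (n (g m))
      have h6 := le_max_right (n (f m)) (n (g m))
      simp only [Pi.add_apply]
      linarith
    have hmax0 : 0 ≤ max (n (f m)) (n (g m)) := (n.nonneg _).trans (le_max_left _ _)
    calc n ((f + g) m) ^ ((1 : ℝ) / L m) ≤ (2 * max (n (f m)) (n (g m))) ^ ((1 : ℝ) / L m) :=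
          Real.rpow_le_rpow (n.nonneg _) h3 hm0
      _ = 2 ^ ((1 : ℝ) / L m) * (max (n (f m)) (n (g m))) ^ ((1 : ℝ) / L m) :=
          Real.mul_rpow (by norm_num) hmax0
      _ = 2 ^ ((1 : ℝ) / L m) *
          max (n (f m) ^ ((1 : ℝ) / L m)) (n (g m) ^ ((1 : ℝ) / L m)) := by
        congr 1
        rcases le_total (n (f m)) (n (g m)) with h7 | h7
        · rw [max_eq_right h7, max_eq_right (Real.rpow_le_rpow (n.nonneg _) h7 hm0)]
        · rw [max_eq_left h7, max_eq_left (Real.rpow_le_rpow (n.nonneg _) h7 hm0)]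
  refine ⟨{ toFun := x
            map_mul' := ?_
            nonneg' := hx0
            eq_zero' := hxz
            add_le' := ?_ }, hadd, fun f z hf => hxlim z f hf⟩
  · intro a b
    obtain ⟨f, hf⟩ := hrep a
    obtain ⟨g, hg⟩ := hrep b
    have h1 := hxlim (a * b) (f * g) (by push_cast; rw [hf, hg])
    have h2 := (hxlim a f hf).mul (hxlim b g hg)
    refine tendsto_nhds_unique h1 (h2.congr fun m => ?_)
    simp only [Pi.mul_apply, map_mul]
    rw [Real.mul_rpow (n.nonneg _) (n.nonneg _)]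
  · intro a b
    refine (hadd a b).trans (max_le ?_ ?_)
    · exact le_add_of_nonneg_right (hx0 b)
    · exact le_add_of_nonneg_left (hx0 a)

end Pool.Agent.Lib.MP_d0d59f_nt.Auto
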