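import Pool.Agent.Lib.MP_d0d59f_nt.AutoSeq
import Pool.Agent.Lib.MP_d0d59f_nt.AutoBlocks

/-!
Orbits of `T_d` whose parity sequences are concatenations of boundedly many words of equal length.
-/

namespace Pool.Agent.Lib.MP_d0d59f_nt

open Filter Topology Auto

/-- The odd terms of the orbit of `x` under `T_d` have the uniform frequency `θ`: the number of odd
terms in every segment of length `n ≥ N(ε)` of the orbit is within `ε n` of `θ n`. -/
def UniformFrequency (d x : ℤ) (θ : ℝ) : Prop :=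
  ∀ ε : ℝ, 0 < ε → ∃ N : ℕ, ∀ n : ℕ, N ≤ n → ∀ i : ℕ,
    |(ones d ((T d)^[i] x) n : ℝ) - θ * n| ≤ ε * n

/-- the number of different words among the parity words
`w[i, i + L), w[i + L, i + 2 L), w[i + 2 L, i + 3 L), …` -/
noncomputable def blockCount (d x : ℤ) (i L : ℕ) : ℕ :=
  (Set.range fun n => factor d x L (i + n * L)).ncard

theorem blockRange_finite (d x : ℤ) (i L : ℕ) :
    (Set.range fun n => factor d x L (i + n * L)).Finite :=
  (range_factor_finite d x L).subset (by rintro _ ⟨n, rfl⟩; exact ⟨_, rfl⟩)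

/-- numbering of the blocks -/
theorem exists_numbering {d x : ℤ} {i L K : ℕ} (h : blockCount d x i L ≤ K) :
    ∃ u : ℕ → Fin K, ∀ n n', u n = u n' → factor d x L (i + n * L) = factor d x L (i + n' * L) := by
  classical
  have hfin := blockRange_finite d x i L
  set S := Set.range fun n => factor d x L (i + n * L) with hS
  haveI : Finite S := hfin
  have hcard : Nat.card S ≤ Nat.card (Fin K) := by
    rw [Nat.card_fin, Nat.card_coe_set_eq]
    exact h
  obtain ⟨e⟩ : Nonempty (S ↪ Fin K) := by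
    haveI := Fintype.ofFinite S
    rw [Nat.card_eq_fintype_card, Nat.card_eq_fintype_card] at hcard
    exact Function.Embedding.nonempty_of_card_le hcard
  refine ⟨fun n => e ⟨_, n, rfl⟩, fun n n' hn => ?_⟩
  have := e.injective hn
  exact congrArg Subtype.val this

section
variable {d x : ℤ} {K : ℕ}

/-- the constants of the blocks of level `m` -/
noncomputable def gg (d x : ℤ) (i L : ℕ) (u : ℕ → Fin K) (a : Fin K) : ℚ :=
  open scoped Classical in
  if h : ∃ n, u n = a then gval d ((T d)^[i + h.choose * L] x) L else 0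

theorem parity_of_factor {L i j : ℕ} (h : factor d x L i = factor d x L j) :
    ∀ k < L, (T d)^[k] ((T d)^[i] x) % 2 = (T d)^[k] ((T d)^[j] x) % 2 := by
  intro k hk
  have := congrFun h ⟨k, hk⟩
  simp only [factor] at this
  rw [← Function.iterate_add_apply, ← Function.iterate_add_apply, add_comm k i, add_comm k j]
  exact this

theorem gg_eq (hd : Odd d) {i L : ℕ} {u : ℕ → Fin K}
    (hu : ∀ n n', u n = u n' → factor d x L (i + n * L) = factor d x L (i + n' * L)) (n : ℕ) :
    gg d x i L u (u n) = gval d ((T d)^[i + n * L] x) L := by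
  have hex : ∃ n', u n' = u n := ⟨n, rfl⟩
  unfold gg
  rw [dif_pos hex]
  obtain ⟨h1, h2⟩ := ones_shift_congr hd L (parity_of_factor (hu _ _ hex.choose_spec))
  rw [gval, gval, h1, h2]

/-- number of ones in the first `n` blocks -/
def hh (d x : ℤ) (i L n : ℕ) : ℕ := ones d ((T d)^[i] x) (n * L)

theorem hh_succ (d x : ℤ) (i L n : ℕ) :
    hh d x i L (n + 1) = hh d x i L n + ones d ((T d)^[i + n * L] x) L := by
  unfold hh
  rw [add_mul, one_mul, ones_add, ← Function.iterate_add_apply, add_comm (n * L) i]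

/-- coefficients of the series -/
noncomputable def cc (d x : ℤ) (i L H : ℕ) (u : ℕ → Fin K) (a : Fin K) (n : ℕ) : ℚ :=
  if u n = a then (3 : ℚ) ^ ((n * H : ℤ) - hh d x i L n) else 0

theorem sum_identity (hd : Odd d) {i L H : ℕ} {u : ℕ → Fin K}
    (hu : ∀ n n', u n = u n' → factor d x L (i + n * L) = factor d x L (i + n' * L)) (E : ℕ) :
    (((T d)^[i] x : ℤ) : ℚ) - ∑ a, gg d x i L u a * ∑ n ∈ Finset.range E,
      cc d x i L H u a n * ((2 : ℚ) ^ L / 3 ^ H) ^ n
      = 2 ^ (E * L) / 3 ^ hh d x i L E * ((T d)^[i + E * L] x : ℤ) := by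
  have h3 : (3 : ℚ) ≠ 0 := by norm_num
  induction E with
  | zero => simp [hh, ones_zero]
  | succ E ih =>
    have e1 : ∀ a, gg d x i L u a * ∑ n ∈ Finset.range (E + 1),
        cc d x i L H u a n * ((2 : ℚ) ^ L / 3 ^ H) ^ n
        = gg d x i L u a * ∑ n ∈ Finset.range E, cc d x i L H u a n * ((2 : ℚ) ^ L / 3 ^ H) ^ n
          + gg d x i L u a * (cc d x i L H u a E * ((2 : ℚ) ^ L / 3 ^ H) ^ E) := by
      intro a
      rw [Finset.sum_range_succ, mul_add]
    rw [Finset.sum_congr rfl fun a _ => e1 a, Finset.sum_add_distrib, ← sub_sub, ih]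
    have e2 : ∑ a, gg d x i L u a * (cc d x i L H u a E * ((2 : ℚ) ^ L / 3 ^ H) ^ E)
        = gval d ((T d)^[i + E * L] x) L * (2 ^ (E * L) / 3 ^ hh d x i L E) := by
      rw [Finset.sum_eq_single (u E)]
      · rw [gg_eq hd hu, cc, if_pos rfl, div_pow, ← pow_mul, ← pow_mul, mul_comm L E, mul_comm H E,
          zpow_sub₀ h3, zpow_natCast, ← Nat.cast_mul, zpow_natCast]
        have : (3 : ℚ) ^ (E * H) ≠ 0 := by positivity
        field_simp
      · intro a _ ha
        rw [cc, if_neg (Ne.symm ha)]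
        simp
      · intro h
        exact absurd (Finset.mem_univ _) h
    rw [e2, gval_eq, hh_succ, ← Function.iterate_add_apply, add_mul, one_mul,
      show L + (i + E * L) = i + (E * L + L) by ring, pow_add, pow_add]
    have h4 : (3 : ℚ) ^ hh d x i L E ≠ 0 := by positivity
    have h5 : (3 : ℚ) ^ ones d ((T d)^[i + E * L] x) L ≠ 0 := by positivity
    field_simp
    ring

end

/-- the normalized orbit is bounded away from zero -/
theorem normalized_lower {d x : ℤ} (hd : Odd d)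
    (hx : ∀ m p : ℕ, 0 < p → (T d)^[m + p] x ≠ (T d)^[m] x) :
    ∃ c : ℝ, 0 < c ∧ ∀ i : ℕ, c ≤ |(2 : ℝ) ^ i / 3 ^ (ones d x i) * ((T d)^[i] x : ℝ)| := by
  obtain ⟨β, hβ, hlim⟩ := tendsto_normalized hx hd
  have h1 := (hlim.norm.inv₀ (norm_ne_zero_iff.mpr hβ)).bddAbove_range
  obtain ⟨B, hB⟩ := h1
  have hpos : ∀ i : ℕ, 0 < |(2 : ℝ) ^ i / 3 ^ (ones d x i) * ((T d)^[i] x : ℝ)| := by
    intro i
    rw [abs_pos]
    have : ((T d)^[i] x : ℝ) ≠ 0 := by exact_mod_cast orbit_ne_zero hx i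
    positivity
  have hB0 : 0 < B := by
    have := hB ⟨0, rfl⟩
    exact lt_of_lt_of_le (inv_pos.mpr (hpos 0)) this
  refine ⟨B⁻¹, inv_pos.mpr hB0, fun i => ?_⟩
  have := hB ⟨i, rfl⟩
  simp only [Real.norm_eq_abs] at this
  rw [inv_le_comm₀ hB0 (hpos i)]
  exact this

/-- an orbit which is not eventually periodic does not contract on average -/
theorem one_lt_of_not_periodic {d x : ℤ} (hd : Odd d)
    (hx : ∀ m p : ℕ, 0 < p → (T d)^[m + p] x ≠ (T d)^[m] x) {θ : ℝ}
    (hθ : UniformFrequency d x θ) (h : θ * Real.logb 2 3 ≠ 1) : 1 < θ * Real.logb 2 3 := by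
  by_contra hcon
  have hlt : θ * Real.logb 2 3 < 1 := lt_of_le_of_ne (not_lt.mp hcon) h
  have hl2 : 0 < Real.log 2 := Real.log_pos (by norm_num)
  have hl3 : 0 < Real.log 3 := Real.log_pos (by norm_num)
  have hlt' : θ * Real.log 3 < Real.log 2 := by
    rw [Real.logb, ← mul_div_assoc, div_lt_one hl2] at hlt
    exact hlt
  obtain ⟨ε, hε, hε2⟩ : ∃ ε : ℝ, 0 < ε ∧ (θ + ε) * Real.log 3 < Real.log 2 := by
    refine ⟨(Real.log 2 - θ * Real.log 3) / (2 * Real.log 3), by
      apply div_pos (by linarith); linarith, ?_⟩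
    have : (θ + (Real.log 2 - θ * Real.log 3) / (2 * Real.log 3)) * Real.log 3
        = θ * Real.log 3 + (Real.log 2 - θ * Real.log 3) / 2 := by
      field_simp
    rw [this]; linarith
  obtain ⟨N, hN⟩ := hθ ε hε
  obtain ⟨β, hβ, hlim⟩ := tendsto_normalized hx hd
  set q : ℝ := Real.exp ((θ + ε) * Real.log 3 - Real.log 2) with hq
  have hq1 : q < 1 := by rw [hq, Real.exp_lt_one_iff]; linarith
  have hq0 : 0 < q := Real.exp_pos _
  have h1 : Tendsto (fun n : ℕ => (3 : ℝ) ^ (ones d x n) / 2 ^ n) atTop (𝓝 0) := by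
    refine squeeze_zero' (Eventually.of_forall fun n => by positivity) ?_
      (tendsto_pow_atTop_nhds_zero_of_lt_one hq0.le hq1)
    filter_upwards [eventually_ge_atTop N] with n hn
    have h2 := hN n hn 0
    simp only [Function.iterate_zero, id_eq] at h2
    have h3 : (ones d x n : ℝ) ≤ (θ + ε) * n := by
      have := (abs_le.mp h2).2
      linarith
    rw [hq, ← Real.exp_nat_mul, div_le_iff₀ (by positivity)]
    have e3 : (3 : ℝ) ^ (ones d x n) = Real.exp ((ones d x n : ℝ) * Real.log 3) := by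
      rw [Real.exp_nat_mul, Real.exp_log (by norm_num)]
    have e2 : (2 : ℝ) ^ n = Real.exp ((n : ℝ) * Real.log 2) := by
      rw [Real.exp_nat_mul, Real.exp_log (by norm_num)]
    rw [e3, e2, ← Real.exp_add]
    apply Real.exp_le_exp.mpr
    nlinarith
  have h2 : Tendsto (fun n : ℕ => ((T d)^[n] x : ℝ)) atTop (𝓝 0) := by
    have := hlim.mul h1
    rw [mul_zero] at this
    refine this.congr fun n => ?_
    have h3 : (3 : ℝ) ^ (ones d x n) ≠ 0 := by positivity
    have h4 : (2 : ℝ) ^ n ≠ 0 := by positivity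
    field_simp
  have h3 := (h2.norm).eventually (gt_mem_nhds (show ‖(0 : ℝ)‖ < 1 by simp))
  obtain ⟨n, hn⟩ := h3.exists
  rw [Real.norm_eq_abs] at hn
  have h4 : |(T d)^[n] x| < 1 := by exact_mod_cast hn
  exact orbit_ne_zero hx n (Int.abs_lt_one_iff.mp h4)

theorem ht_zero : ht 0 = 1 := by simp [ht]

theorem ht_zpow_three_le (z : ℤ) : ht ((3 : ℚ) ^ z) ≤ 3 ^ z.natAbs := by
  rcases Int.natAbs_eq z with h | h
  · have h1 := ht_div_le (3 ^ z.natAbs) 1 one_ne_zero
    have h2 : (3 : ℚ) ^ z = ((3 ^ z.natAbs : ℤ) : ℚ) / ((1 : ℤ) : ℚ) := by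
      conv_lhs => rw [h]
      rw [zpow_natCast]; push_cast; simp
    rw [h2]
    refine h1.trans ?_
    rw [Int.natAbs_pow]
    exact max_le (by norm_num) (Nat.one_le_pow _ _ (by norm_num))
  · have h1 := ht_div_le 1 (3 ^ z.natAbs) (by positivity)
    have h2 : (3 : ℚ) ^ z = ((1 : ℤ) : ℚ) / ((3 ^ z.natAbs : ℤ) : ℚ) := by
      conv_lhs => rw [h]
      rw [zpow_neg, zpow_natCast]; push_cast; simp
    rw [h2]
    refine h1.trans ?_
    rw [Int.natAbs_pow]
    exact max_le (Nat.one_le_pow _ _ (by norm_num)) (by norm_num)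

/-- Main theorem. -/
theorem eventually_periodic_of_blocks {d : ℤ} (hd : Odd d) {x : ℤ} {θ : ℝ}
    (hθ : UniformFrequency d x θ) (hirr : Irrational (θ * Real.logb 2 3)) (K C : ℕ)
    (hK : ∃ᶠ L in atTop, ∃ i ≤ C * L, blockCount d x i L ≤ K) :
    ∃ m p : ℕ, 0 < p ∧ (T d)^[m + p] x = (T d)^[m] x := by
  by_contra hcon
  have hx : ∀ m p : ℕ, 0 < p → (T d)^[m + p] x ≠ (T d)^[m] x :=
    fun m p hp h => hcon ⟨m, p, hp, h⟩
  have h1 : 1 < θ * Real.logb 2 3 :=
    one_lt_of_not_periodic hd hx hθ fun h => hirr ⟨1, by rw [h]; norm_num⟩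
  have hlog : 0 < Real.logb 2 3 := Real.logb_pos (by norm_num) (by norm_num)
  have hθ0 : 0 < θ := by
    by_contra h
    have := mul_nonpos_of_nonpos_of_nonneg (not_lt.mp h) hlog.le
    linarith
  obtain ⟨L, hLm, hLP⟩ := extraction_of_frequently_atTop hK
  have hL : Tendsto L atTop atTop := hLm.tendsto_atTop
  choose i hiC hiK using hLP
  choose u hu using fun m => exists_numbering (hiK m)
  obtain ⟨c₀, hc₀, hlow⟩ := normalized_lower hd hx
  set Hm : ℕ → ℕ := fun m => ⌊θ * (L m : ℝ)⌋₊ with hHm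
  have hLR : Tendsto (fun m => (L m : ℝ)) atTop atTop := tendsto_natCast_atTop_atTop.comp hL
  have hHlim : Tendsto (fun m => (Hm m : ℝ) / L m) atTop (𝓝 θ) :=
    (tendsto_nat_floor_mul_div_atTop hθ0.le).comp hLR
  have hL1 : ∀ᶠ m in atTop, 1 ≤ L m := hL.eventually_ge_atTop 1
  -- heights of the coefficients
  have hc : ∀ (a : Fin K) (n : ℕ), ∀ ε : ℝ, 0 < ε → ∀ᶠ m in atTop,
      (ht (cc d x (i m) (L m) (Hm m) (u m) a n) : ℝ) ≤ (1 + ε) ^ L m := by
    intro a n ε hε
    have hl : 0 < Real.log (1 + ε) := Real.log_pos (by linarith)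
    have hl3 : 0 < Real.log 3 := Real.log_pos (by norm_num)
    set ε' : ℝ := Real.log (1 + ε) / (2 * (n + 1) * Real.log 3) with hε'
    have hε'0 : 0 < ε' := by positivity
    obtain ⟨N, hN⟩ := hθ ε' hε'0
    have hbig : ∀ᶠ m in atTop, (2 * (n * Real.log 3) / Real.log (1 + ε)) ≤ (L m : ℝ) :=
      hLR.eventually_ge_atTop _
    filter_upwards [hbig, hL.eventually_ge_atTop N, hL1] with m hm hmN hm1
    unfold cc
    split_ifs with hua
    · have hz : |(((n * Hm m : ℤ) - hh d x (i m) (L m) n : ℤ) : ℝ)| ≤ n + ε' * (n * L m) := by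
        rcases Nat.eq_zero_or_pos n with rfl | hn
        · simp [hh, ones_zero]
        · have h2 := hN (n * L m) (by nlinarith) (i m)
          have h3 : |(n * Hm m : ℝ) - n * (θ * L m)| ≤ n := by
            rw [← mul_sub, abs_mul, abs_of_nonneg (by positivity : (0 : ℝ) ≤ n)]
            have h4 : |(Hm m : ℝ) - θ * L m| ≤ 1 := by
              rw [abs_le]
              constructor
              · have := Nat.lt_floor_add_one (θ * (L m : ℝ))
                rw [hHm]; simp only; linarith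
              · have := Nat.floor_le (show 0 ≤ θ * (L m : ℝ) by positivity)
                rw [hHm]; simp only; linarith
            have : (0 : ℝ) ≤ n := by positivity
            nlinarith
          have h5 : |(hh d x (i m) (L m) n : ℝ) - θ * (n * L m)| ≤ ε' * (n * L m) := by
            have := h2
            push_cast at this
            exact this
          push_cast
          calc |(n * Hm m : ℝ) - hh d x (i m) (L m) n|
              = |((n * Hm m : ℝ) - n * (θ * L m)) - ((hh d x (i m) (L m) n : ℝ) - θ * (n * L m))| := by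
                congr 1; ring
            _ ≤ |(n * Hm m : ℝ) - n * (θ * L m)| + |(hh d x (i m) (L m) n : ℝ) - θ * (n * L m)| :=
                abs_sub _ _
            _ ≤ n + ε' * (n * L m) := add_le_add h3 h5
      set z : ℤ := (n * Hm m : ℤ) - hh d x (i m) (L m) n with hzdef
      have h6 : (ht ((3 : ℚ) ^ z) : ℝ) ≤ (3 : ℝ) ^ z.natAbs := by exact_mod_cast ht_zpow_three_le z
      refine h6.trans ?_
      have e3 : (3 : ℝ) ^ z.natAbs = Real.exp ((z.natAbs : ℝ) * Real.log 3) := by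
        rw [Real.exp_nat_mul, Real.exp_log (by norm_num)]
      have e1 : (1 + ε) ^ L m = Real.exp ((L m : ℝ) * Real.log (1 + ε)) := by
        rw [Real.exp_nat_mul, Real.exp_log (by linarith)]
      rw [e3, e1]
      apply Real.exp_le_exp.mpr
      have h7 : (z.natAbs : ℝ) ≤ n + ε' * (n * L m) := by
        rw [Nat.cast_natAbs, Int.cast_abs]
        exact hz
      have h8 : n * Real.log 3 ≤ (L m : ℝ) * Real.log (1 + ε) / 2 := by
        rw [div_le_iff₀ hl] at hm
        linarith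
      have h9 : ε' * (n * L m) * Real.log 3 ≤ (L m : ℝ) * Real.log (1 + ε) / 2 := by
        have : ε' * ((n + 1) * L m) * Real.log 3 = (L m : ℝ) * Real.log (1 + ε) / 2 := by
          rw [hε']; field_simp
        rw [← this]
        have h10 : (n : ℝ) * L m ≤ (n + 1) * L m := by nlinarith [Nat.cast_nonneg (α := ℝ) (L m)]
        have h11 := mul_le_mul_of_nonneg_left h10 hε'0.le
        exact mul_le_mul_of_nonneg_right h11 hl3.le
      calc (z.natAbs : ℝ) * Real.log 3 ≤ (n + ε' * (n * L m)) * Real.log 3 :=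
            mul_le_mul_of_nonneg_right h7 hl3.le
        _ = n * Real.log 3 + ε' * (n * L m) * Real.log 3 := by ring
        _ ≤ (L m : ℝ) * Real.log (1 + ε) := by linarith
    · rw [ht_zero]
      have : (1 : ℝ) ≤ (1 + ε) ^ L m := one_le_pow₀ (by linarith)
      exact_mod_cast this
  -- heights of the constants of the blocks
  have hg : ∀ a : Fin K, ∃ B : ℝ, ∀ᶠ m in atTop,
      (ht (gg d x (i m) (L m) (u m) a) : ℝ) ≤ B ^ L m := by
    intro a
    refine ⟨(|d| + 1) * 3, ?_⟩
    filter_upwards [hL1] with m hm1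
    have hd0 : (0 : ℝ) ≤ |(d : ℝ)| := abs_nonneg _
    have h3 : ((|d| : ℤ) : ℝ) + 1 ≤ (((|d| : ℤ) : ℝ) + 1) ^ L m := by
      refine le_self_pow₀ ?_ (by omega)
      have : (0 : ℝ) ≤ ((|d| : ℤ) : ℝ) := by exact_mod_cast abs_nonneg d
      linarith
    rw [mul_pow]
    unfold gg
    split_ifs with h
    · refine (ht_gval_le hd _ _).trans ?_
      exact mul_le_mul_of_nonneg_right h3 (by positivity)
    · rw [ht_zero]
      have h4 : (1 : ℝ) ≤ 3 ^ L m := one_le_pow₀ (by norm_num)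
      have h5 : (0 : ℝ) ≤ ((|d| : ℤ) : ℝ) := by exact_mod_cast abs_nonneg d
      have h6 : (1 : ℝ) ≤ (((|d| : ℤ) : ℝ) + 1) ^ L m := one_le_pow₀ (by linarith)
      have := mul_le_mul h6 h4 zero_le_one (by linarith)
      simpa using this
  have hxx : ∃ B : ℝ, ∀ᶠ m in atTop, (ht (((T d)^[i m] x : ℤ) : ℚ) : ℝ) ≤ B ^ L m := by
    refine ⟨3 ^ C * (|(x : ℝ)| + |(d : ℝ)| + 1), ?_⟩
    filter_upwards [hL1] with m hm1
    have h3 := abs_iterate_le hd x (i m)
    have h4 : (3 : ℝ) ^ ones d x (i m) ≤ 3 ^ (C * L m) :=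
      pow_le_pow_right₀ (by norm_num) ((ones_le d x (i m)).trans (hiC m))
    have h5 : |(x : ℝ)| / 2 ^ i m ≤ |(x : ℝ)| := div_le_self (abs_nonneg _) (one_le_pow₀ (by norm_num))
    have h6 : |((T d)^[i m] x : ℝ)| ≤ 3 ^ (C * L m) * (|(x : ℝ)| + |(d : ℝ)|) := by
      refine h3.trans ?_
      have h0 : 0 ≤ |(x : ℝ)| / 2 ^ i m + |(d : ℝ)| := by positivity
      exact mul_le_mul h4 (by linarith) h0 (by positivity)
    have h7 : (1 : ℝ) ≤ 3 ^ (C * L m) := one_le_pow₀ (by norm_num)
    have h8 : |(x : ℝ)| + |(d : ℝ)| + 1 ≤ (|(x : ℝ)| + |(d : ℝ)| + 1) ^ L m :=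
      le_self_pow₀ (by have := abs_nonneg (x : ℝ); have := abs_nonneg (d : ℝ); linarith) (by omega)
    have h9 : (ht (((T d)^[i m] x : ℤ) : ℚ) : ℝ) ≤ max |((T d)^[i m] x : ℝ)| 1 := by
      unfold ht
      rw [Rat.num_intCast, Rat.den_intCast, Nat.cast_max, Nat.cast_natAbs, Int.cast_abs]
      simp
    rw [mul_pow, ← pow_mul]
    refine h9.trans (max_le ?_ ?_)
    · refine h6.trans ?_
      have h10 : |(x : ℝ)| + |(d : ℝ)| ≤ (|(x : ℝ)| + |(d : ℝ)| + 1) ^ L m := by linarith
      exact mul_le_mul_of_nonneg_left h10 (by positivity)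
    · have h10 : (1 : ℝ) ≤ (|(x : ℝ)| + |(d : ℝ)| + 1) ^ L m :=
        one_le_pow₀ (by have := abs_nonneg (x : ℝ); have := abs_nonneg (d : ℝ); linarith)
      have := mul_le_mul h7 h10 zero_le_one (by linarith)
      simpa using this
  -- the error
  have herr : ∀ E m : ℕ, err L Hm (fun m => cc d x (i m) (L m) (Hm m) (u m))
      (fun m => gg d x (i m) (L m) (u m)) (fun m => (((T d)^[i m] x : ℤ) : ℚ)) E m
      = 2 ^ (E * L m) / 3 ^ hh d x (i m) (L m) E * ((T d)^[i m + E * L m] x : ℤ) :=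
    fun E m => sum_identity hd (hu m) E
  have h2 : ∀ E : ℕ, ∀ᶠ m in atTop, padicNorm 2 (err L Hm
      (fun m => cc d x (i m) (L m) (Hm m) (u m)) (fun m => gg d x (i m) (L m) (u m))
      (fun m => (((T d)^[i m] x : ℤ) : ℚ)) E m) ≤ (1 / 2 : ℚ) ^ (E * L m) := by
    intro E
    refine Eventually.of_forall fun m => ?_
    rw [herr, padicNorm.mul, padicNorm.div]
    have e2 : padicNorm 2 ((2 : ℚ) ^ (E * L m)) = (1 / 2) ^ (E * L m) := by
      rw [IsAbsoluteValue.abv_pow (padicNorm 2)]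
      congr 1
      have := padicNorm.padicNorm_p_of_prime (p := 2)
      rw [one_div]
      exact_mod_cast this
    have e3 : padicNorm 2 ((3 : ℚ) ^ hh d x (i m) (L m) E) = 1 := by
      rw [IsAbsoluteValue.abv_pow (padicNorm 2)]
      have : padicNorm 2 (3 : ℚ) = 1 := by
        have := (padicNorm.nat_eq_one_iff (p := 2) 3).mpr (by norm_num)
        exact_mod_cast this
      rw [this, one_pow]
    rw [e2, e3, div_one]
    have h3 := padicNorm.of_int (p := 2) ((T d)^[i m + E * L m] x)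
    exact mul_le_of_le_one_right (by positivity) h3
  obtain ⟨E, hE⟩ := transfer_seq hL hHlim h1 hirr _ hc _ hg _ hxx h2
    (δ := (1 / 2) ^ (C + 2)) (by positivity)
  have hfin : ∀ᶠ m in atTop, ¬ |((err L Hm (fun m => cc d x (i m) (L m) (Hm m) (u m))
      (fun m => gg d x (i m) (L m) (u m)) (fun m => (((T d)^[i m] x : ℤ) : ℚ)) E m : ℚ) : ℝ)|
        ≤ ((1 / 2 : ℝ) ^ (C + 2)) ^ L m := by
    have h4 : Tendsto (fun m => (2 : ℝ) ^ (2 * L m)) atTop atTop :=
      (tendsto_pow_atTop_atTop_of_one_lt (by norm_num : (1 : ℝ) < 2)).comp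
        (tendsto_atTop_mono (fun m => by omega) hL)
    filter_upwards [h4.eventually_gt_atTop c₀⁻¹] with m hm
    rw [not_le, herr]
    have h5 := hlow (i m + E * L m)
    have h6 : ones d x (i m + E * L m) = ones d x (i m) + hh d x (i m) (L m) E := ones_add _ _ _ _
    rw [h6] at h5
    have h7 : |(((2 : ℚ) ^ (E * L m) / 3 ^ hh d x (i m) (L m) E * ((T d)^[i m + E * L m] x : ℤ) : ℚ) : ℝ)|
        = |(2 : ℝ) ^ (i m + E * L m) / 3 ^ (ones d x (i m) + hh d x (i m) (L m) E)
            * ((T d)^[i m + E * L m] x : ℝ)| * (3 ^ ones d x (i m) / 2 ^ i m) := by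
      have h8 : (0 : ℝ) ≤ 3 ^ ones d x (i m) / 2 ^ i m := by positivity
      rw [← abs_of_nonneg h8, ← abs_mul]
      congr 1
      push_cast
      rw [pow_add, pow_add]
      have h9 : (3 : ℝ) ^ ones d x (i m) ≠ 0 := by positivity
      have h10 : (2 : ℝ) ^ i m ≠ 0 := by positivity
      have h11 : (3 : ℝ) ^ hh d x (i m) (L m) E ≠ 0 := by positivity
      field_simp
    rw [h7]
    have h8 : (1 / 2 : ℝ) ^ (C * L m) ≤ 3 ^ ones d x (i m) / 2 ^ i m := by
      have h9 : (1 : ℝ) ≤ 3 ^ ones d x (i m) := one_le_pow₀ (by norm_num)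
      have h10 : (1 / 2 : ℝ) ^ (C * L m) ≤ (1 / 2) ^ i m :=
        pow_le_pow_of_le_one (by norm_num) (by norm_num) (hiC m)
      refine h10.trans ?_
      rw [one_div, inv_pow, ← one_div]
      gcongr
    have h9 : c₀ * (1 / 2 : ℝ) ^ (C * L m) ≤
        |(2 : ℝ) ^ (i m + E * L m) / 3 ^ (ones d x (i m) + hh d x (i m) (L m) E)
            * ((T d)^[i m + E * L m] x : ℝ)| * (3 ^ ones d x (i m) / 2 ^ i m) :=
      mul_le_mul h5 h8 (by positivity) (abs_nonneg _)
    refine lt_of_lt_of_le ?_ h9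
    have h10 : ((1 / 2 : ℝ) ^ (C + 2)) ^ L m = (1 / 2) ^ (C * L m) * ((2 : ℝ) ^ (2 * L m))⁻¹ := by
      rw [← pow_mul, add_mul, pow_add, one_div, inv_pow, inv_pow]
    rw [h10, mul_comm c₀]
    have h11 : ((2 : ℝ) ^ (2 * L m))⁻¹ < c₀ := by
      rw [inv_lt_comm₀ (by positivity) hc₀]
      exact hm
    exact mul_lt_mul_of_pos_left h11 (by positivity)
  exact hE.and_eventually hfin |>.exists.elim fun m hm => hm.2 hm.1

end Pool.Agent.Lib.MP_d0d59f_nt
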