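import Mathlib

/-!
Polynomial vectors `P` of degree at most `M` for which the linear form `∑ P_i G_i` in given power
series vanishes to order `E`: dimension count over the field of constants.
-/


namespace Pool.Agent.Lib.MP_d0d59f_nt.Auto

open PowerSeries

variable {κ : Type*} [Field κ] {H : ℕ}

/-- the linear form in the power series `G` with polynomial coefficients `P` -/
noncomputable def form (P : Fin H → Polynomial κ) (G : Fin H → PowerSeries κ) : PowerSeries κ :=
  ∑ i, (P i : PowerSeries κ) * G i

/-- polynomial vectors of degree `≤ M` whose linear form vanishes to order `E` -/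
def padeSet (G : Fin H → PowerSeries κ) (E M : ℕ) : Set (Fin H → Polynomial κ) :=
  {P | (∀ i, (P i).natDegree ≤ M) ∧ ∀ n < E, coeff n (form P G) = 0}

theorem padeSet_mono (G : Fin H → PowerSeries κ) (E : ℕ) : Monotone (padeSet G E) :=
  fun _ _ h _ hP => ⟨fun i => (hP.1 i).trans h, hP.2⟩

/-- rank-nullity for the restriction of a linear map to a subspace -/
theorem pade_rank_nullity {V V' : Type*} [AddCommGroup V] [Module κ V] [AddCommGroup V']
    [Module κ V'] (L : V →ₗ[κ] V') (D : Submodule κ V) [FiniteDimensional κ D] :
    Module.finrank κ (D.map L) + Module.finrank κ (D ⊓ LinearMap.ker L : Submodule κ V) =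
      Module.finrank κ D := by
  have h := LinearMap.finrank_range_add_finrank_ker (L.domRestrict D)
  have h1 : LinearMap.range (L.domRestrict D) = D.map L := by
    ext y; simp [Submodule.mem_map]
  have h2 : Module.finrank κ (LinearMap.ker (L.domRestrict D)) =
      Module.finrank κ (D ⊓ LinearMap.ker L : Submodule κ V) := by
    have e : (D ⊓ LinearMap.ker L).comap D.subtype = LinearMap.ker (L.domRestrict D) := by
      ext y; simp
    rw [← e]
    exact LinearEquiv.finrank_eq (Submodule.comapSubtypeEquivOfLe inf_le_left)
  rw [← h, h1, h2]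

/-- vectors of polynomials of degree `< M` -/
noncomputable def padeEmb (κ : Type*) [Field κ] (H M : ℕ) :
    (Fin H → Fin M → κ) →ₗ[κ] (Fin H → Polynomial κ) :=
  LinearMap.pi fun i => (Polynomial.degreeLT κ M).subtype ∘ₗ
    (Polynomial.degreeLTEquiv κ M).symm.toLinearMap ∘ₗ LinearMap.proj i

theorem padeEmb_inj (M : ℕ) : Function.Injective (padeEmb κ H M) := by
  intro a b h
  funext i
  have := congrFun h i
  simpa [padeEmb] using this

theorem mem_range_padeEmb (M : ℕ) (P : Fin H → Polynomial κ) :
    P ∈ LinearMap.range (padeEmb κ H M) ↔ ∀ i, P i ∈ Polynomial.degreeLT κ M := by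
  constructor
  · rintro ⟨a, rfl⟩ i
    simp only [padeEmb, LinearMap.pi_apply, LinearMap.comp_apply]
    exact Submodule.coe_mem _
  · intro h
    refine ⟨fun i => Polynomial.degreeLTEquiv κ M ⟨P i, h i⟩, ?_⟩
    funext i
    simp [padeEmb]

/-- the first `E` coefficients of the linear form -/
noncomputable def padeL (G : Fin H → PowerSeries κ) (E : ℕ) :
    (Fin H → Polynomial κ) →ₗ[κ] (Fin E → κ) where
  toFun P n := coeff (n : ℕ) (form P G)
  map_add' P Q := by
    funext n
    simp only [form, Pi.add_apply, Polynomial.coe_add, add_mul, Finset.sum_add_distrib, map_add]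
  map_smul' c P := by
    funext n
    have : form (c • P) G = C c * form P G := by
      simp only [form, Pi.smul_apply, Finset.mul_sum]
      refine Finset.sum_congr rfl fun i _ => ?_
      rw [Polynomial.smul_eq_C_mul, Polynomial.coe_mul, Polynomial.coe_C, mul_assoc]
    simp only [this, RingHom.id_apply, Pi.smul_apply, smul_eq_mul]
    exact PowerSeries.coeff_C_mul _ _ _

/-- the coefficients of `X ^ M` -/
noncomputable def padeTop (κ : Type*) [Field κ] (H M : ℕ) :
    (Fin H → Polynomial κ) →ₗ[κ] (Fin H → κ) :=
  LinearMap.pi fun i => Polynomial.lcoeff κ M ∘ₗ LinearMap.proj i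

/-- the subspace of solutions of degree `< M` -/
noncomputable def padeU (G : Fin H → PowerSeries κ) (E M : ℕ) :
    Submodule κ (Fin H → Polynomial κ) :=
  LinearMap.range (padeEmb κ H M) ⊓ LinearMap.ker (padeL G E)

theorem mem_padeU (G : Fin H → PowerSeries κ) (E M : ℕ) (P : Fin H → Polynomial κ) :
    P ∈ padeU G E M ↔ (∀ i, P i ∈ Polynomial.degreeLT κ M) ∧ ∀ n < E, coeff n (form P G) = 0 := by
  rw [padeU, Submodule.mem_inf, mem_range_padeEmb, LinearMap.mem_ker]
  refine and_congr_right fun _ => ⟨fun h n hn => congrFun h ⟨n, hn⟩, fun h => ?_⟩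
  funext n
  exact h n n.2

theorem padeU_succ (G : Fin H → PowerSeries κ) (E M : ℕ) :
    padeU G E (M + 1) ⊓ LinearMap.ker (padeTop κ H M) = padeU G E M := by
  ext P
  rw [Submodule.mem_inf, mem_padeU, mem_padeU, LinearMap.mem_ker]
  constructor
  · rintro ⟨⟨h1, h2⟩, h3⟩
    refine ⟨fun i => ?_, h2⟩
    have h4 : (P i).coeff M = 0 := by simpa [padeTop] using congrFun h3 i
    have h5 := h1 i
    rw [Polynomial.mem_degreeLT, Polynomial.degree_lt_iff_coeff_zero] at h5 ⊢
    intro m hm
    rcases hm.eq_or_lt with rfl | hm
    · exact h4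
    · exact h5 m hm
  · rintro ⟨h1, h2⟩
    refine ⟨⟨fun i => Polynomial.degreeLT_mono (Nat.le_succ M) (h1 i), h2⟩, ?_⟩
    funext i
    have h5 := h1 i
    rw [Polynomial.mem_degreeLT, Polynomial.degree_lt_iff_coeff_zero] at h5
    simpa [padeTop] using h5 M le_rfl

theorem pade_natDegree_le {M : ℕ} {p : Polynomial κ} (h : p ∈ Polynomial.degreeLT κ (M + 1)) :
    p.natDegree ≤ M := by
  rw [Polynomial.mem_degreeLT, Polynomial.degree_lt_iff_coeff_zero] at h
  rw [Polynomial.natDegree_le_iff_coeff_eq_zero]
  exact fun N hN => h N hN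

/-- independent top coefficients imply independence over the polynomial ring -/
theorem pade_indep {t M : ℕ} (P : Fin t → Fin H → Polynomial κ)
    (hP : ∀ l i, (P l i).natDegree ≤ M)
    (hi : LinearIndependent κ fun l => padeTop κ H M (P l)) :
    LinearIndependent (Polynomial κ) P := by
  have key : ∀ D : ℕ, ∀ q : Fin t → Polynomial κ, (∀ l, q l ∈ Polynomial.degreeLT κ D) →
      ∑ l, q l • P l = 0 → ∀ l, q l = 0 := by
    intro D
    induction D with
    | zero =>
      intro q hq _ l
      have := hq l
      rw [Polynomial.mem_degreeLT] at this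
      simpa using this
    | succ D ih =>
      intro q hq hrel
      have hc : ∀ l, (q l).coeff D = 0 := by
        have h1 : ∑ l, (q l).coeff D • padeTop κ H M (P l) = 0 := by
          funext i
          have h2 := congrArg (fun p : Polynomial κ => p.coeff (D + M)) (congrFun hrel i)
          simp only [Finset.sum_apply, Pi.smul_apply, smul_eq_mul, Polynomial.finsetSum_coeff,
            Pi.zero_apply, Polynomial.coeff_zero] at h2
          simp only [Finset.sum_apply, Pi.smul_apply, smul_eq_mul, Pi.zero_apply]
          rw [← h2]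
          refine Finset.sum_congr rfl fun l _ => ?_
          rw [Polynomial.coeff_mul_add_eq_of_natDegree_le _ (hP l i)]
          · simp [padeTop]
          · exact pade_natDegree_le (hq l)
        exact fun l => (Fintype.linearIndependent_iff.mp hi) _ h1 l
      refine ih q (fun l => ?_) hrel
      have h5 := hq l
      rw [Polynomial.mem_degreeLT, Polynomial.degree_lt_iff_coeff_zero] at h5 ⊢
      intro m hm
      rcases hm.eq_or_lt with rfl | hm
      · exact hc l
      · exact h5 m hm
  rw [Fintype.linearIndependent_iff]
  intro q hrel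
  refine key ((Finset.univ.sup fun l => (q l).natDegree) + 1) q (fun l => ?_) hrel
  rw [Polynomial.mem_degreeLT]
  refine lt_of_le_of_lt Polynomial.degree_le_natDegree ?_
  have : (q l).natDegree ≤ Finset.univ.sup fun l => (q l).natDegree :=
    Finset.le_sup (f := fun l => (q l).natDegree) (Finset.mem_univ l)
  exact_mod_cast Nat.lt_succ_of_le this

/-- Upper half of Minkowski's second theorem: the numbers `ρ M` of independent solutions of degree
`≤ M` satisfy `∑_{i < M} (H - ρ i) ≤ E`. -/
theorem exists_rank (G : Fin H → PowerSeries κ) (E : ℕ) :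
    ∃ ρ : ℕ → ℕ, (∀ M, ρ M ≤ H) ∧
      (∀ M, ∃ P : Fin (ρ M) → Fin H → Polynomial κ, LinearIndependent (Polynomial κ) P ∧
        ∀ l, P l ∈ padeSet G E M) ∧
      ∀ M, H * M ≤ E + ∑ i ∈ Finset.range M, ρ i := by
  have hfin : ∀ M, FiniteDimensional κ (padeU G E M) := fun M =>
    Submodule.finiteDimensional_of_le (S₂ := LinearMap.range (padeEmb κ H M)) inf_le_left
  have hstep : ∀ M, Module.finrank κ ((padeU G E (M + 1)).map (padeTop κ H M)) +
      Module.finrank κ (padeU G E M) = Module.finrank κ (padeU G E (M + 1)) := by
    intro M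
    have := hfin (M + 1)
    have h := pade_rank_nullity (padeTop κ H M) (padeU G E (M + 1))
    rwa [padeU_succ] at h
  have hsum : ∀ M, ∑ i ∈ Finset.range M, Module.finrank κ ((padeU G E (i + 1)).map (padeTop κ H i))
      + Module.finrank κ (padeU G E 0) = Module.finrank κ (padeU G E M) := by
    intro M
    induction M with
    | zero => simp
    | succ M ih => rw [Finset.sum_range_succ, ← hstep M, ← ih]; ring
  have h0 : Module.finrank κ (padeU G E 0) = 0 := by
    have : padeU G E 0 = ⊥ := by
      rw [eq_bot_iff]
      intro P hP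
      rw [mem_padeU] at hP
      rw [Submodule.mem_bot]
      funext i
      have := hP.1 i
      rw [Polynomial.mem_degreeLT] at this
      simpa using this
    rw [this]; simp
  refine ⟨fun M => Module.finrank κ ((padeU G E (M + 1)).map (padeTop κ H M)), ?_, ?_, ?_⟩
  · intro M
    have := Submodule.finrank_le ((padeU G E (M + 1)).map (padeTop κ H M))
    simpa using this
  · intro M
    let b := Module.finBasis κ ((padeU G E (M + 1)).map (padeTop κ H M))
    have hb : ∀ l, ∃ P ∈ padeU G E (M + 1), padeTop κ H M P = b l := fun l => by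
      have := (b l).2
      rwa [Submodule.mem_map] at this
    choose P hP1 hP2 using hb
    have hdeg : ∀ l i, (P l i).natDegree ≤ M := by
      intro l i
      exact pade_natDegree_le (((mem_padeU _ _ _ _).mp (hP1 l)).1 i)
    refine ⟨P, pade_indep P hdeg ?_, fun l => ⟨hdeg l, ((mem_padeU _ _ _ _).mp (hP1 l)).2⟩⟩
    have : (fun l => padeTop κ H M (P l)) =
        ((padeU G E (M + 1)).map (padeTop κ H M)).subtype ∘ b := by
      funext l
      simp [hP2]
    rw [this]
    exact b.linearIndependent.map' _ (Submodule.ker_subtype _)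
  · intro M
    have h1 := hsum M
    rw [h0, add_zero] at h1
    show H * M ≤ E + ∑ i ∈ Finset.range M, Module.finrank κ ((padeU G E (i + 1)).map (padeTop κ H i))
    rw [h1]
    have h2 := pade_rank_nullity (padeL G E) (LinearMap.range (padeEmb κ H M))
    have h3 : Module.finrank κ (LinearMap.range (padeEmb κ H M)) = H * M := by
      rw [LinearMap.finrank_range_of_inj (padeEmb_inj M), Module.finrank_pi_fintype]
      simp
    have h4 : Module.finrank κ ((LinearMap.range (padeEmb κ H M)).map (padeL G E)) ≤ E := by
      have := Submodule.finrank_le ((LinearMap.range (padeEmb κ H M)).map (padeL G E))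
      simpa using this
    change _ + Module.finrank κ (padeU G E M) = _ at h2
    omega

end Pool.Agent.Lib.MP_d0d59f_nt.Auto
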