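import Pool.Agent.Lib.MP_d0d59f_nt.AutoAbs
import Pool.Agent.Lib.MP_d0d59f_nt.AutoLim

/-!
The transfer theorem for sequences of rational numbers.
-/

namespace Pool.Agent.Lib.MP_d0d59f_nt.Auto

open Filter Topology

/-- the error at level `m` of the approximation of order `E` of `x` -/
noncomputable def err (L Hm : ℕ → ℕ) {K : ℕ} (c : ℕ → Fin K → ℕ → ℚ) (g : ℕ → Fin K → ℚ)
    (x : ℕ → ℚ) (E m : ℕ) : ℚ :=
  x m - ∑ a, g m a * ∑ n ∈ Finset.range E, c m a n * ((2 : ℚ) ^ L m / 3 ^ Hm m) ^ n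

section sq

variable {L : ℕ → ℕ} {hL : Tendsto L atTop atTop}

@[reducible] noncomputable def sqAlg (L : ℕ → ℕ) (hL : Tendsto L atTop atTop) :
    Algebra (smallField L hL) (bigField L hL) :=
  (Subfield.inclusion (smallField_le L hL)).toAlgebra

/-- the germs of sequences of integers -/
def sqO (L : ℕ → ℕ) (hL : Tendsto L atTop atTop) : Subring (bigField L hL) where
  carrier := {z | ∃ f : ℕ → ℤ, (((fun m => (f m : ℚ)) : ℕ → ℚ) : QU) = (z : QU)}
  mul_mem' := by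
    rintro a b ⟨f, hf⟩ ⟨g, hg⟩
    refine ⟨fun m => f m * g m, ?_⟩
    rw [Subfield.coe_mul, ← hf, ← hg, ← Germ.coe_mul]
    congr 1
    funext m
    simp
  one_mem' := by
    refine ⟨fun _ => 1, ?_⟩
    simp only [Int.cast_one, OneMemClass.coe_one]
    rfl
  add_mem' := by
    rintro a b ⟨f, hf⟩ ⟨g, hg⟩
    refine ⟨fun m => f m + g m, ?_⟩
    rw [Subfield.coe_add, ← hf, ← hg, ← Germ.coe_add]
    congr 1
    funext m
    simp
  zero_mem' := by
    refine ⟨fun _ => 0, ?_⟩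
    simp only [Int.cast_zero, ZeroMemClass.coe_zero]
    rfl
  neg_mem' := by
    rintro a ⟨f, hf⟩
    refine ⟨fun m => - f m, ?_⟩
    rw [Subfield.coe_neg, ← hf, ← Germ.coe_neg]
    congr 1

theorem sq_germ_zero {f : ℕ → ℚ} (h : (f : QU) = 0) :
    ∀ᶠ m in (hyperfilter ℕ : Filter ℕ), f m = 0 := by
  have : (f : QU) = ((fun _ => 0 : ℕ → ℚ) : QU) := by rw [h]; rfl
  exact Germ.coe_eq.1 this

theorem sq_germ_ne_zero {f : ℕ → ℚ} (h : (f : QU) ≠ 0) :
    ∀ᶠ m in (hyperfilter ℕ : Filter ℕ), f m ≠ 0 := by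
  by_contra hcon
  have h1 : ∀ᶠ m in (hyperfilter ℕ : Filter ℕ), f m = 0 := by
    have := (Ultrafilter.frequently_iff_eventually (f := hyperfilter ℕ)).1
      (Filter.not_eventually.1 hcon)
    simpa using this
  apply h
  have : (f : QU) = ((fun _ => 0 : ℕ → ℚ) : QU) := Germ.coe_eq.2 h1
  rw [this]
  rfl

theorem sq_L_pos (hL : Tendsto L atTop atTop) :
    ∀ᶠ m in (hyperfilter ℕ : Filter ℕ), 0 < L m :=
  (hL.eventually (eventually_gt_atTop 0)).filter_mono Nat.hyperfilter_le_atTop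

/-- defining property of a limit absolute value -/
def IsLimAbs (n : AbsoluteValue ℚ ℝ) (v : AbsoluteValue (bigField L hL) ℝ) : Prop :=
  ∀ (f : ℕ → ℚ) (z : bigField L hL), (f : QU) = (z : QU) →
        Tendsto (fun m => n (f m) ^ ((1 : ℝ) / L m)) (hyperfilter ℕ) (𝓝 (v z))

theorem sq_val_eq {n : AbsoluteValue ℚ ℝ} {v : AbsoluteValue (bigField L hL) ℝ}
    (hv : IsLimAbs n v) {f : ℕ → ℚ} {z : bigField L hL} (hf : (f : QU) = (z : QU)) {r : ℝ}
    (h : Tendsto (fun m => n (f m) ^ ((1 : ℝ) / L m)) (hyperfilter ℕ) (𝓝 r)) : v z = r :=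
  tendsto_nhds_unique (hv f z hf) h

theorem sq_const {n : AbsoluteValue ℚ ℝ} (hn : HtBound n)
    {v : AbsoluteValue (bigField L hL) ℝ}
    (hv : IsLimAbs n v) (c : smallField L hL) (hc : c ≠ 0) :
    letI := sqAlg L hL
    v (algebraMap (smallField L hL) (bigField L hL) c) = 1 := by
  let _ := sqAlg L hL
  obtain ⟨f, hf, hb⟩ := c.2
  have hz : (f : QU) = ((algebraMap (smallField L hL) (bigField L hL) c : bigField L hL) : QU) := by
    rw [hf]; rfl
  have hlim := hv f _ hz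
  have hne : ∀ᶠ m in (hyperfilter ℕ : Filter ℕ), f m ≠ 0 := by
    apply sq_germ_ne_zero
    rw [hf]
    exact fun h => hc (Subtype.ext h)
  have hpos := sq_L_pos hL
  apply le_antisymm
  · apply le_of_forall_pos_le_add
    intro ε hε
    refine le_of_tendsto hlim ?_
    filter_upwards [hb ε hε, hpos] with m h1 h2
    have h3 : n (f m) ≤ (1 + ε) ^ L m := (hn.le _).trans h1
    calc n (f m) ^ ((1 : ℝ) / L m) ≤ ((1 + ε) ^ L m) ^ ((1 : ℝ) / L m) :=
          Real.rpow_le_rpow (n.nonneg _) h3 (by positivity)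
      _ = 1 + ε := by
          rw [← Real.rpow_natCast, ← Real.rpow_mul (by positivity)]
          rw [mul_one_div_cancel (by positivity), Real.rpow_one]
  · have key : ∀ ε : ℝ, 0 < ε → (1 + ε)⁻¹ ≤
        v (algebraMap (smallField L hL) (bigField L hL) c) := by
      intro ε hε
      refine ge_of_tendsto hlim ?_
      filter_upwards [hb ε hε, hpos, hne] with m h1 h2 h4
      have h3 := hn.ge (f m) h4
      have hht : (0 : ℝ) < ht (f m) := by exact_mod_cast ht_pos _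
      have h5 : ((1 + ε) ^ L m)⁻¹ ≤ n (f m) := by
        rw [inv_le_iff_one_le_mul₀ (by positivity)]
        calc (1 : ℝ) ≤ n (f m) * ht (f m) := h3
          _ ≤ n (f m) * (1 + ε) ^ L m := by
              apply mul_le_mul_of_nonneg_left h1 (n.nonneg _)
      calc (1 + ε)⁻¹ = (((1 + ε) ^ L m)⁻¹) ^ ((1 : ℝ) / L m) := by
            rw [Real.inv_rpow (by positivity), ← Real.rpow_natCast, ← Real.rpow_mul (by positivity)]
            rw [mul_one_div_cancel (by positivity), Real.rpow_one]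
        _ ≤ n (f m) ^ ((1 : ℝ) / L m) := Real.rpow_le_rpow (by positivity) h5 (by positivity)
    have hcont : Tendsto (fun ε : ℝ => (1 + ε)⁻¹) (𝓝[>] 0) (𝓝 1) := by
      have : Tendsto (fun ε : ℝ => (1 + ε)⁻¹) (𝓝 0) (𝓝 ((1 + 0)⁻¹)) := by
        apply Tendsto.inv₀
        · exact (continuous_const.add continuous_id).tendsto _
        · norm_num
      simpa using this.mono_left nhdsWithin_le_nhds
    refine le_of_tendsto hcont ?_
    filter_upwards [self_mem_nhdsWithin] with ε hε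
    exact key ε hε

theorem sq_hyper_of_atTop {p : ℕ → Prop} (h : ∀ᶠ m in atTop, p m) :
    ∀ᶠ m in (hyperfilter ℕ : Filter ℕ), p m :=
  h.filter_mono Nat.hyperfilter_le_atTop

theorem sq_theta_lim {Hm : ℕ → ℕ} {θ : ℝ}
    (hθ : Tendsto (fun m => (Hm m : ℝ) / L m) atTop (𝓝 θ)) (c : ℝ) (hc : 0 < c) :
    Tendsto (fun m => (c ^ Hm m) ^ ((1 : ℝ) / L m)) (hyperfilter ℕ) (𝓝 (c ^ θ)) := by
  have h1 : Tendsto (fun m => c ^ ((Hm m : ℝ) / L m)) atTop (𝓝 (c ^ θ)) :=
    ((Real.continuousAt_const_rpow hc.ne').tendsto).comp hθ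
  refine (h1.mono_left Nat.hyperfilter_le_atTop).congr (fun m => ?_)
  rw [← Real.rpow_natCast, ← Real.rpow_mul hc.le]
  congr 1
  ring

theorem sq_pow_lim (hL : Tendsto L atTop atTop) (c : ℝ) (hc : 0 < c) :
    Tendsto (fun m => (c ^ L m) ^ ((1 : ℝ) / L m)) (hyperfilter ℕ) (𝓝 c) := by
  refine Tendsto.congr' ?_ tendsto_const_nhds
  filter_upwards [sq_L_pos hL] with m hm
  rw [← Real.rpow_natCast, ← Real.rpow_mul hc.le, mul_one_div_cancel (by positivity),
    Real.rpow_one]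

/-- height of a power of `3` along `Hm` -/
theorem sq_ht_T (hL : Tendsto L atTop atTop) {Hm : ℕ → ℕ} {θ : ℝ}
    (hθ : Tendsto (fun m => (Hm m : ℝ) / L m) atTop (𝓝 θ)) :
    ∃ C : ℝ, 2 ≤ C ∧ ∀ᶠ m in (hyperfilter ℕ : Filter ℕ), ((3 : ℝ) ^ Hm m) ≤ C ^ L m := by
  refine ⟨max 2 ((3 : ℝ) ^ (θ + 1)), le_max_left _ _, ?_⟩
  have h1 : ∀ᶠ m in (hyperfilter ℕ : Filter ℕ), (Hm m : ℝ) / L m < θ + 1 :=
    sq_hyper_of_atTop (hθ.eventually (gt_mem_nhds (by linarith)))
  filter_upwards [h1, sq_L_pos hL] with m h1 h2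
  have h3 : (Hm m : ℝ) < (θ + 1) * L m := by
    rwa [div_lt_iff₀ (by exact_mod_cast h2)] at h1
  calc (3 : ℝ) ^ Hm m = (3 : ℝ) ^ (Hm m : ℝ) := (Real.rpow_natCast _ _).symm
    _ ≤ (3 : ℝ) ^ ((θ + 1) * L m) := Real.rpow_le_rpow_of_exponent_le (by norm_num) h3.le
    _ = ((3 : ℝ) ^ (θ + 1)) ^ L m := by
        rw [Real.rpow_mul (by norm_num), Real.rpow_natCast]
    _ ≤ _ := by
        apply pow_le_pow_left₀ (by positivity)
        exact le_max_right _ _

theorem sq_T_mem (hL : Tendsto L atTop atTop) {Hm : ℕ → ℕ} {θ : ℝ}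
    (hθ : Tendsto (fun m => (Hm m : ℝ) / L m) atTop (𝓝 θ)) :
    (((fun m => (3 : ℚ) ^ Hm m) : ℕ → ℚ) : QU) ∈ bigField L hL := by
  obtain ⟨C, hC, h⟩ := sq_ht_T hL hθ
  refine ⟨_, rfl, C, ?_⟩
  filter_upwards [h] with m hm
  have h1 := ht_div_le ((3 : ℤ) ^ Hm m) 1 one_ne_zero
  have h2 : (((3 : ℤ) ^ Hm m : ℤ) : ℚ) / ((1 : ℤ) : ℚ) = (3 : ℚ) ^ Hm m := by push_cast; simp
  rw [h2] at h1
  have h3 : max ((3 : ℤ) ^ Hm m).natAbs (1 : ℤ).natAbs = 3 ^ Hm m := by
    rw [Int.natAbs_pow]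
    simp [Nat.one_le_pow]
  rw [h3] at h1
  calc ((ht ((3 : ℚ) ^ Hm m) : ℕ) : ℝ) ≤ ((3 ^ Hm m : ℕ) : ℝ) := by exact_mod_cast h1
    _ = (3 : ℝ) ^ Hm m := by push_cast; rfl
    _ ≤ _ := hm

theorem sq_X_mem (hL : Tendsto L atTop atTop) {Hm : ℕ → ℕ} {θ : ℝ}
    (hθ : Tendsto (fun m => (Hm m : ℝ) / L m) atTop (𝓝 θ)) :
    (((fun m => (2 : ℚ) ^ L m / 3 ^ Hm m) : ℕ → ℚ) : QU) ∈ bigField L hL := by
  obtain ⟨C, hC, h⟩ := sq_ht_T hL hθ
  refine ⟨_, rfl, C, ?_⟩
  filter_upwards [h] with m hm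
  have h1 := ht_div_le ((2 : ℤ) ^ L m) ((3 : ℤ) ^ Hm m) (by positivity)
  have h2 : (((2 : ℤ) ^ L m : ℤ) : ℚ) / (((3 : ℤ) ^ Hm m : ℤ) : ℚ) = (2 : ℚ) ^ L m / 3 ^ Hm m := by
    push_cast; rfl
  rw [h2] at h1
  have h3 : max ((2 : ℤ) ^ L m).natAbs ((3 : ℤ) ^ Hm m).natAbs = max (2 ^ L m) (3 ^ Hm m) := by
    rw [Int.natAbs_pow, Int.natAbs_pow]
    rfl
  rw [h3] at h1
  have h4 : ((ht ((2 : ℚ) ^ L m / 3 ^ Hm m) : ℕ) : ℝ) ≤ ((max (2 ^ L m) (3 ^ Hm m) : ℕ) : ℝ) := by
    exact_mod_cast h1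
  refine h4.trans ?_
  push_cast
  apply max_le _ hm
  exact pow_le_pow_left₀ (by norm_num) hC _

theorem sq_int_liouville (z : ℤ) (hz : z ≠ 0) :
    1 ≤ Rat.AbsoluteValue.padic 2 (z : ℚ) * Rat.AbsoluteValue.real (z : ℚ) := by
  rw [Rat.AbsoluteValue.padic_eq_padicNorm, Rat.AbsoluteValue.real_eq_abs]
  have h1 : padicNorm 2 (z : ℚ) = (2 : ℚ) ^ (-(padicValInt 2 z : ℤ)) := by
    rw [padicNorm.eq_zpow_of_nonzero (by exact_mod_cast hz)]
    simp
  have h2 : (2 : ℤ) ^ padicValInt 2 z ∣ z := by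
    have := @padicValInt_dvd 2 z
    exact_mod_cast this
  have h3 : (2 : ℤ) ^ padicValInt 2 z ≤ |z| := by
    apply Int.le_of_dvd (abs_pos.2 hz)
    rwa [dvd_abs]
  have h4 : (2 : ℝ) ^ padicValInt 2 z ≤ |(z : ℝ)| := by
    have : (((2 : ℤ) ^ padicValInt 2 z : ℤ) : ℝ) ≤ ((|z| : ℤ) : ℝ) := by exact_mod_cast h3
    push_cast at this
    exact this
  rw [h1]
  push_cast
  rw [zpow_neg, zpow_natCast]
  rw [inv_mul_eq_div, le_div_iff₀ (by positivity), one_mul]
  exact h4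

theorem sq_liouville {v w : AbsoluteValue (bigField L hL) ℝ}
    (hv : IsLimAbs (Rat.AbsoluteValue.padic 2) v) (hw : IsLimAbs Rat.AbsoluteValue.real w)
    (z : bigField L hL) (hz : z ∈ sqO L hL) (hz0 : z ≠ 0) : 1 ≤ v z * w z := by
  obtain ⟨f, hf⟩ := hz
  have h1 := (hv _ z hf).mul (hw _ z hf)
  refine ge_of_tendsto h1 ?_
  have hne : ∀ᶠ m in (hyperfilter ℕ : Filter ℕ), ((f m : ℤ) : ℚ) ≠ 0 := by
    apply sq_germ_ne_zero (f := fun m => ((f m : ℤ) : ℚ))
    rw [hf]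
    exact fun h => hz0 (Subtype.ext h)
  filter_upwards [hne] with m hm
  rw [← Real.mul_rpow (AbsoluteValue.nonneg _ _) (AbsoluteValue.nonneg _ _)]
  apply Real.one_le_rpow _ (by positivity)
  exact sq_int_liouville (f m) (by exact_mod_cast hm)

theorem sq_frac (z : bigField L hL) : ∃ D ∈ sqO L hL, D ≠ 0 ∧ D * z ∈ sqO L hL := by
  obtain ⟨f, hf, C, hC⟩ := z.2
  have hD : (((fun m => ((f m).den : ℚ)) : ℕ → ℚ) : QU) ∈ bigField L hL := by
    refine ⟨_, rfl, C, ?_⟩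
    filter_upwards [hC] with m hm
    have h1 := ht_div_le ((f m).den : ℤ) 1 one_ne_zero
    have h2 : ((((f m).den : ℤ) : ℤ) : ℚ) / ((1 : ℤ) : ℚ) = ((f m).den : ℚ) := by
      push_cast; simp
    rw [h2] at h1
    have h3 : max (((f m).den : ℤ)).natAbs (1 : ℤ).natAbs ≤ ht (f m) := by
      rw [Int.natAbs_natCast]
      apply max_le
      · exact le_max_right _ _
      · exact ht_pos _
    exact (by exact_mod_cast h1.trans h3 : ((ht ((f m).den : ℚ) : ℕ) : ℝ) ≤ (ht (f m) : ℕ)).trans hm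
  refine ⟨⟨_, hD⟩, ⟨fun m => ((f m).den : ℤ), ?_⟩, ?_, ⟨fun m => (f m).num, ?_⟩⟩
  · congr 1
  · intro h
    have h1 : (((fun m => ((f m).den : ℚ)) : ℕ → ℚ) : QU) = 0 := congrArg Subtype.val h
    have h2 := (sq_germ_zero h1).exists
    obtain ⟨m, hm⟩ := h2
    exact (f m).den_nz (by exact_mod_cast hm)
  · rw [Subfield.coe_mul, ← hf, ← Germ.coe_mul]
    congr 1
    funext m
    simp only [Pi.mul_apply]
    rw [mul_comm]
    exact (Rat.mul_den_eq_num (f m)).symm

theorem sq_frac_const (z : smallField L hL) :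
    letI := sqAlg L hL
    ∃ D : smallField L hL, D ≠ 0 ∧ algebraMap (smallField L hL) (bigField L hL) D ∈ sqO L hL ∧
      algebraMap (smallField L hL) (bigField L hL) (D * z) ∈ sqO L hL := by
  let _ := sqAlg L hL
  obtain ⟨f, hf, hC⟩ := z.2
  have hD : (((fun m => ((f m).den : ℚ)) : ℕ → ℚ) : QU) ∈ smallField L hL := by
    refine ⟨_, rfl, fun ε hε => ?_⟩
    filter_upwards [hC ε hε] with m hm
    have h1 := ht_div_le ((f m).den : ℤ) 1 one_ne_zero
    have h2 : ((((f m).den : ℤ) : ℤ) : ℚ) / ((1 : ℤ) : ℚ) = ((f m).den : ℚ) := by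
      push_cast; simp
    rw [h2] at h1
    have h3 : max (((f m).den : ℤ)).natAbs (1 : ℤ).natAbs ≤ ht (f m) := by
      rw [Int.natAbs_natCast]
      apply max_le
      · exact le_max_right _ _
      · exact ht_pos _
    exact (by exact_mod_cast h1.trans h3 : ((ht ((f m).den : ℚ) : ℕ) : ℝ) ≤ (ht (f m) : ℕ)).trans hm
  refine ⟨⟨_, hD⟩, ?_, ⟨fun m => ((f m).den : ℤ), ?_⟩, ⟨fun m => (f m).num, ?_⟩⟩
  · intro h
    have h1 : (((fun m => ((f m).den : ℚ)) : ℕ → ℚ) : QU) = 0 := congrArg Subtype.val h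
    have h2 := (sq_germ_zero h1).exists
    obtain ⟨m, hm⟩ := h2
    exact (f m).den_nz (by exact_mod_cast hm)
  · change _ = (((fun m => ((f m).den : ℚ)) : ℕ → ℚ) : QU)
    congr 1
  · change _ = (((fun m => ((f m).den : ℚ)) : ℕ → ℚ) : QU) * (z : QU)
    rw [← hf, ← Germ.coe_mul]
    congr 1
    funext m
    simp only [Pi.mul_apply]
    rw [mul_comm]
    exact (Rat.mul_den_eq_num (f m)).symm

end sq

/-- If `x` is the sum of the series at the place `2` then it is also the sum of the series at the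
infinite place, in the scale `exp (L m)`. -/
theorem transfer_seq {L Hm : ℕ → ℕ} (hL : Tendsto L atTop atTop) {θ : ℝ}
    (hθ : Tendsto (fun m => (Hm m : ℝ) / L m) atTop (𝓝 θ))
    (h1 : 1 < θ * Real.logb 2 3) (hirr : Irrational (θ * Real.logb 2 3)) {K : ℕ}
    (c : ℕ → Fin K → ℕ → ℚ)
    (hc : ∀ a n, ∀ ε : ℝ, 0 < ε → ∀ᶠ m in atTop, (ht (c m a n) : ℝ) ≤ (1 + ε) ^ L m)
    (g : ℕ → Fin K → ℚ) (hg : ∀ a, ∃ C : ℝ, ∀ᶠ m in atTop, (ht (g m a) : ℝ) ≤ C ^ L m)
    (x : ℕ → ℚ) (hx : ∃ C : ℝ, ∀ᶠ m in atTop, (ht (x m) : ℝ) ≤ C ^ L m)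
    (h2 : ∀ E : ℕ, ∀ᶠ m in atTop, padicNorm 2 (err L Hm c g x E m) ≤ (1 / 2 : ℚ) ^ (E * L m))
    {δ : ℝ} (hδ : 0 < δ) :
    ∃ E : ℕ, ∃ᶠ m in atTop, |(err L Hm c g x E m : ℝ)| ≤ δ ^ L m := by
  classical
  let _ := sqAlg L hL
  -- numbers
  have hl2 : 0 < Real.log 2 := Real.log_pos (by norm_num)
  have hl3 : 0 < Real.log 3 := Real.log_pos (by norm_num)
  have hθpos : 0 < θ := by
    by_contra h
    push Not at h
    have : θ * Real.logb 2 3 ≤ 0 :=
      mul_nonpos_of_nonpos_of_nonneg h (Real.logb_nonneg (by norm_num) (by norm_num))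
    linarith
  have hlog : Real.log 2 < θ * Real.log 3 := by
    rw [Real.logb, ← mul_div_assoc, lt_div_iff₀ hl2, one_mul] at h1
    exact h1
  set τ : ℝ := (3 : ℝ) ^ θ with hτdef
  have hτpos : 0 < τ := Real.rpow_pos_of_pos (by norm_num) _
  have hlogτ : Real.log τ = θ * Real.log 3 := by rw [hτdef, Real.log_rpow (by norm_num)]
  have hτ2 : 2 < τ := by
    rw [← Real.log_lt_log_iff (by norm_num) hτpos, hlogτ]
    exact hlog
  have hτ1 : 1 < τ := by linarith
  -- absolute values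
  obtain ⟨v, hvna, hvlim⟩ := exists_absLim (hL := hL) (Rat.AbsoluteValue.padic 2) htBound_padic
  obtain ⟨w, hwna, hwlim⟩ := exists_absLim (hL := hL) Rat.AbsoluteValue.real htBound_real
  -- elements
  set T : bigField L hL := ⟨_, sq_T_mem hL hθ⟩ with hTdef
  set X : bigField L hL := ⟨_, sq_X_mem hL hθ⟩ with hXdef
  have hTc : (((fun m => (3 : ℚ) ^ Hm m) : ℕ → ℚ) : QU) = (T : QU) := rfl
  have hXc : (((fun m => (2 : ℚ) ^ L m / 3 ^ Hm m) : ℕ → ℚ) : QU) = (X : QU) := rfl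
  have hp2 : Fact (Nat.Prime 2) := ⟨Nat.prime_two⟩
  have hpT : ∀ m, Rat.AbsoluteValue.padic 2 ((3 : ℚ) ^ Hm m) = 1 := by
    intro m
    rw [map_pow]
    have : Rat.AbsoluteValue.padic 2 (3 : ℚ) = 1 := by
      rw [Rat.AbsoluteValue.padic_eq_padicNorm]
      have h5 : padicNorm 2 ((3 : ℕ) : ℚ) = 1 := (padicNorm.nat_eq_one_iff (p := 2) 3).2 (by norm_num)
      have h6 : padicNorm 2 (3 : ℚ) = 1 := by exact_mod_cast h5
      rw [h6]
      norm_num
    rw [this, one_pow]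
  have hp2' : Rat.AbsoluteValue.padic 2 (2 : ℚ) = 1 / 2 := by
    rw [Rat.AbsoluteValue.padic_eq_padicNorm]
    have h5 : padicNorm 2 ((2 : ℕ) : ℚ) = ((2 : ℕ) : ℚ)⁻¹ := padicNorm.padicNorm_p_of_prime (p := 2)
    have h6 : padicNorm 2 (2 : ℚ) = 2⁻¹ := by exact_mod_cast h5
    rw [h6]
    norm_num
  have hvT : v T = 1 := by
    refine sq_val_eq hvlim hTc ?_
    refine Tendsto.congr (fun m => ?_) tendsto_const_nhds
    rw [hpT, Real.one_rpow]
  have hvX : v X = 1 / 2 := by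
    refine sq_val_eq hvlim hXc ?_
    refine (sq_pow_lim hL (1 / 2) (by norm_num)).congr (fun m => ?_)
    rw [map_div₀, hpT, map_pow, hp2', div_one]
  have hwT : w T = τ := by
    refine sq_val_eq hwlim hTc ?_
    refine (sq_theta_lim hθ 3 (by norm_num)).congr (fun m => ?_)
    rw [map_pow, Rat.AbsoluteValue.real_eq_abs]
    norm_num
  have hwX : w X = 2 / τ := by
    refine sq_val_eq hwlim hXc ?_
    refine ((sq_pow_lim hL 2 (by norm_num)).div (sq_theta_lim hθ 3 (by norm_num)) hτpos.ne').congr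
      (fun m => ?_)
    rw [map_div₀, map_pow, map_pow, Rat.AbsoluteValue.real_eq_abs, Rat.AbsoluteValue.real_eq_abs]
    rw [Real.div_rpow (by positivity) (by positivity)]
    norm_num
  have hXne : X ≠ 0 := by
    intro h
    rw [h, map_zero] at hvX
    norm_num at hvX
  have hTne : T ≠ 0 := by
    intro h
    rw [h, map_zero] at hvT
    norm_num at hvT
  -- base data
  have hb : BaseData (smallField L hL) (sqO L hL) X T :=
    { X_ne := hXne
      T_ne := hTne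
      T_mem := ⟨fun m => 3 ^ Hm m, by rw [← hTc]; congr 1; funext m; push_cast; rfl⟩
      TX_mem := by
        refine ⟨fun m => 2 ^ L m, ?_⟩
        rw [Subfield.coe_mul, ← hTc, ← hXc, ← Germ.coe_mul]
        congr 1
        funext m
        simp only [Pi.mul_apply]
        push_cast
        field_simp
      frac := sq_frac
      frac_const := sq_frac_const }
  have hA1 : AbsData (smallField L hL) (sqO L hL) X T v w τ :=
    { v_nonarch := hvna
      v_const := fun c hc => sq_const htBound_padic hvlim c hc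
      v_X := by rw [hvX]; norm_num
      N_const := fun c hc => sq_const htBound_real hwlim c hc
      N_X := by
        rw [hwX, div_le_one hτpos]
        exact hτ2.le
      N_nonarch := hwna
      liouville := fun z hz hz0 => sq_liouville hvlim hwlim z hz hz0
      tau := by rw [hvT, hwT, one_mul] }
  have hA2 : AbsData (smallField L hL) (sqO L hL) X T w v τ :=
    { v_nonarch := hwna
      v_const := fun c hc => sq_const htBound_real hwlim c hc
      v_X := by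
        rw [hwX, div_lt_one hτpos]
        exact hτ2
      N_const := fun c hc => sq_const htBound_padic hvlim c hc
      N_X := by rw [hvX]; norm_num
      N_nonarch := hvna
      liouville := fun z hz hz0 => by
        rw [mul_comm]
        exact sq_liouville hvlim hwlim z hz hz0
      tau := by rw [hvT, hwT, mul_one] }
  have hsum : Real.log (1 / v X) + Real.log (1 / w X) = Real.log τ := by
    rw [hvX, hwX]
    rw [show (1 : ℝ) / (1 / 2) = 2 by norm_num, one_div_div, Real.log_div hτpos.ne' (by norm_num)]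
    ring
  have hirr' : Irrational (Real.log (1 / v X) / Real.log τ) := by
    rw [hvX, hlogτ, show (1 : ℝ) / (1 / 2) = 2 by norm_num]
    have : Real.log 2 / (θ * Real.log 3) = (θ * Real.logb 2 3)⁻¹ := by
      rw [Real.logb]
      field_simp
    rw [this]
    exact hirr.inv
  -- the sequences
  have hcmem : ∀ a n, (((fun m => c m a n) : ℕ → ℚ) : QU) ∈ smallField L hL := fun a n =>
    ⟨_, rfl, fun ε hε => sq_hyper_of_atTop (hc a n ε hε)⟩
  have hgmem : ∀ a, (((fun m => g m a) : ℕ → ℚ) : QU) ∈ bigField L hL := fun a => by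
    obtain ⟨C, hC⟩ := hg a
    exact ⟨_, rfl, C, sq_hyper_of_atTop hC⟩
  have hxmem : ((x : ℕ → ℚ) : QU) ∈ bigField L hL := by
    obtain ⟨C, hC⟩ := hx
    exact ⟨_, rfl, C, sq_hyper_of_atTop hC⟩
  let F : Fin K → PowerSeries (smallField L hL) := fun a => PowerSeries.mk fun n => ⟨_, hcmem a n⟩
  let G : Fin K → bigField L hL := fun a => ⟨_, hgmem a⟩
  let x0 : bigField L hL := ⟨_, hxmem⟩
  have hcoe : ∀ E, ((fun m => err L Hm c g x E m : ℕ → ℚ) : QU) =
      ((x0 - ∑ a, G a * trunc X (F a) E : bigField L hL) : QU) := by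
    intro E
    have hcoe1 : ∀ a, ((trunc X (F a) E : bigField L hL) : QU) =
        ((fun m => ∑ n ∈ Finset.range E, c m a n * ((2 : ℚ) ^ L m / 3 ^ Hm m) ^ n : ℕ → ℚ) : QU) := by
      intro a
      unfold trunc
      induction E with
      | zero =>
        simp only [Finset.range_zero, Finset.sum_empty, ZeroMemClass.coe_zero]
        rfl
      | succ E ih =>
        rw [Finset.sum_range_succ, Subfield.coe_add, ih, Subfield.coe_mul, SubmonoidClass.coe_pow]
        have e1 : ((algebraMap (smallField L hL) (bigField L hL) (PowerSeries.coeff E (F a)) :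
            bigField L hL) : QU) = (((fun m => c m a E) : ℕ → ℚ) : QU) := by
          rw [PowerSeries.coeff_mk]
          rfl
        rw [e1, ← hXc]
        rw [← Germ.coe_pow, ← Germ.coe_mul, ← Germ.coe_add]
        congr 1
        funext m
        simp only [Pi.add_apply, Pi.mul_apply, Pi.pow_apply, Finset.sum_range_succ]
    have hcoe2 : ∀ s : Finset (Fin K), ((∑ a ∈ s, G a * trunc X (F a) E : bigField L hL) : QU) =
        ((fun m => ∑ a ∈ s, g m a * ∑ n ∈ Finset.range E,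
          c m a n * ((2 : ℚ) ^ L m / 3 ^ Hm m) ^ n : ℕ → ℚ) : QU) := by
      intro s
      induction s using Finset.induction_on with
      | empty =>
        simp only [Finset.sum_empty, ZeroMemClass.coe_zero]
        rfl
      | insert a s has ih =>
        rw [Finset.sum_insert has, Subfield.coe_add, ih, Subfield.coe_mul, hcoe1 a]
        have e2 : ((G a : bigField L hL) : QU) = (((fun m => g m a) : ℕ → ℚ) : QU) := rfl
        rw [e2, ← Germ.coe_mul, ← Germ.coe_add]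
        congr 1
        funext m
        simp only [Pi.add_apply, Pi.mul_apply, Finset.sum_insert has]
    rw [Subfield.coe_sub, hcoe2 Finset.univ]
    have e3 : ((x0 : bigField L hL) : QU) = ((x : ℕ → ℚ) : QU) := rfl
    rw [e3, ← Germ.coe_sub]
    congr 1
  have hT := transfer_abs hb hA1 hA2 hτ1 hsum hirr' F G x0 (by
    have hup : ∀ E, v (x0 - ∑ a, G a * trunc X (F a) E) ≤ (1 / 2 : ℝ) ^ E := by
      intro E
      refine le_of_tendsto (hvlim _ _ (hcoe E)) ?_
      filter_upwards [sq_hyper_of_atTop (h2 E), sq_L_pos hL] with m hm hLm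
      rw [Rat.AbsoluteValue.padic_eq_padicNorm]
      have h5 : ((padicNorm 2 (err L Hm c g x E m) : ℚ) : ℝ) ≤ (1 / 2 : ℝ) ^ (E * L m) := by
        have : ((padicNorm 2 (err L Hm c g x E m) : ℚ) : ℝ) ≤ (((1 / 2 : ℚ) ^ (E * L m) : ℚ) : ℝ) := by
          exact_mod_cast hm
        refine this.trans (le_of_eq ?_)
        push_cast
        rfl
      calc ((padicNorm 2 (err L Hm c g x E m) : ℚ) : ℝ) ^ ((1 : ℝ) / L m)
          ≤ ((1 / 2 : ℝ) ^ (E * L m)) ^ ((1 : ℝ) / L m) := by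
            apply Real.rpow_le_rpow _ h5 (by positivity)
            exact_mod_cast padicNorm.nonneg _
        _ = (1 / 2 : ℝ) ^ E := by
            rw [pow_mul, ← Real.rpow_natCast ((1 / 2 : ℝ) ^ E) (L m), ← Real.rpow_mul (by positivity),
              mul_one_div_cancel (by positivity), Real.rpow_one]
    refine squeeze_zero (fun E => AbsoluteValue.nonneg _ _) hup ?_
    exact tendsto_pow_atTop_nhds_zero_of_lt_one (by norm_num) (by norm_num))
  obtain ⟨E, hE⟩ := (hT.eventually (gt_mem_nhds hδ)).exists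
  refine ⟨E, ?_⟩
  have hev : ∀ᶠ m in (hyperfilter ℕ : Filter ℕ), |(err L Hm c g x E m : ℝ)| ≤ δ ^ L m := by
    have h5 := (hwlim _ _ (hcoe E)).eventually (gt_mem_nhds hE)
    filter_upwards [h5, sq_L_pos hL] with m hm hLm
    rw [Rat.AbsoluteValue.real_eq_abs] at hm
    have h6 : (0 : ℝ) ≤ ((|err L Hm c g x E m| : ℚ) : ℝ) := by exact_mod_cast abs_nonneg _
    have h7 : ((((|err L Hm c g x E m| : ℚ) : ℝ)) ^ ((1 : ℝ) / L m)) ^ L m ≤ δ ^ L m :=
      pow_le_pow_left₀ (Real.rpow_nonneg h6 _) hm.le _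
    rw [← Real.rpow_natCast (_ ^ ((1 : ℝ) / L m)) (L m), ← Real.rpow_mul h6,
      one_div_mul_cancel (by positivity), Real.rpow_one] at h7
    rw [← Rat.cast_abs]
    exact h7
  intro hcon
  have hcon' := sq_hyper_of_atTop hcon
  obtain ⟨m, hm1, hm2⟩ := (hev.and hcon').exists
  exact hm2 hm1

end Pool.Agent.Lib.MP_d0d59f_nt.Auto
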