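import Pool.Agent.Lib.MP_d0d59f_nt.AutoEval
import Pool.Agent.Lib.MP_d0d59f_nt.AutoPade
import Pool.Agent.Lib.MP_d0d59f_nt.AutoChain
import Pool.Agent.Lib.MP_d0d59f_nt.AutoDet

/-!
The slope inequality.
-/

namespace Pool.Agent.Lib.MP_d0d59f_nt.Auto

open Module PowerSeries

/-- `O` is a ring of integers of `𝕂`, also for the subfield `κ` of constants; `T` is a denominator of
`X` -/
structure BaseData (κ : Type*) {𝕂 : Type*} [Field κ] [Field 𝕂] [Algebra κ 𝕂] (O : Subring 𝕂)
    (X T : 𝕂) : Prop where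
  X_ne : X ≠ 0
  T_ne : T ≠ 0
  T_mem : T ∈ O
  TX_mem : T * X ∈ O
  frac : ∀ z : 𝕂, ∃ D ∈ O, D ≠ 0 ∧ D * z ∈ O
  frac_const : ∀ c : κ, ∃ D : κ, D ≠ 0 ∧ algebraMap κ 𝕂 D ∈ O ∧ algebraMap κ 𝕂 (D * c) ∈ O

/-- a place of `𝕂` (the norm of `Ω`) together with the product `N` of the other absolute values that
are not bounded by one on `O` -/
structure PlaceData (κ : Type*) {𝕂 : Type*} (Ω : Type*) [Field κ] [Field 𝕂] [Algebra κ 𝕂]
    [NormedField Ω] [Algebra 𝕂 Ω] (O : Subring 𝕂) (X T : 𝕂) (N : AbsoluteValue 𝕂 ℝ) (τ : ℝ) :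
    Prop where
  norm_const : ∀ c : κ, c ≠ 0 → ‖algebraMap 𝕂 Ω (algebraMap κ 𝕂 c)‖ = 1
  norm_X : ‖algebraMap 𝕂 Ω X‖ < 1
  N_const : ∀ c : κ, c ≠ 0 → N (algebraMap κ 𝕂 c) = 1
  N_X : N X ≤ 1
  N_nonarch : ∀ a b, N (a + b) ≤ max (N a) (N b)
  liouville : ∀ z ∈ O, z ≠ 0 → 1 ≤ ‖algebraMap 𝕂 Ω z‖ * N z
  tau : ‖algebraMap 𝕂 Ω T‖ * N T = τ

variable {κ 𝕂 Ω : Type*} [Field κ] [Field 𝕂] [Algebra κ 𝕂] [NormedField Ω] [Algebra 𝕂 Ω]
  {O : Subring 𝕂} {X T : 𝕂} {N : AbsoluteValue 𝕂 ℝ} {τ : ℝ}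

theorem PlaceData.spec (hb : BaseData κ O X T) (hp : PlaceData κ Ω O X T N τ) :
    Spec ((algebraMap 𝕂 Ω).comp (algebraMap κ 𝕂)) (algebraMap 𝕂 Ω X) where
  norm_const := hp.norm_const
  x_ne := by simpa using hb.X_ne
  norm_x := hp.norm_X

variable [CompleteSpace Ω] [IsUltrametricDist Ω]

/-- the dimension over `𝕂` of the span of the values of the power series `G_i` -/
noncomputable def valRank (hb : BaseData κ O X T) (hp : PlaceData κ Ω O X T N τ) {H : ℕ}
    (G : Fin H → PowerSeries κ) : ℕ :=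
  finrank 𝕂 (Submodule.span 𝕂 (Set.range fun i => ev (hp.spec hb) (G i)))

/-! ### auxiliary lemmas for `slope_of_max` -/

section AS1

/-- the value of a polynomial at `X`, in `𝕂` -/
noncomputable def as1_val (𝕂 : Type*) {κ : Type*} [Field κ] [Field 𝕂] [Algebra κ 𝕂] (X : 𝕂)
    (p : Polynomial κ) : 𝕂 := p.eval₂ (algebraMap κ 𝕂) X

theorem as1_ev_poly (hb : BaseData κ O X T) (hp : PlaceData κ Ω O X T N τ) (p : Polynomial κ) :
    ev (hp.spec hb) (p : PowerSeries κ) = algebraMap 𝕂 Ω (as1_val 𝕂 X p) := by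
  rw [ev_poly, as1_val, Polynomial.hom_eval₂]

theorem as1_ev_form (hb : BaseData κ O X T) (hp : PlaceData κ Ω O X T N τ) {H : ℕ}
    (P : Fin H → Polynomial κ) (G : Fin H → PowerSeries κ) :
    ev (hp.spec hb) (form P G) = ∑ i, as1_val 𝕂 X (P i) • ev (hp.spec hb) (G i) := by
  rw [form, map_sum]
  refine Finset.sum_congr rfl fun i _ => ?_
  rw [map_mul, as1_ev_poly hb hp, Algebra.smul_def]

/-- common denominators of finitely many constants -/
theorem as1_common_den (hb : BaseData κ O X T) (S : Finset κ) :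
    ∃ D : κ, D ≠ 0 ∧ algebraMap κ 𝕂 D ∈ O ∧ ∀ c ∈ S, algebraMap κ 𝕂 (D * c) ∈ O := by
  classical
  induction S using Finset.induction_on with
  | empty => exact ⟨1, one_ne_zero, by simp, by simp⟩
  | insert c S hc ih =>
    obtain ⟨D, hD0, hDO, hD⟩ := ih
    obtain ⟨D', hD'0, hD'O, hD'⟩ := hb.frac_const c
    refine ⟨D * D', mul_ne_zero hD0 hD'0, ?_, ?_⟩
    · rw [map_mul]; exact O.mul_mem hDO hD'O
    · intro z hz
      rcases Finset.mem_insert.mp hz with rfl | hz
      · rw [mul_assoc, map_mul]; exact O.mul_mem hDO hD'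
      · have h2 : D * D' * z = D' * (D * z) := by ring
        rw [h2, map_mul]; exact O.mul_mem hD'O (hD z hz)

theorem as1_mem_O (hb : BaseData κ O X T) (p : Polynomial κ) (m : ℕ) (hm : p.natDegree ≤ m)
    (D : κ) (hD : ∀ n, algebraMap κ 𝕂 (D * p.coeff n) ∈ O) :
    algebraMap κ 𝕂 D * T ^ m * as1_val 𝕂 X p ∈ O := by
  rw [as1_val, Polynomial.eval₂_eq_sum_range, Finset.mul_sum]
  refine O.sum_mem fun n hn => ?_
  have hn' : n ≤ m := by
    have := Finset.mem_range.mp hn
    omega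
  have h2 : algebraMap κ 𝕂 D * T ^ m * (algebraMap κ 𝕂 (p.coeff n) * X ^ n) =
      algebraMap κ 𝕂 (D * p.coeff n) * (T ^ (m - n) * (T * X) ^ n) := by
    have h3 : T ^ m = T ^ (m - n) * T ^ n := by rw [← pow_add]; congr 1; omega
    rw [map_mul, mul_pow, h3]; ring
  rw [h2]
  exact O.mul_mem (hD n) (O.mul_mem (O.pow_mem hb.T_mem _) (O.pow_mem hb.TX_mem _))

theorem as1_N_sum (N : AbsoluteValue 𝕂 ℝ) (hN : ∀ a b, N (a + b) ≤ max (N a) (N b))
    {ι : Type*} (S : Finset ι) (f : ι → 𝕂) (c : ℝ) (hc : 0 ≤ c) (hf : ∀ i ∈ S, N (f i) ≤ c) :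
    N (∑ i ∈ S, f i) ≤ c := by
  classical
  induction S using Finset.induction_on with
  | empty => simpa using hc
  | insert i S hi ih =>
    rw [Finset.sum_insert hi]
    refine (hN _ _).trans (max_le (hf i (Finset.mem_insert_self _ _)) (ih fun j hj => ?_))
    exact hf j (Finset.mem_insert_of_mem hj)

theorem as1_N_val (hp : PlaceData κ Ω O X T N τ) (p : Polynomial κ) : N (as1_val 𝕂 X p) ≤ 1 := by
  rw [as1_val, Polynomial.eval₂_eq_sum_range]
  refine as1_N_sum N hp.N_nonarch _ _ 1 zero_le_one fun n _ => ?_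
  rw [map_mul, map_pow]
  refine mul_le_one₀ ?_ (by positivity) (pow_le_one₀ (N.nonneg _) hp.N_X)
  by_cases hc : p.coeff n = 0
  · simp [hc]
  · exact (hp.N_const _ hc).le

theorem as1_norm_val (hb : BaseData κ O X T) (hp : PlaceData κ Ω O X T N τ) (p : Polynomial κ) :
    ‖algebraMap 𝕂 Ω (as1_val 𝕂 X p)‖ ≤ 1 := by
  rw [← as1_ev_poly hb hp]
  exact norm_ev_le_one _ _

/-- the key estimate for a fixed order `E` of vanishing -/
theorem as1_step (hb : BaseData κ O X T) (hp : PlaceData κ Ω O X T N τ) {H : ℕ} (hH : 0 < H)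
    (G : Fin H → PowerSeries κ)
    (hmax : ∀ (t : ℕ) (P : Fin t → Fin H → Polynomial κ), LinearIndependent (Polynomial κ) P →
      t * valRank hb hp G ≤ H * valRank hb hp (fun l => form (P l) G)) (C : ℝ)
    (hC : ∀ (v : Fin (valRank hb hp G) → Fin H → 𝕂) (a b : Fin (valRank hb hp G) → ℝ) (ε : ℝ),
      (∀ j i, v j i ∈ O) → (∀ j i, ‖algebraMap 𝕂 Ω (v j i)‖ ≤ a j) → (∀ j i, N (v j i) ≤ b j) →
      LinearIndependent 𝕂 (fun j => ∑ i, v j i • ev (hp.spec hb) (G i)) →
      (∀ j, ‖∑ i, v j i • ev (hp.spec hb) (G i)‖ ≤ ε * a j) →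
      1 ≤ C * ε * (∏ j, a j) * ∏ j, b j) (E : ℕ) :
    ∃ n : ℕ, H * n ≤ valRank hb hp G * E ∧ 1 ≤ C * ‖algebraMap 𝕂 Ω X‖ ^ E * τ ^ n := by
  classical
  obtain ⟨ρ, hρH, hρP, hρs⟩ := exists_rank G E
  set γ : Fin H → Ω := fun i => ev (hp.spec hb) (G i) with hγ
  set A : ℕ → Set Ω := fun M => (fun P => ev (hp.spec hb) (form P G)) '' padeSet G E M with hA
  have hAmono : Monotone A := fun M M' h => Set.image_mono (padeSet_mono G E h)
  have hAsub : ∀ M, A M ⊆ Submodule.span 𝕂 (Set.range γ) := by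
    rintro M _ ⟨P, -, rfl⟩
    simp only
    rw [as1_ev_form hb hp]
    exact Submodule.sum_mem _ fun i _ => Submodule.smul_mem _ _ (Submodule.subset_span ⟨i, rfl⟩)
  have hfinS : FiniteDimensional 𝕂 (Submodule.span 𝕂 (Set.range γ)) :=
    FiniteDimensional.span_of_finite 𝕂 (Set.finite_range γ)
  have hle : ∀ M, Submodule.span 𝕂 (A M) ≤ Submodule.span 𝕂 (Set.range γ) := fun M =>
    Submodule.span_le.mpr (hAsub M)
  have hfin : ∀ M, FiniteDimensional 𝕂 (Submodule.span 𝕂 (A M)) := fun M =>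
    Submodule.finiteDimensional_of_le (hle M)
  set d : ℕ → ℕ := fun M => finrank 𝕂 (Submodule.span 𝕂 (A M)) with hd
  have hds : ∀ M, d M ≤ valRank hb hp G := fun M => Submodule.finrank_mono (hle M)
  have hρd : ∀ M, ρ M * valRank hb hp G ≤ H * d M := by
    intro M
    obtain ⟨P, hPli, hPmem⟩ := hρP M
    refine (hmax _ P hPli).trans (Nat.mul_le_mul_left _ ?_)
    refine Submodule.finrank_mono (Submodule.span_mono ?_)
    rintro _ ⟨l, rfl⟩
    exact ⟨P l, hPmem l, rfl⟩
  obtain ⟨M, hM⟩ : ∃ M, ρ M = H := by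
    by_contra hcon
    push Not at hcon
    have h1 : ∀ M, ρ M ≤ H - 1 := fun M => by
      have := hρH M
      have := hcon M
      omega
    have h2 := hρs (E + 1)
    have h3 : ∑ i ∈ Finset.range (E + 1), ρ i ≤ (E + 1) * (H - 1) := by
      calc ∑ i ∈ Finset.range (E + 1), ρ i ≤ ∑ _i ∈ Finset.range (E + 1), (H - 1) :=
            Finset.sum_le_sum fun i _ => h1 i
        _ = (E + 1) * (H - 1) := by simp
    have h4 : H * (E + 1) = (E + 1) * (H - 1) + (E + 1) := by
      obtain ⟨k, rfl⟩ := Nat.exists_eq_add_of_lt hH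
      simp; ring
    omega
  have hdM : d M = valRank hb hp G := by
    apply le_antisymm (hds M)
    have := hρd M
    rw [hM] at this
    exact Nat.le_of_mul_le_mul_left this hH
  have hch := chain_basis A hAmono hfin M
  have hdM' : finrank 𝕂 (Submodule.span 𝕂 (A M)) = valRank hb hp G := hdM
  rw [hdM'] at hch
  obtain ⟨v, m, hvli, hvA, hsum⟩ := hch
  -- the bound for `∑ m`
  have hbound : H * ∑ j, m j ≤ valRank hb hp G * E := by
    have h1 : valRank hb hp G * ∑ i ∈ Finset.range M, ρ i ≤ H * ∑ i ∈ Finset.range M, d i := by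
      rw [Finset.mul_sum, Finset.mul_sum]
      exact Finset.sum_le_sum fun i _ => by rw [mul_comm]; exact hρd i
    have h2 : valRank hb hp G * (H * M) ≤
        valRank hb hp G * (E + ∑ i ∈ Finset.range M, ρ i) := Nat.mul_le_mul_left _ (hρs M)
    have h3 : H * (∑ j, m j + ∑ i ∈ Finset.range M, d i) = H * (M * valRank hb hp G) := by
      rw [hsum]
    rw [mul_add] at h2 h3
    have h4 : H * (M * valRank hb hp G) = valRank hb hp G * (H * M) := by ring
    omega
  refine ⟨∑ j, m j, hbound, ?_⟩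
  choose P hPmem hPv using hvA
  have hden : ∀ j, ∃ D : κ, D ≠ 0 ∧ algebraMap κ 𝕂 D ∈ O ∧
      ∀ i n, algebraMap κ 𝕂 (D * (P j i).coeff n) ∈ O := by
    intro j
    obtain ⟨D, h0, h1, h2⟩ := as1_common_den hb
      (Finset.univ.biUnion fun i => (Finset.range (m j + 1)).image fun n => (P j i).coeff n)
    refine ⟨D, h0, h1, fun i n => ?_⟩
    by_cases hn : n ≤ m j
    · apply h2
      rw [Finset.mem_biUnion]
      exact ⟨i, Finset.mem_univ _, Finset.mem_image.mpr ⟨n, Finset.mem_range.mpr (by omega), rfl⟩⟩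
    · have : (P j i).coeff n = 0 :=
        Polynomial.coeff_eq_zero_of_natDegree_lt (lt_of_le_of_lt ((hPmem j).1 i) (by omega))
      rw [this, mul_zero, map_zero]
      exact O.zero_mem
  choose D hD0 hDO hDc using hden
  have hcoef : ∀ j, algebraMap κ 𝕂 (D j) * T ^ m j ≠ 0 := fun j =>
    mul_ne_zero (by simpa using hD0 j) (pow_ne_zero _ hb.T_ne)
  have hval : ∀ j, ∑ i, (algebraMap κ 𝕂 (D j) * T ^ m j * as1_val 𝕂 X (P j i)) • γ i =
      (algebraMap κ 𝕂 (D j) * T ^ m j) • v j := by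
    intro j
    rw [← hPv j]
    simp only
    rw [as1_ev_form hb hp, Finset.smul_sum]
    refine Finset.sum_congr rfl fun i _ => ?_
    rw [mul_smul]
  have hnD : ∀ j, ‖algebraMap 𝕂 Ω (algebraMap κ 𝕂 (D j) * T ^ m j)‖ =
      ‖algebraMap 𝕂 Ω T‖ ^ m j := by
    intro j
    rw [map_mul, map_pow, norm_mul, norm_pow, hp.norm_const _ (hD0 j), one_mul]
  have hND : ∀ j, N (algebraMap κ 𝕂 (D j) * T ^ m j) = N T ^ m j := by
    intro j
    rw [map_mul, map_pow, hp.N_const _ (hD0 j), one_mul]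
  have hfinal := hC (fun j i => algebraMap κ 𝕂 (D j) * T ^ m j * as1_val 𝕂 X (P j i))
    (fun j => ‖algebraMap 𝕂 Ω T‖ ^ m j) (fun j => N T ^ m j) (‖algebraMap 𝕂 Ω X‖ ^ E)
    (fun j i => as1_mem_O hb (P j i) (m j) ((hPmem j).1 i) (D j) (hDc j i))
    (fun j i => by
      rw [map_mul, norm_mul, hnD]
      exact mul_le_of_le_one_right (by positivity) (as1_norm_val hb hp _))
    (fun j i => by
      rw [map_mul, hND]
      exact mul_le_of_le_one_right (by have := N.nonneg T; positivity) (as1_N_val hp _))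
    (by
      have h1 : (fun j => ∑ i, (algebraMap κ 𝕂 (D j) * T ^ m j * as1_val 𝕂 X (P j i)) •
          ev (hp.spec hb) (G i)) =
          (fun j => (Units.mk0 _ (hcoef j)) • v j) := by
        funext j
        exact hval j
      rw [h1]
      exact hvli.units_smul _)
    (fun j => by
      have h1 := hval j
      simp only [hγ] at h1
      rw [h1, Algebra.smul_def, norm_mul, hnD, mul_comm]
      refine mul_le_mul_of_nonneg_right ?_ (by positivity)
      rw [← hPv j]
      exact norm_ev_le _ _ E (hPmem j).2)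
  have hprod : (∏ j, ‖algebraMap 𝕂 Ω T‖ ^ m j) * ∏ j, N T ^ m j = τ ^ ∑ j, m j := by
    rw [← Finset.prod_mul_distrib, ← Finset.prod_pow_eq_pow_sum]
    exact Finset.prod_congr rfl fun j _ => by rw [← mul_pow, hp.tau]
  rw [mul_assoc, hprod] at hfinal
  exact hfinal

end AS1

/-- The slope inequality for a family of maximal slope. -/
theorem slope_of_max (hb : BaseData κ O X T) (hp : PlaceData κ Ω O X T N τ) {H : ℕ}
    (G : Fin H → PowerSeries κ) (hG : ∀ P : Fin H → Polynomial κ, form P G = 0 → P = 0)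
    (hmax : ∀ (t : ℕ) (P : Fin t → Fin H → Polynomial κ), LinearIndependent (Polynomial κ) P →
      t * valRank hb hp G ≤ H * valRank hb hp (fun l => form (P l) G)) :
    (H : ℝ) * Real.log (1 / ‖algebraMap 𝕂 Ω X‖) ≤ valRank hb hp G * Real.log τ := by
  have hτ1 : 1 ≤ τ := by rw [← hp.tau]; exact hp.liouville T hb.T_mem hb.T_ne
  rcases Nat.eq_zero_or_pos H with hH | hH
  · subst hH
    have : 0 ≤ Real.log τ := Real.log_nonneg hτ1
    simp only [Nat.cast_zero, zero_mul]
    positivity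
  set x : ℝ := ‖algebraMap 𝕂 Ω X‖ with hx
  have hx0 : 0 < x := by rw [hx]; exact norm_pos_iff.mpr (by simpa using hb.X_ne)
  have hγ : (fun i => ev (hp.spec hb) (G i)) ≠ 0 := by
    intro hcon
    have h1 := congrFun hcon ⟨0, hH⟩
    simp only [Pi.zero_apply] at h1
    have h2 : G ⟨0, hH⟩ = 0 := by
      by_contra hne
      exact ev_ne_zero _ hne h1
    have h3 := hG (Pi.single ⟨0, hH⟩ 1) (by
      rw [form, Finset.sum_eq_single ⟨0, hH⟩]
      · rw [h2, mul_zero]
      · intro j _ hj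
        rw [Pi.single_eq_of_ne hj]; simp
      · intro h; exact absurd (Finset.mem_univ _) h)
    have h4 := congrFun h3 ⟨0, hH⟩
    simp at h4
  obtain ⟨C, hC0, hC⟩ := det_bound N hp.N_nonarch O hb.frac hp.liouville
    (fun i => ev (hp.spec hb) (G i)) hγ (s := valRank hb hp G) rfl
  by_contra hcon
  push Not at hcon
  set r : ℝ := x ^ H * τ ^ valRank hb hp G with hr
  have hr0 : 0 < r := by rw [hr]; positivity
  have hr1 : r < 1 := by
    rw [← Real.log_neg_iff hr0, hr, Real.log_mul (by positivity) (by positivity), Real.log_pow,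
      Real.log_pow]
    rw [one_div, Real.log_inv] at hcon
    linarith
  obtain ⟨E, hE⟩ := exists_pow_lt_of_lt_one (show (0 : ℝ) < 1 / C ^ H by positivity) hr1
  obtain ⟨n, hn, h1⟩ := as1_step hb hp hH G hmax C (fun v a b ε h1 h2 h3 h4 h5 =>
    hC v a b ε h1 h2 h3 h4 h5) E
  have h2 : 1 ≤ (C * x ^ E * τ ^ n) ^ H := one_le_pow₀ h1
  have h3 : (C * x ^ E * τ ^ n) ^ H ≤ C ^ H * r ^ E := by
    have h4 : (C * x ^ E * τ ^ n) ^ H = C ^ H * ((x ^ H) ^ E * τ ^ (H * n)) := by
      rw [mul_pow, mul_pow, ← pow_mul, ← pow_mul, ← pow_mul, mul_comm E H, mul_comm n H, mul_assoc]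
    have h5 : r ^ E = (x ^ H) ^ E * τ ^ (valRank hb hp G * E) := by
      rw [hr, mul_pow, ← pow_mul τ]
    rw [h4, h5]
    refine mul_le_mul_of_nonneg_left (mul_le_mul_of_nonneg_left ?_ (by positivity)) (by positivity)
    exact pow_le_pow_right₀ hτ1 hn
  have h6 : C ^ H * r ^ E < 1 := by
    rw [lt_div_iff₀ (by positivity)] at hE
    rw [mul_comm]; exact hE
  linarith

/-! ### the slope inequality for all families -/

section AS2

/-- composition of forms -/
theorem as2_form_form {H t : ℕ} (G : Fin H → PowerSeries κ) (P : Fin t → Fin H → Polynomial κ)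
    (Q : Fin t → Polynomial κ) :
    form Q (fun l => form (P l) G) = form (∑ l, Q l • P l) G := by
  unfold form
  have h1 : ∀ i : Fin H, (((∑ l, Q l • P l) i : Polynomial κ) : PowerSeries κ) =
      ∑ l, (Q l : PowerSeries κ) * (P l i : PowerSeries κ) := by
    intro i
    rw [Finset.sum_apply]
    have h2 := map_sum (Polynomial.coeToPowerSeries.ringHom (R := κ))
      (fun l => (Q l • P l) i) Finset.univ
    simp only [Polynomial.coeToPowerSeries.ringHom_apply] at h2
    rw [h2]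
    refine Finset.sum_congr rfl fun l _ => ?_
    rw [Pi.smul_apply, smul_eq_mul, Polynomial.coe_mul]
  simp only [h1, Finset.mul_sum, Finset.sum_mul]
  rw [Finset.sum_comm]
  refine Finset.sum_congr rfl fun i _ => Finset.sum_congr rfl fun l _ => ?_
  ring

theorem as2_form_single {H : ℕ} (G : Fin H → PowerSeries κ) (l : Fin H) :
    form (Pi.single l 1) G = G l := by
  unfold form
  rw [Finset.sum_eq_single l]
  · rw [Pi.single_eq_same, Polynomial.coe_one, one_mul]
  · intro i _ hi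
    rw [Pi.single_eq_of_ne hi, Polynomial.coe_zero, zero_mul]
  · intro h
    exact absurd (Finset.mem_univ l) h

theorem as2_form_zero {H : ℕ} (G : Fin H → PowerSeries κ) :
    form (0 : Fin H → Polynomial κ) G = 0 := by
  unfold form
  refine Finset.sum_eq_zero fun i _ => ?_
  rw [Pi.zero_apply, Polynomial.coe_zero, zero_mul]

theorem as2_valRank_le (hb : BaseData κ O X T) (hp : PlaceData κ Ω O X T N τ) {H : ℕ}
    (G : Fin H → PowerSeries κ) : valRank hb hp G ≤ H := by
  unfold valRank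
  have h := finrank_range_le_card (R := 𝕂) (fun i => ev (hp.spec hb) (G i))
  rwa [Fintype.card_fin] at h

theorem as2_valRank_pos (hb : BaseData κ O X T) (hp : PlaceData κ Ω O X T N τ) {H : ℕ}
    (G : Fin H → PowerSeries κ) (i : Fin H) (hi : G i ≠ 0) : 0 < valRank hb hp G := by
  unfold valRank
  rw [Nat.pos_iff_ne_zero]
  intro h
  have hfin : Module.Finite 𝕂
      (Submodule.span 𝕂 (Set.range fun i => ev (hp.spec hb) (G i))) :=
    FiniteDimensional.span_of_finite 𝕂 (Set.finite_range _)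
  have h1 := Submodule.finrank_eq_zero.1 h
  have h2 : ev (hp.spec hb) (G i) ∈
      Submodule.span 𝕂 (Set.range fun i => ev (hp.spec hb) (G i)) :=
    Submodule.subset_span ⟨i, rfl⟩
  rw [h1, Submodule.mem_bot] at h2
  exact ev_ne_zero (hp.spec hb) hi h2

/-- The slope inequality: the values at `X` of power series which are linearly independent over
`κ(X)` span a large space over `𝕂`. -/
theorem slope (hb : BaseData κ O X T) (hp : PlaceData κ Ω O X T N τ) {H : ℕ}
    (G : Fin H → PowerSeries κ) (hG : ∀ P : Fin H → Polynomial κ, form P G = 0 → P = 0) :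
    (H : ℝ) * Real.log (1 / ‖algebraMap 𝕂 Ω X‖) ≤ valRank hb hp G * Real.log τ := by
  classical
  rcases Nat.eq_zero_or_pos H with hH | hH
  · subst hH
    have h0 : valRank hb hp G = 0 := Nat.le_zero.1 (as2_valRank_le hb hp G)
    rw [h0]
    simp
  -- the finite set of pairs
  let S : Set (ℕ × ℕ) := {q | 1 ≤ q.1 ∧ ∃ P : Fin q.1 → Fin H → Polynomial κ,
    LinearIndependent (Polynomial κ) P ∧ q.2 = valRank hb hp (fun l => form (P l) G)}
  have hle : ∀ (t : ℕ) (P : Fin t → Fin H → Polynomial κ),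
      LinearIndependent (Polynomial κ) P → t ≤ H := by
    intro t P hP
    have h := hP.fintype_card_le_finrank
    rwa [Fintype.card_fin, Module.finrank_fin_fun] at h
  have hpos : ∀ (t : ℕ) (P : Fin t → Fin H → Polynomial κ), 1 ≤ t →
      LinearIndependent (Polynomial κ) P → 0 < valRank hb hp (fun l => form (P l) G) := by
    intro t P ht hP
    have h1 : form (P ⟨0, ht⟩) G ≠ 0 := by
      intro h
      exact hP.ne_zero ⟨0, ht⟩ (hG (P ⟨0, ht⟩) h)
    exact as2_valRank_pos hb hp (fun l => form (P l) G) ⟨0, ht⟩ h1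
  have hSfin : S.Finite := by
    refine Set.Finite.subset ((Set.finite_Iic H).prod (Set.finite_Iic H)) ?_
    rintro ⟨t, s⟩ ⟨_, P, hP, hs⟩
    refine ⟨hle t P hP, ?_⟩
    change s = valRank hb hp (fun l => form (P l) G) at hs
    change s ≤ H
    rw [hs]
    exact (as2_valRank_le hb hp (fun l => form (P l) G)).trans (hle t P hP)
  have hsingle : LinearIndependent (Polynomial κ)
      (fun l : Fin H => (Pi.single l 1 : Fin H → Polynomial κ)) :=
    Pi.linearIndependent_single_one (Fin H) (Polynomial κ)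
  have hmem : (H, valRank hb hp G) ∈ S := by
    refine ⟨hH, fun l => Pi.single l 1, hsingle, ?_⟩
    change valRank hb hp G = valRank hb hp (fun l => form (Pi.single l 1) G)
    simp only [as2_form_single]
  obtain ⟨⟨t, s⟩, ⟨ht, P, hP, hs⟩, hmax⟩ := Set.exists_max_image S
    (fun q => (q.1 : ℚ) / (q.2 : ℚ)) hSfin ⟨_, hmem⟩
  change 1 ≤ t at ht
  change s = valRank hb hp (fun l => form (P l) G) at hs
  have hs0 : 0 < s := by
    rw [hs]
    exact hpos t P ht hP
  -- comparison of ratios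
  have hcmp : ∀ (t' s' : ℕ), (t', s') ∈ S → 0 < s' → t' * s ≤ t * s' := by
    intro t' s' h' hs'
    have h1 := hmax (t', s') h'
    simp only at h1
    rw [div_le_div_iff₀ (by exact_mod_cast hs') (by exact_mod_cast hs0)] at h1
    exact_mod_cast h1
  -- the family of maximal slope
  have hG' : ∀ Q : Fin t → Polynomial κ, form Q (fun l => form (P l) G) = 0 → Q = 0 := by
    intro Q hQ
    rw [as2_form_form] at hQ
    have h1 := hG _ hQ
    funext l
    exact (Fintype.linearIndependent_iff.1 hP) Q h1 l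
  have hmax' : ∀ (t' : ℕ) (Q : Fin t' → Fin t → Polynomial κ),
      LinearIndependent (Polynomial κ) Q →
      t' * valRank hb hp (fun l => form (P l) G) ≤
        t * valRank hb hp (fun l => form (Q l) (fun l => form (P l) G)) := by
    intro t' Q hQ
    rcases Nat.eq_zero_or_pos t' with h0 | h0
    · subst h0
      rw [Nat.zero_mul]
      exact Nat.zero_le _
    have hQP : LinearIndependent (Polynomial κ) (fun l => ∑ k, Q l k • P k) := by
      rw [Fintype.linearIndependent_iff]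
      intro g hg
      have h1 : ∑ k, (∑ l, g l • Q l) k • P k = 0 := by
        rw [← hg]
        simp only [Finset.sum_apply, Finset.smul_sum, Finset.sum_smul, Pi.smul_apply,
          smul_smul, smul_eq_mul]
        rw [Finset.sum_comm]
      have h2 := Fintype.linearIndependent_iff.1 hP _ h1
      have h3 : ∑ l, g l • Q l = 0 := funext h2
      exact Fintype.linearIndependent_iff.1 hQ g h3
    have h4 : valRank hb hp (fun l => form (Q l) (fun l => form (P l) G)) =
        valRank hb hp (fun l => form (∑ k, Q l k • P k) G) := by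
      simp only [as2_form_form]
    rw [← hs, h4]
    refine hcmp t' _ ⟨h0, fun l => ∑ k, Q l k • P k, hQP, rfl⟩ ?_
    exact hpos t' _ h0 hQP
  have hfinal := slope_of_max hb hp (fun l => form (P l) G) hG' hmax'
  rw [← hs] at hfinal
  have hlog : 0 ≤ Real.log (1 / ‖algebraMap 𝕂 Ω X‖) := by
    refine Real.log_nonneg ?_
    have h1 : 0 < ‖algebraMap 𝕂 Ω X‖ := norm_pos_iff.2 (hp.spec hb).x_ne
    rw [le_div_iff₀ h1, one_mul]
    exact hp.norm_X.le
  have hG0 : 0 < valRank hb hp G := by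
    refine as2_valRank_pos hb hp G ⟨0, hH⟩ ?_
    intro h
    have h1 : form (Pi.single ⟨0, hH⟩ 1) G = 0 := by
      rw [as2_form_single G ⟨0, hH⟩, h]
    have h2 := congrFun (hG (Pi.single ⟨0, hH⟩ 1) h1) ⟨0, hH⟩
    rw [Pi.single_eq_same, Pi.zero_apply] at h2
    exact one_ne_zero h2
  have h5 : H * s ≤ t * valRank hb hp G := hcmp H _ hmem hG0
  have h6 : ((H : ℝ) * s) ≤ t * valRank hb hp G := by exact_mod_cast h5
  have hs1 : (0 : ℝ) < s := by exact_mod_cast hs0
  have hG1 : (0 : ℝ) ≤ valRank hb hp G := Nat.cast_nonneg _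
  have h7 : (s : ℝ) * ((H : ℝ) * Real.log (1 / ‖algebraMap 𝕂 Ω X‖)) ≤
      s * (valRank hb hp G * Real.log τ) := by
    calc (s : ℝ) * ((H : ℝ) * Real.log (1 / ‖algebraMap 𝕂 Ω X‖))
        = ((H : ℝ) * s) * Real.log (1 / ‖algebraMap 𝕂 Ω X‖) := by ring
      _ ≤ (t * valRank hb hp G) * Real.log (1 / ‖algebraMap 𝕂 Ω X‖) :=
          mul_le_mul_of_nonneg_right h6 hlog
      _ = valRank hb hp G * (t * Real.log (1 / ‖algebraMap 𝕂 Ω X‖)) := by ring
      _ ≤ valRank hb hp G * (s * Real.log τ) := mul_le_mul_of_nonneg_left hfinal hG1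
      _ = s * (valRank hb hp G * Real.log τ) := by ring
  exact le_of_mul_le_mul_left h7 hs1

end AS2

end Pool.Agent.Lib.MP_d0d59f_nt.Auto
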