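import Pool.Agent.Lib.MP_d0d59f_nt.AutoSlope
import Pool.Agent.Lib.MP_d0d59f_nt.AutoStep

/-!
The transfer theorem: a `𝕂`-linear relation between the values of finitely many power series at one
place also holds at the other place.
-/

namespace Pool.Agent.Lib.MP_d0d59f_nt.Auto

open Module PowerSeries

variable {κ 𝕂 Ω₁ Ω₂ : Type} [Field κ] [Field 𝕂] [Algebra κ 𝕂] [NormedField Ω₁] [NormedField Ω₂]
  [Algebra 𝕂 Ω₁] [Algebra 𝕂 Ω₂] [CompleteSpace Ω₁] [CompleteSpace Ω₂] [IsUltrametricDist Ω₁]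
  [IsUltrametricDist Ω₂] {O : Subring 𝕂} {X T : 𝕂} {N₁ N₂ : AbsoluteValue 𝕂 ℝ} {τ : ℝ}

/-- extension of the evaluation to the field of fractions of the power series ring -/
noncomputable def evFrac {κ Ω : Type} [Field κ] [NormedField Ω] [CompleteSpace Ω]
    [IsUltrametricDist Ω] {φ : κ →+* Ω} {x : Ω} (h : Spec φ x) :
    FractionRing (PowerSeries κ) →+* Ω :=
  IsFractionRing.lift (ev_injective h)

theorem evFrac_algebraMap {κ Ω : Type} [Field κ] [NormedField Ω] [CompleteSpace Ω]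
    [IsUltrametricDist Ω] {φ : κ →+* Ω} {x : Ω} (h : Spec φ x) (f : PowerSeries κ) :
    evFrac h (algebraMap _ _ f) = ev h f :=
  IsFractionRing.lift_algebraMap (ev_injective h) f

/-- a basis of the span of the values, for the algebra structure of a ring homomorphism -/
theorem exists_rk_basis' {F Ω : Type} [Field F] [Field Ω] (j : F →+* Ω) {n : ℕ} (v : Fin n → Ω) :
    ∃ b : Fin (rk j v) → Ω, ∀ l, ∃ c : Fin (rk j v) → F, v l = ∑ m, j (c m) * b m := by
  let _ := j.toAlgebra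
  have h3 : FiniteDimensional F (Submodule.span F (Set.range v)) :=
    FiniteDimensional.span_of_finite F (Set.finite_range v)
  let B := finBasis F (Submodule.span F (Set.range v))
  refine ⟨fun m => (B m : Ω), fun l => ⟨fun m => B.repr ⟨v l, Submodule.subset_span ⟨l, rfl⟩⟩ m, ?_⟩⟩
  have h4 := congrArg (fun z : Submodule.span F (Set.range v) => (z : Ω))
    (B.sum_repr ⟨v l, Submodule.subset_span ⟨l, rfl⟩⟩)
  simp only [Submodule.coe_sum, Submodule.coe_smul] at h4
  refine h4.symm.trans ?_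
  exact Finset.sum_congr rfl fun m _ => Algebra.smul_def _ _

/-- the value of a polynomial -/
theorem ev_poly_eq {κ 𝕂 Ω : Type} [Field κ] [Field 𝕂] [Algebra κ 𝕂] [NormedField Ω]
    [Algebra 𝕂 Ω] [CompleteSpace Ω] [IsUltrametricDist Ω] {O : Subring 𝕂} {X T : 𝕂}
    {N : AbsoluteValue 𝕂 ℝ} {τ : ℝ} (hb : BaseData κ O X T) (hp : PlaceData κ Ω O X T N τ)
    (p : Polynomial κ) : ev (hp.spec hb) (p : PowerSeries κ) =
      algebraMap 𝕂 Ω (p.eval₂ (algebraMap κ 𝕂) X) := by
  rw [ev_poly, Polynomial.hom_eval₂]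

/-- the slope inequality over a subfield containing the polynomials -/
theorem slopeIneq_of_poly {κ 𝕂 Ω : Type} [Field κ] [Field 𝕂] [Algebra κ 𝕂] [NormedField Ω]
    [Algebra 𝕂 Ω] [CompleteSpace Ω] [IsUltrametricDist Ω] {O : Subring 𝕂} {X T : 𝕂}
    {N : AbsoluteValue 𝕂 ℝ} {τ : ℝ} (hb : BaseData κ O X T) (hp : PlaceData κ Ω O X T N τ)
    (hτ : 1 < τ) (A : Subfield (FractionRing (PowerSeries κ)))
    (hA : ∀ p : Polynomial κ,
      algebraMap (PowerSeries κ) (FractionRing (PowerSeries κ)) (p : PowerSeries κ) ∈ A) :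
    SlopeIneq A (algebraMap 𝕂 Ω) (evFrac (hp.spec hb))
      (Real.log (1 / ‖algebraMap 𝕂 Ω X‖) / Real.log τ) := by
  intro n G hG
  obtain ⟨D, hD⟩ := IsLocalization.exist_integer_multiples_of_finite
    (nonZeroDivisors (PowerSeries κ)) G
  choose g hg using hD
  have hD0 : (D : PowerSeries κ) ≠ 0 := nonZeroDivisors.ne_zero D.2
  have hinj : Function.Injective
      (algebraMap (PowerSeries κ) (FractionRing (PowerSeries κ))) := IsFractionRing.injective _ _
  have hD1 : algebraMap (PowerSeries κ) (FractionRing (PowerSeries κ)) D ≠ 0 := by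
    rw [Ne, map_eq_zero_iff _ hinj]
    exact hD0
  have hg' : ∀ l, algebraMap (PowerSeries κ) (FractionRing (PowerSeries κ)) (g l) =
      algebraMap (PowerSeries κ) (FractionRing (PowerSeries κ)) D * G l := fun l => by
    rw [hg l, Algebra.smul_def]
  -- independence over `κ[X]`
  have hind : ∀ P : Fin n → Polynomial κ, form P g = 0 → P = 0 := by
    intro P hP
    rw [Fintype.linearIndependent_iff] at hG
    have h1 : ∑ l, (⟨_, hA (P l)⟩ : A) • G l = 0 := by
      have h2 := congrArg (algebraMap (PowerSeries κ) (FractionRing (PowerSeries κ))) hP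
      rw [form, map_sum, map_zero] at h2
      have h3 : algebraMap (PowerSeries κ) (FractionRing (PowerSeries κ)) D *
          ∑ l, (⟨_, hA (P l)⟩ : A) • G l = 0 := by
        rw [← h2, Finset.mul_sum]
        refine Finset.sum_congr rfl fun l _ => ?_
        rw [Subfield.smul_def, smul_eq_mul, map_mul, hg' l]
        ring
      exact (mul_eq_zero.mp h3).resolve_left hD1
    funext l
    have h4 := congrArg Subtype.val (hG _ h1 l)
    have h5 : algebraMap (PowerSeries κ) (FractionRing (PowerSeries κ)) (P l : PowerSeries κ) = 0 :=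
      h4
    rw [map_eq_zero_iff _ hinj, Polynomial.coe_eq_zero_iff] at h5
    exact h5
  have hsl := slope hb hp g hind
  -- comparison of the ranks
  obtain ⟨b, hbb⟩ := exists_rk_basis' (algebraMap 𝕂 Ω) (fun l => evFrac (hp.spec hb) (G l))
  have hrk : valRank hb hp g ≤ rk (algebraMap 𝕂 Ω) (fun l => evFrac (hp.spec hb) (G l)) := by
    have h1 : Submodule.span 𝕂 (Set.range fun l => ev (hp.spec hb) (g l)) ≤
        Submodule.span 𝕂 (Set.range fun m => ev (hp.spec hb) D * b m) := by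
      rw [Submodule.span_le]
      rintro _ ⟨l, rfl⟩
      obtain ⟨c, hc⟩ := hbb l
      have h2 : ev (hp.spec hb) (g l) = ev (hp.spec hb) D * evFrac (hp.spec hb) (G l) := by
        rw [← evFrac_algebraMap, ← evFrac_algebraMap, ← map_mul, hg' l]
      have h3 : ev (hp.spec hb) (g l) = ∑ m, c m • (ev (hp.spec hb) D * b m) := by
        rw [h2, hc, Finset.mul_sum]
        refine Finset.sum_congr rfl fun m _ => ?_
        rw [Algebra.smul_def]
        ring
      change ev (hp.spec hb) (g l) ∈ _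
      rw [h3]
      exact Submodule.sum_mem _ fun m _ => Submodule.smul_mem _ _ (Submodule.subset_span ⟨m, rfl⟩)
    have h3 : FiniteDimensional 𝕂
        (Submodule.span 𝕂 (Set.range fun m => ev (hp.spec hb) D * b m)) :=
      FiniteDimensional.span_of_finite 𝕂 (Set.finite_range _)
    have h4 := (Submodule.finrank_mono h1).trans (finrank_range_le_card _)
    rwa [Fintype.card_fin] at h4
  have hlog : 0 < Real.log τ := Real.log_pos hτ
  have h6 : (valRank hb hp g : ℝ) ≤ rk (algebraMap 𝕂 Ω) (fun l => evFrac (hp.spec hb) (G l)) := by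
    exact_mod_cast hrk
  rw [div_mul_eq_mul_div, div_le_iff₀ hlog, mul_comm (Real.log _)]
  exact hsl.trans (mul_le_mul_of_nonneg_right h6 hlog.le)

/-- the initial stage `κ(X)` -/
theorem initial_stage (hb : BaseData κ O X T) (hp₁ : PlaceData κ Ω₁ O X T N₁ τ)
    (hp₂ : PlaceData κ Ω₂ O X T N₂ τ) (hτ : 1 < τ) :
    ∃ A : Subfield (FractionRing (PowerSeries κ)),
      IsStage (evFrac (hp₁.spec hb)) (evFrac (hp₂.spec hb)) (algebraMap 𝕂 Ω₁) (algebraMap 𝕂 Ω₂)
        (Real.log (1 / ‖algebraMap 𝕂 Ω₁ X‖) / Real.log τ)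
        (Real.log (1 / ‖algebraMap 𝕂 Ω₂ X‖) / Real.log τ) A := by
  let A : Subfield (FractionRing (PowerSeries κ)) :=
    { carrier := {a | ∃ z : 𝕂, algebraMap 𝕂 Ω₁ z = evFrac (hp₁.spec hb) a ∧
        algebraMap 𝕂 Ω₂ z = evFrac (hp₂.spec hb) a}
      mul_mem' := by
        rintro a b ⟨z, hz1, hz2⟩ ⟨y, hy1, hy2⟩
        exact ⟨z * y, by rw [map_mul, map_mul, hz1, hy1], by rw [map_mul, map_mul, hz2, hy2]⟩
      one_mem' := ⟨1, by rw [map_one, map_one], by rw [map_one, map_one]⟩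
      add_mem' := by
        rintro a b ⟨z, hz1, hz2⟩ ⟨y, hy1, hy2⟩
        exact ⟨z + y, by rw [map_add, map_add, hz1, hy1], by rw [map_add, map_add, hz2, hy2]⟩
      zero_mem' := ⟨0, by rw [map_zero, map_zero], by rw [map_zero, map_zero]⟩
      neg_mem' := by
        rintro a ⟨z, hz1, hz2⟩
        exact ⟨-z, by rw [map_neg, map_neg, hz1], by rw [map_neg, map_neg, hz2]⟩
      inv_mem' := by
        rintro a ⟨z, hz1, hz2⟩
        exact ⟨z⁻¹, by rw [map_inv₀, map_inv₀, hz1], by rw [map_inv₀, map_inv₀, hz2]⟩ }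
  have hA : ∀ p : Polynomial κ,
      algebraMap (PowerSeries κ) (FractionRing (PowerSeries κ)) (p : PowerSeries κ) ∈ A := fun p =>
    ⟨p.eval₂ (algebraMap κ 𝕂) X, by rw [evFrac_algebraMap, ev_poly_eq hb hp₁],
      by rw [evFrac_algebraMap, ev_poly_eq hb hp₂]⟩
  have hA' : ∀ a : A, ∃ z : 𝕂, algebraMap 𝕂 Ω₁ z = evFrac (hp₁.spec hb) a ∧
        algebraMap 𝕂 Ω₂ z = evFrac (hp₂.spec hb) a := fun a => a.2
  choose g hg1 hg2 using hA'
  have hinj : Function.Injective (algebraMap 𝕂 Ω₁) := (algebraMap 𝕂 Ω₁).injective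
  let i : A →+* 𝕂 :=
    { toFun := g
      map_one' := by
        apply hinj
        rw [hg1, map_one]
        exact map_one _
      map_mul' := fun a b => by
        apply hinj
        rw [hg1, map_mul, hg1, hg1]
        exact map_mul _ _ _
      map_zero' := by
        apply hinj
        rw [hg1, map_zero]
        exact map_zero _
      map_add' := fun a b => by
        apply hinj
        rw [hg1, map_add, hg1, hg1]
        exact map_add _ _ _ }
  exact ⟨A, 𝕂, inferInstance, algebraMap 𝕂 Ω₁, algebraMap 𝕂 Ω₂, i, RingHom.id 𝕂, hg1, hg2,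
    fun z => rfl, fun z => rfl, slopeIneq_of_poly hb hp₁ hτ A hA, slopeIneq_of_poly hb hp₂ hτ A hA⟩

/-- The transfer theorem. -/
theorem transfer (hb : BaseData κ O X T) (hp₁ : PlaceData κ Ω₁ O X T N₁ τ)
    (hp₂ : PlaceData κ Ω₂ O X T N₂ τ) (hτ : 1 < τ)
    (hsum : Real.log (1 / ‖algebraMap 𝕂 Ω₁ X‖) + Real.log (1 / ‖algebraMap 𝕂 Ω₂ X‖) = Real.log τ)
    (hirr : Irrational (Real.log (1 / ‖algebraMap 𝕂 Ω₁ X‖) / Real.log τ)) {n : ℕ}
    (f : Fin n → PowerSeries κ) (g : Fin n → 𝕂) (x : 𝕂)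
    (h : ∑ a, algebraMap 𝕂 Ω₁ (g a) * ev (hp₁.spec hb) (f a) = algebraMap 𝕂 Ω₁ x) :
    ∑ a, algebraMap 𝕂 Ω₂ (g a) * ev (hp₂.spec hb) (f a) = algebraMap 𝕂 Ω₂ x := by
  have hlog : 0 < Real.log τ := Real.log_pos hτ
  have hpos : ∀ {Ω : Type} [NormedField Ω] [Algebra 𝕂 Ω] {N : AbsoluteValue 𝕂 ℝ},
      PlaceData κ Ω O X T N τ → 0 < Real.log (1 / ‖algebraMap 𝕂 Ω X‖) / Real.log τ := by
    intro Ω _ _ N hp
    refine div_pos (Real.log_pos ?_) hlog
    rw [one_div]
    exact (one_lt_inv₀ (norm_pos_iff.mpr (by simpa using hb.X_ne))).mpr hp.norm_X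
  obtain ⟨A, hA⟩ := initial_stage hb hp₁ hp₂ hτ
  obtain ⟨A', hfA, hA'⟩ := stage_adjoin_finite (hpos hp₁) (hpos hp₂)
    (by rw [← add_div, hsum, div_self hlog.ne']) hirr hA
    (fun a => algebraMap (PowerSeries κ) (FractionRing (PowerSeries κ)) (f a))
  have := stage_transfer hA' hfA g x (by simpa [evFrac] using h)
  simpa [evFrac] using this

end Pool.Agent.Lib.MP_d0d59f_nt.Auto
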