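import Pool.Agent.Lib.MP_d0d59f_nt.Sparse

/-!
Power-saving bound, uniform over all intervals, for `T_d`-invariant sets on which `T_d` is
injective.
-/

namespace Pool.Agent.Lib.MP_d0d59f_nt

open Real Finset

/-- The integers in `[a, a + 2 ^ n)`. -/
def box (a : ℤ) (n : ℕ) : Set ℤ := Set.Ico a (a + 2 ^ n)

theorem box_finite (a : ℤ) (n : ℕ) : (box a n).Finite := Set.finite_Ico _ _

theorem box_ncard (a : ℤ) (n : ℕ) : (box a n).ncard = 2 ^ n := by
  rw [box, ← Finset.coe_Ico, Set.ncard_coe_finset, Int.card_Ico]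
  have : a + 2 ^ n - a = ((2 ^ n : ℕ) : ℤ) := by push_cast; ring
  rw [this, Int.toNat_natCast]

theorem parSet_inj_box {d : ℤ} (hd : Odd d) {n : ℕ} {a y z : ℤ}
    (hy : y ∈ box a n) (hz : z ∈ box a n) (h : parSet d n y = parSet d n z) : y = z := by
  have hdvd : (2 : ℤ) ^ n ∣ y - z := by
    apply dvd_of_parity hd
    intro k hk
    have hk' : k ∈ parSet d n y ↔ k ∈ parSet d n z := by rw [h]
    simp only [parSet, Finset.mem_filter, Finset.mem_range, hk, true_and] at hk'
    rcases Int.emod_two_eq_zero_or_one ((T d)^[k] y) with a | a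
    · rcases Int.emod_two_eq_zero_or_one ((T d)^[k] z) with b | b
      · rw [a, b]
      · rw [hk'.mpr b, b]
    · rw [a, hk'.mp a]
  by_contra hne
  have h1 : (2 : ℤ) ^ n ≤ |y - z| :=
    Int.le_of_dvd (abs_pos.mpr (sub_ne_zero.mpr hne)) ((dvd_abs _ _).mpr hdvd)
  have h2 : |y - z| < 2 ^ n := by
    rw [abs_lt]
    constructor <;> linarith [hy.1, hy.2, hz.1, hz.2]
  linarith

/-- One step of the recursion. -/
theorem ncard_box_step {d : ℤ} (hd : Odd d) {S : Set ℤ} (hS : Set.MapsTo (T d) S S)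
    (hinj : Set.InjOn (T d) S) {α : ℝ} (h1 : 1 / 2 ≤ α) (h2 : α < 1) {n m : ℕ}
    (hm : (1 + 2 * |(d : ℝ)|) * 3 ^ (α * n) < 2 ^ m) {M : ℝ}
    (hM : ∀ b : ℤ, ((S ∩ box b m).ncard : ℝ) ≤ M) (a : ℤ) :
    ((S ∩ box a n).ncard : ℝ) ≤ exp (binEntropy α * n) + (n + 1) * M := by
  set A : Set ℤ := {y | y ∈ S ∩ box a n ∧ α * n < (ones d y n : ℝ)} with hA
  set B : ℕ → Set ℤ := fun h => {y | y ∈ S ∩ box a n ∧ (ones d y n : ℝ) ≤ α * n ∧ ones d y n = h}
    with hB
  have hAfin : A.Finite := (box_finite a n).subset fun y hy => hy.1.2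
  have hBfin : ∀ h, (B h).Finite := fun h => (box_finite a n).subset fun y hy => hy.1.2
  have hcov : S ∩ box a n ⊆ A ∪ ⋃ h ∈ Finset.range (n + 1), B h := by
    intro y hy
    rcases lt_or_ge (α * n) (ones d y n : ℝ) with h' | h'
    · exact Or.inl ⟨hy, h'⟩
    · refine Or.inr ?_
      simp only [Set.mem_iUnion]
      exact ⟨ones d y n, Finset.mem_range.mpr (Nat.lt_succ_of_le (ones_le d y n)), hy, h', rfl⟩
  have hcA : (A.ncard : ℝ) ≤ exp (binEntropy α * n) := by
    refine le_trans ?_ (card_large_subsets_le h1 h2 n)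
    have : A.ncard ≤ (((range n).powerset.filter fun A => α * n < (A.card : ℝ)) :
        Set (Finset ℕ)).ncard := by
      apply Set.ncard_le_ncard_of_injOn (parSet d n)
      · intro y hy
        simp only [Finset.coe_filter, Finset.mem_powerset, Set.mem_ofPred_eq]
        exact ⟨Finset.filter_subset _ _, hy.2⟩
      · intro y hy z hz h
        exact parSet_inj_box hd hy.1.2 hz.1.2 h
    rw [Set.ncard_coe_finset] at this
    exact_mod_cast this
  have hcB : ∀ h, ((B h).ncard : ℝ) ≤ M := by
    intro h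
    rcases (B h).eq_empty_or_nonempty with he | hne
    · rw [he, Set.ncard_empty, Nat.cast_zero]
      exact le_trans (Nat.cast_nonneg _) (hM 0)
    · -- choose the element with the smallest image
      obtain ⟨y₀, hy₀, hmin⟩ := Set.exists_min_image (B h) ((T d)^[n]) (hBfin h) hne
      refine le_trans ?_ (hM ((T d)^[n] y₀))
      have : (B h).ncard ≤ (S ∩ box ((T d)^[n] y₀) m).ncard := by
        apply Set.ncard_le_ncard_of_injOn ((T d)^[n])
          (ht := (box_finite _ m).subset fun y hy => hy.2)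
        · intro y hy
          refine ⟨(hS.iterate n) hy.1.1, hmin y hy, ?_⟩
          have e1 := abs_iterate_sub_le hd y n
          have e2 := abs_iterate_sub_le hd y₀ n
          rw [hy.2.2] at e1
          rw [hy₀.2.2] at e2
          have hpow : (3 : ℝ) ^ h ≤ 3 ^ (α * n) := by
            rw [← rpow_natCast]
            apply rpow_le_rpow_of_exponent_le (by norm_num)
            rw [← hy.2.2]
            exact hy.2.1
          have e3 : ((y : ℝ) - y₀) ≤ 2 ^ n := by
            have h3 := hy.1.2.2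
            have h4 := hy₀.1.2.1
            have h5 : y - y₀ ≤ 2 ^ n := by linarith
            exact_mod_cast h5
          have e4 : (3 : ℝ) ^ h * ((y : ℝ) / 2 ^ n) - 3 ^ h * ((y₀ : ℝ) / 2 ^ n) ≤ 3 ^ h := by
            have : (3 : ℝ) ^ h * ((y : ℝ) / 2 ^ n) - 3 ^ h * ((y₀ : ℝ) / 2 ^ n)
                = 3 ^ h * (((y : ℝ) - y₀) / 2 ^ n) := by ring
            rw [this]
            have h6 : ((y : ℝ) - y₀) / 2 ^ n ≤ 1 := by
              rw [div_le_one (by positivity)]; exact e3
            have h7 : (0 : ℝ) < 3 ^ h := by positivity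
            nlinarith
          have e5 := (abs_le.mp e1).2
          have e6 := (abs_le.mp e2).1
          have e7 : ((T d)^[n] y : ℝ) - ((T d)^[n] y₀ : ℝ) ≤ (1 + 2 * |(d : ℝ)|) * 3 ^ h := by
            linarith
          have e8 : (0 : ℝ) ≤ 1 + 2 * |(d : ℝ)| := by positivity
          have e9 : ((T d)^[n] y : ℝ) - ((T d)^[n] y₀ : ℝ) < 2 ^ m := by
            refine lt_of_le_of_lt e7 (lt_of_le_of_lt ?_ hm)
            gcongr
          have e10 : ((T d)^[n] y : ℝ) < ((T d)^[n] y₀ : ℝ) + 2 ^ m := by linarith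
          exact_mod_cast e10
        · intro y hy z hz h
          exact (hinj.iterate hS n) hy.1.1 hz.1.1 h
      exact_mod_cast this
  have hunion : ((S ∩ box a n).ncard : ℝ) ≤ A.ncard + ∑ h ∈ Finset.range (n + 1), ((B h).ncard : ℝ) := by
    have hfinU : (A ∪ ⋃ h ∈ Finset.range (n + 1), B h).Finite := by
      apply hAfin.union
      apply Set.Finite.biUnion (Finset.finite_toSet _)
      intro h _
      exact hBfin h
    have g1 := Set.ncard_le_ncard hcov hfinU
    have g2 := Set.ncard_union_le A (⋃ h ∈ Finset.range (n + 1), B h)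
    have g3 : (⋃ h ∈ Finset.range (n + 1), B h).ncard ≤ ∑ h ∈ Finset.range (n + 1), (B h).ncard := by
      classical
      have : ∀ s : Finset ℕ, (⋃ h ∈ s, B h).ncard ≤ ∑ h ∈ s, (B h).ncard := by
        intro s
        induction s using Finset.induction_on with
        | empty => simp
        | insert h s hs ih =>
          rw [Finset.sum_insert hs, Finset.set_biUnion_insert]
          exact (Set.ncard_union_le _ _).trans (by omega)
      exact this _
    have g4 := g1.trans (g2.trans (Nat.add_le_add_left g3 _))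
    exact_mod_cast g4
  have hsum : ∑ h ∈ Finset.range (n + 1), ((B h).ncard : ℝ) ≤ (n + 1) * M := by
    calc ∑ h ∈ Finset.range (n + 1), ((B h).ncard : ℝ) ≤ ∑ _h ∈ Finset.range (n + 1), M :=
          Finset.sum_le_sum fun h _ => hcB h
      _ = (n + 1) * M := by simp
  linarith

/-- Counting bound with the exponent `binEntropy α / log 2`, `1/2 ≤ α < log 2 / log 3`. -/
theorem ncard_box_le {d : ℤ} (hd : Odd d) {α : ℝ} (h1 : 1 / 2 ≤ α) (h2 : α * log 3 < log 2) :
    ∃ K : ℝ, 0 ≤ K ∧ ∀ S : Set ℤ, Set.MapsTo (T d) S S → Set.InjOn (T d) S →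
      ∀ (n : ℕ) (a : ℤ), ((S ∩ box a n).ncard : ℝ) ≤ K * exp (binEntropy α * n) := by
  have hl2 : 0 < log 2 := log_pos (by norm_num)
  have hl3 : log 2 < log 3 := log_lt_log (by norm_num) (by norm_num)
  have hα0 : 0 < α := by linarith
  have hα1 : α < 1 := by
    by_contra h
    push Not at h
    nlinarith
  have hh : 0 < binEntropy α := binEntropy_pos hα0 hα1
  set h := binEntropy α with hhdef
  set a : ℝ := α * log 3 / log 2 with ha
  have ha1 : a < 1 := by rw [ha, div_lt_one hl2]; exact h2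
  have ha0 : 0 < a := by
    have : 0 < log 3 := by linarith
    positivity
  set D : ℝ := 1 + 2 * |(d : ℝ)| with hD
  have hD1 : 1 ≤ D := by
    have := abs_nonneg (d : ℝ)
    rw [hD]; linarith
  have hD0 : 0 < D := by linarith
  set c : ℝ := log D / log 2 with hc
  have hc0 : 0 ≤ c := div_nonneg (log_nonneg hD1) hl2.le
  have h1a : 0 < 1 - a := by linarith
  -- threshold
  have hlim : Filter.Tendsto (fun n : ℕ => ((n : ℝ) + 1) * exp (-(h * (1 - a) * n)))
      Filter.atTop (nhds 0) := by
    have hb : 0 < h * (1 - a) := by positivity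
    have t1 := (tendsto_pow_mul_exp_neg_atTop_nhds_zero 1)
    have t2 : Filter.Tendsto (fun n : ℕ => (h * (1 - a)) * (n : ℝ)) Filter.atTop Filter.atTop :=
      Filter.Tendsto.const_mul_atTop hb tendsto_natCast_atTop_atTop
    have t3 := (t1.comp t2).const_mul ((h * (1 - a))⁻¹)
    have t4 := (tendsto_exp_neg_atTop_nhds_zero.comp t2)
    have t5 := t3.add t4
    rw [mul_zero, zero_add] at t5
    refine t5.congr ?_
    intro n
    simp only [Function.comp_apply, pow_one]
    field_simp
  have hev := hlim.eventually (gt_mem_nhds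
    (show (0 : ℝ) < exp (-(h * (c + 1))) / 2 by positivity))
  obtain ⟨n₀, hn₀⟩ := Filter.eventually_atTop.mp hev
  obtain ⟨n₁, hn₁⟩ := exists_nat_ge ((c + 2) / (1 - a))
  set N := max n₀ n₁ with hN
  refine ⟨2 * 2 ^ N + 2, by positivity, ?_⟩
  intro S hS hinj n
  set K : ℝ := 2 * 2 ^ N + 2 with hK
  have hK2 : 2 ≤ K := by
    have : (0 : ℝ) < 2 ^ N := by positivity
    rw [hK]; linarith
  induction n using Nat.strong_induction_on with
  | _ n ih =>
    intro b
    rcases lt_or_ge n N with hlt | hge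
    · have e1 : ((S ∩ box b n).ncard : ℝ) ≤ 2 ^ n := by
        have : (S ∩ box b n).ncard ≤ 2 ^ n := by
          rw [← box_ncard b n]
          exact Set.ncard_le_ncard Set.inter_subset_right (box_finite b n)
        exact_mod_cast this
      have e2 : (2 : ℝ) ^ n ≤ 2 ^ N := pow_le_pow_right₀ (by norm_num) hlt.le
      have e3 : 1 ≤ exp (h * n) := by
        rw [← exp_zero]; apply exp_le_exp.mpr; positivity
      have e0 : (0 : ℝ) < 2 ^ N := by positivity
      calc ((S ∩ box b n).ncard : ℝ) ≤ K := by rw [hK]; linarith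
        _ = K * 1 := by ring
        _ ≤ K * exp (h * n) := by gcongr
    · have hge0 : n₀ ≤ n := le_trans (le_max_left _ _) hge
      have hge1 : n₁ ≤ n := le_trans (le_max_right _ _) hge
      have hn : (c + 2) / (1 - a) ≤ n := hn₁.trans (by exact_mod_cast hge1)
      rw [div_le_iff₀ h1a] at hn
      set m : ℕ := ⌊a * n + c⌋₊ + 1 with hm
      have hnn : (0 : ℝ) ≤ a * n + c := by positivity
      have hm1 : (m : ℝ) ≤ a * n + c + 1 := by
        rw [hm]; push_cast
        linarith [Nat.floor_le hnn]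
      have hm2 : a * n + c < (m : ℝ) := by
        rw [hm]; push_cast
        exact Nat.lt_floor_add_one _
      have hmn : m < n := by
        have : (m : ℝ) < n := by nlinarith
        exact_mod_cast this
      have hstep : D * 3 ^ (α * n) < 2 ^ m := by
        rw [← exp_log hD0, rpow_def_of_pos (by norm_num : (0:ℝ) < 3), ← exp_add,
          ← rpow_natCast, rpow_def_of_pos (by norm_num : (0:ℝ) < 2)]
        apply exp_lt_exp.mpr
        have e1 : log D = c * log 2 := by rw [hc]; field_simp
        have e2 : log 3 * (α * n) = a * n * log 2 := by rw [ha]; field_simp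
        rw [e1, e2]
        nlinarith
      have := ncard_box_step hd hS hinj h1 hα1 (n := n) (m := m) hstep (ih m hmn) b
      refine this.trans ?_
      have e4 : (n + 1) * exp (h * m) ≤ exp (h * n) / 2 := by
        have e5 : exp (h * m) ≤ exp (h * n) * exp (-(h * (1 - a) * n)) * exp (h * (c + 1)) := by
          rw [← exp_add, ← exp_add]
          apply exp_le_exp.mpr
          have : h * m ≤ h * (a * n + c + 1) := by gcongr
          linarith
        have e6 := (hn₀ n hge0).le
        have e7 : exp (-(h * (c + 1))) * exp (h * (c + 1)) = 1 := by rw [← exp_add]; simp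
        calc ((n : ℝ) + 1) * exp (h * m)
            ≤ (n + 1) * (exp (h * n) * exp (-(h * (1 - a) * n)) * exp (h * (c + 1))) := by gcongr
          _ = exp (h * n) * exp (h * (c + 1)) * ((n + 1) * exp (-(h * (1 - a) * n))) := by ring
          _ ≤ exp (h * n) * exp (h * (c + 1)) * (exp (-(h * (c + 1))) / 2) := by gcongr
          _ = exp (h * n) / 2 * (exp (-(h * (c + 1))) * exp (h * (c + 1))) := by ring
          _ = exp (h * n) / 2 := by rw [e7, mul_one]
      have e9 : 0 < exp (h * n) := exp_pos _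
      calc exp (h * n) + (n + 1) * (K * exp (h * m))
          = exp (h * n) + K * ((n + 1) * exp (h * m)) := by ring
        _ ≤ exp (h * n) + K * (exp (h * n) / 2) := by gcongr
        _ ≤ K * exp (h * n) := by nlinarith

/-- Main counting theorem, uniform over intervals. -/
theorem sparse_interval {d : ℤ} (hd : Odd d) {ε : ℝ} (hε : 0 < ε) :
    ∃ C : ℝ, ∀ S : Set ℤ, (∀ y ∈ S, T d y ∈ S) → Set.InjOn (T d) S →
      ∀ a X : ℝ, 1 ≤ X →
        ((S ∩ {y : ℤ | a ≤ (y : ℝ) ∧ (y : ℝ) ≤ a + X}).ncard : ℝ) ≤ C * X ^ (E + ε) := by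
  have hl2 : 0 < log 2 := log_pos (by norm_num)
  have hl3 : 0 < log 3 := log_pos (by norm_num)
  have hl23 : log 2 < log 3 := log_lt_log (by norm_num) (by norm_num)
  set θ : ℝ := log 2 / log 3 with hθ
  have hθ1 : 1 / 2 < θ := by
    rw [hθ, lt_div_iff₀ hl3]
    have : log 3 < log 4 := log_lt_log (by norm_num) (by norm_num)
    have h4 : log 4 = 2 * log 2 := by
      rw [show (4 : ℝ) = 2 ^ 2 by norm_num, log_pow]; norm_num
    linarith
  -- choose α
  obtain ⟨α, hα1, hα2, hα3⟩ : ∃ α, 1 / 2 ≤ α ∧ α < θ ∧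
      binEntropy α < binEntropy θ + ε * log 2 := by
    have hcont : ContinuousAt binEntropy θ := binEntropy_continuous.continuousAt
    have h1 : ∀ᶠ x in nhds θ, binEntropy x < binEntropy θ + ε * log 2 :=
      hcont.eventually (gt_mem_nhds (by
        have : 0 < ε * log 2 := by positivity
        linarith))
    obtain ⟨δ, hδ, h2⟩ := Metric.eventually_nhds_iff.mp h1
    refine ⟨max (1 / 2) (θ - δ / 2), le_max_left _ _, ?_, ?_⟩
    · exact max_lt hθ1 (by linarith)
    · apply h2
      rw [Real.dist_eq, abs_lt]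
      have ha := le_max_left (1 / 2) (θ - δ / 2)
      have hb := le_max_right (1 / 2) (θ - δ / 2)
      have hc : max (1 / 2) (θ - δ / 2) < θ := max_lt hθ1 (by linarith)
      constructor <;> linarith
  have hα4 : α * log 3 < log 2 := by
    rw [hθ, lt_div_iff₀ hl3] at hα2; exact hα2
  obtain ⟨K, hK, hmain⟩ := ncard_box_le hd hα1 hα4
  have hα5 : α < 1 := hα2.trans (by rw [hθ, div_lt_one hl3]; exact hl23)
  have hh : 0 < binEntropy α := binEntropy_pos (by linarith) hα5
  refine ⟨K * 4 ^ (binEntropy α / log 2), ?_⟩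
  intro S hS hinj a X hX
  have hX0 : 0 < X := by linarith
  set n : ℕ := ⌊log (2 * X) / log 2⌋₊ + 1 with hn
  have hlog2X : 0 ≤ log (2 * X) := log_nonneg (by linarith)
  have hn1 : (n : ℝ) ≤ log (2 * X) / log 2 + 1 := by
    rw [hn]; push_cast
    linarith [Nat.floor_le (div_nonneg hlog2X hl2.le)]
  have hn2 : log (2 * X) / log 2 < n := by
    rw [hn]; push_cast
    exact Nat.lt_floor_add_one _
  have hpow : 2 * X < 2 ^ n := by
    rw [← exp_log (show 0 < 2 * X by positivity), ← rpow_natCast,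
      rpow_def_of_pos (by norm_num : (0:ℝ) < 2)]
    apply exp_lt_exp.mpr
    rw [div_lt_iff₀ hl2] at hn2
    linarith
  have hsub : S ∩ {y : ℤ | a ≤ (y : ℝ) ∧ (y : ℝ) ≤ a + X} ⊆ S ∩ box ⌈a⌉ n := by
    rintro y ⟨hy1, hy2, hy3⟩
    refine ⟨hy1, Int.ceil_le.mpr hy2, ?_⟩
    have h1 := Int.le_ceil a
    have : (y : ℝ) < (⌈a⌉ : ℝ) + 2 ^ n := by linarith
    exact_mod_cast this
  have hle : ((S ∩ {y : ℤ | a ≤ (y : ℝ) ∧ (y : ℝ) ≤ a + X}).ncard : ℝ)
      ≤ ((S ∩ box ⌈a⌉ n).ncard : ℝ) := by
    exact_mod_cast Set.ncard_le_ncard hsub ((box_finite _ n).subset Set.inter_subset_right)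
  refine hle.trans ((hmain S hS hinj n _).trans ?_)
  rw [mul_assoc]
  apply mul_le_mul_of_nonneg_left _ hK
  have e1 : exp (binEntropy α * n) ≤ exp (binEntropy α * (log (2 * X) / log 2 + 1)) := by
    apply exp_le_exp.mpr
    gcongr
  refine e1.trans ?_
  have e2 : exp (binEntropy α * (log (2 * X) / log 2 + 1))
      = 4 ^ (binEntropy α / log 2) * X ^ (binEntropy α / log 2) := by
    rw [← mul_rpow (by norm_num) hX0.le, rpow_def_of_pos (by positivity)]
    congr 1
    have h4 : log (4 * X) = log 2 + log (2 * X) := by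
      rw [← log_mul (by norm_num) (by positivity)]; congr 1; ring
    rw [h4]
    field_simp
    ring
  rw [e2]
  apply mul_le_mul_of_nonneg_left _ (by positivity)
  apply rpow_le_rpow_of_exponent_le hX
  rw [E, div_add' _ _ _ hl2.ne', div_le_div_iff_of_pos_right hl2]
  linarith

end Pool.Agent.Lib.MP_d0d59f_nt
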