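import Mathlib

/-!
Basic facts on the map `T_d : x ↦ x/2` (x even), `(3x+d)/2` (x odd).
-/

namespace Pool.Agent.Lib.MP_d0d59f_nt

/-- The `3x+d` map. -/
def T (d : ℤ) (y : ℤ) : ℤ := if y % 2 = 0 then y / 2 else (3 * y + d) / 2

/-- Number of odd terms among the first `n` terms of the orbit of `x`. -/
def ones (d : ℤ) (x : ℤ) (n : ℕ) : ℕ :=
  ((Finset.range n).filter fun k => (T d)^[k] x % 2 = 1).card

theorem T_even {d y : ℤ} (h : y % 2 = 0) : 2 * T d y = y := by
  unfold T
  rw [if_pos h]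
  omega

theorem T_odd {d y : ℤ} (hd : Odd d) (h : y % 2 = 1) : 2 * T d y = 3 * y + d := by
  unfold T
  rw [if_neg (by omega)]
  obtain ⟨k, rfl⟩ := hd
  omega

theorem ones_zero (d x : ℤ) : ones d x 0 = 0 := by simp [ones]

theorem ones_succ (d x : ℤ) (n : ℕ) :
    ones d x (n + 1) = ones d x n + if (T d)^[n] x % 2 = 1 then 1 else 0 := by
  unfold ones
  rw [Finset.range_add_one, Finset.filter_insert]
  split_ifs with h
  · rw [Finset.card_insert_of_notMem (by simp)]
  · simp

theorem ones_le (d x : ℤ) (n : ℕ) : ones d x n ≤ n := by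
  unfold ones
  refine (Finset.card_filter_le _ _).trans ?_
  simp

/-- Two integers whose first `n` parities agree are congruent modulo `2^n`. -/
theorem dvd_of_parity {d : ℤ} (hd : Odd d) :
    ∀ (n : ℕ) (x y : ℤ), (∀ k < n, (T d)^[k] x % 2 = (T d)^[k] y % 2) → (2 : ℤ) ^ n ∣ x - y := by
  intro n
  induction n with
  | zero => intro x y _; simp
  | succ n ih =>
    intro x y h
    have h0 : x % 2 = y % 2 := by simpa using h 0 (Nat.succ_pos n)
    have hT : (2 : ℤ) ^ n ∣ T d x - T d y := by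
      apply ih
      intro k hk
      have := h (k + 1) (by omega)
      simpa [Function.iterate_succ_apply] using this
    rcases Int.emod_two_eq_zero_or_one x with hx | hx
    · have e1 := T_even (d := d) hx
      have e2 := T_even (d := d) (y := y) (by omega)
      have : x - y = 2 * (T d x - T d y) := by linarith
      rw [this, pow_succ, mul_comm]
      exact mul_dvd_mul_left 2 hT
    · have e1 := T_odd hd hx
      have e2 := T_odd hd (y := y) (by omega)
      have h3 : 3 * (x - y) = 2 * (T d x - T d y) := by linarith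
      have : (2 : ℤ) ^ (n + 1) ∣ 3 * (x - y) := by
        rw [h3, pow_succ, mul_comm]
        exact mul_dvd_mul_left 2 hT
      exact (IsCoprime.pow_left (by norm_num : IsCoprime (2 : ℤ) 3)).dvd_of_dvd_mul_left this

/-- Growth bound along an orbit segment with few odd terms. -/
theorem abs_iterate_le {d : ℤ} (hd : Odd d) (x : ℤ) (n : ℕ) :
    |((T d)^[n] x : ℝ)| ≤ 3 ^ (ones d x n) * (|(x : ℝ)| / 2 ^ n + |(d : ℝ)|) := by
  induction n with
  | zero => simp [ones_zero]
  | succ n ih =>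
    rw [Function.iterate_succ_apply', ones_succ]
    set y := (T d)^[n] x with hy
    rcases Int.emod_two_eq_zero_or_one y with h0 | h1
    · have e : (2 : ℝ) * (T d y : ℝ) = y := by exact_mod_cast T_even (d := d) h0
      have e' : |(T d y : ℝ)| = |(y : ℝ)| / 2 := by
        rw [← e, abs_mul]; norm_num
      rw [if_neg (by omega), e', add_zero]
      have hpos : (0 : ℝ) ≤ 3 ^ (ones d x n) := by positivity
      have h2 : (0 : ℝ) ≤ |(d : ℝ)| := abs_nonneg _
      calc |(y : ℝ)| / 2 ≤ (3 ^ (ones d x n) * (|(x : ℝ)| / 2 ^ n + |(d : ℝ)|)) / 2 := by linarith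
        _ ≤ 3 ^ (ones d x n) * (|(x : ℝ)| / 2 ^ (n + 1) + |(d : ℝ)|) := by
          rw [pow_succ]
          have : (3 : ℝ) ^ (ones d x n) * |(d : ℝ)| ≥ 0 := by positivity
          have e3 : |(x : ℝ)| / (2 ^ n * 2) = |(x : ℝ)| / 2 ^ n / 2 := by rw [div_div]
          rw [e3]
          nlinarith
    · have e : (2 : ℝ) * (T d y : ℝ) = 3 * y + d := by exact_mod_cast T_odd hd h1
      have e' : |(T d y : ℝ)| ≤ (3 * |(y : ℝ)| + |(d : ℝ)|) / 2 := by
        have : (T d y : ℝ) = (3 * y + d) / 2 := by linarith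
        rw [this, abs_div]
        have := abs_add_le (3 * (y : ℝ)) d
        rw [abs_mul] at this
        norm_num at this ⊢
        linarith
      rw [if_pos h1]
      refine e'.trans ?_
      have h1' : (1 : ℝ) ≤ 3 ^ (ones d x n) := one_le_pow₀ (by norm_num)
      have h2 : (0 : ℝ) ≤ |(d : ℝ)| := abs_nonneg _
      have e3 : |(x : ℝ)| / 2 ^ (n + 1) = |(x : ℝ)| / 2 ^ n / 2 := by rw [pow_succ, div_div]
      rw [e3, pow_succ]
      nlinarith [mul_nonneg (by linarith : (0:ℝ) ≤ 3 ^ (ones d x n) - 1) h2]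

/-- The iterate is the linear map `y ↦ 3^h y / 2^n` up to an error `|d| 3^h`. -/
theorem abs_iterate_sub_le {d : ℤ} (hd : Odd d) (x : ℤ) (n : ℕ) :
    |((T d)^[n] x : ℝ) - 3 ^ (ones d x n) * ((x : ℝ) / 2 ^ n)|
      ≤ 3 ^ (ones d x n) * |(d : ℝ)| := by
  induction n with
  | zero => simp [ones_zero]
  | succ n ih =>
    rw [Function.iterate_succ_apply', ones_succ]
    set y := (T d)^[n] x with hy
    set L : ℝ := 3 ^ (ones d x n) * ((x : ℝ) / 2 ^ n) with hL
    have hpos : (0 : ℝ) ≤ 3 ^ (ones d x n) * |(d : ℝ)| := by positivity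
    rcases Int.emod_two_eq_zero_or_one y with h0 | h1
    · have e : (2 : ℝ) * (T d y : ℝ) = y := by exact_mod_cast T_even (d := d) h0
      rw [if_neg (by omega), add_zero, pow_succ, ← div_div]
      have e1 : (T d y : ℝ) - 3 ^ (ones d x n) * ((x : ℝ) / 2 ^ n / 2) = (y - L) / 2 := by
        rw [hL]; linarith
      rw [e1, abs_div, abs_of_pos (by norm_num : (0:ℝ) < 2)]
      linarith
    · have e : (2 : ℝ) * (T d y : ℝ) = 3 * y + d := by exact_mod_cast T_odd hd h1
      rw [if_pos h1, pow_succ (2 : ℝ), ← div_div, pow_succ (3 : ℝ)]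
      have e1 : (T d y : ℝ) - 3 ^ (ones d x n) * 3 * ((x : ℝ) / 2 ^ n / 2)
          = (3 * (y - L) + d) / 2 := by
        rw [hL]; linarith
      rw [e1, abs_div, abs_of_pos (by norm_num : (0:ℝ) < 2)]
      have h3 := abs_add_le (3 * ((y : ℝ) - L)) d
      rw [abs_mul, abs_of_pos (by norm_num : (0:ℝ) < 3)] at h3
      have h4 : (1 : ℝ) ≤ 3 ^ (ones d x n) := one_le_pow₀ (by norm_num)
      have h5 : |(d : ℝ)| ≤ 3 ^ (ones d x n) * |(d : ℝ)| := by
        have := abs_nonneg (d : ℝ)
        nlinarith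
      linarith

end Pool.Agent.Lib.MP_d0d59f_nt
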