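import Pool.Agent.Lib.MP_d0d59f_nt.Limit

/-!
Factor complexity of the parity sequence.
-/

namespace Pool.Agent.Lib.MP_d0d59f_nt

open Real Finset Filter Topology

/-- The factor of length `n` at position `i` of the parity sequence of `x`. -/
def factor (d x : ℤ) (n i : ℕ) : Fin n → ℤ := fun k => (T d)^[i + k] x % 2

/-- The number of different factors of length `n` of the parity sequence of `x`. -/
noncomputable def complexity (d x : ℤ) (n : ℕ) : ℕ := (Set.range (factor d x n)).ncard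

theorem range_factor_finite (d x : ℤ) (n : ℕ) : (Set.range (factor d x n)).Finite := by
  apply (Set.Finite.pi' (fun _ : Fin n => (Set.finite_Icc (0 : ℤ) 1))).subset
  rintro _ ⟨i, rfl⟩
  intro k
  simp only [factor]
  rcases Int.emod_two_eq_zero_or_one ((T d)^[i + k] x) with h | h <;> rw [h] <;> simp

/-- Two of the first `complexity n + 1` factors coincide. -/
theorem exists_repeat (d x : ℤ) (n : ℕ) :
    ∃ i j : ℕ, i < j ∧ j ≤ complexity d x n ∧ factor d x n i = factor d x n j := by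
  have hfin := range_factor_finite d x n
  have hmaps : Set.MapsTo (factor d x n) (Finset.range (complexity d x n + 1) : Set ℕ)
      (hfin.toFinset : Set (Fin n → ℤ)) := by
    intro i _
    simp
  have hcard : hfin.toFinset.card < (Finset.range (complexity d x n + 1)).card := by
    rw [Finset.card_range, complexity, Set.ncard_eq_toFinset_card _ hfin]
    omega
  obtain ⟨i, hi, j, hj, hij, h⟩ := Finset.exists_ne_map_eq_of_card_lt_of_maps_to hcard hmaps
  rw [Finset.mem_range] at hi hj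
  rcases lt_or_gt_of_ne hij with h' | h'
  · exact ⟨i, j, h', by omega, h⟩
  · exact ⟨j, i, h', by omega, h.symm⟩

/-- Equal factors force a congruence. -/
theorem dvd_of_factor_eq {d : ℤ} (hd : Odd d) {x : ℤ} {n i j : ℕ}
    (h : factor d x n i = factor d x n j) : (2 : ℤ) ^ n ∣ (T d)^[i] x - (T d)^[j] x := by
  apply dvd_of_parity hd
  intro k hk
  have := congrFun h ⟨k, hk⟩
  simp only [factor] at this
  rw [← Function.iterate_add_apply, ← Function.iterate_add_apply, add_comm k i, add_comm k j]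
  exact this

theorem repeat_bound {d x : ℤ} (hd : Odd d)
    (hx : ∀ m p : ℕ, 0 < p → (T d)^[m + p] x ≠ (T d)^[m] x) :
    ∃ C : ℝ, ∀ n i j : ℕ, i < j → factor d x n i = factor d x n j →
      ∃ k : ℕ, (k = i ∨ k = j) ∧ n * log 2 ≤ ones d x k * log 3 - k * log 2 + C := by
  obtain ⟨β, hβ, hlim⟩ := tendsto_normalized hx hd
  obtain ⟨B, hB⟩ := hlim.norm.bddAbove_range
  have hB' : ∀ i : ℕ, |((T d)^[i] x : ℝ)| ≤ B * (3 ^ (ones d x i) / 2 ^ i) := by
    intro i
    have h1 := hB ⟨i, rfl⟩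
    simp only [norm_mul, norm_div, norm_pow, Real.norm_eq_abs] at h1
    rw [abs_of_pos (by norm_num : (0:ℝ) < 2), abs_of_pos (by norm_num : (0:ℝ) < 3)] at h1
    rw [mul_div_assoc', le_div_iff₀ (by positivity)]
    rw [div_mul_eq_mul_div, div_le_iff₀ (by positivity)] at h1
    linarith
  have hB0 : 0 < B := by
    have h1 := hB' 0
    have h2 : (0 : ℝ) < |((T d)^[0] x : ℝ)| := abs_pos.mpr (by exact_mod_cast orbit_ne_zero hx 0)
    simp only [ones_zero, pow_zero, div_one, mul_one] at h1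
    linarith
  refine ⟨log (2 * B), ?_⟩
  intro n i j hij hf
  have hne : (T d)^[i] x ≠ (T d)^[j] x := by
    intro h
    exact absurd (orbit_injective hx h) (by omega)
  have hdvd := dvd_of_factor_eq hd hf
  have h1 : (2 : ℤ) ^ n ≤ |(T d)^[i] x - (T d)^[j] x| :=
    Int.le_of_dvd (abs_pos.mpr (sub_ne_zero.mpr hne)) ((dvd_abs _ _).mpr hdvd)
  have h2 : (2 : ℝ) ^ n ≤ |((T d)^[i] x : ℝ)| + |((T d)^[j] x : ℝ)| := by
    have h3 : (2 : ℝ) ^ n ≤ |((T d)^[i] x : ℝ) - ((T d)^[j] x : ℝ)| := by exact_mod_cast h1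
    exact h3.trans (abs_sub _ _)
  have key : ∀ k : ℕ, (2 : ℝ) ^ n ≤ 2 * |((T d)^[k] x : ℝ)| →
      n * log 2 ≤ ones d x k * log 3 - k * log 2 + log (2 * B) := by
    intro k hk
    have h4 : (2 : ℝ) ^ n ≤ 2 * B * (3 ^ (ones d x k) / 2 ^ k) := by
      have := hB' k
      linarith
    have h5 := log_le_log (by positivity) h4
    rw [log_pow, log_mul (by positivity) (by positivity), log_div (by positivity) (by positivity),
      log_pow, log_pow] at h5
    linarith
  rcases le_total |((T d)^[i] x : ℝ)| |((T d)^[j] x : ℝ)| with h | h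
  · exact ⟨j, Or.inr rfl, key j (by linarith)⟩
  · exact ⟨i, Or.inl rfl, key i (by linarith)⟩

/-- The complexity inequality. -/
theorem complexity_bound {d x : ℤ} (hd : Odd d)
    (hx : ∀ m p : ℕ, 0 < p → (T d)^[m + p] x ≠ (T d)^[m] x) :
    ∃ C : ℝ, ∀ n : ℕ, ∃ k : ℕ, k ≤ complexity d x n ∧
      n * log 2 ≤ ones d x k * log 3 - k * log 2 + C := by
  obtain ⟨C, hC⟩ := repeat_bound hd hx
  refine ⟨C, fun n => ?_⟩
  obtain ⟨i, j, hij, hj, hf⟩ := exists_repeat d x n
  obtain ⟨k, hk, h⟩ := hC n i j hij hf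
  exact ⟨k, by rcases hk with rfl | rfl <;> omega, h⟩

theorem complexity_ge {d x : ℤ} (hd : Odd d)
    (hx : ∀ m p : ℕ, 0 < p → (T d)^[m + p] x ≠ (T d)^[m] x) :
    ∃ C : ℝ, ∀ n : ℕ, n * log 2 ≤ complexity d x n * log (3 / 2) + C := by
  obtain ⟨C, hC⟩ := complexity_bound hd hx
  refine ⟨C, fun n => ?_⟩
  obtain ⟨k, hk, h⟩ := hC n
  have h1 : (ones d x k : ℝ) ≤ k := by exact_mod_cast ones_le d x k
  have h2 : log (3 / 2) = log 3 - log 2 := log_div (by norm_num) (by norm_num)
  have h3 : 0 < log 3 := log_pos (by norm_num)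
  have h4 : 0 ≤ log (3 / 2) := log_nonneg (by norm_num)
  have h5 : (k : ℝ) ≤ complexity d x n := by exact_mod_cast hk
  have h6 : (ones d x k : ℝ) * log 3 ≤ k * log 3 := by gcongr
  have h7 : (k : ℝ) * log (3 / 2) ≤ complexity d x n * log (3 / 2) := by gcongr
  rw [h2] at h7 ⊢
  linarith

end Pool.Agent.Lib.MP_d0d59f_nt
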