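import Pool.Agent.Lib.MP_d0d59f_nt.LogForm
import Pool.Agent.Lib.MP_d0d59f_nt.Complexity

/-!
A finite hitting set for the orbits of low parity complexity.
-/

namespace Pool.Agent.Lib.MP_d0d59f_nt

open Real Filter

/-- the additive part of the `n`-th iterate -/
def err (d x : ℤ) (n : ℕ) : ℤ := 2 ^ n * (T d)^[n] x - 3 ^ ones d x n * x

theorem ones_succ' (d x : ℤ) (n : ℕ) :
    ones d x (n + 1) = (if x % 2 = 1 then 1 else 0) + ones d (T d x) n := by
  induction n with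
  | zero =>
    rw [ones_succ, ones_zero, ones_zero, zero_add, add_zero]
    rfl
  | succ n ih =>
    rw [ones_succ, ih, ones_succ d (T d x) n, Function.iterate_succ_apply]
    ring

theorem ones_add (d x : ℤ) (n l : ℕ) : ones d x (n + l) = ones d x n + ones d ((T d)^[n] x) l := by
  induction l with
  | zero => simp [ones_zero]
  | succ l ih =>
    rw [← add_assoc, ones_succ, ih, ones_succ d ((T d)^[n] x) l, ← Function.iterate_add_apply,
      add_comm l n]
    ring

theorem err_zero (d x : ℤ) : err d x 0 = 0 := by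
  unfold err
  simp [ones_zero]

theorem err_succ {d : ℤ} (hd : Odd d) (x : ℤ) (n : ℕ) :
    err d x (n + 1) = 2 * err d (T d x) n + if x % 2 = 1 then d * 3 ^ ones d (T d x) n else 0 := by
  unfold err
  rw [ones_succ', Function.iterate_succ_apply]
  rcases Int.emod_two_eq_zero_or_one x with h | h
  · have e := T_even (d := d) h
    rw [if_neg (by omega), if_neg (by omega), zero_add]
    linear_combination (3 ^ ones d (T d x) n : ℤ) * e
  · have e := T_odd hd h
    rw [if_pos h, if_pos h]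
    linear_combination (3 ^ ones d (T d x) n : ℤ) * e

theorem err_add (d x : ℤ) (n l : ℕ) :
    err d x (n + l) = 2 ^ n * err d ((T d)^[n] x) l + 3 ^ ones d ((T d)^[n] x) l * err d x n := by
  unfold err
  rw [ones_add, add_comm n l, Function.iterate_add_apply]
  ring

theorem ones_congr {d : ℤ} (n : ℕ) (u v : ℤ) (h : ∀ k < n, (T d)^[k] u % 2 = (T d)^[k] v % 2) :
    ones d u n = ones d v n := by
  unfold ones
  congr 1
  apply Finset.filter_congr
  intro k hk
  rw [Finset.mem_range] at hk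
  rw [h k hk]

theorem err_congr {d : ℤ} (hd : Odd d) (n : ℕ) : ∀ (u v : ℤ),
    (∀ k < n, (T d)^[k] u % 2 = (T d)^[k] v % 2) → err d u n = err d v n := by
  induction n with
  | zero => intro u v _; rw [err_zero, err_zero]
  | succ n ih =>
    intro u v h
    have h0 : u % 2 = v % 2 := by simpa using h 0 (Nat.succ_pos n)
    have h1 : ∀ k < n, (T d)^[k] (T d u) % 2 = (T d)^[k] (T d v) % 2 := by
      intro k hk
      have := h (k + 1) (by omega)
      simpa [Function.iterate_succ_apply] using this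
    rw [err_succ hd, err_succ hd, ih _ _ h1, ones_congr n _ _ h1, h0]

/-- the number of odd terms in a period does not depend on the starting point -/
theorem ones_rotate {d y : ℤ} {L : ℕ} (hy : (T d)^[L] y = y) (i : ℕ) :
    ones d ((T d)^[i] y) L = ones d y L := by
  have h1 := ones_add d y i L
  have h2 := ones_add d y L i
  rw [hy] at h2
  rw [add_comm L i] at h2
  omega

theorem err_period {d y : ℤ} {L : ℕ} (hy : (T d)^[L] y = y) :
    err d y L = (2 ^ L - 3 ^ ones d y L) * y := by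
  unfold err
  rw [hy]
  ring

/-- the growth condition -/
def Growth (d x : ℤ) (κ C : ℝ) : Prop :=
  ∀ i n : ℕ, (3 : ℝ) ^ ones d ((T d)^[i] x) n ≤ C * (2 : ℝ) ^ ((1 + κ) * n)

theorem Growth.shift {d x : ℤ} {κ C : ℝ} (h : Growth d x κ C) (m : ℕ) : Growth d ((T d)^[m] x) κ C := by
  intro i n
  rw [← Function.iterate_add_apply]
  exact h _ n

theorem err_le {d : ℤ} (hd : Odd d) {κ C : ℝ} (hκ : 0 ≤ κ) (hC : 0 ≤ C) (n : ℕ) :
    ∀ x : ℤ, Growth d x κ C → |(err d x n : ℝ)| ≤ |(d : ℝ)| * C * n * (2 : ℝ) ^ ((1 + κ) * n) := by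
  induction n with
  | zero => intro x _; rw [err_zero]; simp
  | succ n ih =>
    intro x hx
    have hx' : Growth d (T d x) κ C := hx.shift 1
    have h1 := ih _ hx'
    have h2 := hx' 0 n
    simp only [Function.iterate_zero, id] at h2
    have hd0 := abs_nonneg (d : ℝ)
    have hpow : (2 : ℝ) ^ ((1 + κ) * n) * 2 ≤ (2 : ℝ) ^ ((1 + κ) * ((n + 1 : ℕ) : ℝ)) := by
      push_cast
      rw [mul_add, rpow_add (by norm_num), mul_one]
      have : (2 : ℝ) ^ (1 : ℝ) ≤ 2 ^ (1 + κ) := rpow_le_rpow_of_exponent_le (by norm_num) (by linarith)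
      rw [rpow_one] at this
      gcongr
    have h0 : 0 < (2 : ℝ) ^ ((1 + κ) * n) := by positivity
    rw [err_succ hd]
    have h3 : |(((2 * err d (T d x) n + if x % 2 = 1 then d * 3 ^ ones d (T d x) n else 0 : ℤ)) : ℝ)|
        ≤ 2 * |(err d (T d x) n : ℝ)| + |(d : ℝ)| * 3 ^ ones d (T d x) n := by
      split_ifs with h
      · push_cast
        refine (abs_add_le _ _).trans ?_
        rw [abs_mul, abs_mul, abs_of_pos (by norm_num : (0 : ℝ) < 2),
          abs_of_pos (by positivity : (0 : ℝ) < 3 ^ ones d (T d x) n)]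
      · push_cast
        rw [add_zero, abs_mul, abs_of_pos (by norm_num : (0 : ℝ) < 2)]
        have : 0 ≤ |(d : ℝ)| * 3 ^ ones d (T d x) n := by positivity
        linarith
    refine h3.trans ?_
    set Z : ℝ := (2 : ℝ) ^ ((1 + κ) * n) with hZ
    clear_value Z
    have h4 : |(d : ℝ)| * 3 ^ ones d (T d x) n ≤ |(d : ℝ)| * (C * Z) := by gcongr
    have h5 : 2 * (|(d : ℝ)| * C * n * Z) + |(d : ℝ)| * (C * Z)
        ≤ |(d : ℝ)| * C * ((n + 1 : ℕ) : ℝ) * (Z * 2) := by
      push_cast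
      have : 0 ≤ |(d : ℝ)| * C * Z := by positivity
      nlinarith
    have h6 : |(d : ℝ)| * C * ((n + 1 : ℕ) : ℝ) * (Z * 2)
        ≤ |(d : ℝ)| * C * ((n + 1 : ℕ) : ℝ) * (2 : ℝ) ^ ((1 + κ) * ((n + 1 : ℕ) : ℝ)) := by
      gcongr
    linarith

theorem two_pow_ne_three_pow {L h : ℕ} (hL : 1 ≤ L) : (2 : ℤ) ^ L - 3 ^ h ≠ 0 := by
  intro h0
  have h1 : (2 : ℤ) ^ L = 3 ^ h := by linarith
  have h2 : Even ((2 : ℤ) ^ L) := (Int.even_pow.mpr ⟨even_two, by omega⟩)
  rw [h1] at h2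
  have h3 : Odd ((3 : ℤ) ^ h) := Odd.pow (by decide)
  exact (Int.not_even_iff_odd.mpr h3) h2

/-- two different points of a cycle with the same factor of length `n` -/
theorem cycle_ineq {d : ℤ} (hd : Odd d) {κ C : ℝ} (hκ : 0 ≤ κ) (hC : 0 ≤ C) {y : ℤ}
    (hg : Growth d y κ C) {L n i j : ℕ} (hL : 1 ≤ L) (hy : (T d)^[L] y = y) (hn : n ≤ L)
    (hne : (T d)^[i] y ≠ (T d)^[j] y) (hf : factor d y n i = factor d y n j) :
    |(2 : ℝ) ^ L - 3 ^ ones d y L| ≤ 2 * |(d : ℝ)| * C * L * (2 : ℝ) ^ ((1 + κ) * ((L - n : ℕ) : ℝ)) := by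
  set u := (T d)^[i] y with hu
  set v := (T d)^[j] y with hv
  have hpar : ∀ k < n, (T d)^[k] u % 2 = (T d)^[k] v % 2 := by
    intro k hk
    have := congrFun hf ⟨k, hk⟩
    simp only [factor] at this
    rw [hu, hv, ← Function.iterate_add_apply, ← Function.iterate_add_apply, add_comm k i,
      add_comm k j]
    exact this
  have hdvd : (2 : ℤ) ^ n ∣ u - v := dvd_of_parity hd n u v hpar
  have huL : (T d)^[L] u = u := by
    rw [hu, ← Function.iterate_add_apply, add_comm, Function.iterate_add_apply, hy]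
  have hvL : (T d)^[L] v = v := by
    rw [hv, ← Function.iterate_add_apply, add_comm, Function.iterate_add_apply, hy]
  have hou : ones d u L = ones d y L := ones_rotate hy i
  have hov : ones d v L = ones d y L := ones_rotate hy j
  obtain ⟨l, rfl⟩ := Nat.exists_eq_add_of_le hn
  have e1 := err_period huL
  have e2 := err_period hvL
  rw [err_add, hou] at e1
  rw [err_add, hov] at e2
  have e3 := err_congr hd n u v hpar
  have e4 := ones_congr n u v hpar
  have e5 : ones d ((T d)^[n] u) l = ones d ((T d)^[n] v) l := by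
    have h1 := ones_add d u n l
    have h2 := ones_add d v n l
    omega
  rw [e3, e5] at e1
  have e6 : (2 ^ (n + l) - 3 ^ ones d y (n + l)) * (u - v)
      = 2 ^ n * (err d ((T d)^[n] u) l - err d ((T d)^[n] v) l) := by
    linear_combination e2 - e1
  have h7 : ((2 : ℤ) ^ n) ≤ |u - v| :=
    Int.le_of_dvd (abs_pos.mpr (sub_ne_zero.mpr hne)) ((dvd_abs _ _).mpr hdvd)
  have h8 : |(2 : ℤ) ^ (n + l) - 3 ^ ones d y (n + l)| * |u - v|
      = 2 ^ n * |err d ((T d)^[n] u) l - err d ((T d)^[n] v) l| := by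
    rw [← abs_mul, e6, abs_mul, abs_of_pos (by positivity : (0 : ℤ) < 2 ^ n)]
  have h9 : |(2 : ℤ) ^ (n + l) - 3 ^ ones d y (n + l)| ≤ |err d ((T d)^[n] u) l - err d ((T d)^[n] v) l| := by
    have h2n : (0 : ℤ) < 2 ^ n := by positivity
    have h10 : |(2 : ℤ) ^ (n + l) - 3 ^ ones d y (n + l)| * 2 ^ n
        ≤ |err d ((T d)^[n] u) l - err d ((T d)^[n] v) l| * 2 ^ n := by
      calc |(2 : ℤ) ^ (n + l) - 3 ^ ones d y (n + l)| * 2 ^ n
          ≤ |(2 : ℤ) ^ (n + l) - 3 ^ ones d y (n + l)| * |u - v| :=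
            mul_le_mul_of_nonneg_left h7 (abs_nonneg _)
        _ = _ := by rw [h8]; ring
    exact le_of_mul_le_mul_right h10 h2n
  have h11 : |(2 : ℝ) ^ (n + l) - 3 ^ ones d y (n + l)|
      ≤ |(err d ((T d)^[n] u) l : ℝ)| + |(err d ((T d)^[n] v) l : ℝ)| := by
    have : |(2 : ℝ) ^ (n + l) - 3 ^ ones d y (n + l)|
        ≤ |(err d ((T d)^[n] u) l : ℝ) - (err d ((T d)^[n] v) l : ℝ)| := by exact_mod_cast h9
    exact this.trans (abs_sub _ _)
  have hgu : Growth d ((T d)^[n] u) κ C := by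
    rw [hu, ← Function.iterate_add_apply]; exact hg.shift _
  have hgv : Growth d ((T d)^[n] v) κ C := by
    rw [hv, ← Function.iterate_add_apply]; exact hg.shift _
  have h12 := err_le hd hκ hC l _ hgu
  have h13 := err_le hd hκ hC l _ hgv
  have e7 : n + l - n = l := by omega
  rw [e7]
  have h14 : (0 : ℝ) ≤ |(d : ℝ)| * C * (2 : ℝ) ^ ((1 + κ) * l) := by positivity
  have h15 : (l : ℝ) ≤ ((n + l : ℕ) : ℝ) := by
    push_cast
    linarith [Nat.cast_nonneg (α := ℝ) n]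
  calc |(2 : ℝ) ^ (n + l) - 3 ^ ones d y (n + l)|
      ≤ 2 * (|(d : ℝ)| * C * (2 : ℝ) ^ ((1 + κ) * l)) * l := by linarith
    _ ≤ 2 * (|(d : ℝ)| * C * (2 : ℝ) ^ ((1 + κ) * l)) * ((n + l : ℕ) : ℝ) := by gcongr
    _ = _ := by ring

/-- factors of a tail are factors -/
theorem complexity_shift (d x : ℤ) (m n : ℕ) : complexity d ((T d)^[m] x) n ≤ complexity d x n := by
  unfold complexity
  apply Set.ncard_le_ncard _ (range_factor_finite d x n)
  rintro _ ⟨i, rfl⟩
  refine ⟨m + i, ?_⟩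
  funext k
  simp only [factor]
  rw [← Function.iterate_add_apply]
  congr 2
  ring

/-- the points of period `L` form a finite set -/
theorem finite_periodic {d : ℤ} (hd : Odd d) (L : ℕ) (hL : 1 ≤ L) : {y : ℤ | (T d)^[L] y = y}.Finite := by
  obtain ⟨B, hB⟩ : ∃ B : ℤ, (2 : ℝ) ^ L * 3 ^ L * |(d : ℝ)| ≤ B := ⟨⌈_⌉, Int.le_ceil _⟩
  apply (Set.finite_Icc (-B) B).subset
  intro y hy
  simp only [Set.mem_ofPred_eq] at hy
  have h1 := abs_iterate_sub_le hd y L
  rw [hy] at h1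
  have h2 := ones_le d y L
  set h := ones d y L with hh
  have h2L : (0 : ℝ) < 2 ^ L := by positivity
  have h3 : |(y : ℝ)| * |(2 : ℝ) ^ L - 3 ^ h| ≤ 2 ^ L * (3 ^ h * |(d : ℝ)|) := by
    have e : |(y : ℝ)| * |(2 : ℝ) ^ L - 3 ^ h| = 2 ^ L * |(y : ℝ) - 3 ^ h * (y / 2 ^ L)| := by
      rw [← abs_mul, ← abs_of_pos h2L, ← abs_mul, abs_of_pos h2L]
      congr 1
      field_simp
    rw [e]
    gcongr
  have h4 : (1 : ℝ) ≤ |(2 : ℝ) ^ L - 3 ^ h| := by
    have : (1 : ℤ) ≤ |(2 : ℤ) ^ L - 3 ^ h| := Int.one_le_abs (two_pow_ne_three_pow hL)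
    exact_mod_cast this
  have h5 : (3 : ℝ) ^ h ≤ 3 ^ L := pow_le_pow_right₀ (by norm_num) h2
  have h6 : |(y : ℝ)| ≤ 2 ^ L * 3 ^ L * |(d : ℝ)| := by
    calc |(y : ℝ)| ≤ |(y : ℝ)| * |(2 : ℝ) ^ L - 3 ^ h| := le_mul_of_one_le_right (abs_nonneg _) h4
      _ ≤ 2 ^ L * (3 ^ h * |(d : ℝ)|) := h3
      _ ≤ 2 ^ L * (3 ^ L * |(d : ℝ)|) := by gcongr
      _ = _ := by ring
  have h7 : |(y : ℝ)| ≤ B := h6.trans hB
  rw [abs_le] at h7
  exact ⟨by exact_mod_cast h7.1, by exact_mod_cast h7.2⟩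

end Pool.Agent.Lib.MP_d0d59f_nt
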