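import Pool.Agent.Lib.MP_d0d59f_nt.Hitting

/-!
A finite hitting set for the orbits of low parity complexity: conclusion.
-/

namespace Pool.Agent.Lib.MP_d0d59f_nt

open Real Filter

theorem exp_beats {a : ℝ} (ha : 0 < a) (K M : ℝ) :
    ∃ N : ℕ, ∀ L : ℕ, N ≤ L → M * (L : ℝ) ^ K < (2 : ℝ) ^ (a * L) := by
  have h2 : 0 < log 2 := log_pos (by norm_num)
  have h := isLittleO_rpow_exp_pos_mul_atTop K (mul_pos ha h2)
  have hM : 0 < 1 / (|M| + 1) := by positivity
  have h' := (h.def hM)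
  have h'' := tendsto_natCast_atTop_atTop (R := ℝ) |>.eventually h'
  obtain ⟨N, hN⟩ := eventually_atTop.mp h''
  refine ⟨N, fun L hL => ?_⟩
  have h3 := hN L hL
  rw [norm_of_nonneg (by positivity), norm_of_nonneg (exp_pos _).le] at h3
  have e : (2 : ℝ) ^ (a * L) = exp (a * log 2 * L) := by
    rw [rpow_def_of_pos (by norm_num)]
    congr 1
    ring
  rw [e]
  have h4 : M * (L : ℝ) ^ K ≤ |M| * (L : ℝ) ^ K := by
    gcongr
    exact le_abs_self _
  have h5 : |M| * (L : ℝ) ^ K ≤ |M| * (1 / (|M| + 1) * exp (a * log 2 * L)) := by gcongr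
  have h6 : |M| * (1 / (|M| + 1) * exp (a * log 2 * L)) < exp (a * log 2 * L) := by
    have h7 : 0 < exp (a * log 2 * L) := exp_pos _
    have h8 : |M| * (1 / (|M| + 1)) < 1 := by
      rw [mul_one_div, div_lt_one (by positivity)]
      linarith
    calc |M| * (1 / (|M| + 1) * exp (a * log 2 * L)) = (|M| * (1 / (|M| + 1))) * exp (a * log 2 * L) := by
          ring
      _ < 1 * exp (a * log 2 * L) := by gcongr
      _ = _ := one_mul _
  linarith

/-- the periods of the cycles reached by orbits of low parity complexity are bounded -/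
theorem period_bound {d : ℤ} (hd : Odd d) {κ c C : ℝ} (hκ : 0 ≤ κ) (hc : 1 ≤ c) (hC : 0 ≤ C)
    (hcκ : c * κ < 1 + κ) (n₀ : ℕ) :
    ∃ N : ℕ, ∀ x : ℤ, (∀ n, n₀ ≤ n → (complexity d x n : ℝ) ≤ c * n) → Growth d x κ C →
      ∀ m L : ℕ, 1 ≤ L → (T d)^[L] ((T d)^[m] x) = (T d)^[m] x →
        (∀ i j : ℕ, i < j → j < L → (T d)^[i] ((T d)^[m] x) ≠ (T d)^[j] ((T d)^[m] x)) → L ≤ N := by
  obtain ⟨c₀, K, hc0, hK, hmeas⟩ := LogMeasure.two_pow_sub_three_pow
  have hcpos : 0 < c := by linarith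
  set θ : ℝ := (1 + κ) * (1 - 1 / c) with hθ
  have hθ1 : θ < 1 := by
    rw [hθ]
    have : (1 + κ) * (1 - 1 / c) = (c * (1 + κ) - (1 + κ)) / c := by field_simp
    rw [this, div_lt_one hcpos]
    linarith
  set M : ℝ := 2 * |(d : ℝ)| * C * (2 : ℝ) ^ (2 * (1 + κ)) / c₀ with hM
  obtain ⟨N₁, hN₁⟩ := exp_beats (a := 1 - θ) (by linarith) (1 + K) M
  clear_value M θ
  obtain ⟨N₂, hN₂⟩ : ∃ N₂ : ℕ, c * (n₀ + 1) + 1 ≤ N₂ := exists_nat_ge _
  refine ⟨max N₁ N₂ + 1, ?_⟩
  intro x hx hg m L hL hper hmin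
  by_contra hcon
  push Not at hcon
  have hLN1 : N₁ ≤ L := by have := le_max_left N₁ N₂; omega
  have hLN2 : N₂ ≤ L := by have := le_max_right N₁ N₂; omega
  have hLr : (1 : ℝ) ≤ L := by exact_mod_cast hL
  have hL2 : c * (n₀ + 1) + 1 ≤ L := hN₂.trans (by exact_mod_cast hLN2)
  set y := (T d)^[m] x with hy
  set n : ℕ := ⌊((L : ℝ) - 1) / c⌋₊ with hn
  have hq : 0 ≤ ((L : ℝ) - 1) / c := div_nonneg (by linarith) hcpos.le
  have hn1 : (n : ℝ) ≤ ((L : ℝ) - 1) / c := Nat.floor_le hq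
  have hn2 : ((L : ℝ) - 1) / c < n + 1 := Nat.lt_floor_add_one _
  have hnn0 : n₀ ≤ n := by
    apply Nat.le_floor
    rw [le_div_iff₀ hcpos]
    nlinarith
  clear_value n
  have hcn : c * n ≤ L - 1 := by
    rw [le_div_iff₀ hcpos] at hn1
    linarith
  have hnL : n ≤ L := by
    have : (n : ℝ) ≤ c * n := le_mul_of_one_le_left (Nat.cast_nonneg _) hc
    have : (n : ℝ) ≤ L := by linarith
    exact_mod_cast this
  have hcomp : complexity d y n < L := by
    have h1 := complexity_shift d x m n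
    have h2 := hx n hnn0
    have h3 : (complexity d y n : ℝ) ≤ complexity d x n := by exact_mod_cast h1
    have h4 : (complexity d y n : ℝ) < L := by linarith
    exact_mod_cast h4
  obtain ⟨i, j, hij, hj, hf⟩ := exists_repeat d y n
  have hne := hmin i j hij (by omega)
  have hgy : Growth d y κ C := hg.shift m
  have h1 := cycle_ineq hd hκ hC hgy hL hper hnL hne hf
  have h2 := hmeas L (ones d y L) hL (ones_le d y L)
  have h3 := h2.trans h1
  -- the length of the rest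
  have hl : (((L - n : ℕ) : ℝ)) ≤ (1 - 1 / c) * L + 2 := by
    rw [Nat.cast_sub hnL]
    have e : (1 - 1 / c) * (L : ℝ) = L - ((L : ℝ) - 1) / c - 1 / c := by
      field_simp
      ring
    have h5 : 1 / c ≤ 1 := by
      rw [div_le_one hcpos]; exact hc
    rw [e]
    linarith
  have hexp : (2 : ℝ) ^ ((1 + κ) * ((L - n : ℕ) : ℝ)) ≤ (2 : ℝ) ^ (θ * L) * (2 : ℝ) ^ (2 * (1 + κ)) := by
    rw [← rpow_add (by norm_num)]
    apply rpow_le_rpow_of_exponent_le (by norm_num)
    have : (1 + κ) * ((L - n : ℕ) : ℝ) ≤ (1 + κ) * ((1 - 1 / c) * L + 2) := by gcongr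
    rw [hθ]
    linarith
  have hd0 := abs_nonneg (d : ℝ)
  have h4 : c₀ * (L : ℝ) ^ (-K) * 2 ^ L
      ≤ 2 * |(d : ℝ)| * C * L * ((2 : ℝ) ^ (θ * L) * (2 : ℝ) ^ (2 * (1 + κ))) := by
    refine h3.trans ?_
    gcongr
  have h5 := hN₁ L hLN1
  -- rewrite `h4` as the opposite of `h5`
  have hLpos : (0 : ℝ) < L := by linarith
  have e1 : (2 : ℝ) ^ L = (2 : ℝ) ^ (θ * L) * (2 : ℝ) ^ ((1 - θ) * L) := by
    rw [← rpow_add (by norm_num), ← rpow_natCast]
    congr 1
    ring
  have e2 : (L : ℝ) ^ (1 + K) = L * (L : ℝ) ^ K := by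
    rw [rpow_add hLpos, rpow_one]
  have e3 : (L : ℝ) ^ (-K) = ((L : ℝ) ^ K)⁻¹ := rpow_neg hLpos.le K
  have hX : 0 < (2 : ℝ) ^ (θ * L) := by positivity
  have hLK : 0 < (L : ℝ) ^ K := by positivity
  rw [e1, e3] at h4
  rw [e2, hM] at h5
  set X := (2 : ℝ) ^ (θ * L) with hXdef
  set Y := (2 : ℝ) ^ ((1 - θ) * L) with hYdef
  set Z := (2 : ℝ) ^ (2 * (1 + κ)) with hZdef
  set W := (L : ℝ) ^ K with hW
  clear_value X Y Z W
  have h6 : c₀ * Y ≤ 2 * |(d : ℝ)| * C * L * Z * W := by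
    have h7 : c₀ * W⁻¹ * (X * Y) = (c₀ * Y) * (X / W) := by
      field_simp
    have h8 : 2 * |(d : ℝ)| * C * L * (X * Z) = (2 * |(d : ℝ)| * C * L * Z * W) * (X / W) := by
      field_simp
    rw [h7, h8] at h4
    exact le_of_mul_le_mul_right h4 (by positivity)
  have h9 : 2 * |(d : ℝ)| * C * Z / c₀ * (L * W) < Y := h5
  rw [div_mul_eq_mul_div, div_lt_iff₀ hc0] at h9
  linarith

/-- **A finite hitting set for orbits of low parity complexity.** -/
theorem finite_hitting {d : ℤ} (hd : Odd d) {κ : ℝ} (hκ : 0 ≤ κ) (c C : ℝ) (n₀ : ℕ)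
    (hcκ : c * κ < 1 + κ) :
    ∃ F : Finset ℤ, ∀ x : ℤ, (∀ n : ℕ, n₀ ≤ n → (complexity d x n : ℝ) ≤ c * n) → Growth d x κ C →
      (c * κ < 1 ∨ ∃ m p : ℕ, 0 < p ∧ (T d)^[m + p] x = (T d)^[m] x) → ∃ k : ℕ, (T d)^[k] x ∈ F := by
  classical
  -- normalise the constants
  set c' : ℝ := max c 1 with hc'
  set C' : ℝ := max C 0 with hC'
  have hc1 : 1 ≤ c' := le_max_right _ _
  have hcκ' : c' * κ < 1 + κ := by
    rcases max_choice c 1 with h | h
    · rw [hc', h]; exact hcκ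
    · rw [hc', h]; linarith
  obtain ⟨N, hN⟩ := period_bound hd hκ hc1 (le_max_right C 0) hcκ' n₀
  have hfin : (⋃ L ∈ Finset.Icc 1 N, {y : ℤ | (T d)^[L] y = y}).Finite := by
    apply Set.Finite.biUnion (Finset.finite_toSet _)
    intro L hL
    rw [Finset.mem_coe, Finset.mem_Icc] at hL
    exact finite_periodic hd L hL.1
  refine ⟨hfin.toFinset, fun x hx hg halt => ?_⟩
  -- the orbit is eventually periodic
  have hper : ∃ m p : ℕ, 0 < p ∧ (T d)^[m + p] x = (T d)^[m] x := by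
    rcases halt with h | h
    · by_contra hcon
      push Not at hcon
      obtain ⟨B, hB⟩ := complexity_bound hd hcon
      have hg0 : ∀ k : ℕ, ones d x k * log 3 ≤ log (max C 1) + (1 + κ) * k * log 2 := by
        intro k
        have h1 := hg 0 k
        simp only [Function.iterate_zero, id] at h1
        have h2 : (3 : ℝ) ^ ones d x k ≤ max C 1 * (2 : ℝ) ^ ((1 + κ) * k) :=
          h1.trans (by gcongr; exact le_max_left _ _)
        have h3 := log_le_log (by positivity) h2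
        rw [log_pow, log_mul (by positivity) (by positivity), log_rpow (by norm_num)] at h3
        exact h3
      have hlog2 : 0 < log 2 := log_pos (by norm_num)
      -- contradiction for large `n`
      obtain ⟨n, hn⟩ : ∃ n : ℕ, (B + log (max C 1)) / ((1 - c * κ) * log 2) < n := exists_nat_gt _
      have hpos : 0 < (1 - c * κ) * log 2 := mul_pos (by linarith) hlog2
      set n' : ℕ := max n n₀ with hn'
      have hnn : (n : ℝ) ≤ n' := by exact_mod_cast le_max_left _ _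
      obtain ⟨k, hk, hkB⟩ := hB n'
      have h1 := hx n' (le_max_right _ _)
      have h2 := hg0 k
      have h3 : (k : ℝ) ≤ c * n' := le_trans (by exact_mod_cast hk) h1
      have h4 : κ * k ≤ κ * (c * n') := by gcongr
      have h5 : κ * k * log 2 ≤ κ * (c * n') * log 2 := by gcongr
      rw [div_lt_iff₀ hpos] at hn
      have h6 : (n : ℝ) * ((1 - c * κ) * log 2) ≤ n' * ((1 - c * κ) * log 2) := by gcongr
      nlinarith
    · exact h
  obtain ⟨m, p, hp, hmp⟩ := hper
  set y := (T d)^[m] x with hy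
  have hyp : Function.IsPeriodicPt (T d) p y := by
    rw [Function.IsPeriodicPt, Function.IsFixedPt, hy, ← Function.iterate_add_apply, add_comm p m]
    exact hmp
  set L := Function.minimalPeriod (T d) y with hL
  have hL1 : 1 ≤ L := hyp.minimalPeriod_pos hp
  have hLy : (T d)^[L] y = y := Function.isPeriodicPt_minimalPeriod (T d) y
  have hmin : ∀ i j : ℕ, i < j → j < L → (T d)^[i] y ≠ (T d)^[j] y := by
    intro i j hij hj h
    have := Function.iterate_injOn_Iio_minimalPeriod (f := T d) (x := y) (Set.mem_Iio.mpr (hij.trans hj))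
      (Set.mem_Iio.mpr hj) h
    omega
  have hLN : L ≤ N := by
    refine hN x ?_ ?_ m L hL1 hLy hmin
    · intro n hn
      refine (hx n hn).trans ?_
      gcongr
      exact le_max_left _ _
    · intro i n
      refine (hg i n).trans ?_
      gcongr
      exact le_max_left _ _
  refine ⟨m, ?_⟩
  rw [Set.Finite.mem_toFinset]
  simp only [Set.mem_iUnion]
  exact ⟨L, Finset.mem_Icc.mpr ⟨hL1, hLN⟩, hLy⟩

end Pool.Agent.Lib.MP_d0d59f_nt
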