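import Pool.Agent.Lib.MP_d0d59f_nt.Sparse

/-!
Asymptotics of orbits that are not eventually periodic.
-/

namespace Pool.Agent.Lib.MP_d0d59f_nt

open Real Finset Filter Topology

theorem E_lt_one : E < 1 := by
  have hl2 : 0 < log 2 := log_pos (by norm_num)
  have hl3 : 0 < log 3 := log_pos (by norm_num)
  rw [E, div_lt_one hl2, binEntropy_lt_log_two]
  intro h
  rw [div_eq_iff hl3.ne'] at h
  have h4 : log 4 = 2 * log 2 := by
    rw [show (4 : ℝ) = 2 ^ 2 by norm_num, log_pow]; norm_num
  have : log 3 < log 4 := log_lt_log (by norm_num) (by norm_num)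
  linarith

theorem T_zero (d : ℤ) : T d 0 = 0 := by simp [T]

section
variable {d x : ℤ} (hx : ∀ m p : ℕ, 0 < p → (T d)^[m + p] x ≠ (T d)^[m] x)
include hx

theorem orbit_injective : Function.Injective fun i : ℕ => (T d)^[i] x := by
  intro i j hij
  simp only at hij
  rcases lt_trichotomy i j with h | h | h
  · exact absurd hij.symm (by
      have := hx i (j - i) (by omega)
      rwa [show i + (j - i) = j by omega] at this)
  · exact h
  · exact absurd hij (by
      have := hx j (i - j) (by omega)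
      rwa [show j + (i - j) = i by omega] at this)

theorem orbit_ne_zero (i : ℕ) : (T d)^[i] x ≠ 0 := by
  intro h
  apply hx i 1 one_pos
  rw [Function.iterate_succ_apply', h, T_zero]

theorem summable_inv {hd : Odd d} : Summable fun i : ℕ => |((T d)^[i] x : ℝ)|⁻¹ := by
  have hE := E_lt_one
  set s : ℝ := E + (1 - E) / 2 with hs
  have hs1 : s < 1 := by rw [hs]; linarith
  obtain ⟨C, hC⟩ := sparse hd (show 0 < (1 - E) / 2 by linarith)
  set S : Set ℤ := Set.range fun i : ℕ => (T d)^[i] x with hS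
  have hinj := orbit_injective hx
  have hST : ∀ y ∈ S, T d y ∈ S := by
    rintro _ ⟨i, rfl⟩
    exact ⟨i + 1, Function.iterate_succ_apply' _ _ _⟩
  have hSinj : Set.InjOn (T d) S := by
    rintro _ ⟨i, rfl⟩ _ ⟨j, rfl⟩ h
    simp only at h
    rw [← Function.iterate_succ_apply' (T d), ← Function.iterate_succ_apply' (T d)] at h
    have := hinj h
    simp only [Nat.succ_eq_add_one] at this
    have : i = j := by omega
    rw [this]
  have hcount := hC S hST hSinj
  have hC0 : 0 ≤ C := by
    have := hcount 1 le_rfl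
    rw [one_rpow, mul_one] at this
    exact le_trans (by positivity) this
  set k : ℕ → ℕ := fun i => Nat.log 2 ((T d)^[i] x).natAbs with hk
  have hk1 : ∀ i, (2 : ℝ) ^ k i ≤ |((T d)^[i] x : ℝ)| := by
    intro i
    have h0 : ((T d)^[i] x).natAbs ≠ 0 := Int.natAbs_ne_zero.mpr (orbit_ne_zero hx i)
    have := Nat.pow_log_le_self 2 h0
    have h2 : |((T d)^[i] x : ℝ)| = (((T d)^[i] x).natAbs : ℝ) := by
      rw [Nat.cast_natAbs]; push_cast; rfl
    rw [h2]
    exact_mod_cast this
  have hk2 : ∀ i, |((T d)^[i] x : ℝ)| ≤ (2 : ℝ) ^ (k i + 1) := by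
    intro i
    have := Nat.lt_pow_succ_log_self (b := 2) (by norm_num) ((T d)^[i] x).natAbs
    have h2 : |((T d)^[i] x : ℝ)| = (((T d)^[i] x).natAbs : ℝ) := by
      rw [Nat.cast_natAbs]; push_cast; rfl
    rw [h2]
    exact_mod_cast this.le
  set r : ℝ := 2 ^ (s - 1) with hr
  have hr0 : 0 < r := by positivity
  have hr1 : r < 1 := rpow_lt_one_of_one_lt_of_neg (by norm_num) (by linarith)
  apply summable_of_sum_le (c := C * 2 ^ s * (1 - r)⁻¹)
  · intro i; positivity
  · intro F
    set M : ℕ := (F.sup k) + 1 with hM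
    have hmaps : ∀ i ∈ F, k i ∈ range M := by
      intro i hi
      rw [mem_range, hM]
      exact Nat.lt_succ_of_le (Finset.le_sup hi)
    rw [← Finset.sum_fiberwise_of_maps_to hmaps]
    have hfib : ∀ j ∈ range M, ∑ i ∈ F with k i = j, |((T d)^[i] x : ℝ)|⁻¹
        ≤ C * 2 ^ s * r ^ j := by
      intro j _
      have hcard : (((F.filter fun i => k i = j).card : ℕ) : ℝ) ≤ C * (2 ^ (j + 1)) ^ s := by
        refine le_trans ?_ (hcount (2 ^ (j + 1)) (one_le_pow₀ (by norm_num)))
        have : (F.filter fun i => k i = j).card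
            ≤ (S ∩ {y : ℤ | |(y : ℝ)| ≤ 2 ^ (j + 1)}).ncard := by
          rw [← Set.ncard_coe_finset]
          have hfin : (S ∩ {y : ℤ | |(y : ℝ)| ≤ 2 ^ (j + 1)}).Finite := by
            apply ((ball_finite (j + 3)).subset _)
            rintro y ⟨_, hy⟩
            simp only [Set.mem_ofPred_eq] at hy
            simp only [ball, Set.mem_ofPred_eq]
            have : (2 : ℝ) * |(y : ℝ)| < 2 ^ (j + 3) := by
              have h2 : (0 : ℝ) < 2 ^ (j + 1) := by positivity
              have : (2 : ℝ) ^ (j + 3) = 4 * 2 ^ (j + 1) := by ring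
              rw [this]; linarith
            exact_mod_cast this
          apply Set.ncard_le_ncard_of_injOn (fun i : ℕ => (T d)^[i] x) (ht := hfin)
          · intro i hi
            simp only [coe_filter, Set.mem_ofPred_eq] at hi
            refine ⟨⟨i, rfl⟩, ?_⟩
            simp only [Set.mem_ofPred_eq]
            have := hk2 i
            rwa [hi.2] at this
          · intro i _ i' _ h
            exact hinj h
        exact_mod_cast this
      calc ∑ i ∈ F with k i = j, |((T d)^[i] x : ℝ)|⁻¹
          ≤ ∑ i ∈ F with k i = j, ((2 : ℝ) ^ j)⁻¹ := by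
            apply Finset.sum_le_sum
            intro i hi
            rw [Finset.mem_filter] at hi
            apply inv_anti₀ (by positivity)
            have := hk1 i
            rwa [hi.2] at this
        _ = (((F.filter fun i => k i = j).card : ℕ) : ℝ) * ((2 : ℝ) ^ j)⁻¹ := by
            rw [Finset.sum_const, nsmul_eq_mul]
        _ ≤ C * (2 ^ (j + 1)) ^ s * ((2 : ℝ) ^ j)⁻¹ := by gcongr
        _ = C * 2 ^ s * r ^ j := by
            rw [hr, ← rpow_natCast, ← rpow_natCast, ← rpow_natCast, ← rpow_mul (by norm_num),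
              ← rpow_mul (by norm_num), ← rpow_neg (by norm_num), mul_assoc, mul_assoc,
              ← rpow_add (by norm_num), ← rpow_add (by norm_num)]
            congr 2
            push_cast
            ring
    calc ∑ j ∈ range M, ∑ i ∈ F with k i = j, |((T d)^[i] x : ℝ)|⁻¹
        ≤ ∑ j ∈ range M, C * 2 ^ s * r ^ j := Finset.sum_le_sum hfib
      _ = C * 2 ^ s * ∑ j ∈ range M, r ^ j := by rw [Finset.mul_sum]
      _ ≤ C * 2 ^ s * (1 - r)⁻¹ := by
          have h1 : ∑ j ∈ range M, r ^ j ≤ (1 - r)⁻¹ := by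
            rw [← tsum_geometric_of_lt_one hr0.le hr1]
            exact (summable_geometric_of_lt_one hr0.le hr1).sum_le_tsum _ (fun _ _ => by positivity)
          have : 0 ≤ C * 2 ^ s := by positivity
          gcongr

theorem tendsto_normalized (hd : Odd d) : ∃ β : ℝ, β ≠ 0 ∧
    Tendsto (fun i : ℕ => (2 : ℝ) ^ i / 3 ^ (ones d x i) * ((T d)^[i] x : ℝ)) atTop (𝓝 β) := by
  have hsum := summable_inv hx (hd := hd)
  set e : ℕ → ℝ := fun i => if (T d)^[i] x % 2 = 1 then (d : ℝ) / (3 * ((T d)^[i] x : ℝ)) else 0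
    with he
  have hesum : Summable fun i => ‖e i‖ := by
    apply Summable.of_nonneg_of_le (fun i => norm_nonneg _) _ (hsum.mul_left |(d : ℝ)|)
    intro i
    rw [he]
    simp only
    split_ifs
    · rw [Real.norm_eq_abs, abs_div, abs_mul, div_eq_mul_inv, mul_inv]
      have : |(3 : ℝ)|⁻¹ ≤ 1 := by norm_num
      have h1 : 0 ≤ |((T d)^[i] x : ℝ)|⁻¹ := by positivity
      have h2 : 0 ≤ |(d : ℝ)| := abs_nonneg _
      nlinarith [mul_nonneg h2 h1]
    · rw [norm_zero]; positivity
  have hstep : ∀ i : ℕ, (2 : ℝ) ^ (i + 1) / 3 ^ (ones d x (i + 1)) * ((T d)^[i + 1] x : ℝ)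
      = (2 : ℝ) ^ i / 3 ^ (ones d x i) * ((T d)^[i] x : ℝ) * (1 + e i) := by
    intro i
    have h0 : ((T d)^[i] x : ℝ) ≠ 0 := by exact_mod_cast orbit_ne_zero hx i
    rw [Function.iterate_succ_apply', ones_succ]
    set y := (T d)^[i] x with hy
    rcases Int.emod_two_eq_zero_or_one y with h | h
    · have e1 : (2 : ℝ) * (T d y : ℝ) = y := by exact_mod_cast T_even (d := d) h
      have e2 : e i = 0 := by rw [he]; simp only; rw [if_neg (by rw [← hy]; omega)]
      rw [e2, if_neg (by omega), add_zero, pow_succ, ← e1]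
      ring
    · have e1 : (2 : ℝ) * (T d y : ℝ) = 3 * y + d := by exact_mod_cast T_odd hd h
      have e2 : e i = (d : ℝ) / (3 * (y : ℝ)) := by
        rw [he]; simp only; rw [if_pos (by rw [← hy]; exact h)]
      rw [e2, if_pos h, pow_succ, pow_succ]
      have e3 : (T d y : ℝ) = (3 * y + d) / 2 := by linarith
      rw [e3]
      field_simp
  have hprod : ∀ i : ℕ, (2 : ℝ) ^ i / 3 ^ (ones d x i) * ((T d)^[i] x : ℝ)
      = x * ∏ k ∈ range i, (1 + e k) := by
    intro i
    induction i with
    | zero => simp [ones_zero]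
    | succ i ih => rw [hstep, ih, Finset.prod_range_succ]; ring
  have hne : ∀ i, 1 + e i ≠ 0 := by
    intro i h
    have h1 := hstep i
    rw [h, mul_zero] at h1
    have h2 : ((T d)^[i + 1] x : ℝ) ≠ 0 := by exact_mod_cast orbit_ne_zero hx (i + 1)
    have h3 : (2 : ℝ) ^ (i + 1) / 3 ^ (ones d x (i + 1)) ≠ 0 := by positivity
    exact mul_ne_zero h3 h2 h1
  refine ⟨x * ∏' k, (1 + e k), ?_, ?_⟩
  · apply mul_ne_zero
    · exact_mod_cast orbit_ne_zero hx 0
    · exact tprod_one_add_ne_zero_of_summable hne hesum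
  · have hm : Multipliable fun k => 1 + e k := multipliable_one_add_of_summable hesum
    have := (hm.hasProd.tendsto_prod_nat).const_mul (x : ℝ)
    refine this.congr ?_
    intro i
    rw [hprod]

end

end Pool.Agent.Lib.MP_d0d59f_nt
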