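import Pool.Agent.Lib.MP_d0d59f_nt.AutoBlocks
import Pool.Agent.Lib.MP_d0d59f_nt.Complexity

/-!
Row W7: periodic pieces of the parity sequence.
-/

namespace Pool.Agent.Lib.MP_d0d59f_nt.Lin

open Filter Topology Auto

variable {d : ℤ}

theorem affine_par {y : ℤ} {N p : ℕ} (h : ∀ t < N, (T d)^[t] y % 2 = (T d)^[t + p] y % 2) (j k : ℕ)
    (hk : k < p) (hj : j * p ≤ N) : (T d)^[k] ((T d)^[j * p] y) % 2 = (T d)^[k] y % 2 := by
  induction j with
  | zero => simp
  | succ j ih =>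
    have h1 : (j + 1) * p = j * p + p := by ring
    rw [h1] at hj
    rw [← ih (by omega), ← Function.iterate_add_apply, ← Function.iterate_add_apply]
    have h2 := h (k + j * p) (by omega)
    rw [h2, h1]
    have h3 : k + (j * p + p) = k + j * p + p := by omega
    rw [h3]

theorem affine_block (hd : Odd d) {y z : ℤ} {L : ℕ}
    (h : ∀ k < L, (T d)^[k] y % 2 = (T d)^[k] z % 2) :
    (z : ℚ) = gval d y L + 2 ^ L / 3 ^ ones d y L * ((T d)^[L] z : ℤ) := by
  obtain ⟨h1, h2⟩ := ones_shift_congr hd L h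
  have h3 : gval d y L = gval d z L := by
    unfold gval
    rw [h1, h2]
  rw [h3, gval_eq, h1]
  ring

theorem affine_ones {y : ℤ} (hd : Odd d) {N p : ℕ}
    (h : ∀ t < N, (T d)^[t] y % 2 = (T d)^[t + p] y % 2) (j : ℕ) (hj : j * p ≤ N) :
    ones d y (j * p) = j * ones d y p := by
  induction j with
  | zero => simp [ones_zero]
  | succ j ih =>
    have h1 : (j + 1) * p = j * p + p := by ring
    rw [h1] at hj
    rw [h1, ones_add, ih (by omega)]
    have h2 := (ones_shift_congr hd (y := (T d)^[j * p] y) (z := y) p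
      fun k hk => affine_par h j k hk (by omega)).1
    rw [h2]
    ring

theorem affine_ht_t (y : ℤ) (L : ℕ) : (ht ((2 : ℚ) ^ L / 3 ^ ones d y L) : ℝ) ≤ 3 ^ L := by
  have h1 := ht_div_le (2 ^ L) (3 ^ ones d y L) (by positivity)
  push_cast at h1
  have h2 : ((2 : ℤ) ^ L).natAbs = 2 ^ L := by
    rw [Int.natAbs_pow]; rfl
  have h3 : ((3 : ℤ) ^ ones d y L).natAbs = 3 ^ ones d y L := by
    rw [Int.natAbs_pow]; rfl
  rw [h2, h3] at h1
  have h4 : ht ((2 : ℚ) ^ L / 3 ^ ones d y L) ≤ 3 ^ L :=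
    h1.trans (max_le (Nat.pow_le_pow_left (by norm_num) L)
      (Nat.pow_le_pow_right (by norm_num) (ones_le d y L)))
  exact_mod_cast h4

theorem affine_t_ne (y : ℤ) {p : ℕ} (hp : 0 < p) : (1 : ℚ) - 2 ^ p / 3 ^ ones d y p ≠ 0 := by
  intro h
  have h1 : (2 : ℚ) ^ p = 3 ^ ones d y p := by
    have h3 : (3 : ℚ) ^ ones d y p ≠ 0 := by positivity
    field_simp at h
    linarith
  have h2 : (2 : ℕ) ^ p = 3 ^ ones d y p := by exact_mod_cast h1
  have h4 : Even ((2 : ℕ) ^ p) := (Nat.even_pow.mpr ⟨by decide, by omega⟩)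
  have h5 : Odd ((3 : ℕ) ^ ones d y p) := Odd.pow (by decide)
  rw [h2] at h4
  exact (Nat.not_even_iff_odd.mpr h5) h4

/-- For a periodic piece of length `N` and period `p` which begins with `y`:
`y = α + 2 ^ N / 3 ^ ones * (β + (T d)^[N] y)` with `α`, `β` of small height. Proof: let
`g_L = gval d y L`, `t_L = 2 ^ L / 3 ^ ones d y L`, so `z = g_L + t_L * (T d)^[L] z` for all `z` with the
same first `L` parities as `y` (`gval_eq`, `ones_shift_congr`). `c = g_p / (1 - t_p)` (`t_p ≠ 1` as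
`2 ^ p ≠ 3 ^ o` for `p ≥ 1`) is the fixed point, `y - c = t_p ((T d)^[p] y - c)`. Let `N = M p + q`,
`q < p`. By periodicity `y - c = t_p ^ M ((T d)^[M p] y - c)` and
`(T d)^[M p] y = g_q + t_q (T d)^[N] y`; so `α = c`, `β = (g_q - c) / t_q`, and
`t_p ^ M * t_q = 2 ^ N / 3 ^ ones d y N` (`ones_add`). Heights: `ht_gval_le`, `ht_mul_le`,
`ht_add_le`, `ht_inv_le`, `ht t_L ≤ 3 ^ L`. A convenient choice is to do an induction on `N`
(steps of `p`). -/
theorem affine_periodic (hd : Odd d) : ∃ B : ℝ, 1 ≤ B ∧ ∀ (y : ℤ) (N p : ℕ), 0 < p →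
    (∀ t < N, (T d)^[t] y % 2 = (T d)^[t + p] y % 2) →
    ∃ α β : ℚ, (ht α : ℝ) ≤ B ^ p ∧ (ht β : ℝ) ≤ B ^ p ∧
      (y : ℚ) = α + 2 ^ N / 3 ^ ones d y N * (β + ((T d)^[N] y : ℤ)) := by
  have hd1 : (1 : ℝ) ≤ |d| + 1 := by
    have : (0 : ℝ) ≤ ((|d| : ℤ) : ℝ) := by exact_mod_cast abs_nonneg d
    linarith
  refine ⟨324 * ((|d| : ℤ) + 1) ^ 2, by nlinarith, ?_⟩
  intro y N p hp h
  set D : ℝ := ((|d| : ℤ) : ℝ) + 1 with hD
  -- data
  set g := gval d y p with hg
  set t : ℚ := 2 ^ p / 3 ^ ones d y p with ht1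
  have htne : 1 - t ≠ 0 := affine_t_ne y hp
  set c := g * (1 - t)⁻¹ with hc
  have hcfix : g = c - t * c := by
    rw [hc]
    field_simp
  set M := N / p with hM
  set q := N % p with hq
  have hN : N = q + M * p := by
    rw [hM, hq, mul_comm]
    exact (Nat.mod_add_div N p).symm
  have hqp : q < p := Nat.mod_lt _ hp
  have hMN : M * p ≤ N := by omega
  -- the chain
  have hchain : ∀ j : ℕ, j * p ≤ N → (y : ℚ) - c = t ^ j * (((T d)^[j * p] y : ℤ) - c) := by
    intro j
    induction j with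
    | zero => intro _; simp
    | succ j ih =>
      intro hj
      have h1 : (j + 1) * p = p + j * p := by ring
      rw [h1] at hj
      have h2 := affine_block hd (y := y) (z := (T d)^[j * p] y) (L := p)
        fun k hk => (affine_par h j k hk (by omega)).symm
      rw [ih (by omega), h1, Function.iterate_add_apply, pow_succ]
      rw [← hg, ← ht1, hcfix] at h2
      rw [h2]
      ring
  have h3 := affine_block hd (y := y) (z := (T d)^[M * p] y) (L := q)
    fun k hk => (affine_par h M k (by omega) hMN).symm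
  rw [← Function.iterate_add_apply, ← hN] at h3
  set gq := gval d y q with hgq
  set tq : ℚ := 2 ^ q / 3 ^ ones d y q with htq
  have htq0 : tq ≠ 0 := by rw [htq]; positivity
  have hones : (2 : ℚ) ^ N / 3 ^ ones d y N = t ^ M * tq := by
    have h4 : ones d y N = M * ones d y p + ones d y q := by
      have h5 : N = M * p + q := by omega
      rw [h5, ones_add, affine_ones hd h M hMN]
      rw [(ones_shift_congr hd (y := (T d)^[M * p] y) (z := y) q
        fun k hk => affine_par h M k (by omega) hMN).1]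
    have h5 : (2 : ℚ) ^ N = (2 ^ p) ^ M * 2 ^ q := by
      rw [← pow_mul, ← pow_add]
      congr 1
      rw [mul_comm p M]
      omega
    rw [h4, h5, ht1, htq, pow_add, mul_comm M, pow_mul, div_pow, div_mul_div_comm]
  have hD0 : 0 < D := by linarith
  have hcht : (ht c : ℝ) ≤ 2 * D * 9 ^ p := by
    have h8 : (ht c : ℝ) ≤ ht g * ht (1 - t)⁻¹ := by exact_mod_cast ht_mul_le _ _
    have h9 : (ht (1 - t)⁻¹ : ℝ) ≤ ht (1 - t) := by exact_mod_cast ht_inv_le _
    have h10 : (ht (1 + -t) : ℝ) ≤ 2 * (ht (1 : ℚ) * ht (-t)) := by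
      exact_mod_cast ht_add_le 1 (-t)
    rw [← sub_eq_add_neg, ht_neg, ah_one] at h10
    have h11 := affine_ht_t (d := d) y p
    have h12 := ht_gval_le hd y p
    rw [← ht1] at h11
    rw [← hg, ← hD] at h12
    have h13 : (ht (1 - t)⁻¹ : ℝ) ≤ 2 * 3 ^ p := by
      push_cast at h10
      linarith
    refine h8.trans ((mul_le_mul h12 h13 (Nat.cast_nonneg _) (by positivity)).trans ?_)
    have h14 : (9 : ℝ) ^ p = 3 ^ p * 3 ^ p := by rw [← mul_pow]; norm_num
    rw [h14]
    exact le_of_eq (by ring)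
  have hcB : (ht c : ℝ) ≤ (324 * D ^ 2) ^ p := by
    refine hcht.trans ?_
    have h15 : (324 * D ^ 2) ^ p = (36 * D ^ 2) ^ p * 9 ^ p := by
      rw [← mul_pow]; congr 1; ring
    rw [h15]
    refine mul_le_mul_of_nonneg_right ?_ (by positivity)
    refine le_trans ?_ (le_self_pow₀ (by nlinarith) (by omega))
    nlinarith
  refine ⟨c, (gq - c) * tq⁻¹, ?_, ?_, ?_⟩
  · exact hcB
  · have h8 : (ht (gq - c) : ℝ) ≤ 2 * ((D * 3 ^ p) * (2 * D * 9 ^ p)) := by
      have h9 : (ht (gq + -c) : ℝ) ≤ 2 * (ht gq * ht (-c)) := by exact_mod_cast ht_add_le gq (-c)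
      rw [← sub_eq_add_neg, ht_neg] at h9
      refine h9.trans ?_
      have h10 : (ht gq : ℝ) ≤ D * 3 ^ p := by
        refine (ht_gval_le hd y q).trans ?_
        have : (3 : ℝ) ^ q ≤ 3 ^ p := pow_le_pow_right₀ (by norm_num) hqp.le
        exact mul_le_mul_of_nonneg_left this (by linarith)
      exact mul_le_mul_of_nonneg_left
        (mul_le_mul h10 hcht (Nat.cast_nonneg _) (by positivity)) (by norm_num)
    have h11 : (ht tq⁻¹ : ℝ) ≤ 3 ^ p := by
      have h12 : (ht tq⁻¹ : ℝ) ≤ ht tq := by exact_mod_cast ht_inv_le tq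
      refine h12.trans ((affine_ht_t y q).trans ?_)
      exact pow_le_pow_right₀ (by norm_num) hqp.le
    have h13 : (ht ((gq - c) * tq⁻¹) : ℝ) ≤ ht (gq - c) * ht tq⁻¹ := by
      exact_mod_cast ht_mul_le _ _
    refine h13.trans ((mul_le_mul h8 h11 (Nat.cast_nonneg _) (by positivity)).trans ?_)
    have h14 : 2 * ((D * 3 ^ p) * (2 * D * 9 ^ p)) * 3 ^ p = (4 * D ^ 2) * 81 ^ p := by
      have : (81 : ℝ) ^ p = 3 ^ p * 9 ^ p * 3 ^ p := by
        rw [← mul_pow, ← mul_pow]; norm_num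
      rw [this]; ring
    have h15 : (324 * D ^ 2) ^ p = (4 * D ^ 2) ^ p * 81 ^ p := by
      rw [← mul_pow]; congr 1; ring
    rw [h14, h15]
    refine mul_le_mul_of_nonneg_right ?_ (by positivity)
    exact le_self_pow₀ (by nlinarith) (by omega)
  · have h6 := hchain M hMN
    rw [h3] at h6
    rw [hones]
    have h7 : (y : ℚ) = c + t ^ M * (gq + tq * ((T d)^[N] y : ℤ) - c) := by linarith
    rw [h7]
    field_simp
    ring

end Pool.Agent.Lib.MP_d0d59f_nt.Lin
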