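import Pool.Agent.Lib.MP_d0d59f_nt.AutoFinal

/-!
Row X1: frequency and uniform frequency for automatic parity sequences.
-/

namespace Pool.Agent.Lib.MP_d0d59f_nt.Lin

open Filter Topology

/-- number of ones in the `n`-th block of length `k ^ e` -/
noncomputable def linAuto_b (d x : ℤ) (k e n : ℕ) : ℕ := ones d ((T d)^[k ^ e * n] x) (k ^ e)

theorem linAuto_b_add (d x : ℤ) (k e n : ℕ) :
    ones d x (k ^ e * (n + 1)) = ones d x (k ^ e * n) + linAuto_b d x k e n := by
  rw [mul_add, mul_one, ones_add]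
  rfl

/-- the number of ones in a block depends only on the letter -/
theorem linAuto_b_congr {d x : ℤ} {k n n' : ℕ}
    (h : akLetter k (fun n => (T d)^[n] x % 2) n = akLetter k (fun n => (T d)^[n] x % 2) n')
    (e : ℕ) : linAuto_b d x k e n = linAuto_b d x k e n' := by
  unfold linAuto_b ones
  congr 1
  apply Finset.filter_congr
  intro r hr
  have h1 := congrFun h ⟨_, ak_mem_kernel (fun n => (T d)^[n] x % 2) (Finset.mem_range.1 hr)⟩
  simp only [akLetter] at h1
  rw [← Function.iterate_add_apply, ← Function.iterate_add_apply, add_comm r, add_comm r, h1]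

theorem linAuto_b_tendsto {d x : ℤ} {k : ℕ} (hk : 2 ≤ k) {θ : ℝ}
    (hθ : Tendsto (fun n : ℕ => (ones d x n : ℝ) / n) atTop (𝓝 θ)) (n : ℕ) :
    Tendsto (fun e : ℕ => (linAuto_b d x k e n : ℝ) / (k : ℝ) ^ e) atTop (𝓝 θ) := by
  have hk0 : (k : ℝ) ≠ 0 := by
    have : k ≠ 0 := by omega
    exact_mod_cast this
  have hpow : Tendsto (fun e : ℕ => k ^ e) atTop atTop :=
    tendsto_pow_atTop_atTop_of_one_lt (by omega)
  have hlim : ∀ m : ℕ, 0 < m →
      Tendsto (fun e : ℕ => (ones d x (k ^ e * m) : ℝ) / (k : ℝ) ^ e) atTop (𝓝 (m * θ)) := by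
    intro m hm
    have h1 : Tendsto (fun e : ℕ => k ^ e * m) atTop atTop :=
      tendsto_atTop_mono (fun e => Nat.le_mul_of_pos_right _ hm) hpow
    have h2 := (hθ.comp h1).const_mul (m : ℝ)
    refine h2.congr fun e => ?_
    simp only [Function.comp]
    have hm0 : (m : ℝ) ≠ 0 := by positivity
    have hke : (k : ℝ) ^ e ≠ 0 := pow_ne_zero _ hk0
    push_cast
    field_simp
  have h0 : Tendsto (fun e : ℕ => (ones d x (k ^ e * n) : ℝ) / (k : ℝ) ^ e) atTop (𝓝 (n * θ)) := by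
    rcases Nat.eq_zero_or_pos n with rfl | hn
    · simp [ones_zero]
    · exact hlim n hn
  have h1 := (hlim (n + 1) (Nat.succ_pos n)).sub h0
  have h2 : ((n + 1 : ℕ) : ℝ) * θ - n * θ = θ := by push_cast; ring
  rw [h2] at h1
  refine h1.congr fun e => ?_
  rw [linAuto_b_add]
  push_cast
  ring

theorem linAuto_range_finite {d x : ℤ} {k : ℕ} (hw : IsAutomatic k fun n => (T d)^[n] x % 2) :
    (Set.range (akLetter k fun n => (T d)^[n] x % 2)).Finite := by
  have hfin : Finite (kernel k fun n => (T d)^[n] x % 2) := hw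
  have h1 : (Set.univ.pi fun _ : kernel k (fun n => (T d)^[n] x % 2) => ({0, 1} : Set ℤ)).Finite :=
    Set.Finite.pi fun _ => Set.toFinite _
  refine h1.subset ?_
  rintro _ ⟨n, rfl⟩
  rintro ⟨f, e, r, hr, rfl⟩ _
  simp only [akLetter]
  rcases Int.emod_two_eq_zero_or_one ((T d)^[k ^ e * n + r] x) with h | h <;> rw [h] <;> simp

theorem linAuto_block {d x : ℤ} {k : ℕ} (hk : 2 ≤ k)
    (hw : IsAutomatic k fun n => (T d)^[n] x % 2) {θ : ℝ}
    (hθ : Tendsto (fun n : ℕ => (ones d x n : ℝ) / n) atTop (𝓝 θ)) {ε : ℝ} (hε : 0 < ε) :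
    ∃ e : ℕ, ∀ n : ℕ, |(linAuto_b d x k e n : ℝ) - θ * (k : ℝ) ^ e| ≤ ε * (k : ℝ) ^ e := by
  have hk0 : (0 : ℝ) < k := by
    have : 0 < k := by omega
    exact_mod_cast this
  have hR := linAuto_range_finite hw
  have hrep : ∀ a : hR.toFinset, ∃ n, akLetter k (fun n => (T d)^[n] x % 2) n = a.1 := by
    rintro ⟨a, ha⟩
    exact (hR.mem_toFinset).1 ha
  choose rep hrep using hrep
  have hev : ∀ᶠ e : ℕ in atTop, ∀ a : hR.toFinset,
      |(linAuto_b d x k e (rep a) : ℝ) / (k : ℝ) ^ e - θ| ≤ ε := by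
    rw [eventually_all]
    intro a
    have h1 := linAuto_b_tendsto hk hθ (rep a)
    rw [Metric.tendsto_atTop] at h1
    obtain ⟨N, hN⟩ := h1 ε hε
    filter_upwards [eventually_ge_atTop N] with e he
    have := hN e he
    rw [Real.dist_eq] at this
    exact this.le
  obtain ⟨e, he⟩ := hev.exists
  refine ⟨e, fun n => ?_⟩
  have hmem : akLetter k (fun n => (T d)^[n] x % 2) n ∈ hR.toFinset :=
    (hR.mem_toFinset).2 ⟨n, rfl⟩
  have h1 := he ⟨_, hmem⟩
  have h2 := hrep ⟨_, hmem⟩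
  rw [linAuto_b_congr h2 e] at h1
  have hke : (0 : ℝ) < (k : ℝ) ^ e := by positivity
  have h3 : (linAuto_b d x k e n : ℝ) - θ * (k : ℝ) ^ e =
      ((linAuto_b d x k e n : ℝ) / (k : ℝ) ^ e - θ) * (k : ℝ) ^ e := by
    field_simp
  rw [h3, abs_mul, abs_of_pos hke]
  exact mul_le_mul_of_nonneg_right h1 hke.le

/-- telescoping -/
theorem linAuto_blocks {d x : ℤ} {k e : ℕ} {θ ε : ℝ}
    (h : ∀ n : ℕ, |(linAuto_b d x k e n : ℝ) - θ * (k : ℝ) ^ e| ≤ ε * (k : ℝ) ^ e) (p r : ℕ) :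
    |((ones d x (k ^ e * (p + r)) : ℝ) - θ * (k ^ e * (p + r) : ℕ)) -
      ((ones d x (k ^ e * p) : ℝ) - θ * (k ^ e * p : ℕ))| ≤ ε * (k : ℝ) ^ e * r := by
  induction r with
  | zero => simp
  | succ r ih =>
    have h1 := h (p + r)
    have h2 := linAuto_b_add d x k e (p + r)
    rw [← add_assoc, h2]
    push_cast at ih ⊢
    calc |((ones d x (k ^ e * (p + r)) : ℝ) + (linAuto_b d x k e (p + r) : ℝ) -
          θ * ((k : ℝ) ^ e * ((p : ℝ) + r + 1)) - ((ones d x (k ^ e * p) : ℝ) - θ * ((k : ℝ) ^ e * p)))|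
        = |(((ones d x (k ^ e * (p + r)) : ℝ) - θ * ((k : ℝ) ^ e * ((p : ℝ) + r))) -
            ((ones d x (k ^ e * p) : ℝ) - θ * ((k : ℝ) ^ e * p))) +
          ((linAuto_b d x k e (p + r) : ℝ) - θ * (k : ℝ) ^ e)| := by
          congr 1; ring
      _ ≤ ε * (k : ℝ) ^ e * r + ε * (k : ℝ) ^ e := (abs_add_le _ _).trans (add_le_add ih h1)
      _ = ε * (k : ℝ) ^ e * (r + 1) := by ring

theorem linAuto_rem {d x : ℤ} {θ : ℝ} (m r M : ℕ) (hr : r ≤ M) :
    |((ones d x (m + r) : ℝ) - θ * (m + r : ℕ)) - ((ones d x m : ℝ) - θ * (m : ℕ))| ≤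
      M * (1 + |θ|) := by
  rw [ones_add]
  push_cast
  have h1 : (ones d ((T d)^[m] x) r : ℝ) ≤ M := by
    exact_mod_cast (ones_le d _ r).trans hr
  have h2 : (0 : ℝ) ≤ (ones d ((T d)^[m] x) r : ℝ) := Nat.cast_nonneg _
  have h3 : (r : ℝ) ≤ M := by exact_mod_cast hr
  have h4 : (0 : ℝ) ≤ r := Nat.cast_nonneg _
  calc |(ones d x m : ℝ) + (ones d ((T d)^[m] x) r : ℝ) - θ * ((m : ℝ) + r) -
        ((ones d x m : ℝ) - θ * m)|
      = |(ones d ((T d)^[m] x) r : ℝ) - θ * r| := by congr 1; ring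
    _ ≤ |(ones d ((T d)^[m] x) r : ℝ)| + |θ * r| := abs_sub _ _
    _ ≤ M + |θ| * M := by
      rw [abs_of_nonneg h2, abs_mul, abs_of_nonneg h4]
      gcongr
    _ = M * (1 + |θ|) := by ring

/-- If the ones of an automatic parity sequence `w` have a frequency then they have a uniform
frequency. Proof: the letter of `n` is `akLetter k w n = (f n)_{f ∈ kernel}`; there are finitely many
letters (`kernel` finite, values `0`, `1`), and the letter of `n` determines the word
`w (k ^ e n + r)`, `r < k ^ e`, for every `e` (`f = (m ↦ w (k ^ e m + r)) ∈ kernel`). So the number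
`b_e(n) = ones d ((T d)^[k ^ e * n] x) (k ^ e)` depends only on the letter of `n`. For fixed `n`,
`b_e(n) = ones d x (k ^ e (n + 1)) - ones d x (k ^ e n)` (`ones_add`), so `b_e(n) / k ^ e → θ` as
`e → ∞`. As there are finitely many letters, for `ε > 0` there is `e` with
`|b_e(n) - θ k ^ e| ≤ ε k ^ e` for all `n`. A segment of length `N` of the orbit is a union of at
least `N / k ^ e - 2` such blocks and at most `2 k ^ e` other terms, so
`|ones - θ N| ≤ ε N + 2 k ^ e (1 + |θ|) ≤ 2 ε N` for large `N`. -/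
theorem uniformFrequency_of_automatic {d x : ℤ} {k : ℕ} (hk : 2 ≤ k)
    (hw : IsAutomatic k fun n => (T d)^[n] x % 2) {θ : ℝ}
    (hθ : Tendsto (fun n : ℕ => (ones d x n : ℝ) / n) atTop (𝓝 θ)) : UniformFrequency d x θ := by
  intro ε hε
  obtain ⟨e, he⟩ := linAuto_block hk hw hθ (half_pos hε)
  set M : ℕ := k ^ e with hM
  have hMpos : 0 < M := by
    have : 0 < k := by omega
    positivity
  have hMR : (M : ℝ) = (k : ℝ) ^ e := by rw [hM]; push_cast; ring
  obtain ⟨N, hN⟩ := exists_nat_ge ((M * (2 * (1 + |θ|) + ε / 2)) / (ε / 2))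
  refine ⟨N, fun n hn i => ?_⟩
  set p : ℕ := i / M with hp
  set q : ℕ := (i + n) / M with hq
  have hpq : p ≤ q := Nat.div_le_div_right (by omega)
  obtain ⟨r, hr⟩ := Nat.exists_eq_add_of_le hpq
  have h1 := linAuto_blocks he p r
  rw [← hr, ← hM] at h1
  have hi : M * p + i % M = i := Nat.div_add_mod i M
  have hin : M * q + (i + n) % M = i + n := Nat.div_add_mod (i + n) M
  have h2 := linAuto_rem (d := d) (x := x) (θ := θ) (M * p) (i % M) M (Nat.mod_lt _ hMpos).le
  have h3 := linAuto_rem (d := d) (x := x) (θ := θ) (M * q) ((i + n) % M) M (Nat.mod_lt _ hMpos).le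
  rw [hi] at h2
  rw [hin] at h3
  have h4 : (ones d ((T d)^[i] x) n : ℝ) - θ * n =
      ((ones d x (i + n) : ℝ) - θ * (i + n : ℕ)) - ((ones d x i : ℝ) - θ * (i : ℕ)) := by
    rw [ones_add]
    push_cast
    ring
  have hrn : (M : ℝ) * r ≤ n + M := by
    have h5 : M * r ≤ n + M := by
      have h6 : M * q ≤ i + n := Nat.mul_div_le _ _
      have h7 : i < M * (p + 1) := by
        have := Nat.lt_mul_div_succ i hMpos
        simpa [hp] using this
      have h8 : M * q = M * p + M * r := by rw [hr]; ring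
      have h9 : M * (p + 1) = M * p + M := by ring
      omega
    exact_mod_cast h5
  have hn' : (M * (2 * (1 + |θ|) + ε / 2)) ≤ ε / 2 * n := by
    have h10 : (N : ℝ) ≤ n := by exact_mod_cast hn
    have h11 := (div_le_iff₀ (half_pos hε)).1 (hN.trans h10)
    linarith
  rw [h4]
  have h12 := abs_le.1 h1
  have h13 := abs_le.1 h2
  have h14 := abs_le.1 h3
  have h15 : ε / 2 * (k : ℝ) ^ e * r ≤ ε / 2 * (n + M) := by
    rw [← hMR, mul_assoc]
    exact mul_le_mul_of_nonneg_left hrn (half_pos hε).le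
  have h16 : ε / 2 * ((n : ℝ) + M) = ε / 2 * n + ε / 2 * M := by ring
  have h17 : (M : ℝ) * (2 * (1 + |θ|) + ε / 2) = 2 * (M * (1 + |θ|)) + ε / 2 * M := by ring
  rw [abs_le]
  constructor <;> linarith [h12.1, h12.2, h13.1, h13.2, h14.1, h14.2]

end Pool.Agent.Lib.MP_d0d59f_nt.Lin
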