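import Pool.Agent.Lib.MP_d0d59f_nt.Complexity

/-!
Row W1a: branching factors of the parity sequence; counting.
-/

namespace Pool.Agent.Lib.MP_d0d59f_nt.Lin

open Filter Topology

/-- the factor of length `n` at position `i` has two different continuations -/
def Branch (d x : ℤ) (n i : ℕ) : Prop :=
  ∃ j, factor d x n j = factor d x n i ∧ factor d x (n + 1) j ≠ factor d x (n + 1) i

/-- the set of the branching factors of length `n` -/
def branchSet (d x : ℤ) (n : ℕ) : Set (Fin n → ℤ) := factor d x n '' {i | Branch d x n i}

/-- Branching depends only on the factor: if `j` is a witness for `i` and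
`factor (n+1) i' ≠ factor (n+1) j` then `j` is a witness for `i'`, else `i` is. -/
theorem branch_congr {d x : ℤ} {n i i' : ℕ} (h : factor d x n i = factor d x n i')
    (hb : Branch d x n i) : Branch d x n i' := by
  obtain ⟨j, hj, hne⟩ := hb
  by_cases h' : factor d x (n + 1) j = factor d x (n + 1) i'
  · exact ⟨i, h, fun h2 => hne (h'.trans h2.symm)⟩
  · exact ⟨j, hj.trans h, h'⟩

/-- The factor of length `n + 1` at `i` is determined by the factor of length `n` and the letter at
`i + n` (`0` or `1`). -/
theorem factor_succ_eq_iff {d x : ℤ} {n i j : ℕ} :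
    factor d x (n + 1) i = factor d x (n + 1) j ↔
      factor d x n i = factor d x n j ∧ (T d)^[i + n] x % 2 = (T d)^[j + n] x % 2 := by
  constructor
  · intro h
    refine ⟨?_, ?_⟩
    · funext k
      have := congrFun h k.castSucc
      simpa [factor] using this
    · have := congrFun h (Fin.last n)
      simpa [factor] using this
  · rintro ⟨h1, h2⟩
    funext k
    refine Fin.lastCases ?_ (fun k => ?_) k
    · simpa [factor] using h2
    · have := congrFun h1 k
      simpa [factor] using this

theorem linBranchA_restrict (d x : ℤ) (n i : ℕ) :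
    (fun k : Fin n => factor d x (n + 1) i k.castSucc) = factor d x n i := by
  funext k
  simp [factor]

/-- The restriction map from the factors of length `n + 1` to those of length `n` is surjective, and
every branching factor has at least two preimages. -/
theorem card_branch (d x : ℤ) (n : ℕ) :
    (branchSet d x n).ncard + complexity d x n ≤ complexity d x (n + 1) := by
  classical
  set r : (Fin (n + 1) → ℤ) → (Fin n → ℤ) := fun f k => f k.castSucc with hr
  have hrf : ∀ i, r (factor d x (n + 1) i) = factor d x n i := fun i => linBranchA_restrict d x n i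
  have hs : ∀ u : Fin n → ℤ, ∃ i, u ∈ Set.range (factor d x n) → factor d x n i = u := by
    intro u
    by_cases hu : u ∈ Set.range (factor d x n)
    · obtain ⟨i, hi⟩ := hu
      exact ⟨i, fun _ => hi⟩
    · exact ⟨0, fun h => absurd h hu⟩
  choose a ha using hs
  have ht : ∀ u : Fin n → ℤ, ∃ j, u ∈ branchSet d x n →
      factor d x n j = u ∧ factor d x (n + 1) j ≠ factor d x (n + 1) (a u) := by
    intro u
    by_cases hu : u ∈ branchSet d x n
    · obtain ⟨i, hi, rfl⟩ := hu
      have h1 : factor d x n (a (factor d x n i)) = factor d x n i := ha _ ⟨i, rfl⟩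
      obtain ⟨j, hj, hne⟩ := branch_congr h1.symm hi
      exact ⟨j, fun _ => ⟨hj.trans h1, hne⟩⟩
    · exact ⟨0, fun h => absurd h hu⟩
  choose b hb using ht
  have hsub : branchSet d x n ⊆ Set.range (factor d x n) := by
    rintro _ ⟨i, -, rfl⟩; exact ⟨i, rfl⟩
  have hfin := range_factor_finite d x n
  have h1 : ((fun u => factor d x (n + 1) (a u)) '' Set.range (factor d x n)).ncard =
      (Set.range (factor d x n)).ncard := by
    apply Set.ncard_image_of_injOn
    intro u hu w hw h
    have h' := congrArg r h
    simp only [hrf] at h'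
    rwa [ha u hu, ha w hw] at h'
  have h2 : ((fun u => factor d x (n + 1) (b u)) '' branchSet d x n).ncard =
      (branchSet d x n).ncard := by
    apply Set.ncard_image_of_injOn
    intro u hu w hw h
    have h' := congrArg r h
    simp only [hrf] at h'
    rwa [(hb u hu).1, (hb w hw).1] at h'
  have h3 : Disjoint ((fun u => factor d x (n + 1) (b u)) '' branchSet d x n)
      ((fun u => factor d x (n + 1) (a u)) '' Set.range (factor d x n)) := by
    rw [Set.disjoint_left]
    rintro _ ⟨u, hu, rfl⟩ ⟨w, hw, h⟩
    have h' := congrArg r h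
    simp only [hrf] at h'
    rw [ha w hw, (hb u hu).1] at h'
    subst h'
    exact (hb _ hu).2 h.symm
  have h4 : ((fun u => factor d x (n + 1) (b u)) '' branchSet d x n) ∪
      ((fun u => factor d x (n + 1) (a u)) '' Set.range (factor d x n)) ⊆
      Set.range (factor d x (n + 1)) := by
    rintro _ (⟨u, -, rfl⟩ | ⟨u, -, rfl⟩)
    · exact ⟨_, rfl⟩
    · exact ⟨_, rfl⟩
  have h5 := Set.ncard_le_ncard h4 (range_factor_finite d x (n + 1))
  rw [Set.ncard_union_eq h3 ((hfin.subset hsub).image _) (hfin.image _), h1, h2] at h5
  exact h5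

/-- The factors of length `n + 1` at branching positions: at most `2 R` of them. -/
theorem exists_types {d x : ℤ} {n R : ℕ} (hR : (branchSet d x n).ncard ≤ R) :
    ∃ ty : ℕ → Fin (2 * R + 1), ∀ i j, Branch d x n i → Branch d x n j → ty i = ty j →
      factor d x (n + 1) i = factor d x (n + 1) j := by
  classical
  set S : Set (Fin (n + 1) → ℤ) := factor d x (n + 1) '' {i | Branch d x n i} with hS
  have hSfin : S.Finite := (range_factor_finite d x (n + 1)).subset (by
    rintro _ ⟨i, -, rfl⟩; exact ⟨i, rfl⟩)
  have hBfin : (branchSet d x n).Finite := (range_factor_finite d x n).subset (by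
    rintro _ ⟨i, -, rfl⟩; exact ⟨i, rfl⟩)
  have hcard : S.ncard ≤ 2 * R := by
    set φ : (Fin (n + 1) → ℤ) → (Fin n → ℤ) × ℤ := fun f => (fun k => f k.castSucc, f (Fin.last n))
      with hφ
    have hinj : Set.InjOn φ S := by
      intro f _ g _ h
      rw [hφ] at h
      simp only [Prod.mk.injEq] at h
      funext k
      refine Fin.lastCases h.2 (fun k => ?_) k
      exact congrFun h.1 k
    have himg : φ '' S ⊆ (branchSet d x n) ×ˢ ({0, 1} : Set ℤ) := by
      rintro _ ⟨_, ⟨i, hi, rfl⟩, rfl⟩
      refine ⟨?_, ?_⟩
      · exact ⟨i, hi, (linBranchA_restrict d x n i).symm⟩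
      · simp only [hφ, factor, Set.mem_insert_iff, Set.mem_singleton_iff]
        exact Int.emod_two_eq_zero_or_one _
    have h1 : S.ncard = (φ '' S).ncard := (Set.ncard_image_of_injOn hinj).symm
    have h2 : (φ '' S).ncard ≤ ((branchSet d x n) ×ˢ ({0, 1} : Set ℤ)).ncard :=
      Set.ncard_le_ncard himg (hBfin.prod (Set.toFinite _))
    rw [Set.ncard_prod] at h2
    have h3 : ({0, 1} : Set ℤ).ncard = 2 := Set.ncard_pair (by norm_num)
    rw [h3] at h2
    omega
  haveI : Fintype S := hSfin.fintype
  have hc : Fintype.card S ≤ Fintype.card (Fin (2 * R + 1)) := by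
    rw [Fintype.card_fin, ← Nat.card_eq_fintype_card, Nat.card_coe_set_eq]
    omega
  obtain ⟨e⟩ := Function.Embedding.nonempty_of_card_le hc
  refine ⟨fun i => if hi : Branch d x n i then e ⟨factor d x (n + 1) i, ⟨i, hi, rfl⟩⟩ else 0, ?_⟩
  intro i j hi hj h
  simp only [hi, hj, dif_pos] at h
  have := e.injective h
  exact congrArg Subtype.val this

end Pool.Agent.Lib.MP_d0d59f_nt.Lin
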