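import Pool.Agent.Lib.MP_d0d59f_nt.LinBranchA

/-!
Row W2a: branching positions are frequent; the sequence of the branching positions.
-/

namespace Pool.Agent.Lib.MP_d0d59f_nt.Lin

open Filter Topology

variable {d x : ℤ}

theorem linGapA_shift {n u v : ℕ} (h : factor d x (n + 1) u = factor d x (n + 1) v) :
    factor d x n (u + 1) = factor d x n (v + 1) := by
  funext k
  have h1 := congrFun h k.succ
  simp only [factor, Fin.val_succ] at h1 ⊢
  have e1 : u + 1 + (k : ℕ) = u + ((k : ℕ) + 1) := by omega
  have e2 : v + 1 + (k : ℕ) = v + ((k : ℕ) + 1) := by omega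
  rw [e1, e2]
  exact h1

theorem linGapA_first {n u v : ℕ} (h : factor d x (n + 1) u = factor d x (n + 1) v) :
    (T d)^[u] x % 2 = (T d)^[v] x % 2 := by
  have h1 := congrFun h 0
  simpa [factor] using h1

theorem linGapA_succ {n r j : ℕ} (hr : ¬ Branch d x n r) (h : factor d x n j = factor d x n r) :
    factor d x (n + 1) j = factor d x (n + 1) r := by
  by_contra hne
  exact hr ⟨j, h, hne⟩

/-- pigeonhole on the positions `i, ..., i + complexity n` -/
theorem linGapA_repeat (d x : ℤ) (n i : ℕ) :
    ∃ a b : ℕ, i ≤ a ∧ a < b ∧ b ≤ i + complexity d x n ∧ factor d x n a = factor d x n b := by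
  have hfin := range_factor_finite d x n
  have hmaps : Set.MapsTo (fun s => factor d x n (i + s))
      (Finset.range (complexity d x n + 1) : Set ℕ)
      (hfin.toFinset : Set (Fin n → ℤ)) := by
    intro s _
    simp
  have hcard : hfin.toFinset.card < (Finset.range (complexity d x n + 1)).card := by
    rw [Finset.card_range, complexity, Set.ncard_eq_toFinset_card _ hfin]
    omega
  obtain ⟨s, hs, t, ht, hst, h⟩ := Finset.exists_ne_map_eq_of_card_lt_of_maps_to hcard hmaps
  rw [Finset.mem_range] at hs ht
  rcases lt_or_gt_of_ne hst with h' | h'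
  · exact ⟨i + s, i + t, by omega, by omega, by omega, h⟩
  · exact ⟨i + t, i + s, by omega, by omega, by omega, h.symm⟩

/-- Among the `complexity n + 1` positions `i, ..., i + complexity n` there are `a < b` with the same
factor of length `n`. If no position of `[a, b)` is branching then by induction on `t`
`factor n (a + t) = factor n (a + t % (b - a))` and `factor n (a + t) = factor n (b + t)` for all `t`
(`branch_congr`, `factor_succ_eq_iff`), so all parities of the orbits of `(T d)^[a] x` and
`(T d)^[b] x` agree, `2 ^ N ∣ (T d)^[a] x - (T d)^[b] x` for all `N` (`dvd_of_parity`), and these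
integers are equal, contrary to `hx`. -/
theorem exists_branch (hd : Odd d) (hx : ∀ m p : ℕ, 0 < p → (T d)^[m + p] x ≠ (T d)^[m] x)
    (n i : ℕ) : ∃ j, i ≤ j ∧ j < i + complexity d x n ∧ Branch d x n j := by
  by_contra hno
  push Not at hno
  obtain ⟨a, b, hia, hab, hbi, hf⟩ := linGapA_repeat d x n i
  obtain ⟨c, hc, rfl⟩ : ∃ c, 0 < c ∧ b = a + c := ⟨b - a, by omega, by omega⟩
  have hnb : ∀ r, r < c → ¬ Branch d x n (a + r) := fun r hr => hno (a + r) (by omega) (by omega)
  have key : ∀ t, factor d x n (a + t) = factor d x n (a + t % c) := by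
    intro t
    induction t with
    | zero => simp
    | succ t ih =>
      have hr : t % c < c := Nat.mod_lt _ hc
      have h1 := linGapA_shift (linGapA_succ (hnb _ hr) ih)
      rw [add_assoc, add_assoc] at h1
      rw [h1]
      rcases Nat.lt_or_ge (t % c + 1) c with h2 | h2
      · have e : (t + 1) % c = t % c + 1 := by
          rw [Nat.add_mod, ← Nat.mod_eq_of_lt h2]
          rcases Nat.lt_or_ge 1 c with h3 | h3
          · rw [Nat.mod_eq_of_lt h3]
          · omega
        rw [e]
      · have e0 : t % c + 1 = c := by omega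
        have e : (t + 1) % c = 0 := by
          have : t + 1 = c * (t / c) + c := by
            have := Nat.div_add_mod t c
            omega
          rw [this, Nat.add_mod_right, Nat.mul_mod_right]
        rw [e, e0, add_zero, ← hf]
  have hpar : ∀ t, (T d)^[a + t] x % 2 = (T d)^[a + c + t] x % 2 := by
    intro t
    have hr : t % c < c := Nat.mod_lt _ hc
    have h1 := linGapA_succ (hnb _ hr) (key t)
    have h2 : factor d x n (a + c + t) = factor d x n (a + t % c) := by
      rw [add_assoc, key (c + t)]
      simp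
    have h3 := linGapA_succ (hnb _ hr) h2
    exact linGapA_first (h1.trans h3.symm)
  have hdvd : ∀ N : ℕ, (2 : ℤ) ^ N ∣ (T d)^[a] x - (T d)^[a + c] x := by
    intro N
    apply dvd_of_parity hd
    intro k _
    rw [← Function.iterate_add_apply, ← Function.iterate_add_apply, add_comm k a,
      add_comm k (a + c)]
    exact hpar k
  have hz : (T d)^[a] x - (T d)^[a + c] x = 0 := by
    apply Int.eq_zero_of_abs_lt_dvd (hdvd (((T d)^[a] x - (T d)^[a + c] x).natAbs))
    rw [Int.abs_eq_natAbs]
    exact_mod_cast Nat.lt_two_pow_self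
  exact hx a c hc (by omega)

/-- The sequence of the branching positions: `jt = Nat.nth (Branch d x n)`
(`Nat.nth_strictMono`, `Nat.nth_mem_of_infinite`, `Nat.count`/`Nat.nth` lemmas; the set is infinite by
`exists_branch`). -/
theorem exists_positions (hd : Odd d) (hx : ∀ m p : ℕ, 0 < p → (T d)^[m + p] x ≠ (T d)^[m] x)
    (n : ℕ) : ∃ jt : ℕ → ℕ, StrictMono jt ∧ (∀ k, Branch d x n (jt k)) ∧
      (∀ k t, jt k < t → t < jt (k + 1) → ¬ Branch d x n t) ∧ jt 0 ≤ complexity d x n ∧
      ∀ k, jt (k + 1) ≤ jt k + complexity d x n := by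
  classical
  have hinf : {t | Branch d x n t}.Infinite := by
    intro hfin
    obtain ⟨B, hB⟩ := hfin.bddAbove
    obtain ⟨j, hj1, _, hj3⟩ := exists_branch hd hx n (B + 1)
    have := hB hj3
    omega
  have hmono := Nat.nth_strictMono hinf
  have hgap : ∀ k t, Nat.nth (Branch d x n) k < t → t < Nat.nth (Branch d x n) (k + 1) →
      ¬ Branch d x n t := by
    intro k t h1 h2 hb
    have e := Nat.nth_count hb
    rw [← e] at h1 h2
    have h3 := hmono.lt_iff_lt.mp h1
    have h4 := hmono.lt_iff_lt.mp h2
    omega
  refine ⟨Nat.nth (Branch d x n), hmono, Nat.nth_mem_of_infinite hinf, hgap, ?_, ?_⟩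
  · obtain ⟨j, _, hj2, hj3⟩ := exists_branch hd hx n 0
    rw [Nat.nth_zero]
    exact (Nat.sInf_le hj3).trans (by omega)
  · intro k
    obtain ⟨j, hj1, hj2, hj3⟩ := exists_branch hd hx n (Nat.nth (Branch d x n) k + 1)
    by_contra hlt
    exact hgap k j (by omega) (by omega) hj3

end Pool.Agent.Lib.MP_d0d59f_nt.Lin
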