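import Pool.Agent.Lib.MP_d0d59f_nt.LinVal

/-!
Row C1: the completion of the polynomials, embedded at two places.
-/

namespace Pool.Agent.Lib.MP_d0d59f_nt.Lin

open Module Filter Topology

variable {κ 𝕂 : Type} [Field κ] [Field 𝕂] [Algebra κ 𝕂] {X : ℝ → 𝕂}
  {v₁ v₂ : AbsoluteValue 𝕂 ℝ} {x₁ x₂ : ℝ}

theorem compl_exists_lc {p : 𝕂} (hp : p ∈ polys κ X) :
    ∃ c : ℝ →₀ κ, Finsupp.linearCombination κ X c = p := by
  have h : p ∈ LinearMap.range (Finsupp.linearCombination κ X) := by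
    rw [Finsupp.range_linearCombination]; exact hp
  exact h

theorem compl_le_iff {x : ℝ} (h0 : 0 < x) (h1 : x < 1) {s t : ℝ} : x ^ t ≤ x ^ s ↔ s ≤ t :=
  Real.rpow_le_rpow_left_iff_of_base_lt_one h0 h1

theorem compl_lt_iff {x : ℝ} (h0 : 0 < x) (h1 : x < 1) {s t : ℝ} : x ^ t < x ^ s ↔ s < t :=
  Real.rpow_lt_rpow_left_iff_of_base_lt_one h0 h1

/-- smallest exponent, both places -/
theorem compl_val (h₁ : MVal κ X v₁ x₁) (h₂ : MVal κ X v₂ x₂) (hx₁ : x₁ < 1) (hx₂ : x₂ < 1)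
    (c : ℝ →₀ κ) (hc : c ≠ 0) : ∃ s, c s ≠ 0 ∧ v₁ (Finsupp.linearCombination κ X c) = x₁ ^ s ∧
      v₂ (Finsupp.linearCombination κ X c) = x₂ ^ s ∧ ∀ t, c t ≠ 0 → s ≤ t := by
  obtain ⟨s, hs, hv, hmin⟩ := val_lc h₁ c hc
  obtain ⟨s', hs', hv', hmin'⟩ := val_lc h₂ c hc
  have e1 : ∀ t, c t ≠ 0 → s ≤ t := fun t ht => (compl_le_iff h₁.pos hx₁).1 (hmin t ht)
  have e2 : ∀ t, c t ≠ 0 → s' ≤ t := fun t ht => (compl_le_iff h₂.pos hx₂).1 (hmin' t ht)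
  have e : s' = s := le_antisymm (e2 s hs) (e1 s' hs')
  subst e
  exact ⟨s', hs, hv, hv', e1⟩

theorem compl_exp_pos (h₁ : MVal κ X v₁ x₁) (h₂ : MVal κ X v₂ x₂) (hx₁ : x₁ < 1) (hx₂ : x₂ < 1) :
    0 < Real.log x₂ / Real.log x₁ :=
  div_pos_of_neg_of_neg (Real.log_neg h₂.pos hx₂) (Real.log_neg h₁.pos hx₁)

/-- The two values of a polynomial are powers of each other: by `val_lc` both are `x ^ s` for the
smallest exponent `s`. -/
theorem val_eq_rpow (h₁ : MVal κ X v₁ x₁) (h₂ : MVal κ X v₂ x₂) (hx₁ : x₁ < 1) (hx₂ : x₂ < 1)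
    {p : 𝕂} (hp : p ∈ polys κ X) : v₂ p = v₁ p ^ (Real.log x₂ / Real.log x₁) := by
  obtain ⟨c, rfl⟩ := compl_exists_lc hp
  by_cases hc : c = 0
  · subst hc
    rw [map_zero, map_zero, map_zero, Real.zero_rpow (compl_exp_pos h₁ h₂ hx₁ hx₂).ne']
  · obtain ⟨s, -, e1, e2, -⟩ := compl_val h₁ h₂ hx₁ hx₂ c hc
    rw [e1, e2, ← Real.rpow_mul h₁.pos.le, Real.rpow_def_of_pos h₂.pos, Real.rpow_def_of_pos h₁.pos]
    have hl : Real.log x₁ ≠ 0 := (Real.log_neg h₁.pos hx₁).ne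
    congr 1
    field_simp

/-- the ring of polynomials -/
noncomputable def complRing (hX : Mono κ X) : Subring 𝕂 where
  carrier := (polys κ X : Set 𝕂)
  mul_mem' := fun ha hb => mul_mem_polys hX ha hb
  one_mem' := one_mem_polys hX
  add_mem' := fun ha hb => (polys κ X).add_mem ha hb
  zero_mem' := (polys κ X).zero_mem
  neg_mem' := fun ha => (polys κ X).neg_mem ha

/-- a polynomial is the sum of its lowest term and smaller terms; the inverse of the lowest term is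
a polynomial -/
theorem compl_lowest (hX : Mono κ X) (h₁ : MVal κ X v₁ x₁) (h₂ : MVal κ X v₂ x₂) (hx₁ : x₁ < 1)
    (hx₂ : x₂ < 1) {p : 𝕂} (hp : p ∈ polys κ X) (hp0 : p ≠ 0) :
    ∃ u : 𝕂, u ≠ 0 ∧ u⁻¹ ∈ polys κ X ∧ v₁ (p - u) < v₁ p ∧ v₂ (p - u) < v₂ p := by
  obtain ⟨c, rfl⟩ := compl_exists_lc hp
  have hc : c ≠ 0 := by
    rintro rfl
    exact hp0 (map_zero _)
  obtain ⟨s, hs, e1, e2, hmin⟩ := compl_val h₁ h₂ hx₁ hx₂ c hc
  have hdec : Finsupp.linearCombination κ X c - c s • X s =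
      Finsupp.linearCombination κ X (c.erase s) := by
    rw [sub_eq_iff_eq_add]
    conv_lhs => rw [← Finsupp.erase_add_single s c]
    rw [map_add, Finsupp.linearCombination_single]
  refine ⟨c s • X s, smul_ne_zero hs (hX.ne s), ?_, ?_, ?_⟩
  · obtain ⟨d, -, hd⟩ := inv_X hX s
    have : (c s • X s)⁻¹ = ((c s)⁻¹ * d) • X (-s) := by
      rw [mul_smul, ← hd, Algebra.smul_def, Algebra.smul_def, mul_inv, map_inv₀]
    rw [this]
    exact (polys κ X).smul_mem _ (Submodule.subset_span ⟨_, rfl⟩)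
  · rw [hdec]
    by_cases hc' : c.erase s = 0
    · rw [hc', map_zero, map_zero, e1]
      exact Real.rpow_pos_of_pos h₁.pos _
    · obtain ⟨t, ht, e1', e2', -⟩ := compl_val h₁ h₂ hx₁ hx₂ _ hc'
      rw [e1, e1', compl_lt_iff h₁.pos hx₁]
      have hts : t ≠ s := by
        rintro rfl
        exact ht Finsupp.erase_same
      rw [Finsupp.erase_ne hts] at ht
      exact lt_of_le_of_ne (hmin t ht) hts.symm
  · rw [hdec]
    by_cases hc' : c.erase s = 0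
    · rw [hc', map_zero, map_zero, e2]
      exact Real.rpow_pos_of_pos h₂.pos _
    · obtain ⟨t, ht, e1', e2', -⟩ := compl_val h₁ h₂ hx₁ hx₂ _ hc'
      rw [e2, e2', compl_lt_iff h₂.pos hx₂]
      have hts : t ≠ s := by
        rintro rfl
        exact ht Finsupp.erase_same
      rw [Finsupp.erase_ne hts] at ht
      exact lt_of_le_of_ne (hmin t ht) hts.symm

theorem compl_norm_eq {Ω : Type} [NormedField Ω] [IsUltrametricDist Ω] {a b : Ω}
    (h : ‖a - b‖ < ‖a‖) : ‖b‖ = ‖a‖ := by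
  have h1 : ‖a + -b‖ < max ‖a‖ ‖-b‖ := by
    rw [← sub_eq_add_neg]
    exact lt_of_lt_of_le h (le_max_left _ _)
  have h2 := IsUltrametricDist.norm_eq_of_add_norm_lt_max h1
  rw [norm_neg] at h2
  exact h2.symm

theorem compl_step {Ω : Type} [NormedField Ω] [IsUltrametricDist Ω] {a p u : Ω}
    (h : ‖a - p‖ < ‖a‖) (h' : ‖p - u‖ < ‖p‖) : ‖1 - a * u⁻¹‖ < 1 := by
  have e1 : ‖p‖ = ‖a‖ := compl_norm_eq h
  have e2 : ‖u‖ = ‖p‖ := compl_norm_eq h'
  have e3 : ‖a - u‖ < ‖a‖ := by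
    have : a - u = (a - p) + (p - u) := by ring
    rw [this]
    exact lt_of_le_of_lt (IsUltrametricDist.norm_add_le_max _ _) (max_lt h (e1 ▸ h'))
  have ha : 0 < ‖a‖ := lt_of_le_of_lt (norm_nonneg _) h
  have hu : u ≠ 0 := by
    rintro rfl
    rw [norm_zero] at e2
    rw [← e1, ← e2] at ha
    exact lt_irrefl _ ha
  have e4 : 1 - a * u⁻¹ = -((a - u) * u⁻¹) := by
    field_simp
    ring
  rw [e4, norm_neg, norm_mul, norm_inv, e2, e1, ← div_eq_mul_inv, div_lt_one ha]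
  exact e3

theorem compl_closed_rel {Ω₁ Ω₂ : Type} [NormedField Ω₁] [NormedField Ω₂] {A : Set (Ω₁ × Ω₂)}
    {c : ℝ} (hc : 0 < c) (h : ∀ z ∈ A, ‖z.2‖ = ‖z.1‖ ^ c) {z : Ω₁ × Ω₂} (hz : z ∈ closure A) :
    ‖z.2‖ = ‖z.1‖ ^ c := by
  have hcl : IsClosed {z : Ω₁ × Ω₂ | ‖z.2‖ = ‖z.1‖ ^ c} :=
    isClosed_eq (continuous_snd.norm) (continuous_fst.norm.rpow_const (fun _ => Or.inr hc.le))
  exact closure_minimal h hcl hz

/-- The closure `L` of the image of the polynomials in `Ω₁ × Ω₂` is a field. Proof: it is a closed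
subring (`Subring.topologicalClosure`; the polynomials are a subring by `mul_mem_polys`,
`one_mem_polys`). For `(a, b) ∈ L` we have `‖b‖ = ‖a‖ ^ c`, `c = log x₂ / log x₁ > 0`, by
`val_eq_rpow` and continuity (`Real.continuousAt_rpow_const`, `isClosed_eq` for the continuous
function `z ↦ z ^ c`, `c ≥ 0`). If `(a, b) ≠ 0` then `a ≠ 0 ≠ b` and there is a polynomial `p` with
`‖a - p‖ < ‖a‖`, `‖b - p‖ < ‖b‖`. By `val_lc` `p = c X s + p'` with `‖p'‖ < ‖p‖` at both places, and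
`u = c X s` has an inverse in the polynomials (`inv_X`). So `r = 1 - (a, b) u⁻¹ ∈ L` has norm `< 1`
(sup norm of `Ω₁ × Ω₂`, complete), and `∑ r ^ n` converges to an element of `L` (closed) which is
inverse to `1 - r = (a, b) u⁻¹` (`mul_neg_geom_series`). So `L` is a field (`IsField.toField`), and
`e₁`, `e₂` are the two projections.
Last statement: `‖k₂ (p (r+1) - p r)‖ = v₁ (..) ^ c → 0` too, so both coordinates are Cauchy
sequences (ultrametric: `IsUltrametricDist.cauchySeq_of_tendsto_dist_succ_nhds_zero` or similar),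
the limit of the pairs is in `L`. -/
theorem exists_L (hX : Mono κ X) (h₁ : MVal κ X v₁ x₁) (h₂ : MVal κ X v₂ x₂) (hx₁ : x₁ < 1)
    (hx₂ : x₂ < 1) {Ω₁ Ω₂ : Type} [NormedField Ω₁] [NormedField Ω₂] [CompleteSpace Ω₁]
    [CompleteSpace Ω₂] [IsUltrametricDist Ω₁] [IsUltrametricDist Ω₂] (k₁ : 𝕂 →+* Ω₁)
    (k₂ : 𝕂 →+* Ω₂) (hk₁ : ∀ z, ‖k₁ z‖ = v₁ z) (hk₂ : ∀ z, ‖k₂ z‖ = v₂ z) :
    ∃ (L : Type) (_ : Field L) (e₁ : L →+* Ω₁) (e₂ : L →+* Ω₂),
      (∀ p ∈ polys κ X, ∃ a, e₁ a = k₁ p ∧ e₂ a = k₂ p) ∧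
      (∀ a, e₁ a ∈ closure (k₁ '' (polys κ X : Set 𝕂))) ∧
      (∀ a, e₂ a ∈ closure (k₂ '' (polys κ X : Set 𝕂))) ∧
      (∀ p : ℕ → 𝕂, (∀ r, p r ∈ polys κ X) →
        Tendsto (fun r => v₁ (p (r + 1) - p r)) atTop (𝓝 0) →
        ∃ a : L, Tendsto (fun r => k₁ (p r)) atTop (𝓝 (e₁ a)) ∧
          Tendsto (fun r => k₂ (p r)) atTop (𝓝 (e₂ a))) := by
  classical
  set φ : 𝕂 →+* Ω₁ × Ω₂ := k₁.prod k₂ with hφ
  set S : Subring (Ω₁ × Ω₂) := ((complRing hX).map φ).topologicalClosure with hS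
  have hSset : (S : Set (Ω₁ × Ω₂)) = closure (φ '' (polys κ X : Set 𝕂)) := rfl
  have hSclosed : IsClosed (S : Set (Ω₁ × Ω₂)) := by rw [hSset]; exact isClosed_closure
  have hφS : ∀ p ∈ polys κ X, φ p ∈ S := fun p hp =>
    show φ p ∈ (S : Set (Ω₁ × Ω₂)) from hSset ▸ subset_closure ⟨p, hp, rfl⟩
  have hc := compl_exp_pos h₁ h₂ hx₁ hx₂
  have hrel : ∀ z ∈ S, ‖z.2‖ = ‖z.1‖ ^ (Real.log x₂ / Real.log x₁) := by
    intro z hz
    refine compl_closed_rel hc (A := φ '' (polys κ X : Set 𝕂)) ?_ hz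
    rintro _ ⟨p, hp, rfl⟩
    show ‖k₂ p‖ = ‖k₁ p‖ ^ _
    rw [hk₁, hk₂]
    exact val_eq_rpow h₁ h₂ hx₁ hx₂ hp
  have : CompleteSpace S := hSclosed.completeSpace_coe
  have hunit : ∀ z : S, z ≠ 0 → ∃ w : S, z * w = 1 := by
    rintro ⟨⟨a, b⟩, hz⟩ hne
    have hab := hrel _ hz
    simp only at hab
    have ha : a ≠ 0 := by
      rintro rfl
      rw [norm_zero, Real.zero_rpow hc.ne', norm_eq_zero] at hab
      exact hne (by subst hab; rfl)
    have ha' : 0 < ‖a‖ := norm_pos_iff.2 ha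
    have hb' : 0 < ‖b‖ := by rw [hab]; exact Real.rpow_pos_of_pos ha' _
    have hz' : (a, b) ∈ closure (φ '' (polys κ X : Set 𝕂)) := hSset ▸ hz
    obtain ⟨_, ⟨p, hp, rfl⟩, hdist⟩ := Metric.mem_closure_iff.1 hz' (min ‖a‖ ‖b‖) (lt_min ha' hb')
    rw [Prod.dist_eq, max_lt_iff] at hdist
    obtain ⟨hd1, hd2⟩ := hdist
    have hd1' : ‖a - k₁ p‖ < ‖a‖ := by
      rw [← dist_eq_norm]; exact lt_of_lt_of_le hd1 (min_le_left _ _)
    have hd2' : ‖b - k₂ p‖ < ‖b‖ := by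
      rw [← dist_eq_norm]; exact lt_of_lt_of_le hd2 (min_le_right _ _)
    have hp0 : p ≠ 0 := by
      rintro rfl
      rw [map_zero, sub_zero] at hd1'
      exact lt_irrefl _ hd1'
    obtain ⟨u, hu0, hu, hu1, hu2⟩ := compl_lowest hX h₁ h₂ hx₁ hx₂ hp hp0
    have hu1' : ‖k₁ p - k₁ u‖ < ‖k₁ p‖ := by rw [← map_sub, hk₁, hk₁]; exact hu1
    have hu2' : ‖k₂ p - k₂ u‖ < ‖k₂ p‖ := by rw [← map_sub, hk₂, hk₂]; exact hu2
    have hr1 := compl_step hd1' hu1'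
    have hr2 := compl_step hd2' hu2'
    set w : S := ⟨φ u⁻¹, hφS _ hu⟩ with hw
    set z : S := ⟨(a, b), hz⟩ with hzdef
    have hr : ‖1 - z * w‖ < 1 := by
      have e : ‖1 - z * w‖ = max ‖1 - a * (k₁ u)⁻¹‖ ‖1 - b * (k₂ u)⁻¹‖ := by
        have e1 : ((1 - z * w : S) : Ω₁ × Ω₂) = (1 - a * (k₁ u)⁻¹, 1 - b * (k₂ u)⁻¹) := by
          have e2 : (w : Ω₁ × Ω₂) = ((k₁ u)⁻¹, (k₂ u)⁻¹) := by
            show (k₁ u⁻¹, k₂ u⁻¹) = _
            rw [map_inv₀, map_inv₀]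
          rw [AddSubgroupClass.coe_sub, Subring.coe_mul, e2]
          rfl
        show ‖((1 - z * w : S) : Ω₁ × Ω₂)‖ = _
        rw [e1, Prod.norm_mk]
      rw [e]
      exact max_lt hr1 hr2
    have hU := (Units.oneSub (1 - z * w) hr).mul_inv
    rw [Units.val_oneSub, sub_sub_cancel] at hU
    exact ⟨w * _, by rw [← mul_assoc]; exact hU⟩
  have hfield : IsField S :=
    { exists_pair_ne := ⟨0, 1, by
        intro h
        have h' : ((0 : S) : Ω₁ × Ω₂) = ((1 : S) : Ω₁ × Ω₂) := by rw [h]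
        have h'' : (0 : Ω₁) = 1 := congrArg Prod.fst h'
        exact zero_ne_one h''⟩
      mul_comm := fun a b => mul_comm a b
      mul_inv_cancel := fun {a} ha => hunit a ha }
  refine ⟨S, hfield.toField, (RingHom.fst Ω₁ Ω₂).comp S.subtype,
    (RingHom.snd Ω₁ Ω₂).comp S.subtype, ?_, ?_, ?_, ?_⟩
  · intro p hp
    exact ⟨⟨φ p, hφS p hp⟩, rfl, rfl⟩
  · rintro ⟨a, ha⟩
    have ha' : a ∈ closure (φ '' (polys κ X : Set 𝕂)) := hSset ▸ ha
    refine map_mem_closure (f := (Prod.fst : Ω₁ × Ω₂ → Ω₁)) continuous_fst ha' ?_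
    rintro _ ⟨p, hp, rfl⟩
    exact ⟨p, hp, rfl⟩
  · rintro ⟨a, ha⟩
    have ha' : a ∈ closure (φ '' (polys κ X : Set 𝕂)) := hSset ▸ ha
    refine map_mem_closure (f := (Prod.snd : Ω₁ × Ω₂ → Ω₂)) continuous_snd ha' ?_
    rintro _ ⟨p, hp, rfl⟩
    exact ⟨p, hp, rfl⟩
  · intro p hp hlim
    have hlim2 : Tendsto (fun r => v₂ (p (r + 1) - p r)) atTop (𝓝 0) := by
      have e : (fun r => v₂ (p (r + 1) - p r)) =
          fun r => v₁ (p (r + 1) - p r) ^ (Real.log x₂ / Real.log x₁) := by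
        funext r
        exact val_eq_rpow h₁ h₂ hx₁ hx₂ ((polys κ X).sub_mem (hp _) (hp _))
      rw [e]
      have := (Real.continuousAt_rpow_const 0 _ (Or.inr hc.le)).tendsto.comp hlim
      rwa [Real.zero_rpow hc.ne'] at this
    have hc1 : CauchySeq (fun r => k₁ (p r)) := by
      apply NonarchimedeanAddGroup.cauchySeq_of_tendsto_sub_nhds_zero
      rw [tendsto_zero_iff_norm_tendsto_zero]
      refine hlim.congr fun r => ?_
      rw [← map_sub, hk₁]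
    have hc2 : CauchySeq (fun r => k₂ (p r)) := by
      apply NonarchimedeanAddGroup.cauchySeq_of_tendsto_sub_nhds_zero
      rw [tendsto_zero_iff_norm_tendsto_zero]
      refine hlim2.congr fun r => ?_
      rw [← map_sub, hk₂]
    obtain ⟨l1, hl1⟩ := cauchySeq_tendsto_of_complete hc1
    obtain ⟨l2, hl2⟩ := cauchySeq_tendsto_of_complete hc2
    have hl : Tendsto (fun r => φ (p r)) atTop (𝓝 (l1, l2)) := by
      rw [nhds_prod_eq]
      exact hl1.prodMk hl2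
    have hmem : (l1, l2) ∈ S :=
      hSclosed.mem_of_tendsto hl (Eventually.of_forall fun r => hφS _ (hp r))
    exact ⟨⟨(l1, l2), hmem⟩, hl1, hl2⟩

end Pool.Agent.Lib.MP_d0d59f_nt.Lin
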