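import Pool.Agent.Lib.MP_d0d59f_nt.AutoOrbit

/-!
Row X2: a word which is a concatenation of few words of length `L` has small complexity.
-/

namespace Pool.Agent.Lib.MP_d0d59f_nt.Lin

/-- the word of length `L` which begins at position `r` of the concatenation of two words of
length `L` -/
def corGlue (L : ℕ) (q : Fin L × (Fin L → ℤ) × (Fin L → ℤ)) : Fin L → ℤ := fun k =>
  if h : (q.1 : ℕ) + k < L then q.2.1 ⟨q.1 + k, h⟩
  else q.2.2 ⟨q.1 + k - L, by have := q.1.isLt; have := k.isLt; omega⟩

theorem cor_glue_eq (d x : ℤ) (i L j q r : ℕ) (hr : r < L) (hj : i + q * L + r = j) :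
    factor d x L j = corGlue L (⟨r, hr⟩,
      factor d x L (i + q * L), factor d x L (i + (q + 1) * L)) := by
  funext k
  have hk := k.isLt
  simp only [corGlue]
  split_ifs with h
  · simp only [factor]
    have h1 : j + (k : ℕ) = i + q * L + (r + k) := by omega
    rw [h1]
  · simp only [factor]
    have h2 : (q + 1) * L = q * L + L := by ring
    have h1 : j + (k : ℕ) = i + (q + 1) * L + (r + k - L) := by
      rw [h2]
      omega
    rw [h1]

/-- A factor of length `L` which begins at a position `< i` is one of `i` words; a factor which begins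
at `i + n L + r`, `r < L`, is determined by `r` and the two blocks `n`, `n + 1`: at most `L K ^ 2`
words. (For `L = 0` the complexity is `1`: take `complexity ≤ i + (L + 1) K ^ 2` with `1 ≤ K`
automatically; the statement is for `1 ≤ L`.) -/
theorem complexity_le_of_blocks (d x : ℤ) (i L : ℕ) (hL : 1 ≤ L) :
    complexity d x L ≤ i + L * blockCount d x i L ^ 2 := by
  set S : Set (Fin L → ℤ) := Set.range fun n => factor d x L (i + n * L) with hS
  have hSfin : S.Finite := blockRange_finite d x i L
  have hsub : Set.range (factor d x L) ⊆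
      factor d x L '' Set.Iio i ∪ corGlue L '' ((Set.univ : Set (Fin L)) ×ˢ (S ×ˢ S)) := by
    rintro _ ⟨j, rfl⟩
    by_cases hj : j < i
    · exact Or.inl ⟨j, hj, rfl⟩
    · right
      have hdm : (j - i) / L * L + (j - i) % L = j - i := Nat.div_add_mod' _ _
      refine ⟨_, ?_, (cor_glue_eq d x i L j ((j - i) / L) ((j - i) % L)
        (Nat.mod_lt _ (by omega)) (by rw [add_assoc, hdm]; omega)).symm⟩
      exact ⟨Set.mem_univ _, ⟨_, rfl⟩, ⟨_, rfl⟩⟩
  have hprod : ((Set.univ : Set (Fin L)) ×ˢ (S ×ˢ S)).Finite :=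
    Set.finite_univ.prod (hSfin.prod hSfin)
  have hA : (factor d x L '' Set.Iio i).ncard ≤ i := by
    refine (Set.ncard_image_le (Set.finite_Iio i)).trans ?_
    rw [Set.ncard_eq_toFinset_card']
    simp
  have hB : (corGlue L '' ((Set.univ : Set (Fin L)) ×ˢ (S ×ˢ S))).ncard ≤
      L * blockCount d x i L ^ 2 := by
    refine (Set.ncard_image_le hprod).trans ?_
    rw [Set.ncard_prod, Set.ncard_prod, Set.ncard_univ, Nat.card_fin, sq]
    exact le_refl _
  calc complexity d x L ≤ (factor d x L '' Set.Iio i ∪
        corGlue L '' ((Set.univ : Set (Fin L)) ×ˢ (S ×ˢ S))).ncard :=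
        Set.ncard_le_ncard hsub (((Set.finite_Iio i).image _).union (hprod.image _))
    _ ≤ _ := (Set.ncard_union_le _ _).trans (Nat.add_le_add hA hB)

end Pool.Agent.Lib.MP_d0d59f_nt.Lin
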