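import Pool.Agent.Lib.MP_d0d59f_nt.AutoOrbit

/-!
Orbits of subexponential growth have superlinear complexity.
-/

namespace Pool.Agent.Lib.MP_d0d59f_nt.Lin

open Filter Topology

theorem crit_growth {d x : ℤ} (hd : Odd d)
    (hx : ∀ m p : ℕ, 0 < p → (T d)^[m + p] x ≠ (T d)^[m] x) {θ : ℝ}
    (hθ : Tendsto (fun n : ℕ => (ones d x n : ℝ) / n) atTop (𝓝 θ))
    (h : θ * Real.logb 2 3 = 1) {ε : ℝ} (hε : 0 < ε) :
    ∃ B : ℝ, 0 < B ∧ ∀ N : ℕ, |((T d)^[N] x : ℝ)| ≤ B * (3 : ℝ) ^ (ε * N) := by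
  obtain ⟨β, hβ, hlim⟩ := tendsto_normalized hx hd
  obtain ⟨B, hB⟩ := hlim.norm.bddAbove_range
  have hl2 : 0 < Real.log 2 := Real.log_pos (by norm_num)
  have hl3 : 0 < Real.log 3 := Real.log_pos (by norm_num)
  have hθ2 : θ * Real.log 3 = Real.log 2 := by
    rw [Real.logb] at h
    field_simp at h
    linarith
  have h1 : ∀ᶠ n : ℕ in atTop, (ones d x n : ℝ) ≤ (θ + ε) * n := by
    filter_upwards [hθ.eventually (gt_mem_nhds (show θ < θ + ε by linarith)),
      eventually_gt_atTop 0] with n hn hn0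
    rw [div_lt_iff₀ (by exact_mod_cast hn0)] at hn
    exact hn.le
  obtain ⟨N₀, hN₀⟩ := eventually_atTop.mp h1
  have hB1 : ∀ N, |((T d)^[N] x : ℝ)| ≤ B * (3 ^ (ones d x N) / 2 ^ N) := by
    intro N
    have h2 := hB ⟨N, rfl⟩
    simp only [norm_mul, norm_div, norm_pow, Real.norm_eq_abs] at h2
    rw [abs_of_pos (by norm_num : (0:ℝ) < 2), abs_of_pos (by norm_num : (0:ℝ) < 3)] at h2
    have h3 : (0 : ℝ) < 2 ^ N := by positivity
    have h4 : (0 : ℝ) < 3 ^ (ones d x N) := by positivity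
    rw [div_mul_eq_mul_div, div_le_iff₀ h4] at h2
    rw [mul_div_assoc', le_div_iff₀ h3]
    linarith
  have hB0 : 0 < B := by
    have h2 := hB1 0
    have h3 : (1 : ℝ) ≤ |((T d)^[0] x : ℝ)| := by
      have := Int.one_le_abs (orbit_ne_zero hx 0)
      exact_mod_cast this
    simp only [ones_zero, pow_zero, div_one, mul_one] at h2
    linarith
  refine ⟨B * 3 ^ N₀, by positivity, fun N => ?_⟩
  have h5 : (1 : ℝ) ≤ (3 : ℝ) ^ (ε * N) := Real.one_le_rpow (by norm_num) (by positivity)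
  rcases le_or_gt N₀ N with hN | hN
  · refine (hB1 N).trans ?_
    have h6 : (3 : ℝ) ^ (ones d x N) / 2 ^ N ≤ 3 ^ (ε * N) := by
      rw [div_le_iff₀ (by positivity)]
      calc (3 : ℝ) ^ (ones d x N) = (3 : ℝ) ^ ((ones d x N : ℕ) : ℝ) := (Real.rpow_natCast _ _).symm
        _ ≤ (3 : ℝ) ^ ((θ + ε) * N) := Real.rpow_le_rpow_of_exponent_le (by norm_num) (hN₀ N hN)
        _ = 3 ^ (ε * N) * 2 ^ N := by
            rw [add_mul, Real.rpow_add (by norm_num), mul_comm]
            congr 1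
            rw [Real.rpow_def_of_pos (by norm_num : (0:ℝ) < 3), ← mul_assoc, mul_comm (Real.log 3),
              hθ2, mul_comm, ← Real.rpow_natCast, Real.rpow_def_of_pos (by norm_num : (0:ℝ) < 2),
              mul_comm]
    calc B * (3 ^ (ones d x N) / 2 ^ N) ≤ B * 3 ^ (ε * N) := mul_le_mul_of_nonneg_left h6 hB0.le
      _ ≤ B * 3 ^ N₀ * 3 ^ (ε * N) := by
          have h7 : (1 : ℝ) ≤ 3 ^ N₀ := one_le_pow₀ (by norm_num)
          have : B * 1 ≤ B * 3 ^ N₀ := mul_le_mul_of_nonneg_left h7 hB0.le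
          rw [mul_one] at this
          exact mul_le_mul_of_nonneg_right this (by positivity)
  · refine (hB1 N).trans ?_
    have h6 : (3 : ℝ) ^ (ones d x N) / 2 ^ N ≤ 3 ^ N₀ := by
      rw [div_le_iff₀ (by positivity)]
      have h7 : (3 : ℝ) ^ (ones d x N) ≤ 3 ^ N₀ :=
        pow_le_pow_right₀ (by norm_num) ((ones_le d x N).trans hN.le)
      have h8 : (1 : ℝ) ≤ 2 ^ N := one_le_pow₀ (by norm_num)
      have h9 : (0 : ℝ) < 3 ^ N₀ := by positivity
      nlinarith
    calc B * (3 ^ (ones d x N) / 2 ^ N) ≤ B * 3 ^ N₀ := mul_le_mul_of_nonneg_left h6 hB0.le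
      _ ≤ B * 3 ^ N₀ * 3 ^ (ε * N) := le_mul_of_one_le_right (by positivity) h5

/-- Orbits for which the frequency of the ones is `1 / log₂ 3` have superlinear complexity. -/
theorem complexity_of_critical {d x : ℤ} (hd : Odd d)
    (hx : ∀ m p : ℕ, 0 < p → (T d)^[m + p] x ≠ (T d)^[m] x) {θ : ℝ}
    (hθ : Tendsto (fun n : ℕ => (ones d x n : ℝ) / n) atTop (𝓝 θ))
    (h : θ * Real.logb 2 3 = 1) (C : ℕ) : ∀ᶠ n in atTop, C * n < complexity d x n := by
  have hl2 : 0 < Real.log 2 := Real.log_pos (by norm_num)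
  have hl3 : 0 < Real.log 3 := Real.log_pos (by norm_num)
  set ε : ℝ := Real.log 2 / (2 * (C + 1) * Real.log 3) with hε
  have hε0 : 0 < ε := by positivity
  obtain ⟨B, hB, hgrow⟩ := crit_growth hd hx hθ h hε0
  have hq : Tendsto (fun n : ℕ => (2 : ℝ) ^ ((n : ℝ) / 2)) atTop atTop := by
    have h1 : Tendsto (fun n : ℕ => (n : ℝ) / 2) atTop atTop :=
      tendsto_natCast_atTop_atTop.atTop_div_const (by norm_num)
    exact (tendsto_rpow_atTop_of_base_gt_one 2 (by norm_num)).comp h1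
  filter_upwards [hq.eventually_gt_atTop (2 * B)] with n hn
  -- the values are small
  have hsmall : ∀ i : ℕ, i ≤ C * n → |((T d)^[i] x : ℝ)| < 2 ^ n / 2 := by
    intro i hi
    have h1 : ε * i * Real.log 3 ≤ n / 2 * Real.log 2 := by
      have h2 : (i : ℝ) ≤ C * n := by exact_mod_cast hi
      have h3 : ε * Real.log 3 = Real.log 2 / (2 * (C + 1)) := by
        rw [hε]; field_simp
      calc ε * i * Real.log 3 = (ε * Real.log 3) * i := by ring
        _ = Real.log 2 / (2 * (C + 1)) * i := by rw [h3]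
        _ ≤ Real.log 2 / (2 * (C + 1)) * (C * n) := mul_le_mul_of_nonneg_left h2 (by positivity)
        _ ≤ n / 2 * Real.log 2 := by
            rw [div_mul_eq_mul_div, div_le_iff₀ (by positivity)]
            have : (0 : ℝ) ≤ n := Nat.cast_nonneg n
            nlinarith
    have h4 : (3 : ℝ) ^ (ε * i) ≤ 2 ^ ((n : ℝ) / 2) := by
      rw [Real.rpow_def_of_pos (by norm_num : (0:ℝ) < 3), Real.rpow_def_of_pos (by norm_num : (0:ℝ) < 2)]
      apply Real.exp_le_exp.mpr
      linarith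
    have h5 : (2 : ℝ) ^ n = 2 ^ ((n : ℝ) / 2) * 2 ^ ((n : ℝ) / 2) := by
      rw [← Real.rpow_add (by norm_num), ← Real.rpow_natCast]
      congr 1
      ring
    have h6 : (0 : ℝ) < 2 ^ ((n : ℝ) / 2) := by positivity
    calc |((T d)^[i] x : ℝ)| ≤ B * (3 : ℝ) ^ (ε * i) := hgrow i
      _ ≤ B * 2 ^ ((n : ℝ) / 2) := mul_le_mul_of_nonneg_left h4 hB.le
      _ < 2 ^ n / 2 := by
          rw [h5]
          nlinarith
  -- the factors are different
  have hinj : Set.InjOn (factor d x n) (Finset.range (C * n + 1) : Set ℕ) := by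
    intro i hi j hj hij
    rw [Finset.coe_range, Set.mem_Iio] at hi hj
    have h1 := dvd_of_factor_eq hd hij
    have h2 : |(T d)^[i] x - (T d)^[j] x| < 2 ^ n := by
      have h3 := hsmall i (by omega)
      have h4 := hsmall j (by omega)
      have h5 : |((T d)^[i] x : ℝ) - ((T d)^[j] x : ℝ)| < 2 ^ n := by
        refine lt_of_le_of_lt (abs_sub _ _) ?_
        linarith
      exact_mod_cast h5
    have h3 : (T d)^[i] x - (T d)^[j] x = 0 := Int.eq_zero_of_abs_lt_dvd h1 h2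
    exact orbit_injective hx (sub_eq_zero.mp h3)
  have hcard : (Finset.range (C * n + 1)).card ≤ complexity d x n := by
    unfold complexity
    rw [← Set.ncard_coe_finset, ← hinj.ncard_image]
    exact Set.ncard_le_ncard (Set.image_subset_range _ _) (range_factor_finite d x n)
  rw [Finset.card_range] at hcard
  omega

end Pool.Agent.Lib.MP_d0d59f_nt.Lin
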