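import Pool.Agent.Lib.MP_d0d59f_nt.AutoStep
import Pool.Agent.Lib.MP_d0d59f_nt.AutoDet
import Pool.Agent.Lib.MP_d0d59f_nt.AutoChain
import Pool.Agent.Lib.MP_d0d59f_nt.AutoPade
import Pool.Agent.Lib.MP_d0d59f_nt.AutoAbs

/-!
Fields with monomials `X s`, `s` real. Definitions for the theorem on the complexity of the parity
sequences of divergent orbits.
-/

namespace Pool.Agent.Lib.MP_d0d59f_nt.Lin

open Module Filter Topology

/-- `X s`, `s ∈ ℝ`, are monomials: they are multiplicative up to constants from `κ` -/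
structure Mono (κ : Type) {𝕂 : Type} [Field κ] [Field 𝕂] [Algebra κ 𝕂] (X : ℝ → 𝕂) : Prop where
  ne : ∀ s, X s ≠ 0
  mul : ∀ s t, ∃ c : κ, c ≠ 0 ∧ X s * X t = c • X (s + t)
  zero : ∃ c : κ, c ≠ 0 ∧ X 0 = algebraMap κ 𝕂 c

/-- a non-archimedean absolute value, trivial on `κ`, with `v (X s) = x ^ s` -/
structure MVal (κ : Type) {𝕂 : Type} [Field κ] [Field 𝕂] [Algebra κ 𝕂] (X : ℝ → 𝕂)
    (v : AbsoluteValue 𝕂 ℝ) (x : ℝ) : Prop where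
  pos : 0 < x
  ne_one : x ≠ 1
  nonarch : ∀ a b, v (a + b) ≤ max (v a) (v b)
  const : ∀ c : κ, c ≠ 0 → v (algebraMap κ 𝕂 c) = 1
  val : ∀ s, v (X s) = x ^ s

/-- the ring `A = ⊕ κ X s` of polynomials (as a `κ`-subspace of `𝕂`) -/
noncomputable def polys (κ : Type) {𝕂 : Type} [Field κ] [Field 𝕂] [Algebra κ 𝕂] (X : ℝ → 𝕂) :
    Submodule κ 𝕂 := Submodule.span κ (Set.range X)

/-- the polynomials with all exponents in `S` -/
noncomputable def polysIn (κ : Type) {𝕂 : Type} [Field κ] [Field 𝕂] [Algebra κ 𝕂] (X : ℝ → 𝕂)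
    (S : Set ℝ) : Submodule κ 𝕂 := Submodule.span κ (X '' S)

/-- `O` is a ring of integers; `T i` is a common denominator of the monomials of degree `< i + 1` -/
structure IntData (κ : Type) {𝕂 : Type} [Field κ] [Field 𝕂] [Algebra κ 𝕂] (X : ℝ → 𝕂)
    (O : Subring 𝕂) (T : ℕ → 𝕂) : Prop where
  frac : ∀ z : 𝕂, ∃ D ∈ O, D ≠ 0 ∧ D * z ∈ O
  frac_const : ∀ c : κ, ∃ D : κ, D ≠ 0 ∧ algebraMap κ 𝕂 D ∈ O ∧ algebraMap κ 𝕂 (D * c) ∈ O
  T_ne : ∀ i, T i ≠ 0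
  T_mem : ∀ i, T i ∈ O
  T_mul : ∀ (i : ℕ) (s : ℝ), 0 ≤ s → s < i + 1 → T i * X s ∈ O

/-- an absolute value `v` together with the product `N` of the other absolute values that are not
bounded by one on `O` -/
structure Place (κ : Type) {𝕂 : Type} [Field κ] [Field 𝕂] [Algebra κ 𝕂] (X : ℝ → 𝕂)
    (O : Subring 𝕂) (T : ℕ → 𝕂) (v : AbsoluteValue 𝕂 ℝ) (x : ℝ) (N : AbsoluteValue 𝕂 ℝ)
    (τ : ℝ) : Prop where
  mval : MVal κ X v x
  lt_one : x < 1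
  N_const : ∀ c : κ, c ≠ 0 → N (algebraMap κ 𝕂 c) = 1
  N_X : ∀ s, 0 ≤ s → N (X s) ≤ 1
  N_nonarch : ∀ a b, N (a + b) ≤ max (N a) (N b)
  liouville : ∀ z ∈ O, z ≠ 0 → 1 ≤ v z * N z
  tau : ∀ i : ℕ, v (T i) * N (T i) = τ ^ (i + 1)

end Pool.Agent.Lib.MP_d0d59f_nt.Lin
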