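import Mathlib

/-!
Row A3: the dimension of a space of vectors of functions on a finite set of reals, by leading
coefficients.
-/

namespace Pool.Agent.Lib.MP_d0d59f_nt.Lin

open Module

/-- the elements of `W` which vanish outside `T` -/
def filt_sub {κ : Type} [Field κ] {H : ℕ} {S : Finset ℝ} (W : Submodule κ (Fin H → S → κ))
    (T : Finset ℝ) : Submodule κ (Fin H → S → κ) where
  carrier := {w | w ∈ W ∧ ∀ (i : Fin H) (u : S), (u : ℝ) ∉ T → w i u = 0}
  zero_mem' := ⟨W.zero_mem, fun _ _ _ => rfl⟩
  add_mem' := by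
    rintro x y ⟨hx, hx'⟩ ⟨hy, hy'⟩
    refine ⟨W.add_mem hx hy, fun i u hu => ?_⟩
    rw [Pi.add_apply, Pi.add_apply, hx' i u hu, hy' i u hu, add_zero]
  smul_mem' := by
    rintro c x ⟨hx, hx'⟩
    refine ⟨W.smul_mem c hx, fun i u hu => ?_⟩
    rw [Pi.smul_apply, Pi.smul_apply, hx' i u hu, smul_zero]

theorem filt_mem {κ : Type} [Field κ] {H : ℕ} {S : Finset ℝ} {W : Submodule κ (Fin H → S → κ)}
    {T : Finset ℝ} {w : Fin H → S → κ} :
    w ∈ filt_sub W T ↔ w ∈ W ∧ ∀ (i : Fin H) (u : S), (u : ℝ) ∉ T → w i u = 0 := Iff.rfl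

/-- evaluation at `m` -/
def filt_ev {κ : Type} [Field κ] {H : ℕ} {S : Finset ℝ} (m : S) :
    (Fin H → S → κ) →ₗ[κ] (Fin H → κ) where
  toFun w := fun i => w i m
  map_add' _ _ := rfl
  map_smul' _ _ := rfl

theorem filt_aux {κ : Type} [Field κ] {H : ℕ} (S : Finset ℝ)
    (W : Submodule κ (Fin H → S → κ)) (r : ℝ → ℕ)
    (h : ∀ (s : S) (t : ℕ) (P : Fin t → Fin H → S → κ), (∀ l, P l ∈ W) →
      (∀ l i (u : S), s < u → P l i u = 0) → LinearIndependent κ (fun l i => P l i s) →
      t ≤ r s) (T : Finset ℝ) : T ⊆ S → finrank κ (filt_sub W T) ≤ ∑ s ∈ T, r s := by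
  induction T using Finset.induction_on_max with
  | empty =>
    intro _
    have e : filt_sub W ∅ = ⊥ := by
      rw [eq_bot_iff]
      intro w hw
      rw [Submodule.mem_bot]
      funext i u
      exact (filt_mem.mp hw).2 i u (by simp)
    rw [e]
    simp
  | insert m T hm ih =>
    intro hS
    have hmS : m ∈ S := hS (Finset.mem_insert_self _ _)
    have hmT : m ∉ T := fun hc => lt_irrefl m (hm m hc)
    rw [Finset.sum_insert hmT]
    have ihT := ih (fun x hx => hS (Finset.mem_insert_of_mem hx))
    set U := filt_sub W (insert m T) with hU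
    let E : U →ₗ[κ] (Fin H → κ) := (filt_ev (⟨m, hmS⟩ : S)).domRestrict U
    have hrn := LinearMap.finrank_range_add_finrank_ker E
    -- the range
    have hr : finrank κ (LinearMap.range E) ≤ r m := by
      let b := Module.finBasis κ (LinearMap.range E)
      have hex : ∀ l, ∃ w : U, E w = (b l : Fin H → κ) := fun l => (b l).2
      choose w hw using hex
      refine h ⟨m, hmS⟩ (finrank κ (LinearMap.range E)) (fun l => (w l : Fin H → S → κ)) ?_ ?_ ?_
      · intro l
        exact (filt_mem.mp (w l).2).1
      · intro l i u hu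
        refine (filt_mem.mp (w l).2).2 i u ?_
        intro hc
        rcases Finset.mem_insert.mp hc with h1 | h1
        · have h2 : m < (u : ℝ) := hu
          rw [h1] at h2
          exact lt_irrefl m h2
        · have h2 : m < (u : ℝ) := hu
          exact lt_irrefl m (h2.trans (hm _ h1))
      · have e : (fun l i => (w l : Fin H → S → κ) i ⟨m, hmS⟩) =
            (LinearMap.range E).subtype ∘ b := by
          funext l
          exact hw l
        rw [e]
        exact b.linearIndependent.map' _ (Submodule.ker_subtype _)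
    -- the kernel
    have hk : finrank κ (LinearMap.ker E) ≤ finrank κ (filt_sub W T) := by
      have hmem : ∀ x : LinearMap.ker E, ((x : U) : Fin H → S → κ) ∈ filt_sub W T := by
        intro x
        have hx1 := filt_mem.mp (x : U).2
        refine filt_mem.mpr ⟨hx1.1, ?_⟩
        intro i u hu
        by_cases hum : (u : ℝ) = m
        · have h2 : E (x : U) = 0 := LinearMap.mem_ker.mp x.2
          have h3 : E (x : U) i = 0 := by rw [h2]; rfl
          have h4 : u = ⟨m, hmS⟩ := Subtype.ext hum
          rw [h4]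
          exact h3
        · exact hx1.2 i u (fun hc => by
            rcases Finset.mem_insert.mp hc with h1 | h1
            · exact hum h1
            · exact hu h1)
      let f : LinearMap.ker E →ₗ[κ] filt_sub W T :=
        LinearMap.codRestrict (filt_sub W T) (U.subtype.comp (LinearMap.ker E).subtype) hmem
      refine LinearMap.finrank_le_finrank_of_injective (f := f) ?_
      intro x y hxy
      have h2 : ((f x : filt_sub W T) : Fin H → S → κ) = f y := by rw [hxy]
      exact Subtype.ext (Subtype.ext h2)
    omega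

/-- Induction on `#T` for the subspaces `W_T = {w ∈ W : w_i(u) = 0 for u ∉ T}`, `T` a lower subset of
`S` (or: induction over `S` with `Finset.induction_on_max`): if `s = max T` then the kernel of
`W_T → κ^H`, `w ↦ (w_i(s))_i`, is `W_{T \ {s}}`, and its image has dimension at most `r s`: a basis
of the image lifts to `P : Fin t → W_T`, and the elements of `W_T` vanish above `s`. -/
theorem finrank_le_sum {κ : Type} [Field κ] {H : ℕ} (S : Finset ℝ)
    (W : Submodule κ (Fin H → S → κ)) (r : ℝ → ℕ)
    (h : ∀ (s : S) (t : ℕ) (P : Fin t → Fin H → S → κ), (∀ l, P l ∈ W) →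
      (∀ l i (u : S), s < u → P l i u = 0) → LinearIndependent κ (fun l i => P l i s) →
      t ≤ r s) :
    finrank κ W ≤ ∑ s ∈ S, r s := by
  have h1 := filt_aux S W r h S (fun _ hx => hx)
  have e : filt_sub W S = W := by
    ext w
    rw [filt_mem]
    exact ⟨fun h => h.1, fun h => ⟨h, fun i u hu => absurd u.2 hu⟩⟩
  rw [e] at h1
  exact h1

end Pool.Agent.Lib.MP_d0d59f_nt.Lin
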