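import Pool.Agent.Lib.MP_d0d59f_nt.LinIdent
import Pool.Agent.Lib.MP_d0d59f_nt.AutoOrbit

/-!
Row U5: the main theorem.
-/

namespace Pool.Agent.Lib.MP_d0d59f_nt.Lin

open Filter Topology Auto

variable {d x : ℤ} {L : ℕ → ℕ} {K : ℕ} {g : Fin K → ℕ → ℚ} {P : ℕ → ℕ → ℕ}
  {c : ℕ → Fin K → ℕ → ℚ} {α β : ℕ → ℕ → ℚ} {δ : ℝ}

/-- natural subtraction in the positions, in the reals -/
theorem final_sub (h : Data d x L g P c α β δ) (i : ℕ) :
    ∀ᶠ m in (hyperfilter ℕ : Filter ℕ),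
      ((P i m - P 0 m : ℕ) : ℝ) / L m = (P i m : ℝ) / L m - (P 0 m : ℝ) / L m := by
  filter_upwards [h.zero_le i] with m hm
  rw [Nat.cast_sub hm, sub_div]

/-- numbers of ones between the positions -/
theorem final_ones (h : Data d x L g P c α β δ) (i : ℕ) :
    ∀ᶠ m in (hyperfilter ℕ : Filter ℕ),
      (ones d ((T d)^[P 0 m] x) (P i m - P 0 m) : ℝ) / L m
        = (ones d x (P i m) : ℝ) / L m - (ones d x (P 0 m) : ℝ) / L m := by
  filter_upwards [h.zero_le i] with m hm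
  have h1 := ones_add d x (P 0 m) (P i m - P 0 m)
  rw [Nat.add_sub_cancel' hm] at h1
  rw [h1]
  push_cast
  ring

theorem final_ht_coef (h : Data d x L g P c α β δ) (t : ℕ) (a : Fin (K + 1)) (ε : ℝ) (hε : 0 < ε) :
    ∀ᶠ m in (hyperfilter ℕ : Filter ℕ), (ht (coef c α β t a m) : ℝ) ≤ (1 + ε) ^ L m := by
  have h1 : ∀ m, (1 : ℝ) ≤ (1 + ε) ^ L m := fun m => one_le_pow₀ (by linarith)
  unfold coef
  split_ifs with ht2
  · refine Fin.lastCases ?_ (fun b => ?_) a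
    · simp only [Fin.snoc_last]
      exact h.ht_α _ ε hε
    · simp only [Fin.snoc_castSucc]
      refine Eventually.of_forall fun m => ?_
      rcases h.c_val (t / 2) b m with h0 | h0
      · rw [h0, ht_zero]; simpa using h1 m
      · rw [h0]
        have : ht (1 : ℚ) = 1 := by simp [ht]
        rw [this]; simpa using h1 m
  · refine Fin.lastCases ?_ (fun b => ?_) a
    · simp only [Fin.snoc_last]
      exact h.ht_β _ ε hε
    · simp only [Fin.snoc_castSucc]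
      refine Eventually.of_forall fun m => ?_
      rw [ht_zero]; simpa using h1 m

theorem final_ht_gOne (h : Data d x L g P c α β δ) (a : Fin (K + 1)) :
    ∃ C : ℝ, ∀ᶠ m in (hyperfilter ℕ : Filter ℕ), (ht (gOne g a m) : ℝ) ≤ C ^ L m := by
  unfold gOne
  refine Fin.lastCases ?_ (fun b => ?_) a
  · refine ⟨1, Eventually.of_forall fun m => ?_⟩
    simp only [Fin.snoc_last]
    have : ht (1 : ℚ) = 1 := by simp [ht]
    rw [this]; simp
  · simp only [Fin.snoc_castSucc]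
    exact h.ht_g b

theorem final_ht_x (h : Data d x L g P c α β δ) (hd : Odd d) :
    ∃ C : ℝ, ∀ᶠ m in (hyperfilter ℕ : Filter ℕ),
      (ht (((T d)^[P 0 m] x : ℤ) : ℚ) : ℝ) ≤ C ^ L m := by
  obtain ⟨C0, hC0⟩ := h.P_le 0
  obtain ⟨C, hC⟩ := exists_nat_ge C0
  refine ⟨3 ^ C * (|(x : ℝ)| + |(d : ℝ)| + 1), ?_⟩
  filter_upwards [hC0, Nat.hyperfilter_le_atTop (h.tend.eventually_ge_atTop 1)] with m hPm hm1
  have hiC : P 0 m ≤ C * L m := by
    have : (P 0 m : ℝ) ≤ C * L m :=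
      hPm.trans (mul_le_mul_of_nonneg_right hC (Nat.cast_nonneg _))
    exact_mod_cast this
  have h3 := abs_iterate_le hd x (P 0 m)
  have h4 : (3 : ℝ) ^ ones d x (P 0 m) ≤ 3 ^ (C * L m) :=
    pow_le_pow_right₀ (by norm_num) ((ones_le d x (P 0 m)).trans hiC)
  have h5 : |(x : ℝ)| / 2 ^ P 0 m ≤ |(x : ℝ)| := div_le_self (abs_nonneg _) (one_le_pow₀ (by norm_num))
  have h6 : |((T d)^[P 0 m] x : ℝ)| ≤ 3 ^ (C * L m) * (|(x : ℝ)| + |(d : ℝ)|) := by
    refine h3.trans ?_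
    have h0 : 0 ≤ |(x : ℝ)| / 2 ^ P 0 m + |(d : ℝ)| := by positivity
    exact mul_le_mul h4 (by linarith) h0 (by positivity)
  have h7 : (1 : ℝ) ≤ 3 ^ (C * L m) := one_le_pow₀ (by norm_num)
  have h8 : |(x : ℝ)| + |(d : ℝ)| + 1 ≤ (|(x : ℝ)| + |(d : ℝ)| + 1) ^ L m :=
    le_self_pow₀ (by have := abs_nonneg (x : ℝ); have := abs_nonneg (d : ℝ); linarith) (by omega)
  have h9 : (ht (((T d)^[P 0 m] x : ℤ) : ℚ) : ℝ) ≤ max |((T d)^[P 0 m] x : ℝ)| 1 := by
    unfold ht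
    rw [Rat.num_intCast, Rat.den_intCast, Nat.cast_max, Nat.cast_natAbs, Int.cast_abs]
    simp
  rw [mul_pow, ← pow_mul]
  refine h9.trans (max_le ?_ ?_)
  · refine h6.trans ?_
    have h10 : |(x : ℝ)| + |(d : ℝ)| ≤ (|(x : ℝ)| + |(d : ℝ)| + 1) ^ L m := by linarith
    exact mul_le_mul_of_nonneg_left h10 (by positivity)
  · have h10 : (1 : ℝ) ≤ (|(x : ℝ)| + |(d : ℝ)| + 1) ^ L m :=
      one_le_pow₀ (by have := abs_nonneg (x : ℝ); have := abs_nonneg (d : ℝ); linarith)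
    have := mul_le_mul h7 h10 zero_le_one (by linarith)
    simpa using this

/-- `2`-adic norm of the error -/
theorem final_padic (N k : ℕ) (z : ℤ) :
    padicNorm 2 ((2 : ℚ) ^ N / 3 ^ k * (z : ℚ)) ≤ (1 / 2 : ℚ) ^ N := by
  rw [padicNorm.mul, padicNorm.div]
  have e2 : padicNorm 2 ((2 : ℚ) ^ N) = (1 / 2) ^ N := by
    rw [IsAbsoluteValue.abv_pow (padicNorm 2)]
    congr 1
    have := padicNorm.padicNorm_p_of_prime (p := 2)
    rw [one_div]
    exact_mod_cast this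
  have e3 : padicNorm 2 ((3 : ℚ) ^ k) = 1 := by
    rw [IsAbsoluteValue.abv_pow (padicNorm 2)]
    have : padicNorm 2 (3 : ℚ) = 1 := by
      have := (padicNorm.nat_eq_one_iff (p := 2) 3).mpr (by norm_num)
      exact_mod_cast this
    rw [this, one_pow]
  rw [e2, e3, div_one]
  exact mul_le_of_le_one_right (by positivity) (padicNorm.of_int (p := 2) z)

/-- lower bound for the error -/
theorem final_lower {c₀ : ℝ}
    (hlow : ∀ i : ℕ, c₀ ≤ |(2 : ℝ) ^ i / 3 ^ (ones d x i) * ((T d)^[i] x : ℝ)|)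
    {a b N : ℕ} (hab : a ≤ b) (haN : a ≤ N) :
    c₀ * (1 / 2 : ℝ) ^ N ≤
      |(((2 : ℚ) ^ (b - a) / 3 ^ ones d ((T d)^[a] x) (b - a) * ((T d)^[b] x : ℤ) : ℚ) : ℝ)| := by
  have h5 := hlow b
  have h6 : ones d x b = ones d x a + ones d ((T d)^[a] x) (b - a) := by
    have := ones_add d x a (b - a)
    rwa [Nat.add_sub_cancel' hab] at this
  rw [h6] at h5
  have h7 : |(((2 : ℚ) ^ (b - a) / 3 ^ ones d ((T d)^[a] x) (b - a) * ((T d)^[b] x : ℤ) : ℚ) : ℝ)|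
      = |(2 : ℝ) ^ b / 3 ^ (ones d x a + ones d ((T d)^[a] x) (b - a))
          * ((T d)^[b] x : ℝ)| * (3 ^ ones d x a / 2 ^ a) := by
    have h8 : (0 : ℝ) ≤ 3 ^ ones d x a / 2 ^ a := by positivity
    rw [← abs_of_nonneg h8, ← abs_mul]
    congr 1
    have hb : (2 : ℝ) ^ b = 2 ^ a * 2 ^ (b - a) := by
      rw [← pow_add, Nat.add_sub_cancel' hab]
    rw [hb]
    push_cast
    rw [pow_add]
    have h9 : (3 : ℝ) ^ ones d x a ≠ 0 := by positivity
    have h10 : (2 : ℝ) ^ a ≠ 0 := by positivity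
    have h11 : (3 : ℝ) ^ ones d ((T d)^[a] x) (b - a) ≠ 0 := by positivity
    field_simp
  rw [h7]
  have h8 : (1 / 2 : ℝ) ^ N ≤ 3 ^ ones d x a / 2 ^ a := by
    have h9 : (1 : ℝ) ≤ 3 ^ ones d x a := one_le_pow₀ (by norm_num)
    have h10 : (1 / 2 : ℝ) ^ N ≤ (1 / 2) ^ a :=
      pow_le_pow_of_le_one (by norm_num) (by norm_num) haN
    refine h10.trans ?_
    rw [one_div, inv_pow, ← one_div]
    gcongr
  exact mul_le_mul h5 h8 (by positivity) (abs_nonneg _)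

/-- `transfer_lin` for `A = expA P`, `B = expB d x P`, `coef`, `gOne`, `x m = (T d)^[P 0 m] x`:
`s t = q ((t + 1) / 2) - q 0` (`Data.exists_lim`); `B t m = ones d x (P i m) - ones d x (P 0 m)`
(`ones_add`), `ones_lim`. Heights: `ht 0 = ht 1 = 1`; `|(T d)^[N] x| ≤ 3 ^ N (|x| + |d|)`,
`N = P 0 m ≤ C L m`. `h2`: for given `σ` choose `i ≥ σ` with `q i - q 0 > σ`; then for `r = 2 i`
`err = 2 ^ (P i - P 0) / 3 ^ .. * integer` has `2`-adic norm at most `(1/2) ^ (P i - P 0)`, and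
`P i - P 0 ≥ σ L m` eventually. Conclusion of `transfer_lin` for `δ' = c' > 0` small:
`|err| < c' ^ L m` for `r = 2 i` large; but
`|err| = |2 ^ P_i / 3 ^ ones(P_i) * (T d)^[P_i] x| * 3 ^ ones (P_0) / 2 ^ P_0 ≥ c₀ / 2 ^ (P 0 m)`
(`Auto.normalized_lower`) and `P 0 m ≤ C L m`. -/
theorem Data.false (h : Data d x L g P c α β δ) (hd : Odd d)
    (hx : ∀ m p : ℕ, 0 < p → (T d)^[m + p] x ≠ (T d)^[m] x) {θ : ℝ}
    (hθ : Tendsto (fun n : ℕ => (ones d x n : ℝ) / n) atTop (𝓝 θ))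
    (hirr : Irrational (θ * Real.logb 2 3)) : False := by
  obtain ⟨q, hq, hqt⟩ := h.exists_lim
  have h1 : 1 < θ * Real.logb 2 3 :=
    one_lt_of_freq hd hx hθ fun h => hirr ⟨1, by rw [h]; norm_num⟩
  obtain ⟨c₀, hc₀, hlow⟩ := normalized_lower hd hx
  have hL := h.tend
  have hidx : Tendsto (fun t : ℕ => (t + 1) / 2) atTop atTop := by
    refine tendsto_atTop_atTop.mpr fun b => ⟨2 * b, fun a ha => ?_⟩
    omega
  have hs : Tendsto (fun t : ℕ => q ((t + 1) / 2) - q 0) atTop atTop :=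
    tendsto_atTop_add_const_right _ (-(q 0)) (hqt.comp hidx)
  have hA : ∀ t, Tendsto (fun m => (expA P t m : ℝ) / L m) (hyperfilter ℕ)
      (𝓝 (q ((t + 1) / 2) - q 0)) := by
    intro t
    refine ((hq ((t + 1) / 2)).sub (hq 0)).congr' ?_
    filter_upwards [final_sub h ((t + 1) / 2)] with m hm
    rw [expA, hm]
  have hB : ∀ t, Tendsto (fun m => (expB d x P t m : ℝ) / L m) (hyperfilter ℕ)
      (𝓝 (θ * (q ((t + 1) / 2) - q 0))) := by
    intro t
    rw [mul_sub]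
    refine ((ones_lim hθ hL (hq ((t + 1) / 2))).sub (ones_lim hθ hL (hq 0))).congr' ?_
    filter_upwards [final_ones h ((t + 1) / 2)] with m hm
    rw [expB, hm]
  have h2 : ∀ σ : ℕ, ∃ r, σ ≤ r ∧ ∀ᶠ m in (hyperfilter ℕ : Filter ℕ),
      padicNorm 2 (err (expA P) (expB d x P) (coef c α β) (gOne g)
        (fun m => ((T d)^[P 0 m] x : ℤ)) r m) ≤ (1 / 2 : ℚ) ^ (σ * L m) := by
    intro σ
    obtain ⟨i, hi, hiσ⟩ := ((eventually_ge_atTop σ).and
      (hqt.eventually_gt_atTop (q 0 + σ))).exists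
    refine ⟨2 * i, by omega, ?_⟩
    have hlim : Tendsto (fun m => (P i m : ℝ) / L m - (P 0 m : ℝ) / L m) (hyperfilter ℕ)
        (𝓝 (q i - q 0)) := (hq i).sub (hq 0)
    have hev := hlim.eventually (lt_mem_nhds (show (σ : ℝ) < q i - q 0 by linarith))
    filter_upwards [hev, h.zero_le i, err_eq h i,
      Nat.hyperfilter_le_atTop (hL.eventually_ge_atTop 1)] with m h3 h4 h5 h6
    have hLm : (0 : ℝ) < L m := by exact_mod_cast h6
    rw [← sub_div, lt_div_iff₀ hLm] at h3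
    have h7 : σ * L m ≤ P i m - P 0 m := by
      have : (σ * L m : ℝ) ≤ ((P i m - P 0 m : ℕ) : ℝ) := by
        rw [Nat.cast_sub h4]; exact h3.le
      exact_mod_cast this
    rw [h5]
    exact (final_padic _ _ _).trans (pow_le_pow_of_le_one (by norm_num) (by norm_num) h7)
  obtain ⟨C0, hC0⟩ := h.P_le 0
  obtain ⟨C, hC⟩ := exists_nat_ge C0
  obtain ⟨r0, hr0⟩ := transfer_lin hL h1 hirr (expA P) (expB d x P) _ hs hA hB (coef c α β)
    (fun t a ε hε => final_ht_coef h t a ε hε) (gOne g) (final_ht_gOne h)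
    (fun m => ((T d)^[P 0 m] x : ℤ)) (final_ht_x h hd) h2 (δ := (1 / 2) ^ (C + 2)) (by positivity)
  have h4 : Tendsto (fun m => (2 : ℝ) ^ (2 * L m)) atTop atTop :=
    (tendsto_pow_atTop_atTop_of_one_lt (by norm_num : (1 : ℝ) < 2)).comp
      (tendsto_atTop_mono (fun m => by omega) hL)
  have hfin : ∀ᶠ m in (hyperfilter ℕ : Filter ℕ), False := by
    filter_upwards [hr0 (2 * r0) (by omega), err_eq h r0, h.zero_le r0, hC0,
      Nat.hyperfilter_le_atTop (h4.eventually_gt_atTop c₀⁻¹)] with m e1 e2 e3 e4 e5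
    have hiC : P 0 m ≤ C * L m := by
      have : (P 0 m : ℝ) ≤ C * L m :=
        e4.trans (mul_le_mul_of_nonneg_right hC (Nat.cast_nonneg _))
      exact_mod_cast this
    have e6 := final_lower hlow e3 hiC
    rw [e2] at e1
    have h10 : ((1 / 2 : ℝ) ^ (C + 2)) ^ L m = (1 / 2) ^ (C * L m) * ((2 : ℝ) ^ (2 * L m))⁻¹ := by
      rw [← pow_mul, add_mul, pow_add, one_div, inv_pow, inv_pow]
    rw [h10] at e1
    have h11 : ((2 : ℝ) ^ (2 * L m))⁻¹ < c₀ := by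
      rw [inv_lt_comm₀ (by positivity) hc₀]
      exact e5
    have h12 : (1 / 2 : ℝ) ^ (C * L m) * ((2 : ℝ) ^ (2 * L m))⁻¹ < c₀ * (1 / 2 : ℝ) ^ (C * L m) := by
      rw [mul_comm c₀]
      exact mul_lt_mul_of_pos_left h11 (by positivity)
    linarith
  exact hfin.exists.elim fun _ h => h

/-- The main theorem. -/
theorem eventually_periodic_of_complexity {d : ℤ} (hd : Odd d) {x : ℤ} {θ : ℝ}
    (hθ : Tendsto (fun n : ℕ => (ones d x n : ℝ) / n) atTop (𝓝 θ))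
    (hirr : Irrational (θ * Real.logb 2 3)) {C : ℕ}
    (h : ∃ᶠ n in atTop, complexity d x n ≤ C * n) :
    ∃ m p : ℕ, 0 < p ∧ (T d)^[m + p] x = (T d)^[m] x := by
  by_contra hcon
  have hx : ∀ m p : ℕ, 0 < p → (T d)^[m + p] x ≠ (T d)^[m] x :=
    fun m p hp h => hcon ⟨m, p, hp, h⟩
  obtain ⟨L, K, g, P, c, α, β, δ, hD⟩ := exists_data hd hx h
  exact hD.false hd hx hθ hirr

end Pool.Agent.Lib.MP_d0d59f_nt.Lin
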