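import Mathlib

/-!
Row A2: almost invariant finite sets in `ℝ/ℤ`.
-/

namespace Pool.Agent.Lib.MP_d0d59f_nt.Lin

/-- the fractional parts of the sums `∑_{π ∈ S} a_π π`, `0 ≤ a_π ≤ B` -/
noncomputable def linFolner_I (S : Finset ℝ) (B : ℕ) : Finset ℝ :=
  (Fintype.piFinset (fun _ : S => Finset.range (B + 1))).image
    (fun a => Int.fract (∑ π : S, (a π : ℝ) * (π : ℝ)))

theorem linFolner_mem {S : Finset ℝ} {B : ℕ} {ξ : ℝ} :
    ξ ∈ linFolner_I S B ↔ ∃ a : S → ℕ, (∀ π, a π ≤ B) ∧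
      Int.fract (∑ π : S, (a π : ℝ) * (π : ℝ)) = ξ := by
  unfold linFolner_I
  simp only [Finset.mem_image, Fintype.mem_piFinset, Finset.mem_range, Nat.lt_succ_iff]

theorem linFolner_card (S : Finset ℝ) (B : ℕ) : (linFolner_I S B).card ≤ (B + 1) ^ S.card := by
  unfold linFolner_I
  refine le_trans Finset.card_image_le ?_
  rw [Fintype.card_piFinset]
  simp

theorem linFolner_nonempty (S : Finset ℝ) (B : ℕ) : (linFolner_I S B).Nonempty :=
  ⟨_, linFolner_mem.2 ⟨fun _ => 0, fun _ => Nat.zero_le _, rfl⟩⟩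

theorem linFolner_range {S : Finset ℝ} {B : ℕ} {ξ : ℝ} (h : ξ ∈ linFolner_I S B) :
    0 ≤ ξ ∧ ξ < 1 := by
  obtain ⟨a, -, rfl⟩ := linFolner_mem.1 h
  exact ⟨Int.fract_nonneg _, Int.fract_lt_one _⟩

theorem linFolner_step {S : Finset ℝ} {B : ℕ} {ξ π : ℝ} (h : ξ ∈ linFolner_I S B) (hπ : π ∈ S) :
    Int.fract (ξ + π) ∈ linFolner_I S (B + 1) := by
  classical
  obtain ⟨a, ha, rfl⟩ := linFolner_mem.1 h
  rw [linFolner_mem]
  refine ⟨Function.update a ⟨π, hπ⟩ (a ⟨π, hπ⟩ + 1), ?_, ?_⟩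
  · intro ρ
    by_cases hρ : ρ = ⟨π, hπ⟩
    · subst hρ
      simpa using ha _
    · rw [Function.update_of_ne hρ]
      exact (ha ρ).trans (Nat.le_succ _)
  · have h1 : (∑ ρ : S, ((Function.update a ⟨π, hπ⟩ (a ⟨π, hπ⟩ + 1) ρ : ℕ) : ℝ) * (ρ : ℝ)) =
        (∑ ρ : S, (a ρ : ℝ) * (ρ : ℝ)) + π := by
      have h2 : ∀ ρ : S, ((Function.update a ⟨π, hπ⟩ (a ⟨π, hπ⟩ + 1) ρ : ℕ) : ℝ) * (ρ : ℝ) =
          (a ρ : ℝ) * (ρ : ℝ) + (if ρ = ⟨π, hπ⟩ then π else 0) := by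
        intro ρ
        by_cases hρ : ρ = ⟨π, hπ⟩
        · subst hρ
          simp
          ring
        · rw [Function.update_of_ne hρ, if_neg hρ, add_zero]
      rw [Finset.sum_congr rfl (fun ρ _ => h2 ρ), Finset.sum_add_distrib]
      simp
    rw [h1, ← Int.self_sub_floor (∑ ρ : S, (a ρ : ℝ) * (ρ : ℝ))]
    rw [show (∑ ρ : S, (a ρ : ℝ) * (ρ : ℝ)) - ((⌊∑ ρ : S, (a ρ : ℝ) * (ρ : ℝ)⌋ : ℤ) : ℝ) + π =
      ((∑ ρ : S, (a ρ : ℝ) * (ρ : ℝ)) + π) - ((⌊∑ ρ : S, (a ρ : ℝ) * (ρ : ℝ)⌋ : ℤ) : ℝ) by ring]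
    rw [Int.fract_sub_intCast]

/-- Let `I_B` be the set of the fractional parts of the sums `∑_{π ∈ S} a_π π`, `0 ≤ a_π ≤ B`. Then
`0 ∈ I_B ⊆ I_{B+1} ⊆ [0,1)`, the number of elements is at most `(B+1) ^ #S`, and
`fract (ξ + π) ∈ I_{B+1}` for `ξ ∈ I_B`, `π ∈ S`. If `(n + 1) #I_B ≤ n #I_{B+1}` for all `B` then
`n ≥ 1` and `(1 + 1/n)^B ≤ #I_B ≤ (B+1)^#S` for all `B`, contradiction for large `B`. So
`I = I_B`, `I' = I_{B+1}` for some `B`. -/
theorem exists_folner (S : Finset ℝ) (n : ℕ) :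
    ∃ I I' : Finset ℝ, I.Nonempty ∧ (∀ ξ ∈ I, 0 ≤ ξ ∧ ξ < 1) ∧ (∀ ξ ∈ I', 0 ≤ ξ ∧ ξ < 1) ∧
      (∀ ξ ∈ I, ∀ π ∈ S, Int.fract (ξ + π) ∈ I') ∧ n * I'.card < (n + 1) * I.card := by
  by_contra hcon
  have hall : ∀ B : ℕ, (n + 1) * (linFolner_I S B).card ≤ n * (linFolner_I S (B + 1)).card := by
    intro B
    by_contra hB
    exact hcon ⟨linFolner_I S B, linFolner_I S (B + 1), linFolner_nonempty S B,
      fun ξ h => linFolner_range h, fun ξ h => linFolner_range h,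
      fun ξ h π hπ => linFolner_step h hπ, not_le.1 hB⟩
  have hn : 0 < n := by
    rcases Nat.eq_zero_or_pos n with rfl | h
    · have h0 := hall 0
      have h1 := (linFolner_nonempty S 0).card_pos
      omega
    · exact h
  have hn' : (0 : ℝ) < n := by exact_mod_cast hn
  set r : ℝ := 1 + 1 / n with hr
  have hr1 : 1 < r := by
    rw [hr]
    have : 0 < 1 / (n : ℝ) := by positivity
    linarith
  have hgrow : ∀ B : ℕ, r ^ B ≤ ((linFolner_I S B).card : ℝ) := by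
    intro B
    induction B with
    | zero =>
      rw [pow_zero]
      exact_mod_cast (linFolner_nonempty S 0).card_pos
    | succ B ih =>
      have h1 : ((n : ℝ) + 1) * ((linFolner_I S B).card : ℝ) ≤
          n * ((linFolner_I S (B + 1)).card : ℝ) := by exact_mod_cast hall B
      have h2 : r * ((linFolner_I S B).card : ℝ) ≤ ((linFolner_I S (B + 1)).card : ℝ) := by
        have h3 : r = ((n : ℝ) + 1) / n := by
          rw [hr]
          field_simp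
        rw [h3, div_mul_eq_mul_div, div_le_iff₀ hn']
        linarith
      calc r ^ (B + 1) = r * r ^ B := by ring
        _ ≤ r * ((linFolner_I S B).card : ℝ) :=
            mul_le_mul_of_nonneg_left ih (by linarith)
        _ ≤ _ := h2
  have hlim := tendsto_pow_const_div_const_pow_of_one_lt S.card hr1
  have hev : ∀ᶠ M : ℕ in Filter.atTop, ((M : ℝ) ^ S.card / r ^ M) < 1 / r :=
    hlim.eventually (gt_mem_nhds (by positivity))
  obtain ⟨M, hM1, hM2⟩ := (hev.and (Filter.eventually_ge_atTop 1)).exists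
  obtain ⟨B, rfl⟩ : ∃ B, M = B + 1 := ⟨M - 1, by omega⟩
  have h1 := hgrow B
  have h2 : ((linFolner_I S B).card : ℝ) ≤ ((B + 1 : ℕ) : ℝ) ^ S.card := by
    exact_mod_cast linFolner_card S B
  rw [div_lt_div_iff₀ (by positivity) (by linarith), one_mul, pow_succ r B] at hM1
  have h3 : ((B + 1 : ℕ) : ℝ) ^ S.card < r ^ B := lt_of_mul_lt_mul_right hM1 (by linarith)
  linarith

end Pool.Agent.Lib.MP_d0d59f_nt.Lin
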