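import Pool.Agent.Lib.MP_d0d59f_nt.AutoLim

/-!
Row D1b: the absolute values of `2` and `3`; the `3`-adic absolute value.
-/

namespace Pool.Agent.Lib.MP_d0d59f_nt.Lin

open Filter Topology Auto

theorem germB_padic_int (z : ℤ) (hz : z ≠ 0) : (1 : ℝ) ≤ Rat.AbsoluteValue.padic 3 (z : ℚ) * |(z : ℝ)| := by
  have h1 : (3 : ℤ) ^ padicValInt 3 z ∣ z := by
    have := padicValInt_dvd (p := 3) z
    simpa using this
  have h2 : (3 : ℤ) ^ padicValInt 3 z ≤ |z| :=
    Int.le_of_dvd (abs_pos.mpr hz) ((dvd_abs _ _).mpr h1)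
  have h3 : (3 : ℝ) ^ padicValInt 3 z ≤ |(z : ℝ)| := by exact_mod_cast h2
  have h4 : Rat.AbsoluteValue.padic 3 (z : ℚ) = ((3 : ℝ) ^ padicValInt 3 z)⁻¹ := by
    rw [Rat.AbsoluteValue.padic_eq_padicNorm, padicNorm.eq_zpow_of_nonzero (by exact_mod_cast hz),
      padicValRat.of_int]
    push_cast
    rw [zpow_neg, zpow_natCast]
  rw [h4, ← div_eq_inv_mul, le_div_iff₀ (by positivity), one_mul]
  exact h3

theorem germB_padic_int_le (z : ℤ) : Rat.AbsoluteValue.padic 3 (z : ℚ) ≤ 1 := by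
  rw [Rat.AbsoluteValue.padic_eq_padicNorm]
  exact_mod_cast padicNorm.of_int (p := 3) z

/-- `HtBound` for the prime `3` (copy of `Auto.htBound_padic`), and the values used below. -/
theorem htBound_padic_three : HtBound (Rat.AbsoluteValue.padic 3) := by
  have hdiv : ∀ q : ℚ, Rat.AbsoluteValue.padic 3 q * Rat.AbsoluteValue.padic 3 ((q.den : ℤ) : ℚ) =
      Rat.AbsoluteValue.padic 3 (q.num : ℚ) := by
    intro q
    rw [← map_mul]
    congr 1
    push_cast
    exact Rat.mul_den_eq_num q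
  have hd : ∀ q : ℚ, (1 : ℝ) ≤ q.den := fun q => by exact_mod_cast q.pos
  refine ⟨fun q => ?_, fun q hq => ?_⟩
  · have h1 := germB_padic_int (q.den : ℤ) (by exact_mod_cast q.den_ne_zero)
    have h2 := hdiv q
    have h3 := germB_padic_int_le q.num
    have h4 : |(((q.den : ℤ)) : ℝ)| = q.den := by
      push_cast
      exact abs_of_nonneg (by positivity)
    rw [h4] at h1
    calc Rat.AbsoluteValue.padic 3 q = Rat.AbsoluteValue.padic 3 q * 1 := (mul_one _).symm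
      _ ≤ Rat.AbsoluteValue.padic 3 q * (Rat.AbsoluteValue.padic 3 ((q.den : ℤ) : ℚ) * q.den) :=
        mul_le_mul_of_nonneg_left h1 (AbsoluteValue.nonneg _ _)
      _ = Rat.AbsoluteValue.padic 3 (q.num : ℚ) * q.den := by rw [← mul_assoc, h2]
      _ ≤ 1 * q.den := mul_le_mul_of_nonneg_right h3 (by positivity)
      _ ≤ ht q := by rw [one_mul]; exact al_den_le q
  · have h1 := germB_padic_int q.num (Rat.num_ne_zero.mpr hq)
    have h2 := hdiv q
    have h3 := germB_padic_int_le (q.den : ℤ)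
    calc (1 : ℝ) ≤ Rat.AbsoluteValue.padic 3 (q.num : ℚ) * |(q.num : ℝ)| := h1
      _ ≤ Rat.AbsoluteValue.padic 3 (q.num : ℚ) * ht q :=
        mul_le_mul_of_nonneg_left (al_num_le q) (AbsoluteValue.nonneg _ _)
      _ = Rat.AbsoluteValue.padic 3 q * Rat.AbsoluteValue.padic 3 ((q.den : ℤ) : ℚ) * ht q := by
        rw [h2]
      _ ≤ Rat.AbsoluteValue.padic 3 q * 1 * ht q := by
        gcongr
      _ = Rat.AbsoluteValue.padic 3 q * ht q := by rw [mul_one]

theorem padic_two_two : Rat.AbsoluteValue.padic 2 (2 : ℚ) = 1 / 2 := by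
  rw [Rat.AbsoluteValue.padic_eq_padicNorm]
  have h : padicNorm 2 ((2 : ℕ) : ℚ) = ((2 : ℕ) : ℚ)⁻¹ := padicNorm.padicNorm_p (by norm_num)
  have h' : padicNorm 2 (2 : ℚ) = 2⁻¹ := by exact_mod_cast h
  rw [h']
  norm_num

theorem padic_two_three : Rat.AbsoluteValue.padic 2 (3 : ℚ) = 1 := by
  rw [Rat.AbsoluteValue.padic_eq_padicNorm]
  have h : padicNorm 2 ((3 : ℕ) : ℚ) = 1 := padicNorm.nat_eq_one_iff 3 |>.mpr (by norm_num)
  have h' : padicNorm 2 (3 : ℚ) = 1 := by exact_mod_cast h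
  rw [h']
  norm_num

theorem padic_three_two : Rat.AbsoluteValue.padic 3 (2 : ℚ) = 1 := by
  rw [Rat.AbsoluteValue.padic_eq_padicNorm]
  have h : padicNorm 3 ((2 : ℕ) : ℚ) = 1 := padicNorm.nat_eq_one_iff 2 |>.mpr (by norm_num)
  have h' : padicNorm 3 (2 : ℚ) = 1 := by exact_mod_cast h
  rw [h']
  norm_num

theorem padic_three_three : Rat.AbsoluteValue.padic 3 (3 : ℚ) = 1 / 3 := by
  rw [Rat.AbsoluteValue.padic_eq_padicNorm]
  have h : padicNorm 3 ((3 : ℕ) : ℚ) = ((3 : ℕ) : ℚ)⁻¹ := padicNorm.padicNorm_p (by norm_num)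
  have h' : padicNorm 3 (3 : ℚ) = 3⁻¹ := by exact_mod_cast h
  rw [h']
  norm_num

theorem real_two : Rat.AbsoluteValue.real (2 : ℚ) = 2 := by
  rw [Rat.AbsoluteValue.real_eq_abs]
  norm_num

theorem real_three : Rat.AbsoluteValue.real (3 : ℚ) = 3 := by
  rw [Rat.AbsoluteValue.real_eq_abs]
  norm_num

end Pool.Agent.Lib.MP_d0d59f_nt.Lin
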