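import Pool.Agent.Lib.MP_d0d59f_nt.AutoSeq

/-!
Row D1a: germs of sequences `2 ^ a m / 3 ^ b m`.
-/

namespace Pool.Agent.Lib.MP_d0d59f_nt.Lin

open Filter Topology Auto

/-- `2 ^ a / 3 ^ b` -/
noncomputable def mon (a b : ℤ) : ℚ := (2 : ℚ) ^ a / 3 ^ b

theorem mon_ne_zero (a b : ℤ) : mon a b ≠ 0 := by
  unfold mon
  positivity

theorem mon_mul (a b a' b' : ℤ) : mon a b * mon a' b' = mon (a + a') (b + b') := by
  unfold mon
  rw [zpow_add₀ (by norm_num), zpow_add₀ (by norm_num)]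
  ring

theorem lga_ht_zpow (c : ℕ) (hc : 1 ≤ c) (a : ℤ) : ht ((c : ℚ) ^ a) ≤ c ^ a.natAbs := by
  have key : ∀ n : ℕ, ht ((c : ℚ) ^ n) ≤ c ^ n := by
    intro n
    have h := ht_div_le ((c : ℤ) ^ n) 1 one_ne_zero
    have h1 : (((((c : ℤ) ^ n : ℤ)) : ℚ) / ((1 : ℤ) : ℚ)) = (c : ℚ) ^ n := by
      push_cast
      rw [div_one]
    rw [h1] at h
    refine h.trans (max_le ?_ ?_)
    · rw [Int.natAbs_pow, Int.natAbs_natCast]
    · simpa using Nat.one_le_pow n c hc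
  rcases Int.eq_nat_or_neg a with ⟨n, rfl | rfl⟩
  · rw [zpow_natCast, Int.natAbs_natCast]
    exact key n
  · rw [zpow_neg, zpow_natCast, Int.natAbs_neg, Int.natAbs_natCast]
    exact (ht_inv_le _).trans (key n)

/-- Write `2 ^ a / 3 ^ b` as a quotient of two of the numbers `1`, `2 ^ |a|`, `3 ^ |b|`,
`2 ^ |a| 3 ^ |b|` and use `Auto.ht_div_le`. -/
theorem ht_mon_le (a b : ℤ) : (ht (mon a b) : ℝ) ≤ 3 ^ (|(a : ℝ)| + |(b : ℝ)|) := by
  have h1 : ht (mon a b) ≤ 2 ^ a.natAbs * 3 ^ b.natAbs := by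
    unfold mon
    rw [div_eq_mul_inv]
    refine (ht_mul_le _ _).trans ?_
    refine Nat.mul_le_mul ?_ ((ht_inv_le _).trans ?_)
    · have := lga_ht_zpow 2 (by norm_num) a
      simpa using this
    · have := lga_ht_zpow 3 (by norm_num) b
      simpa using this
  have h2 : (ht (mon a b) : ℝ) ≤ 2 ^ a.natAbs * 3 ^ b.natAbs := by exact_mod_cast h1
  refine h2.trans ?_
  have h3 : (2 : ℝ) ^ a.natAbs ≤ 3 ^ a.natAbs := pow_le_pow_left₀ (by norm_num) (by norm_num) _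
  have h4 : (2 : ℝ) ^ a.natAbs * 3 ^ b.natAbs ≤ 3 ^ a.natAbs * 3 ^ b.natAbs :=
    mul_le_mul_of_nonneg_right h3 (by positivity)
  refine h4.trans (le_of_eq ?_)
  rw [Real.rpow_add (by norm_num)]
  have h5 : ∀ c : ℤ, (3 : ℝ) ^ c.natAbs = 3 ^ |(c : ℝ)| := by
    intro c
    rw [← Real.rpow_natCast, Nat.cast_natAbs, Int.cast_abs]
  rw [h5, h5]

variable {L : ℕ → ℕ} {hL : Tendsto L atTop atTop}

theorem mon_mem_big (a b : ℕ → ℤ)
    (ha : ∃ C : ℝ, ∀ᶠ m in (hyperfilter ℕ : Filter ℕ), |(a m : ℝ)| ≤ C * L m)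
    (hb : ∃ C : ℝ, ∀ᶠ m in (hyperfilter ℕ : Filter ℕ), |(b m : ℝ)| ≤ C * L m) :
    (((fun m => mon (a m) (b m)) : ℕ → ℚ) : QU) ∈ bigField L hL := by
  obtain ⟨C, hC⟩ := ha
  obtain ⟨D, hD⟩ := hb
  refine ⟨fun m => mon (a m) (b m), rfl, 3 ^ (C + D), ?_⟩
  filter_upwards [hC, hD] with m h1 h2
  refine (ht_mon_le _ _).trans ?_
  rw [← Real.rpow_natCast, ← Real.rpow_mul (by norm_num)]
  refine Real.rpow_le_rpow_of_exponent_le (by norm_num) ?_
  calc |((a m : ℤ) : ℝ)| + |((b m : ℤ) : ℝ)| ≤ C * L m + D * L m := add_le_add h1 h2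
    _ = (C + D) * L m := by ring

/-- `3 ^ (2 δ) ≤ 1 + ε` for some `δ > 0`. -/
theorem mon_mem_small (a b : ℕ → ℤ)
    (ha : Tendsto (fun m => (a m : ℝ) / L m) (hyperfilter ℕ) (𝓝 0))
    (hb : Tendsto (fun m => (b m : ℝ) / L m) (hyperfilter ℕ) (𝓝 0)) :
    (((fun m => mon (a m) (b m)) : ℕ → ℚ) : QU) ∈ smallField L hL := by
  refine ⟨fun m => mon (a m) (b m), rfl, fun ε hε => ?_⟩
  obtain ⟨δ, hδ, hδε⟩ : ∃ δ : ℝ, 0 < δ ∧ (3 : ℝ) ^ (δ + δ) ≤ 1 + ε := by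
    have hl3 : 0 < Real.log 3 := Real.log_pos (by norm_num)
    have hle : 0 < Real.log (1 + ε) := Real.log_pos (by linarith)
    refine ⟨Real.log (1 + ε) / (2 * Real.log 3), by positivity, le_of_eq ?_⟩
    rw [Real.rpow_def_of_pos (by norm_num)]
    have : Real.log 3 * (Real.log (1 + ε) / (2 * Real.log 3) + Real.log (1 + ε) / (2 * Real.log 3))
        = Real.log (1 + ε) := by
      field_simp
      ring
    rw [this, Real.exp_log (by linarith)]
  have h1 : ∀ᶠ m in (hyperfilter ℕ : Filter ℕ), |(a m : ℝ) / L m| < δ := by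
    have := ha.abs
    rw [abs_zero] at this
    exact this.eventually_lt_const hδ
  have h2 : ∀ᶠ m in (hyperfilter ℕ : Filter ℕ), |(b m : ℝ) / L m| < δ := by
    have := hb.abs
    rw [abs_zero] at this
    exact this.eventually_lt_const hδ
  filter_upwards [h1, h2, sq_L_pos hL] with m h1 h2 hm
  have hm' : (0 : ℝ) < L m := by exact_mod_cast hm
  refine (ht_mon_le _ _).trans ?_
  have h3 : |((a m : ℤ) : ℝ)| ≤ δ * L m := by
    rw [abs_div, abs_of_pos hm', div_lt_iff₀ hm'] at h1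
    exact h1.le
  have h4 : |((b m : ℤ) : ℝ)| ≤ δ * L m := by
    rw [abs_div, abs_of_pos hm', div_lt_iff₀ hm'] at h2
    exact h2.le
  calc (3 : ℝ) ^ (|((a m : ℤ) : ℝ)| + |((b m : ℤ) : ℝ)|) ≤ 3 ^ ((δ + δ) * L m) := by
        refine Real.rpow_le_rpow_of_exponent_le (by norm_num) ?_
        linarith
    _ = (3 ^ (δ + δ)) ^ L m := by
        rw [← Real.rpow_natCast, ← Real.rpow_mul (by norm_num)]
    _ ≤ (1 + ε) ^ L m := pow_le_pow_left₀ (by positivity) hδε _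

/-- `n (mon a b) ^ (1 / L) = n 2 ^ (a / L) / n 3 ^ (b / L)` if `L > 0` (`Real.rpow_intCast`,
`Real.rpow_mul`). -/
theorem limAbs_mon {n : AbsoluteValue ℚ ℝ} {v : AbsoluteValue (bigField L hL) ℝ}
    (hv : IsLimAbs n v) {z : bigField L hL} {a b : ℕ → ℤ}
    (hz : (((fun m => mon (a m) (b m)) : ℕ → ℚ) : QU) = (z : QU)) {α β : ℝ}
    (ha : Tendsto (fun m => (a m : ℝ) / L m) (hyperfilter ℕ) (𝓝 α))
    (hb : Tendsto (fun m => (b m : ℝ) / L m) (hyperfilter ℕ) (𝓝 β)) :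
    v z = n 2 ^ α / n 3 ^ β := by
  refine sq_val_eq hv hz ?_
  have p2 : 0 < n 2 := n.pos (by norm_num)
  have p3 : 0 < n 3 := n.pos (by norm_num)
  have h1 : Tendsto (fun m => n 2 ^ ((a m : ℝ) / L m)) (hyperfilter ℕ) (𝓝 (n 2 ^ α)) :=
    ((Real.continuousAt_const_rpow p2.ne').tendsto).comp ha
  have h2 : Tendsto (fun m => n 3 ^ ((b m : ℝ) / L m)) (hyperfilter ℕ) (𝓝 (n 3 ^ β)) :=
    ((Real.continuousAt_const_rpow p3.ne').tendsto).comp hb
  have h3 := h1.div h2 (Real.rpow_pos_of_pos p3 _).ne'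
  refine h3.congr fun m => ?_
  simp only [Pi.div_apply]
  unfold mon
  rw [map_div₀, map_zpow₀, map_zpow₀, Real.div_rpow (by positivity) (by positivity)]
  congr 1
  · rw [← Real.rpow_intCast, ← Real.rpow_mul p2.le]
    congr 1
    ring
  · rw [← Real.rpow_intCast, ← Real.rpow_mul p3.le]
    congr 1
    ring

/-- `⌊s L⌋ / L → s`. -/
theorem tendsto_floor (hL : Tendsto L atTop atTop) (s : ℝ) :
    Tendsto (fun m => ((⌊s * L m⌋ : ℤ) : ℝ) / L m) (hyperfilter ℕ) (𝓝 s) := by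
  have hL' : Tendsto (fun m => (L m : ℝ)) atTop atTop := tendsto_natCast_atTop_atTop.comp hL
  have h0 : Tendsto (fun m => s - 1 / (L m : ℝ)) (hyperfilter ℕ) (𝓝 s) := by
    have h1 : Tendsto (fun m => 1 / (L m : ℝ)) atTop (𝓝 0) := by
      refine (tendsto_inv_atTop_zero.comp hL').congr fun m => ?_
      simp
    have h2 : Tendsto (fun m => s - 1 / (L m : ℝ)) atTop (𝓝 (s - 0)) := tendsto_const_nhds.sub h1
    rw [sub_zero] at h2
    exact h2.mono_left Nat.hyperfilter_le_atTop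
  refine tendsto_of_tendsto_of_tendsto_of_le_of_le' h0 tendsto_const_nhds ?_ ?_
  · filter_upwards [sq_L_pos hL] with m hm
    have hm' : (0 : ℝ) < L m := by exact_mod_cast hm
    rw [le_div_iff₀ hm', sub_mul, one_div, inv_mul_cancel₀ hm'.ne']
    exact (Int.sub_one_lt_floor _).le
  · filter_upwards [sq_L_pos hL] with m hm
    have hm' : (0 : ℝ) < L m := by exact_mod_cast hm
    rw [div_le_iff₀ hm']
    exact Int.floor_le _

end Pool.Agent.Lib.MP_d0d59f_nt.Lin
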