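import Pool.Agent.Lib.MP_d0d59f_nt.LinMonA

/-!
Row D2b: values of the monomials `X s`.
-/

namespace Pool.Agent.Lib.MP_d0d59f_nt.Lin

open Filter Topology Auto

attribute [local instance] sqAlg

variable {L : ℕ → ℕ} {hL : Tendsto L atTop atTop} {θ : ℝ}

/-- the value of a monomial -/
theorem linMonB_val {n : AbsoluteValue ℚ ℝ} {v : AbsoluteValue (bigField L hL) ℝ}
    (hv : IsLimAbs n v) (s : ℝ) : v (germX L hL θ s) = (n 2 / n 3 ^ θ) ^ s := by
  have h := limAbs_mon (L := L) (hL := hL) hv (z := germX L hL θ s)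
    (a := fun m => ⌊s * L m⌋) (b := fun m => ⌊θ * s * L m⌋) rfl
    (tendsto_floor hL s) (tendsto_floor hL (θ * s))
  rw [h, Real.div_rpow (n.nonneg _) (Real.rpow_nonneg (n.nonneg _) _),
    ← Real.rpow_mul (n.nonneg _)]

/-- the value of `T i` -/
theorem linMonB_valT {n : AbsoluteValue ℚ ℝ} {v : AbsoluteValue (bigField L hL) ℝ}
    (hv : IsLimAbs n v) (i : ℕ) : v (germT L hL θ i) = (n 3 ^ θ) ^ (i + 1) := by
  have h1 : Tendsto (fun m => (((-⌊θ * (i + 1) * L m⌋ : ℤ)) : ℝ) / L m) (hyperfilter ℕ)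
      (𝓝 (-(θ * (i + 1)))) := by
    refine (tendsto_floor hL (θ * (i + 1))).neg.congr fun m => ?_
    push_cast
    ring
  have h0 : Tendsto (fun m => (((0 : ℤ)) : ℝ) / L m) (hyperfilter ℕ) (𝓝 0) := by
    simp
  have h := limAbs_mon (L := L) (hL := hL) hv (z := germT L hL θ i)
    (a := fun _ => (0 : ℤ)) (b := fun m => -⌊θ * (i + 1) * L m⌋) rfl h0 h1
  rw [h, Real.rpow_zero, Real.rpow_neg (n.nonneg _), one_div, inv_inv,
    Real.rpow_mul (n.nonneg _)]
  have h2 : ((i : ℝ) + 1) = ((i + 1 : ℕ) : ℝ) := by push_cast; ring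
  rw [h2, Real.rpow_natCast]

/-- From `limAbs_mon`, `tendsto_floor`, `sq_const`. -/
theorem mVal_germX {n : AbsoluteValue ℚ ℝ} (hn : HtBound n)
    {v : AbsoluteValue (bigField L hL) ℝ} (hna : ∀ a b, v (a + b) ≤ max (v a) (v b))
    (hv : IsLimAbs n v) {x : ℝ} (hx : n 2 / n 3 ^ θ = x) (hx1 : x ≠ 1) :
    MVal (smallField L hL) (germX L hL θ) v x := by
  refine ⟨?_, hx1, hna, fun c hc => sq_const hn hv c hc, fun s => ?_⟩
  · rw [← hx]
    have h2 : 0 < n 2 := n.pos (by norm_num)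
    have h3 : 0 < n 3 := n.pos (by norm_num)
    exact div_pos h2 (Real.rpow_pos_of_pos h3 _)
  · rw [linMonB_val hv, hx]

/-- nonnegative exponents give integers -/
theorem linMonB_int {a b : ℤ} (ha : 0 ≤ a) (hb : 0 ≤ b) :
    (((2 ^ a.toNat * 3 ^ b.toNat : ℤ)) : ℚ) = mon a (-b) := by
  unfold mon
  obtain ⟨a', rfl⟩ := Int.eq_ofNat_of_zero_le ha
  obtain ⟨b', rfl⟩ := Int.eq_ofNat_of_zero_le hb
  simp only [Int.toNat_natCast, zpow_neg, zpow_natCast]
  push_cast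
  rw [div_inv_eq_mul]

/-- `frac = sq_frac`, `frac_const = sq_frac_const`; `T i * X s` is, for `0 ≤ s < i + 1`, `θ > 0`, the
germ of `2 ^ ⌊s L⌋ 3 ^ (⌊θ (i + 1) L⌋ - ⌊θ s L⌋)`, both exponents nonnegative. -/
theorem intData_germX (hθ : 0 < θ) :
    IntData (smallField L hL) (germX L hL θ) (sqO L hL) (germT L hL θ) := by
  refine ⟨sq_frac, sq_frac_const, fun i h => ?_, fun i => ?_, fun i s hs0 hs1 => ?_⟩
  · have h1 : ((seqT L θ i : ℕ → ℚ) : QU) = 0 := congrArg Subtype.val h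
    obtain ⟨m, hm⟩ := (sq_germ_zero h1).exists
    exact mon_ne_zero _ _ hm
  · refine ⟨fun m => 2 ^ (0 : ℤ).toNat * 3 ^ (⌊θ * (i + 1) * L m⌋).toNat, ?_⟩
    show _ = ((seqT L θ i : ℕ → ℚ) : QU)
    congr 1
    funext m
    have hb : 0 ≤ ⌊θ * (i + 1) * L m⌋ := Int.floor_nonneg.2 (by positivity)
    exact linMonB_int le_rfl hb
  · refine ⟨fun m => 2 ^ (⌊s * L m⌋).toNat *
      3 ^ (⌊θ * (i + 1) * L m⌋ - ⌊θ * s * L m⌋).toNat, ?_⟩
    rw [Subfield.coe_mul]
    show _ = ((seqT L θ i : ℕ → ℚ) : QU) * ((seqX L θ s : ℕ → ℚ) : QU)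
    rw [← Germ.coe_mul]
    congr 1
    funext m
    have ha : 0 ≤ ⌊s * L m⌋ := Int.floor_nonneg.2 (by positivity)
    have hb : 0 ≤ ⌊θ * (i + 1) * L m⌋ - ⌊θ * s * L m⌋ := by
      rw [sub_nonneg]
      apply Int.floor_le_floor
      apply mul_le_mul_of_nonneg_right _ (by positivity)
      exact mul_le_mul_of_nonneg_left hs1.le hθ.le
    show (((2 ^ (⌊s * L m⌋).toNat * 3 ^ (⌊θ * (i + 1) * L m⌋ - ⌊θ * s * L m⌋).toNat : ℤ)) : ℚ)
      = seqT L θ i m * seqX L θ s m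
    rw [linMonB_int ha hb, seqT, seqX, mon_mul]
    congr 1
    · ring
    · ring

/-- The two places. `v` = limit of the `2`-adic, `w` = limit of the real absolute value. Put
`τ = 3 ^ θ > 2`. `v (T i) = 1`, `w (T i) = 3 ^ (θ (i + 1)) = τ ^ (i + 1)` by `limAbs_mon`;
`sq_liouville`. -/
theorem place_germX (hθ : 2 < (3 : ℝ) ^ θ) {v w : AbsoluteValue (bigField L hL) ℝ}
    (hvna : ∀ a b, v (a + b) ≤ max (v a) (v b)) (hwna : ∀ a b, w (a + b) ≤ max (w a) (w b))
    (hv : IsLimAbs (Rat.AbsoluteValue.padic 2) v) (hw : IsLimAbs Rat.AbsoluteValue.real w) :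
    Place (smallField L hL) (germX L hL θ) (sqO L hL) (germT L hL θ) v (1 / 2) w (3 ^ θ) ∧
    Place (smallField L hL) (germX L hL θ) (sqO L hL) (germT L hL θ) w (2 / 3 ^ θ) v (3 ^ θ) := by
  have h3 : (0 : ℝ) < 3 ^ θ := Real.rpow_pos_of_pos (by norm_num) _
  have hlt : (2 : ℝ) / 3 ^ θ < 1 := (div_lt_one h3).2 hθ
  have hmv : MVal (smallField L hL) (germX L hL θ) v (1 / 2) :=
    mVal_germX htBound_padic hvna hv
      (by rw [padic_two_two, padic_two_three, Real.one_rpow, div_one]) (by norm_num)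
  have hmw : MVal (smallField L hL) (germX L hL θ) w (2 / 3 ^ θ) :=
    mVal_germX htBound_real hwna hw (by rw [real_two, real_three]) hlt.ne
  have hvT : ∀ i, v (germT L hL θ i) = 1 := fun i => by
    rw [linMonB_valT hv, padic_two_three, Real.one_rpow, one_pow]
  have hwT : ∀ i, w (germT L hL θ i) = (3 ^ θ) ^ (i + 1) := fun i => by
    rw [linMonB_valT hw, real_three]
  constructor
  · refine ⟨hmv, by norm_num, fun c hc => sq_const htBound_real hw c hc, fun s hs => ?_, hwna,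
      fun z hz hz0 => sq_liouville hv hw z hz hz0, fun i => ?_⟩
    · rw [hmw.val s]
      exact Real.rpow_le_one hmw.pos.le hlt.le hs
    · rw [hvT, hwT, one_mul]
  · refine ⟨hmw, hlt, fun c hc => sq_const htBound_padic hv c hc, fun s hs => ?_, hvna,
      fun z hz hz0 => ?_, fun i => ?_⟩
    · rw [hmv.val s]
      exact Real.rpow_le_one (by norm_num) (by norm_num) hs
    · rw [mul_comm]
      exact sq_liouville hv hw z hz hz0
    · rw [hvT, hwT, mul_one]

end Pool.Agent.Lib.MP_d0d59f_nt.Lin
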