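import Pool.Agent.Lib.MP_d0d59f_nt.LinTransfer
import Pool.Agent.Lib.MP_d0d59f_nt.LinMon

/-!
Row D3: the transfer theorem for sequences of rational numbers.
-/

namespace Pool.Agent.Lib.MP_d0d59f_nt.Lin

open Filter Topology Auto

/-- the error at level `m` of the approximation of order `r` of `x` -/
noncomputable def err (A B : ℕ → ℕ → ℕ) {K : ℕ} (c : ℕ → Fin K → ℕ → ℚ) (g : Fin K → ℕ → ℚ)
    (x : ℕ → ℚ) (r m : ℕ) : ℚ :=
  x m - ∑ a, g a m * ∑ t ∈ Finset.range r, c t a m * (2 ^ A t m / 3 ^ B t m)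

attribute [local instance] sqAlg

/-- numerical facts on `θ` -/
theorem linseq_num {θ : ℝ} (h1 : 1 < θ * Real.logb 2 3) (hirr : Irrational (θ * Real.logb 2 3)) :
    0 < θ ∧ 2 < (3 : ℝ) ^ θ ∧
      Real.log (1 / (1 / 2)) + Real.log (1 / (2 / (3 : ℝ) ^ θ)) = Real.log ((3 : ℝ) ^ θ) ∧
      Irrational (Real.log (1 / (1 / 2)) / Real.log ((3 : ℝ) ^ θ)) := by
  have hl2 : 0 < Real.log 2 := Real.log_pos (by norm_num)
  have hl3 : 0 < Real.log 3 := Real.log_pos (by norm_num)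
  have hθpos : 0 < θ := by
    by_contra h
    push Not at h
    have : θ * Real.logb 2 3 ≤ 0 :=
      mul_nonpos_of_nonpos_of_nonneg h (Real.logb_nonneg (by norm_num) (by norm_num))
    linarith
  have hlog : Real.log 2 < θ * Real.log 3 := by
    rw [Real.logb, ← mul_div_assoc, lt_div_iff₀ hl2, one_mul] at h1
    exact h1
  have hτpos : 0 < (3 : ℝ) ^ θ := Real.rpow_pos_of_pos (by norm_num) _
  have hlogτ : Real.log ((3 : ℝ) ^ θ) = θ * Real.log 3 := by rw [Real.log_rpow (by norm_num)]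
  have hτ2 : 2 < (3 : ℝ) ^ θ := by
    rw [← Real.log_lt_log_iff (by norm_num) hτpos, hlogτ]
    exact hlog
  refine ⟨hθpos, hτ2, ?_, ?_⟩
  · rw [show (1 : ℝ) / (1 / 2) = 2 by norm_num, one_div_div, Real.log_div hτpos.ne' (by norm_num)]
    ring
  · rw [hlogτ, show (1 : ℝ) / (1 / 2) = 2 by norm_num]
    have : Real.log 2 / (θ * Real.log 3) = (θ * Real.logb 2 3)⁻¹ := by
      rw [Real.logb]
      field_simp
    rw [this]
    exact hirr.inv

section sums

variable {L : ℕ → ℕ} {hL : Tendsto L atTop atTop}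

/-- the germ of a finite sum -/
theorem linseq_sum {ι : Type} (s : Finset ι) (z : ι → bigField L hL) (f : ι → ℕ → ℚ)
    (h : ∀ i ∈ s, ((z i : bigField L hL) : QU) = ((f i : ℕ → ℚ) : QU)) :
    ((∑ i ∈ s, z i : bigField L hL) : QU) = (((fun m => ∑ i ∈ s, f i m) : ℕ → ℚ) : QU) := by
  classical
  induction s using Finset.induction_on with
  | empty =>
    simp only [Finset.sum_empty, ZeroMemClass.coe_zero]
    rfl
  | insert a s has ih =>
    rw [Finset.sum_insert has, Subfield.coe_add, h a (Finset.mem_insert_self a s),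
      ih fun i hi => h i (Finset.mem_insert_of_mem hi), ← Germ.coe_add]
    congr 1
    funext m
    simp only [Pi.add_apply, Finset.sum_insert has]

/-- the germ of a product -/
theorem linseq_mul {z w : bigField L hL} {f g : ℕ → ℚ} (hz : ((z : bigField L hL) : QU) = (f : QU))
    (hw : ((w : bigField L hL) : QU) = (g : QU)) :
    ((z * w : bigField L hL) : QU) = (((fun m => f m * g m) : ℕ → ℚ) : QU) := by
  rw [Subfield.coe_mul, hz, hw, ← Germ.coe_mul]
  congr 1

/-- the germ of a constant times a germ -/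
theorem linseq_smul {c : smallField L hL} {w : bigField L hL} {f g : ℕ → ℚ}
    (hc : ((c : smallField L hL) : QU) = (f : QU)) (hw : ((w : bigField L hL) : QU) = (g : QU)) :
    ((c • w : bigField L hL) : QU) = (((fun m => f m * g m) : ℕ → ℚ) : QU) := by
  rw [Algebra.smul_def]
  exact linseq_mul hc hw

/-- values of constants are at most one -/
theorem linseq_smul_le {X : ℝ → bigField L hL} {v : AbsoluteValue (bigField L hL) ℝ} {x : ℝ}
    (hv : MVal (smallField L hL) X v x) (c : smallField L hL) (w : bigField L hL) :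
    v (c • w) ≤ v w := by
  rw [Algebra.smul_def, map_mul]
  by_cases hc : c = 0
  · rw [hc, map_zero, map_zero, zero_mul]
    exact v.nonneg _
  · rw [hv.const c hc, one_mul]

end sums

/-- The transfer theorem. Proof (compare `Auto.transfer_seq`): `𝕂 = bigField L hL`,
`κ = smallField L hL`, `X = germX L hL θ`, `O = sqO L hL`, `T = germT L hL θ`; `v₁`, `v₂` from
`exists_absLim` for the `2`-adic and the real absolute value, `d` for the `3`-adic one
(`mVal_germX`, value `y = 1 / (1 / 3) ^ θ = 3 ^ θ`); `place_germX` with `x₁ = 1 / 2`,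
`x₂ = 2 / 3 ^ θ`, `τ = 3 ^ θ`. `f_a(r)` = germ of `∑_{t < r} c t a m * (2 ^ A / 3 ^ B)`: a polynomial by
`germ_eq`; `v₁ (f_a(r+1) - f_a(r)) ≤ (1/2) ^ (s r) → 0` (`c • X (s r)`, value of constants `≤ 1`).
`transfer_mono`; the hypothesis `h2` gives `v₁ (x - ∑ g_a f_a(r)) ≤ (1/2) ^ σ` for some `r ≥ σ`. -/
theorem transfer_lin {L : ℕ → ℕ} (hL : Tendsto L atTop atTop) {θ : ℝ}
    (h1 : 1 < θ * Real.logb 2 3) (hirr : Irrational (θ * Real.logb 2 3)) {K : ℕ}
    (A B : ℕ → ℕ → ℕ) (s : ℕ → ℝ) (hs : Tendsto s atTop atTop)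
    (hA : ∀ t, Tendsto (fun m => (A t m : ℝ) / L m) (hyperfilter ℕ) (𝓝 (s t)))
    (hB : ∀ t, Tendsto (fun m => (B t m : ℝ) / L m) (hyperfilter ℕ) (𝓝 (θ * s t)))
    (c : ℕ → Fin K → ℕ → ℚ)
    (hc : ∀ t a, ∀ ε : ℝ, 0 < ε →
      ∀ᶠ m in (hyperfilter ℕ : Filter ℕ), (ht (c t a m) : ℝ) ≤ (1 + ε) ^ L m)
    (g : Fin K → ℕ → ℚ)
    (hg : ∀ a, ∃ C : ℝ, ∀ᶠ m in (hyperfilter ℕ : Filter ℕ), (ht (g a m) : ℝ) ≤ C ^ L m)
    (x : ℕ → ℚ) (hx : ∃ C : ℝ, ∀ᶠ m in (hyperfilter ℕ : Filter ℕ), (ht (x m) : ℝ) ≤ C ^ L m)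
    (h2 : ∀ σ : ℕ, ∃ r, σ ≤ r ∧ ∀ᶠ m in (hyperfilter ℕ : Filter ℕ),
      padicNorm 2 (err A B c g x r m) ≤ (1 / 2 : ℚ) ^ (σ * L m))
    {δ : ℝ} (hδ : 0 < δ) :
    ∃ r0, ∀ r ≥ r0, ∀ᶠ m in (hyperfilter ℕ : Filter ℕ), |(err A B c g x r m : ℝ)| < δ ^ L m := by
  classical
  obtain ⟨hθpos, hτ2, hsum, hirr'⟩ := linseq_num h1 hirr
  have hτ1 : 1 < (3 : ℝ) ^ θ := by linarith
  have hτpos : 0 < (3 : ℝ) ^ θ := by linarith
  -- absolute values
  obtain ⟨v, hvna, hvlim⟩ := exists_absLim (hL := hL) (Rat.AbsoluteValue.padic 2) htBound_padic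
  obtain ⟨w, hwna, hwlim⟩ := exists_absLim (hL := hL) Rat.AbsoluteValue.real htBound_real
  obtain ⟨d, hdna, hdlim⟩ := exists_absLim (hL := hL) (Rat.AbsoluteValue.padic 3)
    htBound_padic_three
  obtain ⟨hP1, hP2⟩ := place_germX (hL := hL) hτ2 hvna hwna hvlim hwlim
  have hd : MVal (smallField L hL) (germX L hL θ) d ((3 : ℝ) ^ θ) := by
    refine mVal_germX htBound_padic_three hdna hdlim ?_ hτ1.ne'
    rw [padic_three_two, padic_three_three, Real.div_rpow (by norm_num) (by norm_num),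
      Real.one_rpow, one_div_one_div]
  -- the monomials
  choose e he0 he using fun t => germ_eq (hL := hL) (θ := θ) (s := s t)
    (fun m => (A t m : ℤ)) (fun m => (B t m : ℤ)) (by simpa using hA t) (by simpa using hB t)
  let u : ℕ → bigField L hL := fun t => e t • germX L hL θ (s t)
  have hu : ∀ t, ((u t : bigField L hL) : QU) =
      (((fun m => (2 : ℚ) ^ A t m / 3 ^ B t m) : ℕ → ℚ) : QU) := by
    intro t
    refine (he t).trans ?_
    congr 1
  have huv : ∀ t, v (u t) = (1 / 2 : ℝ) ^ s t := by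
    intro t
    change v (e t • germX L hL θ (s t)) = _
    rw [Algebra.smul_def, map_mul, hP1.mval.const _ (he0 t), one_mul, hP1.mval.val]
  -- the sequences
  have hcmem : ∀ t a, (((fun m => c t a m) : ℕ → ℚ) : QU) ∈ smallField L hL := fun t a =>
    ⟨_, rfl, fun ε hε => hc t a ε hε⟩
  have hgmem : ∀ a, (((fun m => g a m) : ℕ → ℚ) : QU) ∈ bigField L hL := fun a => by
    obtain ⟨C, hC⟩ := hg a
    exact ⟨_, rfl, C, hC⟩
  have hxmem : ((x : ℕ → ℚ) : QU) ∈ bigField L hL := by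
    obtain ⟨C, hC⟩ := hx
    exact ⟨_, rfl, C, hC⟩
  let ct : ℕ → Fin K → smallField L hL := fun t a => ⟨_, hcmem t a⟩
  let f : Fin K → ℕ → bigField L hL := fun a r => ∑ t ∈ Finset.range r, ct t a • u t
  let G : Fin K → bigField L hL := fun a => ⟨_, hgmem a⟩
  let x0 : bigField L hL := ⟨_, hxmem⟩
  have hcoe : ∀ r, (((fun m => err A B c g x r m) : ℕ → ℚ) : QU) =
      ((x0 - ∑ a, G a * f a r : bigField L hL) : QU) := by
    intro r
    have h4 : ∀ a, ((f a r : bigField L hL) : QU) =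
        (((fun m => ∑ t ∈ Finset.range r, c t a m * ((2 : ℚ) ^ A t m / 3 ^ B t m)) : ℕ → ℚ) : QU) :=
      fun a => linseq_sum (Finset.range r) (fun t => ct t a • u t)
        (fun t m => c t a m * ((2 : ℚ) ^ A t m / 3 ^ B t m))
        fun t _ => linseq_smul (c := ct t a) (f := fun m => c t a m) rfl (hu t)
    have h5 := linseq_sum Finset.univ (fun a => G a * f a r)
      (fun a m => g a m * ∑ t ∈ Finset.range r, c t a m * ((2 : ℚ) ^ A t m / 3 ^ B t m))
      fun a _ => linseq_mul (z := G a) (f := fun m => g a m) rfl (h4 a)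
    rw [Subfield.coe_sub, h5]
    have e3 : ((x0 : bigField L hL) : QU) = ((x : ℕ → ℚ) : QU) := rfl
    rw [e3, ← Germ.coe_sub]
    congr 1
  have hT := transfer_mono mono_germX (intData_germX hθpos) hP1 hP2 hd hτ1 hτ1 hsum hirr' f ?_ ?_
    G x0 ?_
  · obtain ⟨r0, hr0⟩ := eventually_atTop.1 (hT.eventually (gt_mem_nhds hδ))
    refine ⟨r0, fun r hr => ?_⟩
    have h5 := (hwlim _ _ (hcoe r)).eventually (gt_mem_nhds (hr0 r hr))
    filter_upwards [h5, sq_L_pos hL] with m hm hLm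
    rw [Rat.AbsoluteValue.real_eq_abs] at hm
    have h6 : (0 : ℝ) ≤ ((|err A B c g x r m| : ℚ) : ℝ) := by exact_mod_cast abs_nonneg _
    have h7 : ((((|err A B c g x r m| : ℚ) : ℝ)) ^ ((1 : ℝ) / L m)) ^ L m < δ ^ L m :=
      pow_lt_pow_left₀ hm (Real.rpow_nonneg h6 _) hLm.ne'
    rw [← Real.rpow_natCast (_ ^ ((1 : ℝ) / L m)) (L m), ← Real.rpow_mul h6,
      one_div_mul_cancel (by positivity), Real.rpow_one] at h7
    rw [← Rat.cast_abs]
    exact h7
  · intro a r
    refine Submodule.sum_mem _ fun t _ => Submodule.smul_mem _ _ (Submodule.smul_mem _ _ ?_)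
    exact Submodule.subset_span ⟨s t, rfl⟩
  · intro a
    have hup : ∀ r, v (f a (r + 1) - f a r) ≤ (1 / 2 : ℝ) ^ s r := by
      intro r
      have h4 : f a (r + 1) - f a r = ct r a • u r := by
        change ∑ t ∈ Finset.range (r + 1), ct t a • u t - ∑ t ∈ Finset.range r, ct t a • u t = _
        rw [Finset.sum_range_succ, add_sub_cancel_left]
      rw [h4, ← huv]
      exact linseq_smul_le hP1.mval _ _
    refine squeeze_zero (fun r => v.nonneg _) hup ?_
    exact (tendsto_rpow_atTop_of_base_lt_one (1 / 2 : ℝ) (by norm_num) (by norm_num)).comp hs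
  · intro ε hε
    rw [frequently_atTop]
    intro r1
    obtain ⟨k, hk⟩ := exists_pow_lt_of_lt_one hε (by norm_num : (1 / 2 : ℝ) < 1)
    obtain ⟨r, hr, hev⟩ := h2 (max k r1)
    refine ⟨r, (le_max_right _ _).trans hr, ?_⟩
    refine lt_of_le_of_lt ?_ hk
    have h8 : v (x0 - ∑ a, G a * f a r) ≤ (1 / 2 : ℝ) ^ (max k r1) := by
      refine le_of_tendsto (hvlim _ _ (hcoe r)) ?_
      filter_upwards [hev, sq_L_pos hL] with m hm hLm
      rw [Rat.AbsoluteValue.padic_eq_padicNorm]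
      have h5 : ((padicNorm 2 (err A B c g x r m) : ℚ) : ℝ) ≤
          (1 / 2 : ℝ) ^ (max k r1 * L m) := by
        have : ((padicNorm 2 (err A B c g x r m) : ℚ) : ℝ) ≤
            (((1 / 2 : ℚ) ^ (max k r1 * L m) : ℚ) : ℝ) := by
          exact_mod_cast hm
        refine this.trans (le_of_eq ?_)
        push_cast
        rfl
      calc ((padicNorm 2 (err A B c g x r m) : ℚ) : ℝ) ^ ((1 : ℝ) / L m)
          ≤ ((1 / 2 : ℝ) ^ (max k r1 * L m)) ^ ((1 : ℝ) / L m) := by
            apply Real.rpow_le_rpow _ h5 (by positivity)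
            exact_mod_cast padicNorm.nonneg _
        _ = (1 / 2 : ℝ) ^ (max k r1) := by
            rw [pow_mul, ← Real.rpow_natCast ((1 / 2 : ℝ) ^ (max k r1)) (L m),
              ← Real.rpow_mul (by positivity), mul_one_div_cancel (by positivity), Real.rpow_one]
    exact h8.trans (pow_le_pow_of_le_one (by norm_num) (by norm_num) (le_max_left _ _))

end Pool.Agent.Lib.MP_d0d59f_nt.Lin
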