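import Pool.Agent.Lib.MP_d0d59f_nt.LinLimits
import Pool.Agent.Lib.MP_d0d59f_nt.LinSeq

/-!
Row U4: the series for `(T d)^[P 0 m] x`.
-/

namespace Pool.Agent.Lib.MP_d0d59f_nt.Lin

open Filter Topology Auto

variable {d x : ℤ} {L : ℕ → ℕ} {K : ℕ} {g : Fin K → ℕ → ℚ} {P : ℕ → ℕ → ℕ}
  {c : ℕ → Fin K → ℕ → ℚ} {α β : ℕ → ℕ → ℚ} {δ : ℝ}

/-- exponents of `2`: `P i m - P 0 m` for `t = 2 i` and for `t = 2 i - 1` -/
def expA (P : ℕ → ℕ → ℕ) (t m : ℕ) : ℕ := P ((t + 1) / 2) m - P 0 m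

/-- exponents of `3` -/
def expB (d x : ℤ) (P : ℕ → ℕ → ℕ) (t m : ℕ) : ℕ :=
  ones d ((T d)^[P 0 m] x) (P ((t + 1) / 2) m - P 0 m)

/-- coefficients, with one more coordinate -/
def coef (c : ℕ → Fin K → ℕ → ℚ) (α β : ℕ → ℕ → ℚ) (t : ℕ) (a : Fin (K + 1)) (m : ℕ) : ℚ :=
  if t % 2 = 0 then (Fin.snoc (fun b => c (t / 2) b m) (α (t / 2) m) : Fin (K + 1) → ℚ) a
  else (Fin.snoc (fun _ => 0) (β (t / 2) m) : Fin (K + 1) → ℚ) a

/-- the block constants and `1` -/
def gOne (g : Fin K → ℕ → ℚ) (a : Fin (K + 1)) (m : ℕ) : ℚ :=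
  (Fin.snoc (fun b => g b m) 1 : Fin (K + 1) → ℚ) a

theorem ident_sum_snoc {K : ℕ} (g : Fin K → ℕ → ℚ) (u : Fin K → ℚ) (w : ℚ) (m : ℕ) :
    ∑ a : Fin (K + 1), gOne g a m * (Fin.snoc u w : Fin (K + 1) → ℚ) a =
      ∑ b, g b m * u b + w := by
  rw [Fin.sum_univ_castSucc]
  simp [gOne]

theorem ident_coef_even (c : ℕ → Fin K → ℕ → ℚ) (α β : ℕ → ℕ → ℚ) (i : ℕ) (a : Fin (K + 1))
    (m : ℕ) : coef c α β (2 * i) a m = (Fin.snoc (fun b => c i b m) (α i m) : Fin (K + 1) → ℚ) a := by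
  unfold coef
  rw [if_pos (by omega)]
  have h : 2 * i / 2 = i := by omega
  rw [h]

theorem ident_coef_odd (c : ℕ → Fin K → ℕ → ℚ) (α β : ℕ → ℕ → ℚ) (i : ℕ) (a : Fin (K + 1))
    (m : ℕ) : coef c α β (2 * i + 1) a m = (Fin.snoc (fun _ => 0) (β i m) : Fin (K + 1) → ℚ) a := by
  unfold coef
  rw [if_neg (by omega)]
  have h : (2 * i + 1) / 2 = i := by omega
  rw [h]

theorem ident_err_step (d x : ℤ) (P : ℕ → ℕ → ℕ) (c : ℕ → Fin K → ℕ → ℚ) (α β : ℕ → ℕ → ℚ)
    (g : Fin K → ℕ → ℚ) (y : ℕ → ℚ) (i m : ℕ) :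
    err (expA P) (expB d x P) (coef c α β) (gOne g) y (2 * (i + 1)) m =
      err (expA P) (expB d x P) (coef c α β) (gOne g) y (2 * i) m -
        (∑ b, g b m * c i b m + α i m) *
          (2 ^ (P i m - P 0 m) / 3 ^ ones d ((T d)^[P 0 m] x) (P i m - P 0 m)) -
        β i m * (2 ^ (P (i + 1) m - P 0 m) /
          3 ^ ones d ((T d)^[P 0 m] x) (P (i + 1) m - P 0 m)) := by
  have e1 : (2 * i + 1) / 2 = i := by omega
  have e2 : (2 * i + 1 + 1) / 2 = i + 1 := by omega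
  have key : ∀ a : Fin (K + 1), gOne g a m * ∑ t ∈ Finset.range (2 * (i + 1)),
      coef c α β t a m * (2 ^ expA P t m / 3 ^ expB d x P t m) =
      gOne g a m * ∑ t ∈ Finset.range (2 * i),
        coef c α β t a m * (2 ^ expA P t m / 3 ^ expB d x P t m) +
      (gOne g a m * (Fin.snoc (fun b => c i b m) (α i m) : Fin (K + 1) → ℚ) a) *
        (2 ^ (P i m - P 0 m) / 3 ^ ones d ((T d)^[P 0 m] x) (P i m - P 0 m)) +
      (gOne g a m * (Fin.snoc (fun _ => 0) (β i m) : Fin (K + 1) → ℚ) a) *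
        (2 ^ (P (i + 1) m - P 0 m) /
          3 ^ ones d ((T d)^[P 0 m] x) (P (i + 1) m - P 0 m)) := by
    intro a
    rw [show 2 * (i + 1) = 2 * i + 1 + 1 by ring, Finset.sum_range_succ, Finset.sum_range_succ,
      ident_coef_even, ident_coef_odd]
    simp only [expA, expB, e1, e2]
    ring
  unfold err
  rw [Finset.sum_congr rfl fun a _ => key a, Finset.sum_add_distrib, Finset.sum_add_distrib,
    ← Finset.sum_mul, ← Finset.sum_mul, ident_sum_snoc, ident_sum_snoc]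
  simp only [mul_zero, Finset.sum_const_zero, zero_add]
  ring

/-- By induction on `i`: the error of order `2 i` is
`2 ^ (P i - P 0) / 3 ^ ones * (T d)^[P i] x`. Step: `rec_eq i`, and the two new terms
`t = 2 i`, `t = 2 i + 1`; `ones_add`. The sum over `a : Fin (K + 1)` splits by
`Fin.sum_univ_castSucc` (exchange the two sums in `err` first). -/
theorem err_eq (h : Data d x L g P c α β δ) (i : ℕ) :
    ∀ᶠ m in (hyperfilter ℕ : Filter ℕ),
      err (expA P) (expB d x P) (coef c α β) (gOne g) (fun m => ((T d)^[P 0 m] x : ℤ)) (2 * i) m =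
        2 ^ (P i m - P 0 m) / 3 ^ ones d ((T d)^[P 0 m] x) (P i m - P 0 m) *
          ((T d)^[P i m] x : ℤ) := by
  have hmono : ∀ i, ∀ᶠ m in (hyperfilter ℕ : Filter ℕ), P 0 m ≤ P i m := by
    intro i
    induction i with
    | zero => exact Eventually.of_forall fun m => le_rfl
    | succ i ih =>
      filter_upwards [ih, h.P_mono i] with m h1 h2 using h1.trans h2
  induction i with
  | zero =>
    refine Eventually.of_forall fun m => ?_
    simp [err, ones_zero]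
  | succ i ih =>
    filter_upwards [ih, h.rec_eq i, hmono i, h.P_mono i] with m h1 h2 h3 h4
    rw [ident_err_step, h1]
    have e1 : P (i + 1) m - P 0 m = (P i m - P 0 m) + (P (i + 1) m - P i m) := by omega
    have e2 : (T d)^[P i m - P 0 m] ((T d)^[P 0 m] x) = (T d)^[P i m] x := by
      rw [← Function.iterate_add_apply]
      congr 1
      omega
    have e3 : ones d ((T d)^[P 0 m] x) (P (i + 1) m - P 0 m) =
        ones d ((T d)^[P 0 m] x) (P i m - P 0 m) +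
          ones d ((T d)^[P i m] x) (P (i + 1) m - P i m) := by
      rw [e1, ones_add, e2]
    rw [e3, e1, pow_add, pow_add]
    have n1 : (3 : ℚ) ^ ones d ((T d)^[P 0 m] x) (P i m - P 0 m) ≠ 0 := by positivity
    have n2 : (3 : ℚ) ^ ones d ((T d)^[P i m] x) (P (i + 1) m - P i m) ≠ 0 := by positivity
    rw [h2]
    field_simp
    ring

end Pool.Agent.Lib.MP_d0d59f_nt.Lin
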