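import Pool.Agent.Lib.MP_d0d59f_nt.LinDefs

/-!
Row A4: vectors of polynomials with independent leading coefficients are independent.
-/

namespace Pool.Agent.Lib.MP_d0d59f_nt.Lin

open Module Filter Topology

variable {κ 𝕂 : Type} [Field κ] [Field 𝕂] [Algebra κ 𝕂] {X : ℝ → 𝕂}

theorem lead_sum_lt {d : AbsoluteValue 𝕂 ℝ} (hna : ∀ a b, d (a + b) ≤ max (d a) (d b))
    {ι : Type} (S : Finset ι) (f : ι → 𝕂) (B : ℝ) (hB : 0 < B) (h : ∀ i ∈ S, d (f i) < B) :
    d (∑ i ∈ S, f i) < B := by
  classical
  induction S using Finset.induction_on with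
  | empty => simpa using hB
  | insert a S ha ih =>
    rw [Finset.sum_insert ha]
    refine lt_of_le_of_lt (hna _ _) (max_lt ?_ ?_)
    · exact h a (Finset.mem_insert_self a S)
    · exact ih (fun i hi => h i (Finset.mem_insert_of_mem hi))

theorem lead_split {d : AbsoluteValue 𝕂 ℝ} {y : ℝ} (hd : MVal κ X d y) (hy : 1 < y)
    (f : ℝ →₀ κ) (s : ℝ) (hs : ∀ u, s < u → f u = 0) :
    ∃ R : 𝕂, Finsupp.linearCombination κ X f = (f s) • X s + R ∧ d R < y ^ s := by
  classical
  refine ⟨Finsupp.linearCombination κ X (Finsupp.erase s f), ?_, ?_⟩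
  · conv_lhs => rw [← Finsupp.single_add_erase s f]
    rw [map_add, Finsupp.linearCombination_single]
  · rw [Finsupp.linearCombination_apply, Finsupp.sum]
    have hy0 : 0 < y := lt_trans one_pos hy
    refine lead_sum_lt hd.nonarch _ _ _ (Real.rpow_pos_of_pos hy0 s) ?_
    intro u hu
    rw [Finsupp.support_erase, Finset.mem_erase] at hu
    obtain ⟨hus, huf⟩ := hu
    have hfu : f u ≠ 0 := Finsupp.mem_support_iff.mp huf
    have hlt : u < s := by
      rcases lt_trichotomy u s with h | h | h
      · exact h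
      · exact absurd h hus
      · exact absurd (hs u h) hfu
    rw [Finsupp.erase_ne hus, Algebra.smul_def, map_mul, hd.const _ hfu, one_mul, hd.val]
    exact Real.rpow_lt_rpow_of_exponent_lt hy hlt

/-- `d` is the degree absolute value (`y > 1`). Write `P^l_i = (p l i s) • X s + R^l_i` where all
exponents of `R^l_i` are `< s`, so `d (R^l_i) < y ^ s` (a finite sum of terms of value `< y ^ s`; the
empty sum has value `0`). Let `∑ q_l P^l = 0`, not all `q_l = 0`; choose `l0` with `d (q_l0)` maximal
and divide by `q_l0`, so `q_l0 = 1`, `d (q_l) ≤ 1`. Then for every `i`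
`d (∑_l q_l (p l i s)) < 1` (divide by `X s`). As the vectors `(p l i s)_i` are independent over `κ`
there are `c_i ∈ κ` with `∑_i c_i (p l i s) = 1` for `l = l0` and `= 0` for the other `l`
(a left inverse of the injective map `κ^t → κ^H`). So `1 = d (∑_i c_i ∑_l q_l (p l i s)) < 1`. -/
theorem lead_indep {d : AbsoluteValue 𝕂 ℝ} {y : ℝ} (hd : MVal κ X d y) (hy : 1 < y) {H t : ℕ}
    (p : Fin t → Fin H → ℝ →₀ κ) (s : ℝ) (hs : ∀ l i u, s < u → p l i u = 0)
    (hli : LinearIndependent κ (fun l i => p l i s)) :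
    LinearIndependent 𝕂 (fun l i => Finsupp.linearCombination κ X (p l i)) := by
  classical
  have hy0 : 0 < y := lt_trans one_pos hy
  rw [Fintype.linearIndependent_iff]
  intro g hg
  by_contra hcon
  push Not at hcon
  obtain ⟨l1, hl1⟩ := hcon
  have : Nonempty (Fin t) := ⟨l1⟩
  obtain ⟨l0, hl0⟩ := Finite.exists_max (fun l => d (g l))
  have hd0 : 0 < d (g l0) := lt_of_lt_of_le (d.pos hl1) (hl0 l1)
  -- the equations
  have heq : ∀ i, ∑ l, g l * Finsupp.linearCombination κ X (p l i) = 0 := by
    intro i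
    have := congrFun hg i
    simpa [Finset.sum_apply, smul_eq_mul] using this
  -- leading parts are small
  have hsmall : ∀ i, d (∑ l, g l * algebraMap κ 𝕂 (p l i s)) < d (g l0) := by
    intro i
    choose R hR1 hR2 using fun l => lead_split hd hy (p l i) s (hs l i)
    have h1 : (∑ l, g l * algebraMap κ 𝕂 (p l i s)) * X s = - ∑ l, g l * R l := by
      have h2 := heq i
      have h3 : ∀ l, g l * Finsupp.linearCombination κ X (p l i) =
          g l * algebraMap κ 𝕂 (p l i s) * X s + g l * R l := by
        intro l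
        rw [hR1 l, Algebra.smul_def]
        ring
      rw [Finset.sum_congr rfl (fun l _ => h3 l), Finset.sum_add_distrib, ← Finset.sum_mul] at h2
      exact eq_neg_of_add_eq_zero_left h2
    have h4 : d (∑ l, g l * R l) < d (g l0) * y ^ s := by
      refine lead_sum_lt hd.nonarch _ _ _ (mul_pos hd0 (Real.rpow_pos_of_pos hy0 s)) ?_
      intro l _
      rw [map_mul]
      have h5 : d (g l) * d (R l) ≤ d (g l0) * d (R l) :=
        mul_le_mul_of_nonneg_right (hl0 l) (d.nonneg _)
      exact lt_of_le_of_lt h5 (mul_lt_mul_of_pos_left (hR2 l) hd0)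
    have h6 : d (∑ l, g l * algebraMap κ 𝕂 (p l i s)) * y ^ s < d (g l0) * y ^ s := by
      rw [← hd.val s, ← map_mul, h1, d.map_neg, hd.val s]
      exact h4
    exact lt_of_mul_lt_mul_right h6 (Real.rpow_pos_of_pos hy0 s).le
  -- a left inverse
  have hinj : Function.Injective (Fintype.linearCombination κ (fun l i => p l i s)) := by
    rw [← LinearMap.ker_eq_bot, LinearMap.ker_eq_bot']
    intro q hq
    rw [Fintype.linearIndependent_iff] at hli
    funext l
    exact hli q (by simpa [Fintype.linearCombination_apply] using hq) l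
  obtain ⟨φ, hφ⟩ := LinearMap.exists_leftInverse_of_injective _ (LinearMap.ker_eq_bot.mpr hinj)
  have hφl : ∀ l, φ (fun i => p l i s) = Pi.single l 1 := by
    intro l
    have h7 := LinearMap.congr_fun hφ (Pi.single l (1 : κ))
    simpa [Fintype.linearCombination_apply, Pi.single_apply] using h7
  set c : Fin H → κ := fun i => φ (Pi.single i 1) l0 with hc
  have hcs : ∀ l, ∑ i, c i * p l i s = if l = l0 then 1 else 0 := by
    intro l
    have h8 : φ (fun i => p l i s) l0 = ∑ i, c i * p l i s := by
      have h9 : (fun i => p l i s) = ∑ i, (p l i s) • (Pi.single i (1 : κ) : Fin H → κ) := by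
        funext j
        simp [Finset.sum_apply, Pi.single_apply]
      conv_lhs => rw [h9]
      rw [map_sum, Finset.sum_apply]
      refine Finset.sum_congr rfl (fun i _ => ?_)
      rw [map_smul, Pi.smul_apply, smul_eq_mul, mul_comm]
    rw [← h8, hφl l, Pi.single_apply]
    by_cases h : l = l0
    · simp [h]
    · simp [h, Ne.symm h]
  have hfin : ∑ i, algebraMap κ 𝕂 (c i) * ∑ l, g l * algebraMap κ 𝕂 (p l i s) = g l0 := by
    have h10 : ∀ i, algebraMap κ 𝕂 (c i) * ∑ l, g l * algebraMap κ 𝕂 (p l i s) =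
        ∑ l, g l * algebraMap κ 𝕂 (c i * p l i s) := by
      intro i
      rw [Finset.mul_sum]
      refine Finset.sum_congr rfl (fun l _ => ?_)
      rw [map_mul]; ring
    rw [Finset.sum_congr rfl (fun i _ => h10 i), Finset.sum_comm]
    have h11 : ∀ l, ∑ i, g l * algebraMap κ 𝕂 (c i * p l i s) =
        g l * algebraMap κ 𝕂 (if l = l0 then 1 else 0) := by
      intro l
      rw [← Finset.mul_sum, ← map_sum, hcs l]
    rw [Finset.sum_congr rfl (fun l _ => h11 l)]
    rw [Finset.sum_eq_single l0]
    · simp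
    · intro l _ hl
      simp [hl]
    · intro h
      exact absurd (Finset.mem_univ _) h
  have hlt : d (g l0) < d (g l0) := by
    conv_lhs => rw [← hfin]
    refine lead_sum_lt hd.nonarch _ _ _ hd0 ?_
    intro i _
    by_cases hci : c i = 0
    · rw [hci, map_zero, zero_mul, map_zero]; exact hd0
    · rw [map_mul, hd.const _ hci, one_mul]; exact hsmall i
  exact lt_irrefl _ hlt

end Pool.Agent.Lib.MP_d0d59f_nt.Lin
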