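import Pool.Agent.Lib.MP_d0d59f_nt.Complexity

/-!
Row W6: the length of periodic pieces of the parity sequence.
-/

namespace Pool.Agent.Lib.MP_d0d59f_nt.Lin

open Filter Topology

variable {d x : ℤ}

theorem lrb_abs_le (hd : Odd d) (n : ℕ) :
    |((T d)^[n] x : ℝ)| ≤ 3 ^ n * (|(x : ℝ)| + |(d : ℝ)|) := by
  refine (abs_iterate_le hd x n).trans ?_
  have h1 : (3 : ℝ) ^ (ones d x n) ≤ 3 ^ n := pow_le_pow_right₀ (by norm_num) (ones_le d x n)
  have h2 : |(x : ℝ)| / 2 ^ n ≤ |(x : ℝ)| :=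
    div_le_self (abs_nonneg _) (one_le_pow₀ (by norm_num))
  exact mul_le_mul h1 (by linarith) (by positivity) (by positivity)

/-- A periodic piece of length `N` and period `p` which begins at position `i` has
`N ≤ C (i + p) + C`: `2 ^ N` divides `(T d)^[i] x - (T d)^[i + p] x ≠ 0` (`dvd_of_parity`), and the
absolute value of this difference is at most `2 * 3 ^ (i + p) * (|x| + |d|)` (`abs_iterate_le`,
`ones_le`). -/
theorem run_bound (hd : Odd d) (hx : ∀ m p : ℕ, 0 < p → (T d)^[m + p] x ≠ (T d)^[m] x) :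
    ∃ C : ℕ, ∀ i N p : ℕ, 0 < p →
      (∀ t < N, (T d)^[i + t] x % 2 = (T d)^[i + t + p] x % 2) → N ≤ C * (i + p) + C := by
  refine ⟨2 * (x.natAbs + d.natAbs) + 2, ?_⟩
  intro i N p hp hper
  set K : ℕ := 2 * (x.natAbs + d.natAbs) with hK
  have h1 : (2 : ℤ) ^ N ∣ (T d)^[i] x - (T d)^[i + p] x := by
    apply dvd_of_parity hd
    intro k hk
    have h2 := hper k hk
    rw [← Function.iterate_add_apply, ← Function.iterate_add_apply]
    have e1 : k + i = i + k := by omega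
    have e2 : k + (i + p) = i + k + p := by omega
    rw [e1, e2]
    exact h2
  have hne : (T d)^[i] x - (T d)^[i + p] x ≠ 0 := by
    intro h
    exact hx i p hp (by linarith)
  have h2 : (2 : ℤ) ^ N ≤ |(T d)^[i] x - (T d)^[i + p] x| := by
    have h3 := Int.le_of_dvd (abs_pos.mpr hne) ((dvd_abs _ _).mpr h1)
    exact h3
  have h2' : (2 : ℝ) ^ N ≤ |((T d)^[i] x : ℝ) - ((T d)^[i + p] x : ℝ)| := by
    exact_mod_cast h2
  have hA := lrb_abs_le (d := d) (x := x) hd i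
  have hB := lrb_abs_le (d := d) (x := x) hd (i + p)
  have hKr : 2 * (|(x : ℝ)| + |(d : ℝ)|) = K := by
    rw [hK]
    push_cast
    rw [Nat.cast_natAbs, Nat.cast_natAbs]
    push_cast
    ring
  have h3 : (3 : ℝ) ^ i ≤ 3 ^ (i + p) := pow_le_pow_right₀ (by norm_num) (by omega)
  have h4 : |((T d)^[i] x : ℝ) - ((T d)^[i + p] x : ℝ)| ≤ 3 ^ (i + p) * K := by
    have h5 := abs_sub ((T d)^[i] x : ℝ) ((T d)^[i + p] x : ℝ)
    have h6 : (0 : ℝ) ≤ |(x : ℝ)| + |(d : ℝ)| := by positivity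
    have h7 : (3 : ℝ) ^ i * (|(x : ℝ)| + |(d : ℝ)|) ≤ 3 ^ (i + p) * (|(x : ℝ)| + |(d : ℝ)|) :=
      mul_le_mul_of_nonneg_right h3 h6
    rw [← hKr]
    linarith
  have h8 : (2 : ℝ) ^ N ≤ 2 ^ (2 * (i + p) + K) := by
    have h9 : (3 : ℝ) ^ (i + p) ≤ 2 ^ (2 * (i + p)) := by
      rw [pow_mul]
      exact pow_le_pow_left₀ (by norm_num) (by norm_num) _
    have h10 : (K : ℝ) ≤ 2 ^ K := by
      exact_mod_cast (Nat.lt_two_pow_self (n := K)).le
    rw [pow_add]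
    calc (2 : ℝ) ^ N ≤ 3 ^ (i + p) * K := h2'.trans h4
      _ ≤ 2 ^ (2 * (i + p)) * 2 ^ K := mul_le_mul h9 h10 (by positivity) (by positivity)
  have h11 : N ≤ 2 * (i + p) + K := (pow_le_pow_iff_right₀ (by norm_num : (1 : ℝ) < 2)).mp h8
  nlinarith [Nat.zero_le (K * (i + p))]

end Pool.Agent.Lib.MP_d0d59f_nt.Lin
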