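import Pool.Agent.Lib.MP_d0d59f_nt.LinBranchGap
import Pool.Agent.Lib.MP_d0d59f_nt.LinRun
import Pool.Agent.Lib.MP_d0d59f_nt.LinRunBound
import Pool.Agent.Lib.MP_d0d59f_nt.LinAffine

/-!
Row W8: the structure of the orbit at one level `n`.
-/

namespace Pool.Agent.Lib.MP_d0d59f_nt.Lin

open Filter Topology Auto

variable {d x : ℤ}

/-- the structure of the orbit at level `n`: positions `jt`, types `ty` of the blocks -/
structure Level (d x : ℤ) (R : ℕ) (C : ℕ) (B : ℝ) (n : ℕ) (jt : ℕ → ℕ)
    (ty : ℕ → Fin (2 * R + 1)) : Prop where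
  mono : StrictMono jt
  zero_le : jt 0 ≤ R * n
  gap : ∀ k, jt (k + 1) ≤ jt k + R * n
  len_eq : ∀ k k', ty k = ty k' → jt (k + 1) - jt k = jt (k' + 1) - jt k'
  gval_eq : ∀ k k', ty k = ty k' →
    gval d ((T d)^[jt k] x) (jt (k + 1) - jt k) = gval d ((T d)^[jt k'] x) (jt (k' + 1) - jt k')
  run_le : ∀ ε k k', (3 * R + 3) * ε ≤ n → k ≤ k' →
    (∀ i, k ≤ i → i < k' → jt (i + 1) ≤ jt i + ε) → jt k' ≤ C * (jt k + n) + C
  run_form : ∀ ε k k', (3 * R + 3) * ε ≤ n → k ≤ k' →
    (∀ i, k ≤ i → i < k' → jt (i + 1) ≤ jt i + ε) →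
    ∃ α β : ℚ, (ht α : ℝ) ≤ B ^ (R * ε + 1) ∧ (ht β : ℝ) ≤ B ^ (R * ε + 1) ∧
      ((T d)^[jt k] x : ℚ) = α + 2 ^ (jt k' - jt k) / 3 ^ ones d ((T d)^[jt k] x) (jt k' - jt k) *
        (β + ((T d)^[jt k'] x : ℤ))

theorem linLevel_add_le {jt : ℕ → ℕ} {ε k : ℕ} (m : ℕ)
    (h : ∀ i, k ≤ i → i < k + m → jt (i + 1) ≤ jt i + ε) : jt (k + m) ≤ jt k + m * ε := by
  induction m with
  | zero => simp
  | succ m ih =>
    have h1 := ih fun i hi hi' => h i hi (by omega)
    have h2 := h (k + m) (by omega) (by omega)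
    rw [show k + (m + 1) = k + m + 1 by ring]
    have h3 : (m + 1) * ε = m * ε + ε := by ring
    omega

theorem linLevel_jt_le {jt : ℕ → ℕ} {ε k a k' R : ℕ} (hka : k ≤ a) (haR : a ≤ k + R) (hak : a ≤ k')
    (h : ∀ i, k ≤ i → i < k' → jt (i + 1) ≤ jt i + ε) : jt a ≤ jt k + R * ε := by
  obtain ⟨m, rfl⟩ := Nat.exists_eq_add_of_le hka
  have h1 := linLevel_add_le (jt := jt) (ε := ε) (k := k) m fun i hi hi' => h i hi (by omega)
  have h2 : m * ε ≤ R * ε := Nat.mul_le_mul_right _ (by omega)
  omega

theorem linLevel_ht_pow (d y : ℤ) (L : ℕ) :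
    (ht ((2 : ℚ) ^ L / 3 ^ ones d y L) : ℝ) ≤ 3 ^ L := by
  have h1 := ht_div_le (2 ^ L) (3 ^ ones d y L) (by positivity)
  push_cast at h1
  have h2 : ((2 : ℤ) ^ L).natAbs ≤ 3 ^ L := by
    rw [Int.natAbs_pow]
    exact Nat.pow_le_pow_left (by norm_num) L
  have h3 : ((3 : ℤ) ^ ones d y L).natAbs ≤ 3 ^ L := by
    rw [Int.natAbs_pow]
    exact Nat.pow_le_pow_right (by norm_num) (ones_le d y L)
  have h4 : ht ((2 : ℚ) ^ L / 3 ^ ones d y L) ≤ 3 ^ L := h1.trans (max_le h2 h3)
  exact_mod_cast h4

/-- `jt` from `exists_positions`, `ty k = ty0 (jt k)` with `ty0` from `exists_types`; `len_eq`,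
`gval_eq` from `block_eq` (and `ones_shift_congr`: `gval` depends only on the parities).
`run_le`: if `k' < k + R` then `jt k' ≤ jt k + R ε ≤ jt k + n`; else `run_periodic` (with
`w t = (T d)^[t] x % 2`, `exists_same_branch`) gives `a`, `p`, and `run_bound` with `i = jt a`,
`N = jt k' - jt a`, `i + p ≤ jt k + 2 R ε ≤ jt k + n`.
`run_form`: if `k' < k + R` then `α = gval d _ (jt k' - jt k)`, `β = 0` (`gval_eq`, `ht_gval_le`; the
length is at most `R ε`); else `(T d)^[jt a] x = α' + 2 ^ N / 3 ^ ones (β + x_{jt k'})` by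
`affine_periodic` and `x_{jt k} = g + t x_{jt a}` with `g = gval d _ (jt a - jt k)`,
`t = 2 ^ (jt a - jt k) / 3 ^ ones`, `jt a - jt k ≤ R ε`, so `α = g + t α'`; `ones_add`. All heights are
at most `B ^ (R ε + 1)` for a suitable `B = B(d)`. -/
theorem exists_level (hd : Odd d) (hx : ∀ m p : ℕ, 0 < p → (T d)^[m + p] x ≠ (T d)^[m] x)
    (R : ℕ) : ∃ (C : ℕ) (B : ℝ), 1 ≤ B ∧ ∀ n, (branchSet d x n).ncard ≤ R →
      complexity d x n ≤ R * n → ∃ jt ty, Level d x R C B n jt ty := by
  obtain ⟨C₀, hC₀⟩ := run_bound hd hx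
  obtain ⟨B₁, hB₁, haff⟩ := affine_periodic hd
  have hd1 : (1 : ℝ) ≤ |(d : ℝ)| + 1 := by
    have := abs_nonneg (d : ℝ)
    linarith
  refine ⟨C₀ + 1, 18 * (|(d : ℝ)| + 1) * B₁, by nlinarith, ?_⟩
  intro n hR hcn
  obtain ⟨jt, hmono, hbr, hnb, hz, hgap⟩ := exists_positions hd hx n
  obtain ⟨ty0, hty0⟩ := exists_types hR
  have hblock : ∀ k k', ty0 (jt k) = ty0 (jt k') → _ := fun k k' h =>
    block_eq hmono hbr hnb (hty0 _ _ (hbr k) (hbr k') h)
  have hrep := exists_same_branch hR hbr
  refine ⟨jt, fun k => ty0 (jt k), ⟨hmono, hz.trans hcn, fun k => (hgap k).trans (by omega),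
    fun k k' h => (hblock k k' h).1, ?_, ?_, ?_⟩⟩
  · intro k k' h
    obtain ⟨h1, h2⟩ := hblock k k' h
    rw [← h1]
    obtain ⟨h3, h4⟩ := ones_shift_congr hd (y := (T d)^[jt k] x) (z := (T d)^[jt k'] x)
      (jt (k + 1) - jt k) (by
        intro t ht
        have := h2 t ht
        rw [← Function.iterate_add_apply, ← Function.iterate_add_apply, add_comm t, add_comm t]
        exact this)
    rw [gval, gval, h3, h4]
  · intro ε k k' hε hkk hshort
    have h0 : (3 * R + 3) * ε = 3 * (R * ε) + 3 * ε := by ring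
    rcases lt_or_ge k' (k + R) with hlt | hge
    · have h1 := linLevel_jt_le (R := R) hkk (by omega) le_rfl hshort
      nlinarith [Nat.zero_le (C₀ * (jt k + n))]
    · obtain ⟨a, p, hka, haR, hp, hpR, hper⟩ := run_periodic (w := fun t => (T d)^[t] x % 2) hmono
        hrep hε hge hshort
      have hak : a ≤ k' := by omega
      have h1 := linLevel_jt_le (R := R) hka haR hak hshort
      have h2 := hC₀ (jt a) (jt k' - jt a) p hp (by
        intro t ht
        exact hper (jt a + t) (by omega) (by omega))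
      have h3 : jt a ≤ jt k' := hmono.monotone hak
      have h4 : C₀ * (jt a + p) ≤ C₀ * (jt k + n) := Nat.mul_le_mul_left _ (by omega)
      have h5 : (C₀ + 1) * (jt k + n) = C₀ * (jt k + n) + (jt k + n) := by ring
      omega
  · intro ε k k' hε hkk hshort
    have h0 : (3 * R + 3) * ε = 3 * (R * ε) + 3 * ε := by ring
    set y : ℤ := (T d)^[jt k] x with hy
    set D : ℝ := |(d : ℝ)| + 1 with hD
    rcases lt_or_ge k' (k + R) with hlt | hge
    · have h1 := linLevel_jt_le (R := R) hkk (by omega) le_rfl hshort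
      have h3 : jt k ≤ jt k' := hmono.monotone hkk
      refine ⟨gval d y (jt k' - jt k), 0, ?_, ?_, ?_⟩
      · refine (ht_gval_le hd _ _).trans ?_
        push_cast
        rw [← hD]
        calc D * 3 ^ (jt k' - jt k) ≤ D * 3 ^ (R * ε) := by
              gcongr
              · norm_num
              · omega
          _ ≤ D ^ (R * ε + 1) * 3 ^ (R * ε + 1) := by
              gcongr
              · exact le_self_pow₀ hd1 (by omega)
              · norm_num
              · omega
          _ = (D * 3) ^ (R * ε + 1) := by rw [mul_pow]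
          _ ≤ (18 * D * B₁) ^ (R * ε + 1) :=
              pow_le_pow_left₀ (by positivity) (by nlinarith) _
      · rw [ah_zero]
        push_cast
        exact one_le_pow₀ (by nlinarith)
      · have h4 := gval_eq d y (jt k' - jt k)
        have h5 : (T d)^[jt k' - jt k] y = (T d)^[jt k'] x := by
          rw [hy, ← Function.iterate_add_apply]
          congr 1
          congr 1
          omega
        rw [h5] at h4
        rw [h4]
        ring
    · obtain ⟨a, p, hka, haR, hp, hpR, hper⟩ := run_periodic (w := fun t => (T d)^[t] x % 2) hmono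
        hrep hε hge hshort
      have hak : a ≤ k' := by omega
      have h1 := linLevel_jt_le (R := R) hka haR hak hshort
      have h3 : jt a ≤ jt k' := hmono.monotone hak
      have h6 : jt k ≤ jt a := hmono.monotone hka
      obtain ⟨α', β, hα', hβ, hform⟩ := haff ((T d)^[jt a] x) (jt k' - jt a) p hp (by
        intro t ht
        have := hper (jt a + t) (by omega) (by omega)
        rw [← Function.iterate_add_apply, ← Function.iterate_add_apply, add_comm t,
          show t + p + jt a = jt a + t + p by ring]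
        exact this)
      set L := jt a - jt k with hL
      have hLR : L ≤ R * ε := by omega
      have hT : (T d)^[L] y = (T d)^[jt a] x := by
        rw [hy, ← Function.iterate_add_apply]
        congr 1
        congr 1
        omega
      have hT' : (T d)^[jt k' - jt a] ((T d)^[jt a] x) = (T d)^[jt k'] x := by
        rw [← Function.iterate_add_apply]
        congr 1
        congr 1
        omega
      have hB₁p : B₁ ^ p ≤ B₁ ^ (R * ε + 1) := pow_le_pow_right₀ hB₁ (by omega)
      refine ⟨gval d y L + 2 ^ L / 3 ^ ones d y L * α', β, ?_, ?_, ?_⟩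
      · have e1 : (ht (gval d y L + 2 ^ L / 3 ^ ones d y L * α') : ℝ) ≤
            2 * (ht (gval d y L) * (ht ((2 : ℚ) ^ L / 3 ^ ones d y L) * ht α')) := by
          have := ht_add_le (gval d y L) (2 ^ L / 3 ^ ones d y L * α')
          have h' := ht_mul_le ((2 : ℚ) ^ L / 3 ^ ones d y L) α'
          have : ht (gval d y L + 2 ^ L / 3 ^ ones d y L * α') ≤
            2 * (ht (gval d y L) * (ht ((2 : ℚ) ^ L / 3 ^ ones d y L) * ht α')) := by
            refine this.trans ?_
            gcongr
          exact_mod_cast this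
        have e2 := ht_gval_le hd y L
        have e3 := linLevel_ht_pow d y L
        push_cast at e2
        rw [← hD] at e2
        calc (ht (gval d y L + 2 ^ L / 3 ^ ones d y L * α') : ℝ)
            ≤ 2 * (ht (gval d y L) * (ht ((2 : ℚ) ^ L / 3 ^ ones d y L) * ht α')) := e1
          _ ≤ 2 * ((D * 3 ^ (R * ε)) * (3 ^ (R * ε) * B₁ ^ (R * ε + 1))) := by
              gcongr
              · exact e2.trans (by
                  gcongr
                  norm_num)
              · exact e3.trans (by
                  gcongr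
                  norm_num)
              · exact hα'.trans hB₁p
          _ = (2 * D) * (9 ^ (R * ε) * B₁ ^ (R * ε + 1)) := by
              rw [show (9 : ℝ) = 3 * 3 by norm_num, mul_pow]
              ring
          _ ≤ (2 * D) ^ (R * ε + 1) * (9 ^ (R * ε + 1) * B₁ ^ (R * ε + 1)) := by
              gcongr
              · exact le_self_pow₀ (by linarith) (by omega)
              · norm_num
              · omega
          _ = (18 * D * B₁) ^ (R * ε + 1) := by
              rw [← mul_pow, ← mul_pow]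
              congr 1
              ring
      · refine (hβ.trans hB₁p).trans ?_
        gcongr
        nlinarith
      · have h4 := gval_eq d y L
        rw [hT] at h4
        rw [hT'] at hform
        have h7 : jt k' - jt k = L + (jt k' - jt a) := by omega
        rw [h7, ones_add, hT, pow_add, pow_add]
        rw [h4]
        have h8 : (y : ℚ) = y - 2 ^ L / 3 ^ ones d y L * (((T d)^[jt a] x : ℤ) : ℚ) +
          2 ^ L / 3 ^ ones d y L * (((T d)^[jt a] x : ℤ) : ℚ) := by ring
        rw [h8]
        nth_rewrite 3 [hform]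
        have h9 : (3 : ℚ) ^ ones d y L ≠ 0 := by positivity
        have h10 : (3 : ℚ) ^ ones d ((T d)^[jt a] x) (jt k' - jt a) ≠ 0 := by positivity
        field_simp
        ring

end Pool.Agent.Lib.MP_d0d59f_nt.Lin
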