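import Pool.Agent.Lib.MP_d0d59f_nt.LinData

/-!
Row U3a: limits of the positions.
-/

namespace Pool.Agent.Lib.MP_d0d59f_nt.Lin

open Filter Topology Auto

variable {d x : ℤ} {L : ℕ → ℕ} {K : ℕ} {g : Fin K → ℕ → ℚ} {P : ℕ → ℕ → ℕ}
  {c : ℕ → Fin K → ℕ → ℚ} {α β : ℕ → ℕ → ℚ} {δ : ℝ}

theorem Data.zero_le (h : Data d x L g P c α β δ) (i : ℕ) :
    ∀ᶠ m in (hyperfilter ℕ : Filter ℕ), P 0 m ≤ P i m := by
  induction i with
  | zero => exact Eventually.of_forall fun m => le_refl _
  | succ i ih =>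
    filter_upwards [ih, h.P_mono i] with m h1 h2
    exact h1.trans h2

/-- The limits `s i` of `(P i m - P 0 m) / L m` along the ultrafilter exist by compactness
(`isCompact_Icc.ultrafilter_le_nhds'` as in `Auto.al_exists_lim`); `s (i + 2) ≥ s i + δ`,
`s (i + 1) ≥ s i`, so `s i → ∞`. The limits of `P i m / L m` exist too. -/
theorem Data.exists_lim (h : Data d x L g P c α β δ) : ∃ (q : ℕ → ℝ),
    (∀ i, Tendsto (fun m => (P i m : ℝ) / L m) (hyperfilter ℕ) (𝓝 (q i))) ∧
    Tendsto q atTop atTop := by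
  have hLpos : ∀ᶠ m in (hyperfilter ℕ : Filter ℕ), 1 ≤ L m :=
    (h.tend.eventually_ge_atTop 1).filter_mono (by
      rw [← Nat.cofinite_eq_atTop]; exact hyperfilter_le_cofinite)
  have hex : ∀ i, ∃ y : ℝ, Tendsto (fun m => (P i m : ℝ) / L m) (hyperfilter ℕ) (𝓝 y) := by
    intro i
    obtain ⟨C, hC⟩ := h.P_le i
    have hmem : Set.Icc 0 C ∈ Ultrafilter.map (fun m => (P i m : ℝ) / L m)
        (hyperfilter ℕ) := by
      rw [Ultrafilter.mem_map]
      filter_upwards [hC, hLpos] with m hm hm1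
      have hm0 : (0 : ℝ) < L m := by exact_mod_cast hm1
      exact ⟨by positivity, (div_le_iff₀ hm0).2 hm⟩
    obtain ⟨y, _, hlim⟩ := isCompact_Icc.ultrafilter_le_nhds' _ hmem
    exact ⟨y, hlim⟩
  choose q hq using hex
  refine ⟨q, hq, ?_⟩
  have hmono : Monotone q := by
    refine monotone_nat_of_le_succ fun i => ?_
    refine le_of_tendsto_of_tendsto (hq i) (hq (i + 1)) ?_
    filter_upwards [h.P_mono i] with m hm
    exact div_le_div_of_nonneg_right (by exact_mod_cast hm) (Nat.cast_nonneg _)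
  have hgap : ∀ i, q i + δ ≤ q (i + 2) := by
    intro i
    refine le_of_tendsto_of_tendsto ((hq i).add_const δ) (hq (i + 2)) ?_
    filter_upwards [h.P_gap i, hLpos] with m hm hm1
    have hm0 : (0 : ℝ) < L m := by exact_mod_cast hm1
    have h1 : ((P i m : ℝ) / L m + δ) = (P i m + δ * L m) / L m := by
      field_simp
    rw [h1]
    exact div_le_div_of_nonneg_right hm hm0.le
  have heven : ∀ k : ℕ, q 0 + k * δ ≤ q (2 * k) := by
    intro k
    induction k with
    | zero => simp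
    | succ k ih =>
      have h1 := hgap (2 * k)
      have h2 : 2 * (k + 1) = 2 * k + 2 := by ring
      rw [h2]
      push_cast
      linarith
  refine tendsto_atTop_atTop.2 fun b => ?_
  obtain ⟨k, hk⟩ := exists_nat_gt ((b - q 0) / δ)
  refine ⟨2 * k, fun n hn => ?_⟩
  have h1 := heven k
  have h2 := hmono hn
  rw [div_lt_iff₀ h.pos] at hk
  linarith

end Pool.Agent.Lib.MP_d0d59f_nt.Lin
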