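import Pool.Agent.Lib.MP_d0d59f_nt.AutoOrbit

/-!
Row U3b: limits of the numbers of ones.
-/

namespace Pool.Agent.Lib.MP_d0d59f_nt.Lin

open Filter Topology Auto

variable {d x : ℤ} {L : ℕ → ℕ}

/-- For `ε > 0` there is `C` with `|ones N - θ N| ≤ ε N + C` for all `N`. -/
theorem limB_bound {θ : ℝ} (hθ : Tendsto (fun n : ℕ => (ones d x n : ℝ) / n) atTop (𝓝 θ)) {ε : ℝ}
    (hε : 0 < ε) : ∃ C : ℝ, ∀ N : ℕ, |(ones d x N : ℝ) - θ * N| ≤ ε * N + C := by
  have h1 : ∀ᶠ n : ℕ in atTop, |(ones d x n : ℝ) - θ * n| ≤ ε * n := by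
    filter_upwards [(Metric.tendsto_atTop.mp hθ ε hε).elim fun N hN =>
      eventually_atTop.mpr ⟨N, hN⟩, eventually_gt_atTop 0] with n hn hn0
    have hn0' : (0 : ℝ) < n := by exact_mod_cast hn0
    rw [Real.dist_eq] at hn
    have h2 : (ones d x n : ℝ) - θ * n = ((ones d x n : ℝ) / n - θ) * n := by
      field_simp
    rw [h2, abs_mul, abs_of_pos hn0']
    exact mul_le_mul_of_nonneg_right hn.le hn0'.le
  obtain ⟨N₀, hN₀⟩ := eventually_atTop.mp h1
  refine ⟨(1 + |θ|) * N₀, fun N => ?_⟩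
  rcases le_or_gt N₀ N with hN | hN
  · have := hN₀ N hN
    have h3 : 0 ≤ (1 + |θ|) * N₀ := by positivity
    linarith
  · have h2 : (ones d x N : ℝ) ≤ N := by exact_mod_cast ones_le d x N
    have h3 : (N : ℝ) ≤ N₀ := by exact_mod_cast hN.le
    have h4 : (0 : ℝ) ≤ (ones d x N : ℝ) := Nat.cast_nonneg _
    have h5 : (0 : ℝ) ≤ (N : ℝ) := Nat.cast_nonneg _
    have h6 : |(ones d x N : ℝ) - θ * N| ≤ |(ones d x N : ℝ)| + |θ * N| := abs_sub _ _
    rw [abs_mul, abs_of_nonneg h4, abs_of_nonneg h5] at h6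
    have h7 : |θ| * N ≤ |θ| * N₀ := mul_le_mul_of_nonneg_left h3 (abs_nonneg _)
    have h8 : 0 ≤ ε * N := by positivity
    nlinarith

theorem ones_lim {θ : ℝ} (hθ : Tendsto (fun n : ℕ => (ones d x n : ℝ) / n) atTop (𝓝 θ))
    (hL : Tendsto L atTop atTop) {Q : ℕ → ℕ} {q : ℝ}
    (hQ : Tendsto (fun m => (Q m : ℝ) / L m) (hyperfilter ℕ) (𝓝 q)) :
    Tendsto (fun m => (ones d x (Q m) : ℝ) / L m) (hyperfilter ℕ) (𝓝 (θ * q)) := by
  have hLR : Tendsto (fun m => (L m : ℝ)) (hyperfilter ℕ) atTop :=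
    (tendsto_natCast_atTop_atTop.comp hL).mono_left Nat.hyperfilter_le_atTop
  have h1 : Tendsto (fun m => (ones d x (Q m) : ℝ) / L m - θ * ((Q m : ℝ) / L m)) (hyperfilter ℕ)
      (𝓝 0) := by
    rw [Metric.tendsto_nhds]
    intro η hη
    set ε : ℝ := η / (2 * (|q| + 2)) with hε
    have hε0 : 0 < ε := by positivity
    obtain ⟨C, hC⟩ := limB_bound hθ hε0
    have hq1 : ∀ᶠ m in (hyperfilter ℕ : Filter ℕ), (Q m : ℝ) / L m < |q| + 1 :=
      hQ.eventually (gt_mem_nhds (lt_of_le_of_lt (le_abs_self q) (by linarith)))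
    have hL1 : ∀ᶠ m in (hyperfilter ℕ : Filter ℕ), (2 * |C| + 1) / η < (L m : ℝ) :=
      hLR.eventually_gt_atTop _
    filter_upwards [hq1, hL1, hLR.eventually_gt_atTop 0] with m h2 h3 h4
    rw [Real.dist_eq, sub_zero]
    have h5 := hC (Q m)
    have h6 : (ones d x (Q m) : ℝ) / L m - θ * ((Q m : ℝ) / L m) =
        ((ones d x (Q m) : ℝ) - θ * Q m) / L m := by
      field_simp
    rw [h6, abs_div, abs_of_pos h4, div_lt_iff₀ h4]
    rw [div_lt_iff₀ h4] at h2
    rw [div_lt_iff₀ hη] at h3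
    have h7 : ε * Q m ≤ η / 2 * L m := by
      have e1 : ε * (|q| + 2) = η / 2 := by rw [hε]; field_simp
      have e2 : (Q m : ℝ) ≤ (|q| + 2) * L m := by nlinarith
      calc ε * Q m ≤ ε * ((|q| + 2) * L m) := mul_le_mul_of_nonneg_left e2 hε0.le
        _ = η / 2 * L m := by rw [← mul_assoc, e1]
    have h8 : C ≤ |C| := le_abs_self C
    nlinarith
  have h2 := h1.add (hQ.const_mul θ)
  rw [zero_add] at h2
  refine h2.congr fun m => ?_
  ring

/-- A divergent orbit does not contract on average (proof as for `Auto.one_lt_of_not_periodic`). -/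
theorem one_lt_of_freq (hd : Odd d) (hx : ∀ m p : ℕ, 0 < p → (T d)^[m + p] x ≠ (T d)^[m] x)
    {θ : ℝ} (hθ : Tendsto (fun n : ℕ => (ones d x n : ℝ) / n) atTop (𝓝 θ))
    (h : θ * Real.logb 2 3 ≠ 1) : 1 < θ * Real.logb 2 3 := by
  by_contra hcon
  have hlt : θ * Real.logb 2 3 < 1 := lt_of_le_of_ne (not_lt.mp hcon) h
  have hl2 : 0 < Real.log 2 := Real.log_pos (by norm_num)
  have hl3 : 0 < Real.log 3 := Real.log_pos (by norm_num)
  have hlt' : θ * Real.log 3 < Real.log 2 := by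
    rw [Real.logb, ← mul_div_assoc, div_lt_one hl2] at hlt
    exact hlt
  obtain ⟨ε, hε, hε2⟩ : ∃ ε : ℝ, 0 < ε ∧ (θ + ε) * Real.log 3 < Real.log 2 := by
    refine ⟨(Real.log 2 - θ * Real.log 3) / (2 * Real.log 3), by
      apply div_pos (by linarith); linarith, ?_⟩
    have : (θ + (Real.log 2 - θ * Real.log 3) / (2 * Real.log 3)) * Real.log 3
        = θ * Real.log 3 + (Real.log 2 - θ * Real.log 3) / 2 := by
      field_simp
    rw [this]; linarith
  have hN : ∀ᶠ n : ℕ in atTop, (ones d x n : ℝ) ≤ (θ + ε) * n := by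
    filter_upwards [hθ.eventually (gt_mem_nhds (show θ < θ + ε by linarith)),
      eventually_gt_atTop 0] with n hn hn0
    rw [div_lt_iff₀ (by exact_mod_cast hn0)] at hn
    exact hn.le
  obtain ⟨β, hβ, hlim⟩ := tendsto_normalized hx hd
  set q : ℝ := Real.exp ((θ + ε) * Real.log 3 - Real.log 2) with hq
  have hq1 : q < 1 := by rw [hq, Real.exp_lt_one_iff]; linarith
  have hq0 : 0 < q := Real.exp_pos _
  have h1 : Tendsto (fun n : ℕ => (3 : ℝ) ^ (ones d x n) / 2 ^ n) atTop (𝓝 0) := by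
    refine squeeze_zero' (Eventually.of_forall fun n => by positivity) ?_
      (tendsto_pow_atTop_nhds_zero_of_lt_one hq0.le hq1)
    filter_upwards [hN] with n h3
    rw [hq, ← Real.exp_nat_mul, div_le_iff₀ (by positivity)]
    have e3 : (3 : ℝ) ^ (ones d x n) = Real.exp ((ones d x n : ℝ) * Real.log 3) := by
      rw [Real.exp_nat_mul, Real.exp_log (by norm_num)]
    have e2 : (2 : ℝ) ^ n = Real.exp ((n : ℝ) * Real.log 2) := by
      rw [Real.exp_nat_mul, Real.exp_log (by norm_num)]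
    rw [e3, e2, ← Real.exp_add]
    apply Real.exp_le_exp.mpr
    nlinarith
  have h2 : Tendsto (fun n : ℕ => ((T d)^[n] x : ℝ)) atTop (𝓝 0) := by
    have := hlim.mul h1
    rw [mul_zero] at this
    refine this.congr fun n => ?_
    have h3 : (3 : ℝ) ^ (ones d x n) ≠ 0 := by positivity
    have h4 : (2 : ℝ) ^ n ≠ 0 := by positivity
    field_simp
  have h3 := (h2.norm).eventually (gt_mem_nhds (show ‖(0 : ℝ)‖ < 1 by simp))
  obtain ⟨n, hn⟩ := h3.exists
  rw [Real.norm_eq_abs] at hn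
  have h4 : |(T d)^[n] x| < 1 := by exact_mod_cast hn
  exact orbit_ne_zero hx n (Int.abs_lt_one_iff.mp h4)

end Pool.Agent.Lib.MP_d0d59f_nt.Lin
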