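import Pool.Agent.Lib.MP_d0d59f_nt.LinFinal
import Pool.Agent.Lib.MP_d0d59f_nt.LinLimits
import Pool.Agent.Lib.MP_d0d59f_nt.LinCrit
import Pool.Agent.Lib.MP_d0d59f_nt.AutoFinal

/-!
The main theorem for frequencies `θ` such that `θ` is rational, or `θ log₂ 3` is irrational or at
most `1`.
-/

namespace Pool.Agent.Lib.MP_d0d59f_nt.Lin

open Filter Topology Auto

theorem eventually_periodic_main {d : ℤ} (hd : Odd d) {x : ℤ} {θ : ℝ}
    (hθ : Tendsto (fun n : ℕ => (ones d x n : ℝ) / n) atTop (𝓝 θ))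
    (h : (∃ q : ℚ, (q : ℝ) = θ) ∨ Irrational (θ * Real.logb 2 3) ∨ θ * Real.logb 2 3 ≤ 1) {C : ℕ}
    (hC : ∃ᶠ n in atTop, complexity d x n ≤ C * n) : EventuallyPeriodic d x := by
  by_contra hcon
  have hx : ∀ m p : ℕ, 0 < p → (T d)^[m + p] x ≠ (T d)^[m] x :=
    fun m p hp h => hcon ⟨m, p, hp, h⟩
  have hirr : Irrational (θ * Real.logb 2 3) := by
    rcases h with ⟨q, hq⟩ | h | h
    · have hθ0 : θ ≠ 0 := by
        intro h0
        have h1 := one_lt_of_freq hd hx hθ (by rw [h0]; simp)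
        rw [h0] at h1
        norm_num at h1
      have hq0 : q ≠ 0 := by
        rintro rfl
        exact hθ0 (by rw [← hq]; simp)
      rw [← hq]
      exact ak_logb_irrational.ratCast_mul hq0
    · exact h
    · exfalso
      by_cases h1 : θ * Real.logb 2 3 = 1
      · obtain ⟨n, hn1, hn2⟩ := (hC.and_eventually (complexity_of_critical hd hx hθ h1 C)).exists
        omega
      · exact absurd (one_lt_of_freq hd hx hθ h1) (not_lt.mpr h)
  exact hcon (eventually_periodic_of_complexity hd hθ hirr hC)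

end Pool.Agent.Lib.MP_d0d59f_nt.Lin
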