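import Pool.Agent.Lib.MP_d0d59f_nt.LinDefs
import Pool.Agent.Lib.MP_d0d59f_nt.LinGerm

/-!
Row D2a: the monomials `X s` = germ of `2 ^ ⌊s L⌋ / 3 ^ ⌊θ s L⌋`.
-/

namespace Pool.Agent.Lib.MP_d0d59f_nt.Lin

open Filter Topology Auto

attribute [local instance] sqAlg

variable {L : ℕ → ℕ} {hL : Tendsto L atTop atTop} {θ : ℝ}

/-- the sequence `2 ^ ⌊s L⌋ / 3 ^ ⌊θ s L⌋` -/
noncomputable def seqX (L : ℕ → ℕ) (θ s : ℝ) (m : ℕ) : ℚ := mon ⌊s * L m⌋ ⌊θ * s * L m⌋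

/-- the sequence `3 ^ ⌊θ (i + 1) L⌋` -/
noncomputable def seqT (L : ℕ → ℕ) (θ : ℝ) (i m : ℕ) : ℚ := mon 0 (-⌊θ * (i + 1) * L m⌋)

/-- a convergent quotient is bounded along the filter -/
theorem monA_bound {L : ℕ → ℕ} (hL : Tendsto L atTop atTop) {a : ℕ → ℤ} {s : ℝ}
    (ha : Tendsto (fun m => (a m : ℝ) / L m) (hyperfilter ℕ) (𝓝 s)) :
    ∃ C : ℝ, ∀ᶠ m in (hyperfilter ℕ : Filter ℕ), |(a m : ℝ)| ≤ C * L m := by
  refine ⟨|s| + 1, ?_⟩
  have h1 : ∀ᶠ m in (hyperfilter ℕ : Filter ℕ), |(a m : ℝ) / L m| < |s| + 1 :=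
    ha.abs.eventually (gt_mem_nhds (by linarith))
  filter_upwards [h1, ah_L L hL 1] with m h2 h3
  have h4 : (0 : ℝ) < L m := by exact_mod_cast h3
  rw [abs_div, abs_of_pos h4, div_lt_iff₀ h4] at h2
  exact h2.le

theorem monA_ne (a b : ℕ → ℤ) : (((fun m => mon (a m) (b m)) : ℕ → ℚ) : QU) ≠ 0 := by
  intro h
  have h1 : (((fun m => mon (a m) (b m)) : ℕ → ℚ) : QU) = ((0 : ℕ → ℚ) : QU) := h
  obtain ⟨m, hm⟩ := (Germ.coe_eq.mp h1).exists
  exact mon_ne_zero _ _ hm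

/-- From `mon_mem_big`, `tendsto_floor` (a convergent function is bounded along the filter). -/
theorem seqX_mem (L : ℕ → ℕ) (hL : Tendsto L atTop atTop) (θ s : ℝ) :
    ((seqX L θ s : ℕ → ℚ) : QU) ∈ bigField L hL :=
  mon_mem_big _ _ (monA_bound hL (tendsto_floor hL s)) (monA_bound hL (tendsto_floor hL (θ * s)))

theorem seqT_mem (L : ℕ → ℕ) (hL : Tendsto L atTop atTop) (θ : ℝ) (i : ℕ) :
    ((seqT L θ i : ℕ → ℚ) : QU) ∈ bigField L hL := by
  obtain ⟨C, hC⟩ := monA_bound hL (tendsto_floor hL (θ * (i + 1)))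
  refine mon_mem_big (fun _ => 0) (fun m => -⌊θ * (i + 1) * L m⌋) ⟨0, ?_⟩ ⟨C, ?_⟩
  · exact Eventually.of_forall fun m => by simp
  · filter_upwards [hC] with m hm
    push_cast
    rw [abs_neg]
    exact hm

noncomputable def germX (L : ℕ → ℕ) (hL : Tendsto L atTop atTop) (θ s : ℝ) : bigField L hL :=
  ⟨_, seqX_mem L hL θ s⟩

noncomputable def germT (L : ℕ → ℕ) (hL : Tendsto L atTop atTop) (θ : ℝ) (i : ℕ) : bigField L hL :=
  ⟨_, seqT_mem L hL θ i⟩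

/-- Main lemma: if `a / L → s`, `b / L → θ s` then the germ of `2 ^ a / 3 ^ b` is a nonzero constant of
`smallField` times `germX s`: the quotient is the germ of
`2 ^ (a - ⌊s L⌋) / 3 ^ (b - ⌊θ s L⌋)`; `mon_mem_small`, `tendsto_floor`, `mon_mul`. -/
theorem germ_eq {s : ℝ} (a b : ℕ → ℤ)
    (ha : Tendsto (fun m => (a m : ℝ) / L m) (hyperfilter ℕ) (𝓝 s))
    (hb : Tendsto (fun m => (b m : ℝ) / L m) (hyperfilter ℕ) (𝓝 (θ * s))) :
    ∃ c : smallField L hL, c ≠ 0 ∧ ((c • germX L hL θ s : bigField L hL) : QU) =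
      (((fun m => mon (a m) (b m)) : ℕ → ℚ) : QU) := by
  have h1 : Tendsto (fun m => ((a m - ⌊s * L m⌋ : ℤ) : ℝ) / L m) (hyperfilter ℕ) (𝓝 0) := by
    have h := ha.sub (tendsto_floor hL s)
    rw [sub_self] at h
    refine h.congr fun m => ?_
    push_cast
    rw [sub_div]
  have h2 : Tendsto (fun m => ((b m - ⌊θ * s * L m⌋ : ℤ) : ℝ) / L m) (hyperfilter ℕ) (𝓝 0) := by
    have h := hb.sub (tendsto_floor hL (θ * s))
    rw [sub_self] at h
    refine h.congr fun m => ?_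
    push_cast
    rw [sub_div]
  have hc := mon_mem_small (hL := hL) _ _ h1 h2
  refine ⟨⟨_, hc⟩, ?_, ?_⟩
  · intro h
    exact monA_ne _ _ (congrArg Subtype.val h)
  · rw [Algebra.smul_def, Subfield.coe_mul]
    change (((fun m => mon (a m - ⌊s * L m⌋) (b m - ⌊θ * s * L m⌋)) : ℕ → ℚ) : QU) *
      ((seqX L θ s : ℕ → ℚ) : QU) = _
    rw [← Germ.coe_mul]
    congr 1
    funext m
    rw [Pi.mul_apply, seqX, mon_mul]
    congr 1 <;> ring

/-- From `germ_eq`: `X s * X t` is the germ of `2 ^ (⌊s L⌋ + ⌊t L⌋) / 3 ^ (⌊θ s L⌋ + ⌊θ t L⌋)`. -/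
theorem mono_germX : Mono (smallField L hL) (germX L hL θ) where
  ne s := by
    intro h
    exact monA_ne (fun m => ⌊s * L m⌋) (fun m => ⌊θ * s * L m⌋) (congrArg Subtype.val h)
  mul s t := by
    have h1 : Tendsto (fun m => ((⌊s * L m⌋ + ⌊t * L m⌋ : ℤ) : ℝ) / L m) (hyperfilter ℕ)
        (𝓝 (s + t)) := by
      refine ((tendsto_floor hL s).add (tendsto_floor hL t)).congr fun m => ?_
      push_cast
      rw [add_div]
    have h2 : Tendsto (fun m => ((⌊θ * s * L m⌋ + ⌊θ * t * L m⌋ : ℤ) : ℝ) / L m) (hyperfilter ℕ)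
        (𝓝 (θ * (s + t))) := by
      rw [mul_add]
      refine ((tendsto_floor hL (θ * s)).add (tendsto_floor hL (θ * t))).congr fun m => ?_
      push_cast
      rw [add_div]
    obtain ⟨c, hc, he⟩ := germ_eq (hL := hL) (θ := θ) (s := s + t) _ _ h1 h2
    refine ⟨c, hc, ?_⟩
    apply Subtype.ext
    rw [he, Subfield.coe_mul]
    change ((seqX L θ s : ℕ → ℚ) : QU) * ((seqX L θ t : ℕ → ℚ) : QU) = _
    rw [← Germ.coe_mul]
    congr 1
    funext m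
    rw [Pi.mul_apply, seqX, seqX, mon_mul]
  zero := by
    refine ⟨1, one_ne_zero, ?_⟩
    rw [map_one]
    apply Subtype.ext
    change ((seqX L θ 0 : ℕ → ℚ) : QU) = 1
    rw [← Germ.coe_one]
    congr 1
    funext m
    simp [seqX, mon]

end Pool.Agent.Lib.MP_d0d59f_nt.Lin
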