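import Pool.Agent.Lib.MP_d0d59f_nt.LinVal
import Pool.Agent.Lib.MP_d0d59f_nt.LinFolner
import Pool.Agent.Lib.MP_d0d59f_nt.LinFilt
import Pool.Agent.Lib.MP_d0d59f_nt.LinLead

/-!
Row A5: Pade approximation with real exponents.
-/

namespace Pool.Agent.Lib.MP_d0d59f_nt.Lin

open Module Filter Topology

variable {κ 𝕂 : Type} [Field κ] [Field 𝕂] [Algebra κ 𝕂] {X : ℝ → 𝕂} {v d : AbsoluteValue 𝕂 ℝ}
  {x y : ℝ}

/-- vectors of polynomials with exponents in `[0, i + 1)` such that `∑ P_j g_j` has value at most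
`x ^ n` -/
def padeW (κ : Type) {𝕂 : Type} [Field κ] [Field 𝕂] [Algebra κ 𝕂] (X : ℝ → 𝕂)
    (v : AbsoluteValue 𝕂 ℝ) (x : ℝ) {H : ℕ} (g : Fin H → 𝕂) (n i : ℕ) : Set (Fin H → 𝕂) :=
  {P | (∀ j, P j ∈ polysIn κ X (Set.Ico 0 (i + 1 : ℝ))) ∧ v (∑ j, P j * g j) ≤ x ^ n}

/-- functions on a finite set of exponents, as finitely supported functions -/
noncomputable def pade_E (κ : Type) [Field κ] (F : Finset ℝ) : (F → κ) →ₗ[κ] (ℝ →₀ κ) :=
  (Finsupp.lmapDomain κ κ (Subtype.val : F → ℝ)) ∘ₗ (Finsupp.linearEquivFunOnFinite κ κ F).symm.toLinearMap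

theorem pade_E_mem (F : Finset ℝ) (a : F → κ) (s : F) : pade_E κ F a s = a s := by
  unfold pade_E
  simp only [LinearMap.comp_apply, Finsupp.lmapDomain_apply, LinearEquiv.coe_coe]
  rw [Finsupp.mapDomain_apply Subtype.val_injective]
  rfl

theorem pade_E_notMem (F : Finset ℝ) (a : F → κ) (s : ℝ) (hs : s ∉ F) : pade_E κ F a s = 0 := by
  unfold pade_E
  simp only [LinearMap.comp_apply, Finsupp.lmapDomain_apply, LinearEquiv.coe_coe]
  rw [Finsupp.mapDomain_of_notMem_range]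
  rintro ⟨u, hu⟩
  exact hs (hu ▸ u.2)

/-- the exponents -/
noncomputable def pade_F (I : Finset ℝ) (K : ℕ) : Finset ℝ :=
  (Finset.range K ×ˢ I).image (fun p : ℕ × ℝ => (p.1 : ℝ) + p.2)

theorem pade_floor {k : ℕ} {ξ : ℝ} (h0 : 0 ≤ ξ) (h1 : ξ < 1) : ⌊(k : ℝ) + ξ⌋₊ = k := by
  rw [Nat.floor_eq_iff (by positivity)]
  constructor <;> linarith

theorem pade_inj (I : Finset ℝ) (hI : ∀ ξ ∈ I, 0 ≤ ξ ∧ ξ < 1) (K : ℕ) :
    Set.InjOn (fun p : ℕ × ℝ => (p.1 : ℝ) + p.2) ((Finset.range K ×ˢ I : Finset (ℕ × ℝ)) : Set (ℕ × ℝ)) := by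
  rintro ⟨a, b⟩ hab ⟨a', b'⟩ hab' he
  simp only [Finset.coe_product, Set.mem_prod, Finset.mem_coe] at hab hab'
  have h1 := pade_floor (k := a) (hI b hab.2).1 (hI b hab.2).2
  have h2 := pade_floor (k := a') (hI b' hab'.2).1 (hI b' hab'.2).2
  simp only at he
  rw [he, h2] at h1
  subst h1
  have h3 : b = b' := by linarith
  rw [h3]

theorem pade_sum (I : Finset ℝ) (hI : ∀ ξ ∈ I, 0 ≤ ξ ∧ ξ < 1) (K : ℕ) (ρ : ℕ → ℕ) :
    ∑ s ∈ pade_F I K, ρ ⌊s⌋₊ = I.card * ∑ k ∈ Finset.range K, ρ k := by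
  unfold pade_F
  rw [Finset.sum_image (pade_inj I hI K), Finset.sum_product, Finset.mul_sum]
  refine Finset.sum_congr rfl fun k _ => ?_
  rw [Finset.sum_congr rfl (fun ξ hξ => by rw [pade_floor (hI ξ hξ).1 (hI ξ hξ).2] : ∀ ξ ∈ I, ρ ⌊((k, ξ).1 : ℝ) + (k, ξ).2⌋₊ = ρ k)]
  rw [Finset.sum_const, smul_eq_mul]

theorem pade_card (I : Finset ℝ) (hI : ∀ ξ ∈ I, 0 ≤ ξ ∧ ξ < 1) (K : ℕ) : (pade_F I K).card = K * I.card := by
  unfold pade_F
  rw [Finset.card_image_of_injOn (pade_inj I hI K), Finset.card_product, Finset.card_range]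

/-- the polynomial of a vector of coefficients -/
theorem pade_E_polysIn (F : Finset ℝ) (a : F → κ) (T : Set ℝ) (hT : ∀ s : F, a s ≠ 0 → (s : ℝ) ∈ T) :
    Finsupp.linearCombination κ X (pade_E κ F a) ∈ polysIn κ X T := by
  rw [mem_polysIn]
  refine ⟨pade_E κ F a, fun t ht => ?_, rfl⟩
  by_cases htF : t ∈ F
  · have h1 := pade_E_mem F a ⟨t, htF⟩
    simp only at h1
    rw [h1] at ht
    exact hT ⟨t, htF⟩ ht
  · exact absurd (pade_E_notMem F a t htF) ht

/-- the linear map `Φ` -/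
noncomputable def pade_Phi (κ : Type) {𝕂 : Type} [Field κ] [Field 𝕂] [Algebra κ 𝕂] (X : ℝ → 𝕂) (F : Finset ℝ)
    {H : ℕ} (g : Fin H → 𝕂) : (Fin H → F → κ) →ₗ[κ] 𝕂 :=
  ∑ j : Fin H, (LinearMap.mulRight κ (g j)) ∘ₗ (Finsupp.linearCombination κ X) ∘ₗ (pade_E κ F) ∘ₗ (LinearMap.proj j)

theorem pade_Phi_apply (F : Finset ℝ) {H : ℕ} (g : Fin H → 𝕂) (w : Fin H → F → κ) :
    pade_Phi κ X F g w = ∑ j, Finsupp.linearCombination κ X (pade_E κ F (w j)) * g j := by
  unfold pade_Phi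
  rw [LinearMap.sum_apply]
  rfl

/-- the range of `Φ` modulo the polynomials of value at most `x ^ n` -/
theorem pade_range (hX : Mono κ X) (F T : Finset ℝ) (n : ℕ) {H : ℕ} (g : Fin H → 𝕂) (S : Set ℝ)
    (hg : ∀ j, g j ∈ polysIn κ X S)
    (hFS : ∀ s ∈ (F : Set ℝ), ∀ t ∈ S, s + t ∈ (T : Set ℝ) ∪ Set.Ici (n : ℝ)) :
    finrank κ (LinearMap.range ((polysIn κ X (Set.Ici (n : ℝ))).mkQ ∘ₗ pade_Phi κ X F g)) ≤ T.card := by
  classical
  set q := (polysIn κ X (Set.Ici (n : ℝ))).mkQ with hq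
  have h1 : LinearMap.range (q ∘ₗ pade_Phi κ X F g) ≤ Submodule.span κ ((T.image (fun t => q (X t)) : Finset _) : Set (𝕂 ⧸ polysIn κ X (Set.Ici (n : ℝ)))) := by
    rintro _ ⟨w, rfl⟩
    have h2 : pade_Phi κ X F g w ∈ polysIn κ X ((T : Set ℝ) ∪ Set.Ici (n : ℝ)) := by
      rw [pade_Phi_apply]
      refine Submodule.sum_mem _ fun j _ => ?_
      exact mul_mem_polysIn hX hFS (pade_E_polysIn F (w j) (F : Set ℝ) (fun s _ => s.2)) (hg j)
    have h3 : (polysIn κ X ((T : Set ℝ) ∪ Set.Ici (n : ℝ))).map q ≤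
        Submodule.span κ ((T.image (fun t => q (X t)) : Finset _) : Set (𝕂 ⧸ polysIn κ X (Set.Ici (n : ℝ)))) := by
      change Submodule.map q (Submodule.span κ (X '' ((T : Set ℝ) ∪ Set.Ici (n : ℝ)))) ≤ _
      rw [Submodule.map_span, Submodule.span_le]
      rintro _ ⟨_, ⟨t, ht, rfl⟩, rfl⟩
      rcases ht with ht | ht
      · exact Submodule.subset_span (by
          rw [Finset.coe_image]
          exact ⟨t, ht, rfl⟩)
      · have h4 : q (X t) = 0 := by
          rw [hq, Submodule.mkQ_apply, Submodule.Quotient.mk_eq_zero]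
          exact Submodule.subset_span ⟨t, ht, rfl⟩
        change q (X t) ∈ _
        rw [h4]
        exact Submodule.zero_mem _
    exact h3 ⟨_, h2, rfl⟩
  calc finrank κ (LinearMap.range (q ∘ₗ pade_Phi κ X F g))
      ≤ finrank κ (Submodule.span κ ((T.image (fun t => q (X t)) : Finset _) : Set (𝕂 ⧸ polysIn κ X (Set.Ici (n : ℝ))))) :=
        Submodule.finrank_mono h1
    _ ≤ (T.image (fun t => q (X t))).card := finrank_span_finset_le_card _
    _ ≤ T.card := Finset.card_image_le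

/-- Let `g_j = ∑ c_j(π) X π` with exponents `π ∈ S ⊆ [0, ∞)`, `S` finite, and let `I, I'` be as in
`exists_folner S n`. Define `ρ i` = the maximal number of `𝕂`-independent elements of `padeW .. n i`
(at most `H`). For given `K` let
`F = {k + ξ : k < K, ξ ∈ I}` (a finite set of reals with `#F = K #I`, since `ξ ∈ [0,1)`).
The map `Φ : (Fin H → F → κ) → 𝕂`, `P ↦ ∑_j (∑_{s ∈ F} P_j(s) X s) g_j` has values in
`polysIn κ X (F + S)`; its composition with the projection onto the coordinates at the exponents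
`t ∈ F + S`, `t < n` (coordinates exist by `mem_polysIn`, `lc_injective`) has rank at most
`n #I'`, because `t = (k + ξ) + π = k' + fract (ξ + π)` with `k' = ⌊t⌋ < n` and `fract (ξ + π) ∈ I'`.
So the kernel `W` has dimension `≥ H K #I - n #I'` (`Auto.pade_rank_nullity`), and for `P ∈ W` the
vector `(∑_{s ∈ F} P_j(s) X s)_j` satisfies `v (∑_j P_j g_j) ≤ x ^ n` (`val_lc_le_iff`).
By `finrank_le_sum` and `lead_indep` with `r s = ρ ⌊s⌋` (if `P^1 .. P^t ∈ W` vanish above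
`s ∈ F`, `i = ⌊s⌋`, and have independent coefficients at `s` then the vectors of polynomials are
in `padeW .. n i` and independent, so `t ≤ ρ i`): `dim W ≤ ∑_{s ∈ F} ρ ⌊s⌋ = #I ∑_{i<K} ρ i`.
Hence `H K #I ≤ n #I' + #I ∑ ρ < (n + 1) #I + #I ∑ ρ` (if `n #I' < (n+1) #I`), i.e.
`H K < n + 1 + ∑_{i<K} ρ i`. -/
theorem exists_rank (hX : Mono κ X) (hv : MVal κ X v x) (hx : x < 1) (hd : MVal κ X d y)
    (hy : 1 < y) {H : ℕ} (g : Fin H → 𝕂) (hg : ∀ j, g j ∈ polysIn κ X (Set.Ici 0)) (n : ℕ) :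
    ∃ ρ : ℕ → ℕ, (∀ i, ρ i ≤ H) ∧
      (∀ i, ∃ P : Fin (ρ i) → Fin H → 𝕂, LinearIndependent 𝕂 P ∧ ∀ l, P l ∈ padeW κ X v x g n i) ∧
      ∀ K, H * K ≤ n + ∑ i ∈ Finset.range K, ρ i := by
  classical
  -- the exponents of the `g j`
  have hgc : ∀ j, ∃ c : ℝ →₀ κ, (∀ t, c t ≠ 0 → t ∈ Set.Ici (0 : ℝ)) ∧ Finsupp.linearCombination κ X c = g j :=
    fun j => (mem_polysIn _ _).mp (hg j)
  choose gc hgc0 hgc1 using hgc
  set S : Finset ℝ := Finset.univ.biUnion (fun j => (gc j).support) with hS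
  have hS0 : ∀ π ∈ S, 0 ≤ π := by
    intro π hπ
    rw [hS, Finset.mem_biUnion] at hπ
    obtain ⟨j, _, hj⟩ := hπ
    exact hgc0 j π (Finsupp.mem_support_iff.mp hj)
  have hgS : ∀ j, g j ∈ polysIn κ X (S : Set ℝ) := by
    intro j
    rw [mem_polysIn]
    refine ⟨gc j, fun t ht => ?_, hgc1 j⟩
    rw [hS]
    simp only [Finset.coe_biUnion, Set.mem_iUnion, Finset.mem_coe]
    exact ⟨j, Finset.mem_univ j, Finsupp.mem_support_iff.mpr ht⟩
  obtain ⟨I, I', hIne, hI, hI', hII', hcard⟩ := exists_folner S n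
  -- the ranks
  set Q : ℕ → ℕ → Prop := fun i t => ∃ P : Fin t → Fin H → 𝕂, LinearIndependent 𝕂 P ∧ ∀ l, P l ∈ padeW κ X v x g n i with hQ
  have hQ0 : ∀ i, Q i 0 := fun i => ⟨fun l => l.elim0, linearIndependent_empty_type, fun l => l.elim0⟩
  refine ⟨fun i => Nat.findGreatest (Q i) H, fun i => Nat.findGreatest_le H,
    fun i => Nat.findGreatest_spec (Nat.zero_le H) (hQ0 i), fun K => ?_⟩
  set ρ : ℕ → ℕ := fun i => Nat.findGreatest (Q i) H with hρ
  set F := pade_F I K with hF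
  set L := (polysIn κ X (Set.Ici (n : ℝ))).mkQ ∘ₗ pade_Phi κ X F g with hL
  -- rank
  have hFmem : ∀ s ∈ F, ∃ k : ℕ, k < K ∧ ∃ ξ ∈ I, (k : ℝ) + ξ = s := by
    intro s hs
    rw [hF, pade_F, Finset.mem_image] at hs
    obtain ⟨⟨k, ξ⟩, hp, rfl⟩ := hs
    rw [Finset.mem_product, Finset.mem_range] at hp
    exact ⟨k, hp.1, ξ, hp.2, rfl⟩
  have hrank : finrank κ (LinearMap.range L) ≤ n * I'.card := by
    refine (pade_range hX F ((Finset.range n ×ˢ I').image (fun p : ℕ × ℝ => (p.1 : ℝ) + p.2)) n g (S : Set ℝ) hgS ?_).trans ?_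
    · intro s hs π hπ
      obtain ⟨k, hk, ξ, hξ, rfl⟩ := hFmem s hs
      by_cases hlt : (k : ℝ) + ξ + π < n
      · left
        have h0 : 0 ≤ ξ + π := add_nonneg (hI ξ hξ).1 (hS0 π hπ)
        rw [Finset.coe_image]
        refine ⟨(k + ⌊ξ + π⌋₊, Int.fract (ξ + π)), ?_, ?_⟩
        · rw [Finset.mem_coe, Finset.mem_product, Finset.mem_range]
          refine ⟨?_, hII' ξ hξ π hπ⟩
          have h1 : ((k + ⌊ξ + π⌋₊ : ℕ) : ℝ) < n := by
            push_cast
            have := Nat.floor_le h0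
            linarith
          exact_mod_cast h1
        · simp only
          have h2 := Int.floor_add_fract (ξ + π)
          have h3 : ((⌊ξ + π⌋₊ : ℕ) : ℝ) = ((⌊ξ + π⌋ : ℤ) : ℝ) := by
            rw [← Int.natCast_floor_eq_floor h0]
            simp
          push_cast
          rw [h3]
          linarith
      · right
        exact not_lt.mp hlt
    · refine Finset.card_image_le.trans ?_
      rw [Finset.card_product, Finset.card_range]
  have hrn := LinearMap.finrank_range_add_finrank_ker L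
  have hV : finrank κ (Fin H → F → κ) = H * (K * I.card) := by
    rw [Module.finrank_pi_fintype]
    simp only [Module.finrank_fintype_fun_eq_card, Fintype.card_coe, Finset.sum_const, Finset.card_univ,
      Fintype.card_fin, smul_eq_mul]
    rw [hF, pade_card I hI K]
  -- the kernel
  have hker : finrank κ (LinearMap.ker L) ≤ ∑ s ∈ F, ρ ⌊s⌋₊ := by
    refine finrank_le_sum F (LinearMap.ker L) (fun s => ρ ⌊s⌋₊) ?_
    intro s t P hP hPs hPi
    have hli := lead_indep hd hy (fun l i => pade_E κ F (P l i)) s (fun l i u hu => by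
      by_cases huF : u ∈ F
      · have h1 := pade_E_mem F (P l i) ⟨u, huF⟩
        simp only at h1
        rw [h1]
        exact hPs l i ⟨u, huF⟩ hu
      · exact pade_E_notMem F _ u huF) (by
      have h1 : (fun (l : Fin t) (i : Fin H) => pade_E κ F (P l i) s) = fun l i => P l i s := by
        funext l i
        exact pade_E_mem F (P l i) s
      rw [h1]
      exact hPi)
    have htH : t ≤ H := by
      have := hli.fintype_card_le_finrank
      simpa using this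
    refine Nat.le_findGreatest htH ⟨_, hli, fun l => ⟨fun j => ?_, ?_⟩⟩
    · refine pade_E_polysIn F (P l j) _ (fun u hu => ?_)
      have h1 : (u : ℝ) ≤ s := by
        by_contra h2
        exact hu (hPs l j u (not_le.mp h2))
      obtain ⟨k, hk, ξ, hξ, hs⟩ := hFmem u u.2
      have h3 : (0 : ℝ) ≤ u := by
        rw [← hs]
        have := (hI ξ hξ).1
        positivity
      exact ⟨h3, lt_of_le_of_lt h1 (Nat.lt_floor_add_one _)⟩
    · have h1 := hP l
      rw [LinearMap.mem_ker, hL, LinearMap.comp_apply, Submodule.mkQ_apply, Submodule.Quotient.mk_eq_zero,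
        pade_Phi_apply] at h1
      have h2 := val_le_of_mem hv hx h1
      rw [Real.rpow_natCast] at h2
      exact h2
  have hsumF : ∑ s ∈ F, ρ ⌊s⌋₊ = I.card * ∑ k ∈ Finset.range K, ρ k := pade_sum I hI K ρ
  have hker2 : finrank κ (LinearMap.ker L) ≤ I.card * ∑ k ∈ Finset.range K, ρ k := hker.trans_eq hsumF
  have hIpos : 0 < I.card := Finset.card_pos.mpr hIne
  have hfin : H * (K * I.card) ≤ n * I'.card + I.card * ∑ k ∈ Finset.range K, ρ k := by
    rw [← hV, ← hrn]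
    exact Nat.add_le_add hrank hker2
  have h5 : H * K * I.card < (n + 1 + ∑ k ∈ Finset.range K, ρ k) * I.card := by
    calc H * K * I.card = H * (K * I.card) := by ring
      _ ≤ n * I'.card + I.card * ∑ k ∈ Finset.range K, ρ k := hfin
      _ < (n + 1) * I.card + I.card * ∑ k ∈ Finset.range K, ρ k := by omega
      _ = _ := by ring
  have h6 := Nat.lt_of_mul_lt_mul_right h5
  have h7 : n + 1 + ∑ k ∈ Finset.range K, ρ k = (n + ∑ k ∈ Finset.range K, ρ k) + 1 := by ring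
  rw [h7] at h6
  exact Nat.le_of_lt_succ h6

end Pool.Agent.Lib.MP_d0d59f_nt.Lin
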