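import Pool.Agent.Lib.MP_d0d59f_nt.LinPade
import Pool.Agent.Lib.MP_d0d59f_nt.LinDenom

/-!
Row B1: the slope inequality for a family of maximal slope.
-/

namespace Pool.Agent.Lib.MP_d0d59f_nt.Lin

open Module Filter Topology

variable {κ 𝕂 : Type} [Field κ] [Field 𝕂] [Algebra κ 𝕂] {X : ℝ → 𝕂} {O : Subring 𝕂} {T : ℕ → 𝕂}
  {v N d : AbsoluteValue 𝕂 ℝ} {x y τ : ℝ} {Ω : Type} [NormedField Ω] [IsUltrametricDist Ω]
  [Algebra 𝕂 Ω]

/-- the dimension of the `𝕂`-span of a finite family in `Ω` -/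
noncomputable def spanRank (𝕂 : Type) {Ω : Type} [Field 𝕂] [NormedField Ω] [Algebra 𝕂 Ω] {H : ℕ}
    (G : Fin H → Ω) : ℕ := finrank 𝕂 (Submodule.span 𝕂 (Set.range G))

/-! ### auxiliary lemmas -/

theorem linSlope_polysIn_mono {S S' : Set ℝ} (h : S ⊆ S') : polysIn κ X S ≤ polysIn κ X S' :=
  Submodule.span_mono (Set.image_mono h)

theorem linSlope_polys_eq : polys κ X = polysIn κ X Set.univ := by
  unfold polys polysIn
  rw [Set.image_univ]

theorem linSlope_padeW_mono {H : ℕ} (g : Fin H → 𝕂) (n : ℕ) :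
    Monotone (padeW κ X v x g n) := by
  intro i i' h P hP
  refine ⟨fun j => linSlope_polysIn_mono ?_ (hP.1 j), hP.2⟩
  refine Set.Ico_subset_Ico_right ?_
  have : (i : ℝ) ≤ i' := by exact_mod_cast h
  linarith

theorem linSlope_tau (hI : IntData κ X O T) (hp : Place κ X O T v x N τ) : 1 ≤ τ := by
  have h1 := hp.liouville (T 0) (hI.T_mem 0) (hI.T_ne 0)
  rw [hp.tau 0] at h1
  simpa using h1

/-- the approximations of `X m * G i` by polynomials -/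
theorem linSlope_approx (hX : Mono κ X) (hp : Place κ X O T v x N τ)
    (hΩ : ∀ z, ‖algebraMap 𝕂 Ω z‖ = v z) {H : ℕ} (G : Fin H → Ω)
    (hG : ∀ i, G i ∈ closure (algebraMap 𝕂 Ω '' (polys κ X : Set 𝕂))) (m : ℕ)
    (hm : ∀ i, x ^ m * ‖G i‖ ≤ 1) (n : ℕ) :
    ∃ g : Fin H → 𝕂, (∀ i, g i ∈ polysIn κ X (Set.Ici 0)) ∧
      ∀ i, ‖algebraMap 𝕂 Ω (X m) * G i - algebraMap 𝕂 Ω (g i)‖ ≤ x ^ n := by
  have hx0 := hp.mval.pos
  have hXm : X m ∈ polys κ X := Submodule.subset_span ⟨_, rfl⟩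
  have hcl : ∀ i, algebraMap 𝕂 Ω (X m) * G i ∈ closure (algebraMap 𝕂 Ω '' (polys κ X : Set 𝕂)) := by
    intro i
    refine map_mem_closure (f := fun z => algebraMap 𝕂 Ω (X m) * z)
      (continuous_const.mul continuous_id) (hG i) ?_
    rintro _ ⟨z, hz, rfl⟩
    exact ⟨X m * z, mul_mem_polys hX hXm hz, map_mul _ _ _⟩
  have hex : ∀ i, ∃ g ∈ polys κ X, ‖algebraMap 𝕂 Ω (X m) * G i - algebraMap 𝕂 Ω g‖ ≤ x ^ n := by
    intro i
    obtain ⟨_, ⟨g, hg, rfl⟩, hd⟩ := Metric.mem_closure_iff.1 (hcl i) (x ^ n) (pow_pos hx0 n)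
    rw [dist_eq_norm] at hd
    exact ⟨g, hg, hd.le⟩
  choose g hg hgn using hex
  refine ⟨g, fun i => ?_, hgn⟩
  have h1 : ‖algebraMap 𝕂 Ω (X m) * G i‖ ≤ 1 := by
    rw [norm_mul, hΩ, hp.mval.val, Real.rpow_natCast]
    exact hm i
  have h2 : v (g i) ≤ x ^ (0 : ℝ) := by
    rw [Real.rpow_zero, ← hΩ]
    have h3 : algebraMap 𝕂 Ω (g i) = algebraMap 𝕂 Ω (X m) * G i +
        -(algebraMap 𝕂 Ω (X m) * G i - algebraMap 𝕂 Ω (g i)) := by ring
    rw [h3]
    refine (IsUltrametricDist.norm_add_le_max _ _).trans (max_le h1 ?_)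
    rw [norm_neg]
    exact (hgn i).trans (pow_le_one₀ hx0.le hp.lt_one.le)
  have h4 : g i ∈ polysIn κ X Set.univ := by
    rw [← linSlope_polys_eq]; exact hg i
  have h5 := mem_polysIn_of_le hp.mval hp.lt_one h4 h2
  rwa [Set.univ_inter] at h5

/-- the value of a Pade form -/
theorem linSlope_form_le (hp : Place κ X O T v x N τ)
    (hΩ : ∀ z, ‖algebraMap 𝕂 Ω z‖ = v z) {H : ℕ} (G : Fin H → Ω) (m n : ℕ) (g : Fin H → 𝕂)
    (hgn : ∀ i, ‖algebraMap 𝕂 Ω (X m) * G i - algebraMap 𝕂 Ω (g i)‖ ≤ x ^ n) {i : ℕ}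
    {P : Fin H → 𝕂} (hP : P ∈ padeW κ X v x g n i) :
    ‖∑ j, P j • G j‖ ≤ x ^ n * (x ^ m)⁻¹ := by
  have hx0 := hp.mval.pos
  have h1 : algebraMap 𝕂 Ω (X m) * ∑ j, P j • G j = algebraMap 𝕂 Ω (∑ j, P j * g j) +
      ∑ j, algebraMap 𝕂 Ω (P j) * (algebraMap 𝕂 Ω (X m) * G j - algebraMap 𝕂 Ω (g j)) := by
    rw [map_sum, ← Finset.sum_add_distrib, Finset.mul_sum]
    refine Finset.sum_congr rfl fun j _ => ?_
    rw [Algebra.smul_def, map_mul]
    ring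
  have h2 : ‖algebraMap 𝕂 Ω (X m) * ∑ j, P j • G j‖ ≤ x ^ n := by
    rw [h1]
    refine (IsUltrametricDist.norm_add_le_max _ _).trans (max_le ?_ ?_)
    · rw [hΩ]; exact hP.2
    · refine IsUltrametricDist.norm_sum_le_of_forall_le_of_nonneg (pow_nonneg hx0.le n) fun j _ => ?_
      rw [norm_mul]
      have h3 : ‖algebraMap 𝕂 Ω (P j)‖ ≤ 1 := by
        rw [hΩ]
        exact (place_le_one hp (linSlope_polysIn_mono (fun t ht => ht.1) (hP.1 j))).1
      calc ‖algebraMap 𝕂 Ω (P j)‖ * ‖algebraMap 𝕂 Ω (X m) * G j - algebraMap 𝕂 Ω (g j)‖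
          ≤ 1 * x ^ n := mul_le_mul h3 (hgn j) (norm_nonneg _) zero_le_one
        _ = x ^ n := one_mul _
  rw [norm_mul, hΩ, hp.mval.val, Real.rpow_natCast] at h2
  rw [← div_eq_mul_inv, le_div_iff₀ (pow_pos hx0 m), mul_comm]
  exact h2

/-- the key estimate for a fixed order `n` -/
theorem linSlope_step (hX : Mono κ X) (hI : IntData κ X O T) (hp : Place κ X O T v x N τ)
    (hd : MVal κ X d y) (hy : 1 < y) (hΩ : ∀ z, ‖algebraMap 𝕂 Ω z‖ = v z) {H : ℕ} (hH : 0 < H)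
    (G : Fin H → Ω)
    (hG : ∀ i, G i ∈ closure (algebraMap 𝕂 Ω '' (polys κ X : Set 𝕂)))
    (hmax : ∀ (t : ℕ) (P : Fin t → Fin H → 𝕂), LinearIndependent 𝕂 P →
      (∀ l i, P l i ∈ polys κ X) →
      t * spanRank 𝕂 G ≤ H * spanRank 𝕂 (fun l => ∑ i, algebraMap 𝕂 Ω (P l i) * G i))
    (C : ℝ)
    (hC : ∀ (w : Fin (spanRank 𝕂 G) → Fin H → 𝕂) (a b : Fin (spanRank 𝕂 G) → ℝ) (ε : ℝ),
      (∀ j i, w j i ∈ O) → (∀ j i, ‖algebraMap 𝕂 Ω (w j i)‖ ≤ a j) → (∀ j i, N (w j i) ≤ b j) →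
      LinearIndependent 𝕂 (fun j => ∑ i, w j i • G i) →
      (∀ j, ‖∑ i, w j i • G i‖ ≤ ε * a j) →
      1 ≤ C * ε * (∏ j, a j) * ∏ j, b j) (m : ℕ) (hm : ∀ i, x ^ m * ‖G i‖ ≤ 1) (n : ℕ) :
    ∃ k : ℕ, H * k ≤ spanRank 𝕂 G * n ∧
      1 ≤ C * (x ^ n * (x ^ m)⁻¹) * τ ^ (k + spanRank 𝕂 G) := by
  classical
  obtain ⟨g, hg, hgn⟩ := linSlope_approx hX hp hΩ G hG m hm n
  obtain ⟨ρ, hρH, hρP, hρs⟩ := exists_rank hX hp.mval hp.lt_one hd hy g hg n
  set A : ℕ → Set Ω := fun M => (fun P : Fin H → 𝕂 => ∑ j, P j • G j) '' padeW κ X v x g n M with hA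
  have hAmono : Monotone A := fun M M' h => Set.image_mono (linSlope_padeW_mono g n h)
  have hAsub : ∀ M, A M ⊆ Submodule.span 𝕂 (Set.range G) := by
    rintro M _ ⟨P, -, rfl⟩
    exact Submodule.sum_mem _ fun i _ => Submodule.smul_mem _ _ (Submodule.subset_span ⟨i, rfl⟩)
  have hfinS : FiniteDimensional 𝕂 (Submodule.span 𝕂 (Set.range G)) :=
    FiniteDimensional.span_of_finite 𝕂 (Set.finite_range G)
  have hle : ∀ M, Submodule.span 𝕂 (A M) ≤ Submodule.span 𝕂 (Set.range G) := fun M =>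
    Submodule.span_le.mpr (hAsub M)
  have hfin : ∀ M, FiniteDimensional 𝕂 (Submodule.span 𝕂 (A M)) := fun M =>
    Submodule.finiteDimensional_of_le (hle M)
  set r : ℕ → ℕ := fun M => finrank 𝕂 (Submodule.span 𝕂 (A M)) with hr
  have hds : ∀ M, r M ≤ spanRank 𝕂 G := fun M => Submodule.finrank_mono (hle M)
  have hρd : ∀ M, ρ M * spanRank 𝕂 G ≤ H * r M := by
    intro M
    obtain ⟨P, hPli, hPmem⟩ := hρP M
    refine (hmax _ P hPli fun l i => ?_).trans (Nat.mul_le_mul_left _ ?_)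
    · exact polysIn_le _ ((hPmem l).1 i)
    · refine Submodule.finrank_mono (Submodule.span_mono ?_)
      rintro _ ⟨l, rfl⟩
      refine ⟨P l, hPmem l, ?_⟩
      simp only [Algebra.smul_def]
  obtain ⟨M, hM⟩ : ∃ M, ρ M = H := by
    by_contra hcon
    push Not at hcon
    have h1 : ∀ M, ρ M ≤ H - 1 := fun M => by
      have := hρH M
      have := hcon M
      omega
    have h2 := hρs (n + 1)
    have h3 : ∑ i ∈ Finset.range (n + 1), ρ i ≤ (n + 1) * (H - 1) := by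
      calc ∑ i ∈ Finset.range (n + 1), ρ i ≤ ∑ _i ∈ Finset.range (n + 1), (H - 1) :=
            Finset.sum_le_sum fun i _ => h1 i
        _ = (n + 1) * (H - 1) := by simp
    have h4 : H * (n + 1) = (n + 1) * (H - 1) + (n + 1) := by
      obtain ⟨k, rfl⟩ := Nat.exists_eq_add_of_lt hH
      simp; ring
    omega
  have hdM : r M = spanRank 𝕂 G := by
    apply le_antisymm (hds M)
    have := hρd M
    rw [hM] at this
    exact Nat.le_of_mul_le_mul_left this hH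
  have hch := Auto.chain_basis A hAmono hfin M
  have hdM' : finrank 𝕂 (Submodule.span 𝕂 (A M)) = spanRank 𝕂 G := hdM
  rw [hdM'] at hch
  obtain ⟨w, μ, hwli, hwA, hsum⟩ := hch
  -- the bound for the sum of the degrees
  have hbound : H * ∑ j, μ j ≤ spanRank 𝕂 G * n := by
    have h1 : spanRank 𝕂 G * ∑ i ∈ Finset.range M, ρ i ≤ H * ∑ i ∈ Finset.range M, r i := by
      rw [Finset.mul_sum, Finset.mul_sum]
      exact Finset.sum_le_sum fun i _ => by rw [mul_comm]; exact hρd i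
    have h2 : spanRank 𝕂 G * (H * M) ≤
        spanRank 𝕂 G * (n + ∑ i ∈ Finset.range M, ρ i) := Nat.mul_le_mul_left _ (hρs M)
    have h3 : H * (∑ j, μ j + ∑ i ∈ Finset.range M, r i) = H * (M * spanRank 𝕂 G) := by
      rw [hsum]
    rw [mul_add] at h2 h3
    have h4 : H * (M * spanRank 𝕂 G) = spanRank 𝕂 G * (H * M) := by ring
    omega
  refine ⟨∑ j, μ j, hbound, ?_⟩
  choose P hPmem hPv using hwA
  have hden : ∀ j, ∃ D : κ, D ≠ 0 ∧ ∀ i, algebraMap κ 𝕂 D * T (μ j) * P j i ∈ O := fun j =>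
    exists_denom hI (μ j) (P j) (hPmem j).1
  choose D hD0 hDO using hden
  have hcoef : ∀ j, algebraMap κ 𝕂 (D j) * T (μ j) ≠ 0 := fun j =>
    mul_ne_zero (by simpa using hD0 j) (hI.T_ne _)
  have hval : ∀ j, ∑ i, (algebraMap κ 𝕂 (D j) * T (μ j) * P j i) • G i =
      (algebraMap κ 𝕂 (D j) * T (μ j)) • w j := by
    intro j
    rw [← hPv j, Finset.smul_sum]
    refine Finset.sum_congr rfl fun i _ => ?_
    rw [mul_smul]
  have hvD : ∀ j, v (algebraMap κ 𝕂 (D j) * T (μ j)) = v (T (μ j)) := by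
    intro j
    rw [map_mul, hp.mval.const _ (hD0 j), one_mul]
  have hND : ∀ j, N (algebraMap κ 𝕂 (D j) * T (μ j)) = N (T (μ j)) := by
    intro j
    rw [map_mul, hp.N_const _ (hD0 j), one_mul]
  have hPle : ∀ j i, v (P j i) ≤ 1 ∧ N (P j i) ≤ 1 := fun j i =>
    place_le_one hp (linSlope_polysIn_mono (fun t ht => ht.1) ((hPmem j).1 i))
  have hfinal := hC (fun j i => algebraMap κ 𝕂 (D j) * T (μ j) * P j i)
    (fun j => v (T (μ j))) (fun j => N (T (μ j))) (x ^ n * (x ^ m)⁻¹)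
    (fun j i => hDO j i)
    (fun j i => by
      rw [hΩ, map_mul, hvD]
      exact mul_le_of_le_one_right (v.nonneg _) (hPle j i).1)
    (fun j i => by
      rw [map_mul, hND]
      exact mul_le_of_le_one_right (N.nonneg _) (hPle j i).2)
    (by
      have h1 : (fun j => ∑ i, (algebraMap κ 𝕂 (D j) * T (μ j) * P j i) • G i) =
          (fun j => (Units.mk0 _ (hcoef j)) • w j) := by
        funext j
        exact hval j
      rw [h1]
      exact hwli.units_smul _)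
    (fun j => by
      have h1 := hval j
      rw [h1, Algebra.smul_def, norm_mul, hΩ, hvD, mul_comm]
      refine mul_le_mul_of_nonneg_right ?_ (v.nonneg _)
      rw [← hPv j]
      exact linSlope_form_le hp hΩ G m n g hgn (hPmem j))
  have hprod : (∏ j, v (T (μ j))) * ∏ j, N (T (μ j)) = τ ^ (∑ j, μ j + spanRank 𝕂 G) := by
    have h1 : ∑ j : Fin (spanRank 𝕂 G), (μ j + 1) = ∑ j, μ j + spanRank 𝕂 G := by
      rw [Finset.sum_add_distrib]; simp
    rw [← Finset.prod_mul_distrib, ← h1, ← Finset.prod_pow_eq_pow_sum]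
    exact Finset.prod_congr rfl fun j _ => hp.tau (μ j)
  rw [mul_assoc, hprod] at hfinal
  exact hfinal

/-- The slope inequality for a family of maximal slope. Proof (compare `Auto.as1_step`,
`Auto.slope_of_max`; assume `H ≥ 1`; `s = spanRank 𝕂 G`, `G ≠ 0`; `C` from `Auto.det_bound`).
Choose `m : ℕ` with `‖G_i‖ ≤ x ^ (-m)` for all `i`. Let `n` be given. As `X m` times an element of the
closure of the polynomials is in the closure there are `g_i ∈ polys` with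
`‖X m * G_i - g_i‖ ≤ x ^ n ≤ 1`; so `‖g_i‖ ≤ 1`, i.e. `g_i ∈ polysIn (Ici 0)` (`mem_polysIn_of_le`
with `r = 0`). Take `ρ` from `exists_rank` for `g` and `n`. For `P ∈ padeW g n i` put
`φ P = ∑_j P_j G_j ∈ Ω`; by `place_le_one` `‖X m * φ P‖ ≤ max (‖∑ P_j g_j‖) (x ^ n) ≤ x ^ n`, so
`‖φ P‖ ≤ x ^ n * x ^ (-m)`. Let `A i = φ '' padeW g n i ⊆ Ω`, monotone in `i`, contained in the span
of the `G_j`, and `r_i = finrank 𝕂 (span (A i))`. By `hmax` and the choice of `ρ i`: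
`ρ i * s ≤ H * r_i` (the values `φ (P l)` are in `A i`).
For `M = n + 1`: `H * M ≤ n + ∑_{i<M} ρ i` and `ρ i ≤ H` give some `i < M` with `ρ i = H`, so
`s ≤ r_i ≤ r_M`, so `r_M = s`. `Auto.chain_basis` for `A`, `M` gives `P^j ∈ padeW g n (m_j)`, `j < s`,
with independent `φ (P^j)` and `∑ m_j = M s - ∑_{i<M} r_i`, so
`H ∑ m_j ≤ H M s - s ∑_{i<M} ρ i ≤ s n`.
Multiply `P^j` by `D_j T_{m_j}` (`exists_denom`) and apply `det_bound` with `a_j = v (T_{m_j})`,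
`b_j = N (T_{m_j})`, `ε = x ^ n * x ^ (-m)`:
`1 ≤ C x^(-m) x^n ∏ τ^(m_j + 1) = (C x^(-m) τ^s) x^n τ^(∑ m_j)`. Raise to the power `H`:
`1 ≤ C'^H (x^H τ^s)^n` for all `n` with `C'` independent of `n` (`τ ≥ 1` because
`1 ≤ v (T 0) * N (T 0) = τ` by `liouville`), so `x^H τ^s ≥ 1`. -/
theorem slope_of_max' (hX : Mono κ X) (hI : IntData κ X O T) (hp : Place κ X O T v x N τ)
    (hd : MVal κ X d y) (hy : 1 < y) (hΩ : ∀ z, ‖algebraMap 𝕂 Ω z‖ = v z) {H : ℕ} (G : Fin H → Ω)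
    (hG : ∀ i, G i ∈ closure (algebraMap 𝕂 Ω '' (polys κ X : Set 𝕂)))
    (hind : ∀ P : Fin H → 𝕂, (∀ i, P i ∈ polys κ X) → ∑ i, algebraMap 𝕂 Ω (P i) * G i = 0 → P = 0)
    (hmax : ∀ (t : ℕ) (P : Fin t → Fin H → 𝕂), LinearIndependent 𝕂 P →
      (∀ l i, P l i ∈ polys κ X) →
      t * spanRank 𝕂 G ≤ H * spanRank 𝕂 (fun l => ∑ i, algebraMap 𝕂 Ω (P l i) * G i)) :
    (H : ℝ) * Real.log (1 / x) ≤ spanRank 𝕂 G * Real.log τ := by
  classical
  have hx0 : 0 < x := hp.mval.pos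
  have hx1 : x < 1 := hp.lt_one
  have hτ1 : 1 ≤ τ := linSlope_tau hI hp
  have hτ0 : 0 < τ := lt_of_lt_of_le one_pos hτ1
  rcases Nat.eq_zero_or_pos H with hH | hH
  · subst hH
    have : 0 ≤ Real.log τ := Real.log_nonneg hτ1
    simp only [Nat.cast_zero, zero_mul]
    positivity
  have hγ : G ≠ 0 := by
    intro hcon
    have h3 := hind (Pi.single ⟨0, hH⟩ 1) (by
      intro i
      by_cases hi : i = ⟨0, hH⟩
      · subst hi
        rw [Pi.single_eq_same]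
        exact one_mem_polys hX
      · rw [Pi.single_eq_of_ne hi]
        exact Submodule.zero_mem _) (by
      rw [hcon]
      simp)
    have h4 := congrFun h3 ⟨0, hH⟩
    simp at h4
  obtain ⟨C, hC0, hC⟩ := Auto.det_bound N hp.N_nonarch O hI.frac
    (fun z hz hz0 => by rw [hΩ]; exact hp.liouville z hz hz0)
    G hγ (s := spanRank 𝕂 G) rfl
  -- a common bound for the `G i`
  obtain ⟨m, hm⟩ : ∃ m : ℕ, ∀ i, x ^ m * ‖G i‖ ≤ 1 := by
    set B : ℝ := 1 + ∑ i, ‖G i‖ with hB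
    have hB0 : 0 < B := by
      have : 0 ≤ ∑ i, ‖G i‖ := Finset.sum_nonneg fun i _ => norm_nonneg _
      linarith
    obtain ⟨m, hm⟩ := exists_pow_lt_of_lt_one (show (0 : ℝ) < 1 / B by positivity) hx1
    refine ⟨m, fun i => ?_⟩
    have h1 : ‖G i‖ ≤ B := by
      have h0 : ‖G i‖ ≤ ∑ i, ‖G i‖ :=
        Finset.single_le_sum (f := fun i => ‖G i‖) (fun i _ => norm_nonneg _) (Finset.mem_univ i)
      linarith
    have h2 : x ^ m * B < 1 := by rwa [lt_div_iff₀ hB0] at hm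
    have h3 : x ^ m * ‖G i‖ ≤ x ^ m * B := mul_le_mul_of_nonneg_left h1 (pow_nonneg hx0.le m)
    linarith
  by_contra hcon
  push Not at hcon
  set r : ℝ := x ^ H * τ ^ spanRank 𝕂 G with hr
  have hr0 : 0 < r := by rw [hr]; positivity
  have hr1 : r < 1 := by
    rw [← Real.log_neg_iff hr0, hr, Real.log_mul (by positivity) (by positivity), Real.log_pow,
      Real.log_pow]
    rw [one_div, Real.log_inv] at hcon
    linarith
  set C' : ℝ := C * (x ^ m)⁻¹ * τ ^ spanRank 𝕂 G with hC'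
  have hC'0 : 0 < C' := by rw [hC']; positivity
  obtain ⟨n, hn⟩ := exists_pow_lt_of_lt_one (show (0 : ℝ) < 1 / C' ^ H by positivity) hr1
  obtain ⟨k, hk, h1⟩ := linSlope_step hX hI hp hd hy hΩ hH G hG hmax C
    (fun v a b ε h1 h2 h3 h4 h5 => hC v a b ε h1 h2 h3 h4 h5) m hm n
  have h1' : 1 ≤ C' * x ^ n * τ ^ k := by
    refine h1.trans (le_of_eq ?_)
    rw [hC', pow_add]
    ring
  have h2 : 1 ≤ (C' * x ^ n * τ ^ k) ^ H := one_le_pow₀ h1'
  have h3 : (C' * x ^ n * τ ^ k) ^ H ≤ C' ^ H * r ^ n := by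
    have h4 : (C' * x ^ n * τ ^ k) ^ H = C' ^ H * ((x ^ H) ^ n * τ ^ (H * k)) := by
      rw [mul_pow, mul_pow, ← pow_mul, ← pow_mul, ← pow_mul, mul_comm n H, mul_comm k H, mul_assoc]
    have h5 : r ^ n = (x ^ H) ^ n * τ ^ (spanRank 𝕂 G * n) := by
      rw [hr, mul_pow, ← pow_mul τ]
    rw [h4, h5]
    refine mul_le_mul_of_nonneg_left (mul_le_mul_of_nonneg_left ?_ (by positivity)) (by positivity)
    exact pow_le_pow_right₀ hτ1 hk
  have h6 : C' ^ H * r ^ n < 1 := by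
    rw [lt_div_iff₀ (by positivity)] at hn
    rw [mul_comm]; exact hn
  linarith

end Pool.Agent.Lib.MP_d0d59f_nt.Lin
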