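import Pool.Agent.Lib.MP_d0d59f_nt.LinSlope2
import Pool.Agent.Lib.MP_d0d59f_nt.LinCompl

/-!
Row C2: the transfer theorem.
-/

namespace Pool.Agent.Lib.MP_d0d59f_nt.Lin

open Module Filter Topology

variable {κ 𝕂 : Type} [Field κ] [Field 𝕂] [Algebra κ 𝕂] {X : ℝ → 𝕂} {O : Subring 𝕂} {T : ℕ → 𝕂}
  {v₁ v₂ N₁ N₂ d : AbsoluteValue 𝕂 ℝ} {x₁ x₂ y τ : ℝ}

/-- slope inequality over a stage -/
theorem transfer_slope (hX : Mono κ X) (hI : IntData κ X O T) (h : Place κ X O T v₁ x₁ N₁ τ)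
    (hd : MVal κ X d y) (hy : 1 < y) (hτ : 1 < τ) {Ω : Type} [NormedField Ω] [IsUltrametricDist Ω]
    (k : 𝕂 →+* Ω) (hk : ∀ z, ‖k z‖ = v₁ z) {L : Type} [Field L] (e : L →+* Ω)
    (he : ∀ a, e a ∈ closure (k '' (polys κ X : Set 𝕂))) (A : Subfield L)
    (hA : ∀ p ∈ polys κ X, ∃ a ∈ A, e a = k p) :
    Auto.SlopeIneq A k e (Real.log (1 / x₁) / Real.log τ) := by
  intro n G hG
  let _ := k.toAlgebra
  have h1 := slope' hX hI h hd hy (Ω := Ω) hk (fun l => e (G l)) (fun i => he _) (by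
    intro P hP h0
    choose a haA ha using fun i => hA (P i) (hP i)
    have h2 : ∑ i, (⟨a i, haA i⟩ : A) • G i = 0 := by
      apply e.injective
      rw [map_sum, map_zero, ← h0]
      refine Finset.sum_congr rfl fun i _ => ?_
      rw [Subfield.smul_def, smul_eq_mul, map_mul, ha]
      rfl
    have h3 := Fintype.linearIndependent_iff.mp hG _ h2
    funext i
    have h4 : a i = 0 := congrArg Subtype.val (h3 i)
    have h5 : k (P i) = 0 := by rw [← ha i, h4, map_zero]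
    rw [Pi.zero_apply]
    exact (map_eq_zero k).mp h5)
  have hlog : 0 < Real.log τ := Real.log_pos hτ
  rw [div_mul_eq_mul_div, div_le_iff₀ hlog, mul_comm (Real.log _)]
  exact h1

/-- The transfer theorem: if the sequence `∑ g_a f_a(r)`, `f_a(r)` polynomials with
`f_a(r+1) - f_a(r) → 0`, comes arbitrarily close to `z` at the place `v₁` then it converges to `z` at
the place `v₂`. -/
theorem transfer_mono (hX : Mono κ X) (hI : IntData κ X O T) (h₁ : Place κ X O T v₁ x₁ N₁ τ)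
    (h₂ : Place κ X O T v₂ x₂ N₂ τ) (hd : MVal κ X d y) (hy : 1 < y) (hτ : 1 < τ)
    (hsum : Real.log (1 / x₁) + Real.log (1 / x₂) = Real.log τ)
    (hirr : Irrational (Real.log (1 / x₁) / Real.log τ)) {n : ℕ} (f : Fin n → ℕ → 𝕂)
    (hf : ∀ a r, f a r ∈ polys κ X)
    (hf' : ∀ a, Tendsto (fun r => v₁ (f a (r + 1) - f a r)) atTop (𝓝 0)) (g : Fin n → 𝕂) (z : 𝕂)
    (h : ∀ ε : ℝ, 0 < ε → ∃ᶠ r in atTop, v₁ (z - ∑ a, g a * f a r) < ε) :
    Tendsto (fun r => v₂ (z - ∑ a, g a * f a r)) atTop (𝓝 0) := by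
  obtain ⟨Ω₁, i1, i2, i3, i4, hΩ₁⟩ := Auto.exists_completion v₁ h₁.mval.nonarch
  obtain ⟨Ω₂, j1, j2, j3, j4, hΩ₂⟩ := Auto.exists_completion v₂ h₂.mval.nonarch
  set k₁ : 𝕂 →+* Ω₁ := algebraMap 𝕂 Ω₁ with hk₁
  set k₂ : 𝕂 →+* Ω₂ := algebraMap 𝕂 Ω₂ with hk₂
  obtain ⟨L, _, e₁, e₂, hL1, hL2, hL3, hL4⟩ := exists_L hX h₁.mval h₂.mval h₁.lt_one h₂.lt_one
    k₁ k₂ hΩ₁ hΩ₂
  choose φ hφ₁ hφ₂ using fun a => hL4 (f a) (hf a) (hf' a)
  -- the initial stage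
  let A : Subfield L :=
    { carrier := {a | ∃ z : 𝕂, k₁ z = e₁ a ∧ k₂ z = e₂ a}
      mul_mem' := by
        rintro a b ⟨z, hz1, hz2⟩ ⟨y, hy1, hy2⟩
        exact ⟨z * y, by rw [map_mul, map_mul, hz1, hy1], by rw [map_mul, map_mul, hz2, hy2]⟩
      one_mem' := ⟨1, by rw [map_one, map_one], by rw [map_one, map_one]⟩
      add_mem' := by
        rintro a b ⟨z, hz1, hz2⟩ ⟨y, hy1, hy2⟩
        exact ⟨z + y, by rw [map_add, map_add, hz1, hy1], by rw [map_add, map_add, hz2, hy2]⟩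
      zero_mem' := ⟨0, by rw [map_zero, map_zero], by rw [map_zero, map_zero]⟩
      neg_mem' := by
        rintro a ⟨z, hz1, hz2⟩
        exact ⟨-z, by rw [map_neg, map_neg, hz1], by rw [map_neg, map_neg, hz2]⟩
      inv_mem' := by
        rintro a ⟨z, hz1, hz2⟩
        exact ⟨z⁻¹, by rw [map_inv₀, map_inv₀, hz1], by rw [map_inv₀, map_inv₀, hz2]⟩ }
  have hA1 : ∀ p ∈ polys κ X, ∃ a ∈ A, e₁ a = k₁ p := by
    intro p hp
    obtain ⟨a, ha1, ha2⟩ := hL1 p hp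
    exact ⟨a, ⟨p, ha1.symm, ha2.symm⟩, ha1⟩
  have hA2 : ∀ p ∈ polys κ X, ∃ a ∈ A, e₂ a = k₂ p := by
    intro p hp
    obtain ⟨a, ha1, ha2⟩ := hL1 p hp
    exact ⟨a, ⟨p, ha1.symm, ha2.symm⟩, ha2⟩
  have hA' : ∀ a : A, ∃ z : 𝕂, k₁ z = e₁ a ∧ k₂ z = e₂ a := fun a => a.2
  choose γ hγ1 hγ2 using hA'
  have hinj : Function.Injective k₁ := k₁.injective
  let i : A →+* 𝕂 :=
    { toFun := γ
      map_one' := by
        apply hinj
        rw [hγ1, map_one]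
        exact map_one _
      map_mul' := fun a b => by
        apply hinj
        rw [hγ1, map_mul, hγ1, hγ1]
        exact map_mul _ _ _
      map_zero' := by
        apply hinj
        rw [hγ1, map_zero]
        exact map_zero _
      map_add' := fun a b => by
        apply hinj
        rw [hγ1, map_add, hγ1, hγ1]
        exact map_add _ _ _ }
  have hlog : 0 < Real.log τ := Real.log_pos hτ
  have hstage : Auto.IsStage e₁ e₂ k₁ k₂ (Real.log (1 / x₁) / Real.log τ)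
      (Real.log (1 / x₂) / Real.log τ) A :=
    ⟨𝕂, inferInstance, k₁, k₂, i, RingHom.id 𝕂, hγ1, hγ2, fun z => rfl, fun z => rfl,
      transfer_slope hX hI h₁ hd hy hτ k₁ hΩ₁ e₁ hL2 A hA1,
      transfer_slope hX hI h₂ hd hy hτ k₂ hΩ₂ e₂ hL3 A hA2⟩
  have hpos : ∀ {x : ℝ}, 0 < x → x < 1 → 0 < Real.log (1 / x) / Real.log τ := by
    intro x hx hx1
    refine div_pos (Real.log_pos ?_) hlog
    rw [one_div]
    exact (one_lt_inv₀ hx).mpr hx1
  obtain ⟨A', hfA, hA'⟩ := Auto.stage_adjoin_finite (hpos h₁.mval.pos h₁.lt_one)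
    (hpos h₂.mval.pos h₂.lt_one) (by rw [← add_div, hsum, div_self hlog.ne']) hirr hstage φ
  -- limits
  have hlim₁ : Tendsto (fun r => v₁ (z - ∑ a, g a * f a r)) atTop
      (𝓝 ‖k₁ z - ∑ a, k₁ (g a) * e₁ (φ a)‖) := by
    have h3 : Tendsto (fun r => k₁ z - ∑ a, k₁ (g a) * k₁ (f a r)) atTop
        (𝓝 (k₁ z - ∑ a, k₁ (g a) * e₁ (φ a))) :=
      tendsto_const_nhds.sub (tendsto_finsetSum _ fun a _ => tendsto_const_nhds.mul (hφ₁ a))
    refine h3.norm.congr fun r => ?_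
    rw [← hΩ₁, map_sub, map_sum]
    simp only [map_mul]
  have hlim₂ : Tendsto (fun r => v₂ (z - ∑ a, g a * f a r)) atTop
      (𝓝 ‖k₂ z - ∑ a, k₂ (g a) * e₂ (φ a)‖) := by
    have h3 : Tendsto (fun r => k₂ z - ∑ a, k₂ (g a) * k₂ (f a r)) atTop
        (𝓝 (k₂ z - ∑ a, k₂ (g a) * e₂ (φ a))) :=
      tendsto_const_nhds.sub (tendsto_finsetSum _ fun a _ => tendsto_const_nhds.mul (hφ₂ a))
    refine h3.norm.congr fun r => ?_
    rw [← hΩ₂, map_sub, map_sum]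
    simp only [map_mul]
  have h0 : ‖k₁ z - ∑ a, k₁ (g a) * e₁ (φ a)‖ = 0 := by
    refine le_antisymm ?_ (norm_nonneg _)
    refine le_of_forall_pos_le_add fun ε hε => ?_
    by_contra hcon
    push Not at hcon
    rw [zero_add] at hcon
    have h5 := hlim₁.eventually (lt_mem_nhds hcon)
    obtain ⟨r, hr1, hr2⟩ := ((h ε hε).and_eventually h5).exists
    linarith
  have h6 : ∑ a, k₁ (g a) * e₁ (φ a) = k₁ z := (sub_eq_zero.mp (norm_eq_zero.mp h0)).symm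
  have h7 := Auto.stage_transfer hA' hfA g z h6
  rw [h7, sub_self, norm_zero] at hlim₂
  exact hlim₂

end Pool.Agent.Lib.MP_d0d59f_nt.Lin
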