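import Pool.Agent.Lib.MP_d0d59f_nt.LinDefs

/-!
Row A1: values of polynomials.
-/

namespace Pool.Agent.Lib.MP_d0d59f_nt.Lin

open Module Filter Topology

variable {κ 𝕂 : Type} [Field κ] [Field 𝕂] [Algebra κ 𝕂] {X : ℝ → 𝕂} {v : AbsoluteValue 𝕂 ℝ} {x : ℝ}

theorem linVal_smul (hv : MVal κ X v x) (c : κ) (hc : c ≠ 0) (t : ℝ) : v (c • X t) = x ^ t := by
  rw [Algebra.smul_def, map_mul, hv.const c hc, one_mul, hv.val]

/-- A finite sum of terms of value `< M` has value `< M`, `M > 0`. -/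
theorem linVal_sum_lt (hv : MVal κ X v x) {ι : Type} (s : Finset ι) (f : ι → 𝕂) {M : ℝ}
    (hM : 0 < M) (h : ∀ i ∈ s, v (f i) < M) : v (∑ i ∈ s, f i) < M := by
  classical
  induction s using Finset.induction_on with
  | empty => simpa using hM
  | insert a s ha ih =>
    rw [Finset.sum_insert ha]
    refine lt_of_le_of_lt (hv.nonarch _ _) (max_lt (h a (by simp)) (ih ?_))
    intro i hi
    exact h i (by simp [hi])

theorem linVal_sum_le (hv : MVal κ X v x) {ι : Type} (s : Finset ι) (f : ι → 𝕂) {M : ℝ}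
    (hM : 0 ≤ M) (h : ∀ i ∈ s, v (f i) ≤ M) : v (∑ i ∈ s, f i) ≤ M := by
  classical
  induction s using Finset.induction_on with
  | empty => simpa using hM
  | insert a s ha ih =>
    rw [Finset.sum_insert ha]
    refine le_trans (hv.nonarch _ _) (max_le (h a (by simp)) (ih ?_))
    intro i hi
    exact h i (by simp [hi])

theorem linVal_add_eq (hv : MVal κ X v x) {a b : 𝕂} (h : v b < v a) : v (a + b) = v a := by
  apply le_antisymm
  · exact le_trans (hv.nonarch a b) (max_le le_rfl h.le)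
  · by_contra hlt
    push Not at hlt
    have h1 : v a ≤ max (v (a + b)) (v b) := by
      have := hv.nonarch (a + b) (-b)
      rw [v.map_neg] at this
      simpa using this
    rcases le_max_iff.mp h1 with h2 | h2
    · exact absurd hlt (not_lt.mpr h2)
    · exact absurd h (not_lt.mpr h2)

theorem linVal_rpow_inj (hv : MVal κ X v x) {s t : ℝ} (h : x ^ s = x ^ t) : s = t := by
  have hl : Real.log x ≠ 0 := by
    rw [Ne, Real.log_eq_zero]
    have := hv.pos
    have h1 := hv.ne_one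
    rintro (h | h | h)
    · linarith
    · exact h1 h
    · linarith
  have h2 : s * Real.log x = t * Real.log x := by
    rw [← Real.log_rpow hv.pos, ← Real.log_rpow hv.pos, h]
  exact mul_right_cancel₀ hl h2

/-- The value of a nonzero polynomial is the largest of the numbers `x ^ t`, `t` an exponent.
Proof: choose `s` in the support with `x ^ s` maximal. As `x ≠ 1`, `x > 0`, the numbers `x ^ t` are
different for different `t`, so the other terms `c t • X t` have strictly smaller value, hence so has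
their sum (induction over the finite set with `nonarch`), and `v (a + b) = v a` if `v b < v a`. -/
theorem val_lc (hv : MVal κ X v x) (c : ℝ →₀ κ) (hc : c ≠ 0) :
    ∃ s, c s ≠ 0 ∧ v (Finsupp.linearCombination κ X c) = x ^ s ∧
      ∀ t, c t ≠ 0 → x ^ t ≤ x ^ s := by
  classical
  have hne : c.support.Nonempty := Finsupp.support_nonempty_iff.mpr hc
  obtain ⟨s, hs, hmax⟩ := Finset.exists_max_image c.support (fun t => x ^ t) hne
  have hs' : c s ≠ 0 := Finsupp.mem_support_iff.mp hs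
  refine ⟨s, hs', ?_, fun t ht => hmax t (Finsupp.mem_support_iff.mpr ht)⟩
  rw [Finsupp.linearCombination_apply, Finsupp.sum, ← Finset.add_sum_erase _ _ hs]
  rw [linVal_add_eq hv, linVal_smul hv _ hs']
  rw [linVal_smul hv _ hs']
  apply linVal_sum_lt hv _ _ (Real.rpow_pos_of_pos hv.pos _)
  intro t ht
  have ht1 := Finset.ne_of_mem_erase ht
  have ht2 := Finset.mem_of_mem_erase ht
  rw [linVal_smul hv _ (Finsupp.mem_support_iff.mp ht2)]
  refine lt_of_le_of_ne (hmax t ht2) ?_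
  intro h
  exact ht1 (linVal_rpow_inj hv h)

/-- From `val_lc`: the value of a nonzero polynomial is positive. -/
theorem lc_injective (hv : MVal κ X v x) :
    Function.Injective (Finsupp.linearCombination κ X : (ℝ →₀ κ) →ₗ[κ] 𝕂) := by
  rw [← LinearMap.ker_eq_bot, LinearMap.ker_eq_bot']
  intro c hc
  by_contra hne
  obtain ⟨s, _, h, _⟩ := val_lc hv c hne
  rw [hc, map_zero] at h
  have := Real.rpow_pos_of_pos hv.pos s
  linarith

/-- From `val_lc` (case `x < 1`: `x ^ t ≤ x ^ r ↔ r ≤ t`). -/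
theorem val_lc_le_iff (hv : MVal κ X v x) (hx : x < 1) (c : ℝ →₀ κ) (r : ℝ) :
    v (Finsupp.linearCombination κ X c) ≤ x ^ r ↔ ∀ t, c t ≠ 0 → r ≤ t := by
  have key : ∀ s t : ℝ, x ^ s ≤ x ^ t ↔ t ≤ s := fun s t =>
    Real.rpow_le_rpow_left_iff_of_base_lt_one hv.pos hx
  by_cases hc : c = 0
  · subst hc
    simp only [map_zero, Finsupp.coe_zero, Pi.zero_apply, ne_eq, not_true_eq_false,
      IsEmpty.forall_iff, implies_true, iff_true]
    exact (Real.rpow_pos_of_pos hv.pos _).le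
  · obtain ⟨s, hs, h, hmax⟩ := val_lc hv c hc
    rw [h]
    constructor
    · intro h1 t ht
      exact (key _ _).mp (le_trans (hmax t ht) h1)
    · intro h1
      exact (key _ _).mpr (h1 s hs)

/-- `Finsupp.mem_span_image_iff_linearCombination`. -/
theorem mem_polysIn (S : Set ℝ) (z : 𝕂) :
    z ∈ polysIn κ X S ↔ ∃ c : ℝ →₀ κ, (∀ t, c t ≠ 0 → t ∈ S) ∧
      Finsupp.linearCombination κ X c = z := by
  unfold polysIn
  rw [Finsupp.mem_span_image_iff_linearCombination]
  constructor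
  · rintro ⟨c, hc, h⟩
    refine ⟨c, ?_, h⟩
    intro t ht
    exact (Finsupp.mem_supported κ c).mp hc (Finsupp.mem_support_iff.mpr ht)
  · rintro ⟨c, hc, h⟩
    refine ⟨c, ?_, h⟩
    rw [Finsupp.mem_supported]
    intro t ht
    exact hc t (Finsupp.mem_support_iff.mp ht)

/-- A polynomial of value at most `x ^ r` has all exponents at least `r`. -/
theorem mem_polysIn_of_le (hv : MVal κ X v x) (hx : x < 1) {S : Set ℝ} {z : 𝕂}
    (hz : z ∈ polysIn κ X S) {r : ℝ} (h : v z ≤ x ^ r) : z ∈ polysIn κ X (S ∩ Set.Ici r) := by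
  obtain ⟨c, hc, rfl⟩ := (mem_polysIn S z).mp hz
  rw [mem_polysIn]
  refine ⟨c, ?_, rfl⟩
  intro t ht
  exact ⟨hc t ht, (val_lc_le_iff hv hx c r).mp h t ht⟩

/-- A polynomial with exponents at least `r` has value at most `x ^ r`. -/
theorem val_le_of_mem (hv : MVal κ X v x) (hx : x < 1) {z : 𝕂} {r : ℝ}
    (hz : z ∈ polysIn κ X (Set.Ici r)) : v z ≤ x ^ r := by
  obtain ⟨c, hc, rfl⟩ := (mem_polysIn _ z).mp hz
  exact (val_lc_le_iff hv hx c r).mpr (fun t ht => hc t ht)

/-- Products of polynomials: `X s * X t = c • X (s + t)` and bilinearity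
(`Submodule.span_induction` twice). -/
theorem mul_mem_polysIn (hX : Mono κ X) {S S' S'' : Set ℝ} (h : ∀ s ∈ S, ∀ t ∈ S', s + t ∈ S'')
    {a b : 𝕂} (ha : a ∈ polysIn κ X S) (hb : b ∈ polysIn κ X S') : a * b ∈ polysIn κ X S'' := by
  unfold polysIn at ha hb ⊢
  have h0 : a * b ∈ Submodule.span κ (X '' S) * Submodule.span κ (X '' S') :=
    Submodule.mul_mem_mul ha hb
  rw [Submodule.span_mul_span] at h0
  refine Submodule.span_le.mpr ?_ h0
  rintro _ ⟨_, ⟨s, hs, rfl⟩, _, ⟨t, ht, rfl⟩, rfl⟩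
  obtain ⟨c, _, hc⟩ := hX.mul s t
  simp only [SetLike.mem_coe]
  rw [hc]
  exact Submodule.smul_mem _ _ (Submodule.subset_span ⟨s + t, h s hs t ht, rfl⟩)

theorem linVal_polys_eq : polys κ X = polysIn κ X Set.univ := by
  unfold polys polysIn
  rw [Set.image_univ]

theorem mul_mem_polys (hX : Mono κ X) {a b : 𝕂} (ha : a ∈ polys κ X) (hb : b ∈ polys κ X) :
    a * b ∈ polys κ X := by
  rw [linVal_polys_eq] at ha hb ⊢
  exact mul_mem_polysIn hX (fun _ _ _ _ => Set.mem_univ _) ha hb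

theorem polysIn_le (S : Set ℝ) : polysIn κ X S ≤ polys κ X :=
  Submodule.span_mono (Set.image_subset_range _ _)

theorem one_mem_polys (hX : Mono κ X) : (1 : 𝕂) ∈ polys κ X := by
  obtain ⟨c, hc, h⟩ := hX.zero
  have h1 : (1 : 𝕂) = c⁻¹ • X 0 := by
    rw [h, Algebra.smul_def, ← map_mul, inv_mul_cancel₀ hc, map_one]
  rw [h1]
  exact Submodule.smul_mem _ _ (Submodule.subset_span ⟨0, rfl⟩)

/-- The inverse of a monomial is a constant times a monomial. -/
theorem inv_X (hX : Mono κ X) (s : ℝ) : ∃ c : κ, c ≠ 0 ∧ (X s)⁻¹ = c • X (-s) := by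
  obtain ⟨c, hc, h⟩ := hX.mul s (-s)
  obtain ⟨e, he, h0⟩ := hX.zero
  rw [add_neg_cancel, h0] at h
  have hce : c * e ≠ 0 := mul_ne_zero hc he
  refine ⟨(c * e)⁻¹, inv_ne_zero hce, ?_⟩
  apply inv_eq_of_mul_eq_one_right
  rw [Algebra.smul_def, mul_left_comm, h, Algebra.smul_def, ← map_mul,
    ← map_mul, inv_mul_cancel₀ hce, map_one]

end Pool.Agent.Lib.MP_d0d59f_nt.Lin
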