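import Pool.Agent.Lib.MP_d0d59f_nt.LinLevel

/-!
Row U1: the walk through the long blocks at one level.
-/

namespace Pool.Agent.Lib.MP_d0d59f_nt.Lin

open Filter Topology Auto

/-- the growth of the positions -/
noncomputable def walk_D (R C : ℕ) : ℕ → ℝ
  | 0 => R
  | i + 1 => (C + 1) * (walk_D R C i + 1) + C + R

theorem walk_D_nonneg (R C : ℕ) : ∀ i, 0 ≤ walk_D R C i
  | 0 => by simp only [walk_D]; positivity
  | i + 1 => by
    have := walk_D_nonneg R C i
    simp only [walk_D]
    positivity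

/-- `S` is the set of the types of the long blocks, the other blocks have length `≤ ε`.
Proof. For every `k` there is `k' > k` with `ty k' ∈ S`: else `run_le` (for `k + 1`, all `k'`)
bounds `jt k' ≥ k'`. Let `nxt k = k + 1` if `ty k ∈ S`, and the least `k' > k` with `ty k' ∈ S`
otherwise (`Nat.find`); `idx 0 = 0`, `idx (i + 1) = nxt (idx i)`, `P i = jt (idx i)`. If
`ty (idx i) ∉ S` then all the blocks `idx i, ..., idx (i + 1) - 1` have types not in `S`, so
`run_le` and `run_form` apply, and `ty (idx (i + 1)) ∈ S`.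
`P 0 ≤ R n`; `P (i + 1) ≤ P i + R n` or `≤ C (P i + n) + C`: `D (i + 1) = (C + 1) (D i + 1) + C + R`.
`P i + δ n ≤ P (i + 2)`: one of the blocks `idx i`, `idx (i + 1)` is long.
`c i a = 1` if `ty (idx i) = a ∈ S`, else `0`; if `ty (idx i) ∈ S` then `α i = β i = 0` and the
identity is `gval_eq`; else `α i`, `β i` from `run_form`. (`ht 0 = 1`.) -/
theorem exists_walk (R C : ℕ) (B : ℝ) (hB : 1 ≤ B) : ∃ D : ℕ → ℝ, ∀ {d x : ℤ} {n : ℕ} {jt : ℕ → ℕ}
    {ty : ℕ → Fin (2 * R + 1)} (_ : Level d x R C B n jt ty) (_ : 1 ≤ n)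
    (S : Finset (Fin (2 * R + 1))) (ε : ℕ) (_ : (3 * R + 3) * ε ≤ n) (δ : ℝ) (_ : 0 ≤ δ)
    (_ : ∀ k, ty k ∈ S → (jt k : ℝ) + δ * n ≤ jt (k + 1))
    (_ : ∀ k, ty k ∉ S → jt (k + 1) ≤ jt k + ε) (g : Fin (2 * R + 1) → ℚ)
    (_ : ∀ k, g (ty k) = gval d ((T d)^[jt k] x) (jt (k + 1) - jt k)),
    ∃ (P : ℕ → ℕ) (c : ℕ → Fin (2 * R + 1) → ℚ) (α β : ℕ → ℚ),
      (∀ i, (P i : ℝ) ≤ D i * n) ∧ (∀ i, P i ≤ P (i + 1)) ∧
      (∀ i, (P i : ℝ) + δ * n ≤ P (i + 2)) ∧ (∀ i a, c i a = 0 ∨ c i a = 1) ∧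
      (∀ i, (ht (α i) : ℝ) ≤ B ^ (R * ε + 1)) ∧ (∀ i, (ht (β i) : ℝ) ≤ B ^ (R * ε + 1)) ∧
      ∀ i, ((T d)^[P i] x : ℚ) = ∑ a, g a * c i a + α i +
        2 ^ (P (i + 1) - P i) / 3 ^ ones d ((T d)^[P i] x) (P (i + 1) - P i) *
          (β i + ((T d)^[P (i + 1)] x : ℤ)) := by
  classical
  refine ⟨walk_D R C, ?_⟩
  intro d x n jt ty hL hn S ε hε δ hδ hlong hshort g hg
  have hmono := hL.mono
  -- existence of the next long block
  have hex : ∀ k, ∃ k', k < k' ∧ ty k' ∈ S := by
    intro k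
    by_contra hcon
    push Not at hcon
    have hb : ∀ k', k + 1 ≤ k' → jt k' ≤ C * (jt (k + 1) + n) + C := by
      intro k' hk'
      exact hL.run_le ε (k + 1) k' hε hk' (fun i hi _ => hshort i (hcon i (by omega)))
    have h1 := hb (k + 1 + (C * (jt (k + 1) + n) + C) + 1) (by omega)
    have h2 := hmono.id_le (k + 1 + (C * (jt (k + 1) + n) + C) + 1)
    simp only [id] at h2
    omega
  let nxt : ℕ → ℕ := fun k => if ty k ∈ S then k + 1 else Nat.find (hex k)
  have nxt_pos : ∀ k, ty k ∈ S → nxt k = k + 1 := fun k hk => by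
    simp only [nxt, if_pos hk]
  have nxt_neg : ∀ k, ty k ∉ S → nxt k = Nat.find (hex k) := fun k hk => by
    simp only [nxt, if_neg hk]
  have nxt_gt : ∀ k, k < nxt k := by
    intro k
    by_cases hk : ty k ∈ S
    · rw [nxt_pos k hk]; omega
    · rw [nxt_neg k hk]; exact (Nat.find_spec (hex k)).1
  have nxt_mem : ∀ k, ty k ∉ S → ty (nxt k) ∈ S := by
    intro k hk
    rw [nxt_neg k hk]; exact (Nat.find_spec (hex k)).2
  have nxt_short : ∀ k, ty k ∉ S → ∀ i, k ≤ i → i < nxt k → jt (i + 1) ≤ jt i + ε := by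
    intro k hk i hi1 hi2
    apply hshort
    rcases hi1.eq_or_lt with h | h
    · rw [← h]; exact hk
    · rw [nxt_neg k hk] at hi2
      intro hmem
      exact Nat.find_min (hex k) hi2 ⟨h, hmem⟩
  let idx : ℕ → ℕ := fun i => nxt^[i] 0
  have idx_succ : ∀ i, idx (i + 1) = nxt (idx i) := fun i => by
    simp only [idx, Function.iterate_succ_apply']
  -- the coefficients
  have hform : ∀ i, ∃ α β : ℚ, ∃ c : Fin (2 * R + 1) → ℚ, (∀ a, c a = 0 ∨ c a = 1) ∧
      (ht α : ℝ) ≤ B ^ (R * ε + 1) ∧ (ht β : ℝ) ≤ B ^ (R * ε + 1) ∧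
      ((T d)^[jt (idx i)] x : ℚ) = ∑ a, g a * c a + α +
        2 ^ (jt (idx (i + 1)) - jt (idx i)) /
          3 ^ ones d ((T d)^[jt (idx i)] x) (jt (idx (i + 1)) - jt (idx i)) *
          (β + ((T d)^[jt (idx (i + 1))] x : ℤ)) := by
    intro i
    have hht0 : ((ht 0 : ℕ) : ℝ) ≤ B ^ (R * ε + 1) := by
      have h0 : ht 0 = 1 := by simp [ht]
      rw [h0]; push_cast; exact one_le_pow₀ hB
    by_cases hk : ty (idx i) ∈ S
    · refine ⟨0, 0, fun a => if a = ty (idx i) then 1 else 0, ?_, hht0, hht0, ?_⟩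
      · intro a
        by_cases ha : a = ty (idx i)
        · right; simp [ha]
        · left; simp [ha]
      · rw [idx_succ, nxt_pos _ hk]
        simp only [mul_ite, mul_one, mul_zero, Finset.sum_ite_eq', Finset.mem_univ, if_true,
          add_zero, zero_add]
        rw [hg (idx i)]
        have h1 := gval_eq d ((T d)^[jt (idx i)] x) (jt (idx i + 1) - jt (idx i))
        rw [← Function.iterate_add_apply,
          Nat.sub_add_cancel (hmono.monotone (Nat.le_add_right (idx i) 1))] at h1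
        rw [h1]
        ring
    · obtain ⟨α, β, hα, hβ, hform⟩ := hL.run_form ε (idx i) (idx (i + 1)) hε
        (by rw [idx_succ]; exact (nxt_gt _).le)
        (by intro j hj1 hj2; rw [idx_succ] at hj2; exact nxt_short _ hk j hj1 hj2)
      refine ⟨α, β, fun _ => 0, fun _ => Or.inl rfl, hα, hβ, ?_⟩
      simp only [mul_zero, Finset.sum_const_zero, zero_add]
      exact hform
  choose α β c hc hα hβ hid using hform
  refine ⟨fun i => jt (idx i), c, α, β, ?_, ?_, ?_, hc, hα, hβ, hid⟩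
  · intro i
    induction i with
    | zero =>
      have h0 : idx 0 = 0 := rfl
      have := hL.zero_le
      simp only [h0, walk_D]
      exact_mod_cast this
    | succ i ih =>
      have hD := walk_D_nonneg R C i
      have hn' : (1 : ℝ) ≤ n := by exact_mod_cast hn
      simp only at ih ⊢
      rw [idx_succ]
      have hCn : (0 : ℝ) ≤ C := Nat.cast_nonneg C
      have hRn : (0 : ℝ) ≤ R := Nat.cast_nonneg R
      by_cases hk : ty (idx i) ∈ S
      · rw [nxt_pos _ hk]
        have h1 : ((jt (idx i + 1) : ℕ) : ℝ) ≤ jt (idx i) + R * n := by exact_mod_cast hL.gap (idx i)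
        have h2 : (jt (idx i) : ℝ) + R * n ≤ walk_D R C i * n + R * n := by linarith
        refine (h1.trans h2).trans ?_
        simp only [walk_D]
        have : walk_D R C i * n + R * n ≤ ((C + 1) * (walk_D R C i + 1) + C + R) * n := by
          have e : ((C + 1) * (walk_D R C i + 1) + C + R) * (n : ℝ) -
              (walk_D R C i * n + R * n) = (C * (walk_D R C i + 1) + 1 + C) * n := by ring
          have : 0 ≤ (C * (walk_D R C i + 1) + 1 + C) * (n : ℝ) := by positivity
          linarith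
        exact this
      · have h1 := hL.run_le ε (idx i) (nxt (idx i)) hε (nxt_gt _).le (nxt_short _ hk)
        have h1' : ((jt (nxt (idx i)) : ℕ) : ℝ) ≤ C * (jt (idx i) + n) + C := by
          exact_mod_cast h1
        have h2 : (C : ℝ) * (jt (idx i) + n) + C ≤ C * (walk_D R C i * n + n) + C * n := by
          have := mul_le_mul_of_nonneg_left ih hCn
          nlinarith
        refine (h1'.trans h2).trans ?_
        simp only [walk_D]
        have e : ((C + 1) * (walk_D R C i + 1) + C + R) * (n : ℝ) -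
            (C * (walk_D R C i * n + n) + C * n) = (walk_D R C i + 1 + R) * n := by ring
        have : 0 ≤ (walk_D R C i + 1 + R) * (n : ℝ) := by positivity
        linarith
  · intro i
    simp only
    rw [idx_succ]
    exact hmono.monotone (nxt_gt _).le
  · intro i
    simp only
    have e1 : idx (i + 2) = nxt (idx (i + 1)) := idx_succ (i + 1)
    have e2 : idx (i + 1) = nxt (idx i) := idx_succ i
    have m1 : (jt (idx (i + 1)) : ℝ) ≤ jt (idx (i + 2)) := by
      rw [e1]; exact_mod_cast hmono.monotone (nxt_gt _).le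
    have m0 : (jt (idx i) : ℝ) ≤ jt (idx (i + 1)) := by
      rw [e2]; exact_mod_cast hmono.monotone (nxt_gt _).le
    by_cases hk : ty (idx i) ∈ S
    · have h1 := hlong _ hk
      have : (jt (idx (i + 1)) : ℝ) = jt (idx i + 1) := by rw [e2, nxt_pos _ hk]
      rw [← this] at h1
      linarith
    · have hk' : ty (idx (i + 1)) ∈ S := by rw [e2]; exact nxt_mem _ hk
      have h1 := hlong _ hk'
      have : (jt (idx (i + 2)) : ℝ) = jt (idx (i + 1) + 1) := by rw [e1, nxt_pos _ hk']
      rw [← this] at h1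
      linarith

end Pool.Agent.Lib.MP_d0d59f_nt.Lin
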