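import Pool.Agent.Lib.MP_d0d59f_nt.LogMeasure

/-!
# The polynomial lower bound for linear forms in `log 2` and `log 3`
-/

open Polynomial Real

namespace Pool.Agent.Lib.LogMeasure

/-- the common denominator -/
noncomputable def D (m : ℕ) : ℤ := Nat.lcmUpto (5 * (2 * m))

/-- the coefficient of the logarithms -/
noncomputable def A (m : ℕ) : ℤ := D m * (P ^ (2 * m)).coeff (5 * (2 * m))

noncomputable def E1 (m : ℕ) : ℝ := D m * ∫ x in (6 : ℝ)..8, f (2 * m) x
noncomputable def E2 (m : ℕ) : ℝ := D m * ∫ x in (8 : ℝ)..9, f (2 * m) x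

lemma one_le_D (m : ℕ) : (1 : ℝ) ≤ D m := by
  have h : 0 < Nat.lcmUpto (5 * (2 * m)) := Nat.lcmUpto_pos _
  have : (1 : ℤ) ≤ D m := by
    unfold D
    exact_mod_cast h
  exact_mod_cast this

lemma E1_form (m : ℕ) : ∃ z : ℤ, E1 m = A m * log (4 / 3) + z := by
  obtain ⟨z1, hz1⟩ := exists_int_T good_six (2 * m)
  obtain ⟨z2, hz2⟩ := exists_int_T good_eight (2 * m)
  refine ⟨z2 - z1, ?_⟩
  unfold E1 A D
  rw [integral_f (2 * m) (by norm_num) (by norm_num), show (8 / 6 : ℝ) = 4 / 3 by norm_num]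
  push_cast at hz1 hz2 ⊢
  rw [← hz1, ← hz2]
  ring

lemma E2_form (m : ℕ) : ∃ z : ℤ, E2 m = A m * log (9 / 8) + z := by
  obtain ⟨z1, hz1⟩ := exists_int_T good_eight (2 * m)
  obtain ⟨z2, hz2⟩ := exists_int_T good_nine (2 * m)
  refine ⟨z2 - z1, ?_⟩
  unfold E2 A D
  rw [integral_f (2 * m) (by norm_num) (by norm_num)]
  push_cast at hz1 hz2 ⊢
  rw [← hz1, ← hz2]
  ring

lemma E2_nonneg (m : ℕ) : 0 ≤ E2 m :=
  mul_nonneg (by linarith [one_le_D m]) (int_nonneg m (by norm_num) (by norm_num))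

lemma E1_ge (m : ℕ) : ((45 / 100000) ^ 2) ^ m / 40 ≤ E1 m := by
  unfold E1
  have h1 := le_int_a m
  have h2 := one_le_D m
  rw [pow_mul] at h1
  have h3 : (0 : ℝ) ≤ ((45 / 100000) ^ 2) ^ m / 40 := by positivity
  nlinarith

lemma E2_le_E1 (m : ℕ) : E2 m ≤ 40 * (64 / 81) ^ m * E1 m := by
  unfold E2 E1
  have h1 := le_int_a m
  have h2 := int_b_le m
  have h3 : (0 : ℝ) ≤ D m := by linarith [one_le_D m]
  have h4 : ((4 : ℝ) / 10000) ^ (2 * m) = (64 / 81) ^ m * (45 / 100000) ^ (2 * m) := by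
    rw [pow_mul, pow_mul, ← mul_pow]
    norm_num
  have h5 : ∫ x in (8 : ℝ)..9, f (2 * m) x ≤ 40 * (64 / 81) ^ m * ∫ x in (6 : ℝ)..8, f (2 * m) x := by
    calc ∫ x in (8 : ℝ)..9, f (2 * m) x ≤ (64 / 81) ^ m * (45 / 100000) ^ (2 * m) := by
          rw [← h4]; exact h2
      _ = 40 * (64 / 81) ^ m * ((45 / 100000) ^ (2 * m) / 40) := by ring
      _ ≤ _ := mul_le_mul_of_nonneg_left h1 (by positivity)
  calc (D m : ℝ) * ∫ x in (8 : ℝ)..9, f (2 * m) x
      ≤ D m * (40 * (64 / 81) ^ m * ∫ x in (6 : ℝ)..8, f (2 * m) x) :=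
        mul_le_mul_of_nonneg_left h5 h3
    _ = _ := by ring

/-- **Linear forms in `log (4/3)` and `log (9/8)`** -/
theorem measure : ∃ c K : ℝ, 0 < c ∧ 0 < K ∧ ∀ (u v : ℤ) (H : ℝ), 1 ≤ H → |(u : ℝ)| ≤ H → |(v : ℝ)| ≤ H →
    (u ≠ 0 ∨ v ≠ 0) → c * H ^ (-K) ≤ |u * log (4 / 3) + v * log (9 / 8)| := by
  obtain ⟨C, hC1, hC⟩ := lcm_le
  obtain ⟨B, hB1, hB⟩ := coeff_le
  set b : ℝ := (45 / 100000) ^ 2 with hb
  set r : ℝ := 4 ^ 10 * (21 / 20) * (9 / 10000) ^ 2 with hr
  set G : ℝ := 4 ^ 10 * (21 / 20) * B ^ 2 with hG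
  clear_value b r G
  have hr0 : 0 < r := by rw [hr]; norm_num
  have hr1 : r < 1 := by rw [hr]; norm_num
  have hb0 : 0 < b := by rw [hb]; norm_num
  have hG0 : 1 ≤ G := by
    rw [hG]
    have : 1 ≤ B ^ 2 := one_le_pow₀ hB1
    nlinarith
  have hGb : 1 < G / b := by
    rw [lt_div_iff₀ hb0]
    have : b < 1 := by rw [hb]; norm_num
    linarith
  have hC0 : 0 < C := by linarith
  have hB0 : 0 < B := by linarith
  set lr : ℝ := log (1 / r) with hlr
  have hlr0 : 0 < lr := by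
    apply log_pos
    rw [lt_div_iff₀ hr0]
    linarith
  set lG : ℝ := log (G / b) with hlG
  have hlG0 : 0 < lG := log_pos hGb
  clear_value lG lr
  set K : ℝ := lG / lr with hK
  have hK0 : 0 < K := div_pos hlG0 hlr0
  set c0 : ℝ := (1 / (80 * C)) * (b / G) * (160 * C) ^ (-K) with hc0
  have hc00 : 0 < c0 := by positivity
  clear_value K c0
  have hβ : 0 < log (9 / 8) := log_pos (by norm_num)
  refine ⟨min c0 (log (9 / 8)), K, lt_min hc00 hβ, hK0, ?_⟩
  intro u v H hH hu hv huv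
  have hHK : H ^ (-K) ≤ 1 := rpow_le_one_of_one_le_of_nonpos hH (by linarith)
  have hHK0 : 0 < H ^ (-K) := rpow_pos_of_pos (by linarith) _
  by_cases hu0 : u = 0
  · have hv0 : v ≠ 0 := by tauto
    have hv1 : (1 : ℝ) ≤ |(v : ℝ)| := by
      have : (1 : ℤ) ≤ |v| := Int.one_le_abs hv0
      exact_mod_cast this
    rw [hu0]
    simp only [Int.cast_zero, zero_mul, zero_add, abs_mul, abs_of_pos hβ]
    calc min c0 (log (9 / 8)) * H ^ (-K) ≤ log (9 / 8) * 1 := by
          apply mul_le_mul (min_le_right _ _) hHK hHK0.le hβ.le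
      _ ≤ |(v : ℝ)| * log (9 / 8) := by
          rw [mul_one]
          exact le_mul_of_one_le_left hβ.le hv1
  have hu1 : (1 : ℝ) ≤ |(u : ℝ)| := by
    have : (1 : ℤ) ≤ |u| := Int.one_le_abs hu0
    exact_mod_cast this
  -- choice of `m`
  obtain ⟨X, hX⟩ : ∃ X : ℝ, X = 160 * C * H := ⟨_, rfl⟩
  have hX1 : 1 ≤ X := by
    rw [hX]
    have : 1 ≤ C * H := one_le_mul_of_one_le_of_one_le hC1 hH
    linarith
  set m : ℕ := ⌈log X / lr⌉₊ with hm
  have hlX : 0 ≤ log X := log_nonneg hX1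
  have hm1 : log X / lr ≤ m := Nat.le_ceil _
  have hm2 : (m : ℝ) ≤ log X / lr + 1 := (Nat.ceil_lt_add_one (div_nonneg hlX hlr0.le)).le
  have hrm : r ^ m ≤ 1 / X := by
    rw [div_le_iff₀ hlr0] at hm1
    have h1 : log (r ^ m) ≤ log (1 / X) := by
      rw [log_pow, one_div, log_inv]
      rw [hlr, one_div, log_inv] at hm1
      linarith
    exact (log_le_log_iff (by positivity) (by positivity)).mp h1
  have hXpos : 0 < X := by linarith
  have hrm' : 160 * C * H * r ^ m ≤ 1 := by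
    rw [← hX]
    calc X * r ^ m ≤ X * (1 / X) := by gcongr
      _ = 1 := by field_simp
  clear_value m
  -- sizes
  have hD : (D m : ℝ) ≤ C * (4 ^ 10 * (21 / 20)) ^ m := by
    have := hC m
    unfold D
    exact_mod_cast this
  have hDpos : (0 : ℝ) < D m := by linarith [one_le_D m]
  have hE1 : E1 m ≤ C * r ^ m := by
    unfold E1
    calc (D m : ℝ) * ∫ x in (6 : ℝ)..8, f (2 * m) x
        ≤ (C * (4 ^ 10 * (21 / 20)) ^ m) * (9 / 10000) ^ (2 * m) :=
          mul_le_mul hD (int_a_le m) (int_nonneg m (by norm_num) (by norm_num)) (by positivity)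
      _ = C * r ^ m := by rw [hr, pow_mul, mul_assoc, ← mul_pow]
  have hE2 : E2 m ≤ C * r ^ m := by
    unfold E2
    calc (D m : ℝ) * ∫ x in (8 : ℝ)..9, f (2 * m) x
        ≤ (C * (4 ^ 10 * (21 / 20)) ^ m) * (4 / 10000) ^ (2 * m) :=
          mul_le_mul hD (int_b_le m) (int_nonneg m (by norm_num) (by norm_num)) (by positivity)
      _ ≤ (C * (4 ^ 10 * (21 / 20)) ^ m) * (9 / 10000) ^ (2 * m) := by
          gcongr
          norm_num
      _ = C * r ^ m := by rw [hr, pow_mul, mul_assoc, ← mul_pow]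
  have hE1ge := E1_ge m
  rw [← hb] at hE1ge
  have hE1pos : 0 < E1 m := lt_of_lt_of_le (by positivity) hE1ge
  have hE2nn := E2_nonneg m
  have hH0 : 0 < H := by linarith
  have hrm0 : 0 < r ^ m := by positivity
  have hCHr : C * H * r ^ m ≤ 1 / 160 := by linarith
  have hCr : C * r ^ m ≤ 1 / 160 := by
    calc C * r ^ m = C * 1 * r ^ m := by ring
      _ ≤ C * H * r ^ m := by gcongr
      _ ≤ 1 / 160 := hCHr
  have hHr : H * r ^ m ≤ 1 / 160 := by
    calc H * r ^ m = 1 * H * r ^ m := by ring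
      _ ≤ C * H * r ^ m := by gcongr
      _ ≤ 1 / 160 := hCHr
  have hE21 : H * E2 m ≤ E1 m / 4 := by
    have h1 := E2_le_E1 m
    have h2 : ((64 : ℝ) / 81) ^ m ≤ r ^ m := by
      apply pow_le_pow_left₀ (by norm_num)
      rw [hr]; norm_num
    calc H * E2 m ≤ H * (40 * (64 / 81) ^ m * E1 m) := by gcongr
      _ ≤ H * (40 * r ^ m * E1 m) := by gcongr
      _ = 40 * (H * r ^ m) * E1 m := by ring
      _ ≤ 40 * (1 / 160) * E1 m := by gcongr
      _ = E1 m / 4 := by ring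
  obtain ⟨z1, hz1⟩ := E1_form m
  obtain ⟨z2, hz2⟩ := E2_form m
  set Λ : ℝ := u * log (4 / 3) + v * log (9 / 8) with hΛ
  clear_value Λ
  have hkey : A m * Λ = u * E1 m + v * E2 m - ((u * z1 + v * z2 : ℤ) : ℝ) := by
    rw [hΛ, hz1, hz2]
    push_cast
    ring
  have hlow : E1 m / 2 ≤ |A m * Λ| := by
    have hE1small : E1 m ≤ 1 / 160 := hE1.trans hCr
    by_cases hz : u * z1 + v * z2 = 0
    · rw [hkey, hz]
      simp only [Int.cast_zero, sub_zero]
      have h1 : |(u : ℝ) * E1 m| ≤ |(u : ℝ) * E1 m + v * E2 m| + |(v : ℝ) * E2 m| := by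
        have := abs_sub ((u : ℝ) * E1 m + v * E2 m) (v * E2 m)
        rw [add_sub_cancel_right] at this
        exact this
      rw [abs_mul, abs_of_pos hE1pos, abs_mul (v : ℝ), abs_of_nonneg hE2nn] at h1
      have h2 : |(v : ℝ)| * E2 m ≤ H * E2 m := by gcongr
      have h3 : E1 m ≤ |(u : ℝ)| * E1 m := le_mul_of_one_le_left hE1pos.le hu1
      linarith
    · have h1 : (1 : ℝ) ≤ |((u * z1 + v * z2 : ℤ) : ℝ)| := by
        have : (1 : ℤ) ≤ |u * z1 + v * z2| := Int.one_le_abs hz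
        exact_mod_cast this
      have h2 : |((u * z1 + v * z2 : ℤ) : ℝ)| ≤ |A m * Λ| + |(u : ℝ) * E1 m + v * E2 m| := by
        have e : ((u * z1 + v * z2 : ℤ) : ℝ) = (u * E1 m + v * E2 m) - A m * Λ := by
          rw [hkey]; ring
        have e' := abs_sub ((u : ℝ) * E1 m + v * E2 m) (A m * Λ)
        rw [e]
        linarith
      have h3 : |(u : ℝ) * E1 m + v * E2 m| ≤ 1 / 80 := by
        calc |(u : ℝ) * E1 m + v * E2 m| ≤ |(u : ℝ) * E1 m| + |(v : ℝ) * E2 m| := abs_add_le _ _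
          _ = |(u : ℝ)| * E1 m + |(v : ℝ)| * E2 m := by
              rw [abs_mul, abs_mul, abs_of_pos hE1pos, abs_of_nonneg hE2nn]
          _ ≤ H * (C * r ^ m) + H * (C * r ^ m) := by gcongr
          _ ≤ 1 / 80 := by linarith
      linarith
  -- size of `A m`
  have hA : |(A m : ℝ)| ≤ C * G ^ m := by
    have h1 := hB (2 * m) (5 * (2 * m))
    unfold A
    push_cast
    rw [abs_mul, abs_of_pos hDpos]
    calc (D m : ℝ) * |((P ^ (2 * m)).coeff (5 * (2 * m)) : ℝ)|
        ≤ (C * (4 ^ 10 * (21 / 20)) ^ m) * B ^ (2 * m) := mul_le_mul hD h1 (abs_nonneg _) (by positivity)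
      _ = C * G ^ m := by rw [hG, pow_mul, mul_assoc, ← mul_pow]
  have hGm : 0 < G ^ m := by positivity
  have hΛlow : b ^ m / 80 ≤ C * G ^ m * |Λ| := by
    rw [abs_mul] at hlow
    calc b ^ m / 80 ≤ E1 m / 2 := by linarith
      _ ≤ |(A m : ℝ)| * |Λ| := hlow
      _ ≤ C * G ^ m * |Λ| := by gcongr
  have hfinal : (1 / (80 * C)) * (b / G) ^ m ≤ |Λ| := by
    rw [div_pow]
    have h1 : (1 / (80 * C)) * (b ^ m / G ^ m) = (b ^ m / 80) / (C * G ^ m) := by
      field_simp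
    rw [h1, div_le_iff₀ (by positivity)]
    linarith
  -- the exponent
  have hexp : (b / G) * X ^ (-K) ≤ (b / G) ^ m := by
    have hbG : 0 < b / G := by positivity
    have h1 : log ((b / G) * X ^ (-K)) ≤ log ((b / G) ^ m) := by
      rw [log_mul hbG.ne' (by positivity), log_rpow hXpos, log_pow]
      have h2 : log (b / G) = -lG := by
        rw [hlG, ← log_inv, inv_div]
      rw [h2]
      have h3 : (m : ℝ) * lG ≤ (log X / lr + 1) * lG := by gcongr
      have h4 : (log X / lr + 1) * lG = lG + K * log X := by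
        rw [hK]
        field_simp
        ring
      linarith
    exact (log_le_log_iff (by positivity) (by positivity)).mp h1
  calc min c0 (log (9 / 8)) * H ^ (-K) ≤ c0 * H ^ (-K) := by
        gcongr
        exact min_le_left _ _
    _ = (1 / (80 * C)) * ((b / G) * X ^ (-K)) := by
        have e : X ^ (-K) = (160 * C) ^ (-K) * H ^ (-K) := by
          rw [hX]
          exact mul_rpow (by positivity) hH0.le
        rw [hc0, e]
        ring
    _ ≤ (1 / (80 * C)) * (b / G) ^ m := by gcongr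
    _ ≤ |Λ| := hfinal

/-- **Linear forms in `log 2` and `log 3`** -/
theorem log_two_three : ∃ c K : ℝ, 0 < c ∧ 0 < K ∧ ∀ n k : ℕ, 1 ≤ n → k ≤ n →
    c * (n : ℝ) ^ (-K) ≤ |n * log 2 - k * log 3| := by
  obtain ⟨c, K, hc, hK, h⟩ := measure
  refine ⟨c * 3 ^ (-K), K, by positivity, hK, fun n k hn hk => ?_⟩
  have hn' : (1 : ℝ) ≤ n := by exact_mod_cast hn
  have hk' : (k : ℝ) ≤ n := by exact_mod_cast hk
  have hk0 : (0 : ℝ) ≤ k := Nat.cast_nonneg k
  have h1 := h (2 * n - 3 * k) (n - 2 * k) (3 * n) (by linarith)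
    (by push_cast; rw [abs_le]; constructor <;> linarith)
    (by push_cast; rw [abs_le]; constructor <;> linarith)
    (by omega)
  have e1 : log (4 / 3) = 2 * log 2 - log 3 := by
    rw [log_div (by norm_num) (by norm_num), show (4 : ℝ) = 2 ^ 2 by norm_num, log_pow]
    push_cast
    ring
  have e2 : log (9 / 8) = 2 * log 3 - 3 * log 2 := by
    rw [log_div (by norm_num) (by norm_num), show (9 : ℝ) = 3 ^ 2 by norm_num,
      show (8 : ℝ) = 2 ^ 3 by norm_num, log_pow, log_pow]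
    push_cast
    ring
  rw [e1, e2, mul_rpow (by norm_num) (by linarith)] at h1
  have e3 : ((2 * n - 3 * k : ℤ) : ℝ) * (2 * log 2 - log 3) + ((n - 2 * k : ℤ) : ℝ) * (2 * log 3 - 3 * log 2)
      = n * log 2 - k * log 3 := by
    push_cast
    ring
  rw [e3] at h1
  linarith

/-- **Lower bound for `|2^n - 3^k|`** -/
theorem two_pow_sub_three_pow : ∃ c K : ℝ, 0 < c ∧ 0 < K ∧ ∀ n k : ℕ, 1 ≤ n → k ≤ n →
    c * (n : ℝ) ^ (-K) * 2 ^ n ≤ |(2 : ℝ) ^ n - 3 ^ k| := by
  obtain ⟨c, K, hc, hK, h⟩ := log_two_three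
  refine ⟨min c 1 / 2, K, by positivity, hK, fun n k hn hk => ?_⟩
  have hn' : (1 : ℝ) ≤ n := by exact_mod_cast hn
  have h1 := h n k hn hk
  have hnK : (0 : ℝ) < (n : ℝ) ^ (-K) := rpow_pos_of_pos (by linarith) _
  have hnK1 : (n : ℝ) ^ (-K) ≤ 1 := rpow_le_one_of_one_le_of_nonpos hn' (by linarith)
  set t : ℝ := n * log 2 - k * log 3 with ht
  have h3 : (3 : ℝ) ^ k = 2 ^ n * exp (-t) := by
    rw [ht, neg_sub, exp_sub, mul_comm (n : ℝ), mul_comm (k : ℝ), exp_mul, exp_mul, exp_log (by norm_num),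
      exp_log (by norm_num), rpow_natCast, rpow_natCast]
    field_simp
  have h2n : (0 : ℝ) < 2 ^ n := by positivity
  have h4 : |(2 : ℝ) ^ n - 3 ^ k| = 2 ^ n * |1 - exp (-t)| := by
    rw [h3]
    rw [show (2 : ℝ) ^ n - 2 ^ n * exp (-t) = 2 ^ n * (1 - exp (-t)) by ring, abs_mul, abs_of_pos h2n]
  have h5 : min c 1 / 2 * (n : ℝ) ^ (-K) ≤ |1 - exp (-t)| := by
    have hmin : min c 1 * (n : ℝ) ^ (-K) ≤ min |t| 1 := by
      apply le_min
      · calc min c 1 * (n : ℝ) ^ (-K) ≤ c * (n : ℝ) ^ (-K) := by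
              gcongr
              exact min_le_left _ _
          _ ≤ |t| := h1
      · calc min c 1 * (n : ℝ) ^ (-K) ≤ 1 * 1 := by
              gcongr
              exact min_le_right _ _
          _ = 1 := by norm_num
    have h6 : min |t| 1 / 2 ≤ |1 - exp (-t)| := by
      rcases le_total 0 t with ht0 | ht0
      · -- `t ≥ 0`
        rw [abs_of_nonneg ht0]
        have h7 : exp (-t) * (1 + t) ≤ 1 := by
          have h8 : 1 + t ≤ exp t := by linarith [add_one_le_exp t]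
          calc exp (-t) * (1 + t) ≤ exp (-t) * exp t := by gcongr
            _ = 1 := by rw [← exp_add, neg_add_cancel, exp_zero]
        have h9 : 0 < exp (-t) := exp_pos _
        have h10 : exp (-t) ≤ 1 := by
          rw [exp_le_one_iff]; linarith
        rw [abs_of_nonneg (by linarith)]
        rcases le_total t 1 with h11 | h11
        · rw [min_eq_left h11]
          nlinarith
        · rw [min_eq_right h11]
          nlinarith
      · rw [abs_of_nonpos ht0]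
        have h7 : -t + 1 ≤ exp (-t) := add_one_le_exp (-t)
        rw [abs_of_nonpos (by linarith)]
        have : min (-t) 1 ≤ -t := min_le_left _ _
        linarith
    calc min c 1 / 2 * (n : ℝ) ^ (-K) = (min c 1 * (n : ℝ) ^ (-K)) / 2 := by ring
      _ ≤ min |t| 1 / 2 := by linarith
      _ ≤ _ := h6
  rw [h4]
  calc min c 1 / 2 * (n : ℝ) ^ (-K) * 2 ^ n ≤ |1 - exp (-t)| * 2 ^ n := by gcongr
    _ = 2 ^ n * |1 - exp (-t)| := by ring

end Pool.Agent.Lib.LogMeasure
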