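import Mathlib

/-!
# A polynomial lower bound for linear forms in `log 2` and `log 3`

`|u log (4/3) + v log (9/8)| ≥ c H ^ (-κ)` for all integers `|u|, |v| ≤ H`, `(u, v) ≠ (0, 0)`.

The proof uses the simultaneous approximations given by the integrals of `P(x)^n / x^(5n+1)` over
`[6, 8]` and `[8, 9]`, where `P = (x-6)^4 (x-8)^3 (x-9)^2 (5x-36)`. The polynomial `P` is chosen such
that `P(q y) / q^5` has integral coefficients for `q = 6, 8, 9`.
-/

open Polynomial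

namespace Pool.Agent.Lib.LogMeasure

/-! ### certificates for the size of `P(x) / x^5` -/

lemma cert_a1 (x : ℝ) (h1 : 6 ≤ x) (h2 : x ≤ 7) :
    0 ≤ 9/10000 * x^5 - ((x-6)^4 * (x-8)^3 * (x-9)^2 * (5*x-36)) := by
  have e1 : 0 ≤ x - 6 := sub_nonneg.mpr h1
  have e2 : 0 ≤ 7 - x := sub_nonneg.mpr h2
  have e : 9/10000 * x^5 - ((x-6)^4 * (x-8)^3 * (x-9)^2 * (5*x-36)) =
      (4374/625) * (7 - x)^10 +
      (9477/125) * (x - 6)^1 * (7 - x)^9 +
      (9234/25) * (x - 6)^2 * (7 - x)^8 +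
      (266409/250) * (x - 6)^3 * (7 - x)^7 +
      (1584279/1000) * (x - 6)^4 * (7 - x)^6 +
      (13182597/10000) * (x - 6)^5 * (7 - x)^5 +
      (1536651/2000) * (x - 6)^6 * (7 - x)^4 +
      (446449/1000) * (x - 6)^7 * (7 - x)^3 +
      (24153/100) * (x - 6)^8 * (7 - x)^2 +
      (160917/2000) * (x - 6)^9 * (7 - x)^1 +
      (111263/10000) * (x - 6)^10 := by
    ring
  rw [e]
  positivity

lemma cert_a2 (x : ℝ) (h1 : 7 ≤ x) (h2 : x ≤ 8) :
    0 ≤ 9/10000 * x^5 - ((x-6)^4 * (x-8)^3 * (x-9)^2 * (5*x-36)) := by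
  have e1 : 0 ≤ x - 7 := sub_nonneg.mpr h1
  have e2 : 0 ≤ 8 - x := sub_nonneg.mpr h2
  have e : 9/10000 * x^5 - ((x-6)^4 * (x-8)^3 * (x-9)^2 * (5*x-36)) =
      (111263/10000) * (8 - x)^10 +
      (56827/400) * (x - 7)^1 * (8 - x)^9 +
      (796011/1000) * (x - 7)^2 * (8 - x)^8 +
      (502651/200) * (x - 7)^3 * (8 - x)^7 +
      (9771311/2000) * (x - 7)^4 * (8 - x)^6 +
      (2449407/400) * (x - 7)^5 * (8 - x)^5 +
      (1284473/250) * (x - 7)^6 * (8 - x)^4 +
      (74392/25) * (x - 7)^7 * (8 - x)^3 +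
      (145728/125) * (x - 7)^8 * (8 - x)^2 +
      (6912/25) * (x - 7)^9 * (8 - x)^1 +
      (18432/625) * (x - 7)^10 := by
    ring
  rw [e]
  positivity

lemma cert_a3 (x : ℝ) (h1 : 6 ≤ x) (h2 : x ≤ 8) :
    0 ≤ 9/10000 * x^5 + ((x-6)^4 * (x-8)^3 * (x-9)^2 * (5*x-36)) := by
  have e1 : 0 ≤ x - 6 := sub_nonneg.mpr h1
  have e2 : 0 ≤ 8 - x := sub_nonneg.mpr h2
  have e : 9/10000 * x^5 + ((x-6)^4 * (x-8)^3 * (x-9)^2 * (5*x-36)) =
      (2187/320000) * (8 - x)^10 +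
      (5103/64000) * (x - 6)^1 * (8 - x)^9 +
      (2673/6400) * (x - 6)^2 * (8 - x)^8 +
      (41391/32000) * (x - 6)^3 * (8 - x)^7 +
      (599859/64000) * (x - 6)^4 * (8 - x)^6 +
      (1164303/320000) * (x - 6)^5 * (8 - x)^5 +
      (19953/16000) * (x - 6)^6 * (8 - x)^4 +
      (3599/2000) * (x - 6)^7 * (8 - x)^3 +
      (99/100) * (x - 6)^8 * (8 - x)^2 +
      (63/250) * (x - 6)^9 * (8 - x)^1 +
      (18/625) * (x - 6)^10 := by
    ring
  rw [e]
  positivity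

lemma cert_b1 (x : ℝ) (h1 : 8 ≤ x) (h2 : x ≤ 9) :
    0 ≤ 4/10000 * x^5 - ((x-6)^4 * (x-8)^3 * (x-9)^2 * (5*x-36)) := by
  have e1 : 0 ≤ x - 8 := sub_nonneg.mpr h1
  have e2 : 0 ≤ 9 - x := sub_nonneg.mpr h2
  have e : 4/10000 * x^5 - ((x-6)^4 * (x-8)^3 * (x-9)^2 * (5*x-36)) =
      (8192/625) * (9 - x)^10 +
      (17408/125) * (x - 8)^1 * (9 - x)^9 +
      (3328/5) * (x - 8)^2 * (9 - x)^8 +
      (227552/125) * (x - 8)^3 * (9 - x)^7 +
      (371474/125) * (x - 8)^4 * (9 - x)^6 +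
      (6818417/2500) * (x - 8)^5 * (9 - x)^5 +
      (564633/500) * (x - 8)^6 * (9 - x)^4 +
      (29241/250) * (x - 8)^7 * (9 - x)^3 +
      (2187/10) * (x - 8)^8 * (9 - x)^2 +
      (111537/500) * (x - 8)^9 * (9 - x)^1 +
      (59049/2500) * (x - 8)^10 := by
    ring
  rw [e]
  positivity

lemma cert_b2 (x : ℝ) (h1 : 8 ≤ x) (h2 : x ≤ 9) :
    0 ≤ 4/10000 * x^5 + ((x-6)^4 * (x-8)^3 * (x-9)^2 * (5*x-36)) := by
  have e1 : 0 ≤ x - 8 := sub_nonneg.mpr h1
  have e2 : 0 ≤ 9 - x := sub_nonneg.mpr h2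
  have e : 4/10000 * x^5 + ((x-6)^4 * (x-8)^3 * (x-9)^2 * (5*x-36)) =
      (8192/625) * (9 - x)^10 +
      (17408/125) * (x - 8)^1 * (9 - x)^9 +
      (3328/5) * (x - 8)^2 * (9 - x)^8 +
      (243552/125) * (x - 8)^3 * (9 - x)^7 +
      (503474/125) * (x - 8)^4 * (9 - x)^6 +
      (15458417/2500) * (x - 8)^5 * (9 - x)^5 +
      (3372633/500) * (x - 8)^6 * (9 - x)^4 +
      (1163241/250) * (x - 8)^7 * (9 - x)^3 +
      (16767/10) * (x - 8)^8 * (9 - x)^2 +
      (111537/500) * (x - 8)^9 * (9 - x)^1 +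
      (59049/2500) * (x - 8)^10 := by
    ring
  rw [e]
  positivity

lemma cert_c (x : ℝ) (h1 : 33/5 ≤ x) (h2 : x ≤ 34/5) :
    0 ≤ ((x-6)^4 * (x-8)^3 * (x-9)^2 * (5*x-36)) - 45/100000 * x^5 := by
  have e1 : 0 ≤ x - 33/5 := sub_nonneg.mpr h1
  have e2 : 0 ≤ 34/5 - x := sub_nonneg.mpr h2
  have e : ((x-6)^4 * (x-8)^3 * (x-9)^2 * (5*x-36)) - 45/100000 * x^5 =
      (159268275/32) * (34/5 - x)^10 +
      (2103139485/32) * (x - 33/5)^1 * (34/5 - x)^9 +
      (2824190955/8) * (x - 33/5)^2 * (34/5 - x)^8 +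
      (16806847545/16) * (x - 33/5)^3 * (34/5 - x)^7 +
      (62247810555/32) * (x - 33/5)^4 * (34/5 - x)^6 +
      (75367488105/32) * (x - 33/5)^5 * (34/5 - x)^5 +
      (30186397515/16) * (x - 33/5)^6 * (34/5 - x)^4 +
      (3920041945/4) * (x - 33/5)^7 * (34/5 - x)^3 +
      (310193235) * (x - 33/5)^8 * (34/5 - x)^2 +
      (103414365/2) * (x - 33/5)^9 * (34/5 - x)^1 +
      (3014595) * (x - 33/5)^10 := by
    ring
  rw [e]
  positivity

/-- size of `P(x)/x^5` -/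
noncomputable def g (x : ℝ) : ℝ := (x-6)^4 * (x-8)^3 * (x-9)^2 * (5*x-36) / x^5

lemma abs_g_le_a (x : ℝ) (h1 : 6 ≤ x) (h2 : x ≤ 8) : |g x| ≤ 9/10000 := by
  have hx : 0 < x ^ 5 := by positivity
  unfold g
  rw [abs_div, abs_of_pos hx, div_le_iff₀ hx, abs_le]
  constructor
  · have := cert_a3 x h1 h2
    linarith
  · rcases le_total x 7 with h3 | h3
    · have := cert_a1 x h1 h3
      linarith
    · have := cert_a2 x h3 h2
      linarith

lemma abs_g_le_b (x : ℝ) (h1 : 8 ≤ x) (h2 : x ≤ 9) : |g x| ≤ 4/10000 := by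
  have hx : 0 < x ^ 5 := by positivity
  unfold g
  rw [abs_div, abs_of_pos hx, div_le_iff₀ hx, abs_le]
  constructor
  · have := cert_b2 x h1 h2
    linarith
  · have := cert_b1 x h1 h2
    linarith

lemma le_g (x : ℝ) (h1 : 33/5 ≤ x) (h2 : x ≤ 34/5) : 45/100000 ≤ g x := by
  have hx : 0 < x ^ 5 := by positivity
  unfold g
  rw [le_div_iff₀ hx]
  have := cert_c x h1 h2
  linarith

/-! ### arithmetic -/

/-- the polynomial `(x-6)^4 (x-8)^3 (x-9)^2 (5x-36)` -/
noncomputable def P : ℤ[X] := (X - 6)^4 * (X - 8)^3 * (X - 9)^2 * (5 * X - 36)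

lemma comp_six : P.comp (C 6 * X) =
    C (6 ^ 5) * (72 * (X - 1)^4 * (3 * X - 4)^3 * (2 * X - 3)^2 * (5 * X - 6)) := by
  simp only [P, mul_comp, pow_comp, sub_comp, X_comp, ofNat_comp, map_pow, map_ofNat]
  ring

lemma comp_eight : P.comp (C 8 * X) =
    C (8 ^ 5) * ((4 * X - 3)^4 * (X - 1)^3 * (8 * X - 9)^2 * (10 * X - 9)) := by
  simp only [P, mul_comp, pow_comp, sub_comp, X_comp, ofNat_comp, map_pow, map_ofNat]
  ring

lemma comp_nine : P.comp (C 9 * X) =
    C (9 ^ 5) * ((3 * X - 2)^4 * (9 * X - 8)^3 * (X - 1)^2 * (5 * X - 4)) := by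
  simp only [P, mul_comp, pow_comp, sub_comp, X_comp, ofNat_comp, map_pow, map_ofNat]
  ring

/-- good evaluation points -/
def Good (q : ℤ) : Prop := 0 < q ∧ ∃ R : ℤ[X], P.comp (C q * X) = C (q ^ 5) * R

lemma good_six : Good 6 := ⟨by norm_num, _, comp_six⟩
lemma good_eight : Good 8 := ⟨by norm_num, _, comp_eight⟩
lemma good_nine : Good 9 := ⟨by norm_num, _, comp_nine⟩

lemma Good.coeff {q : ℤ} (h : Good q) (n i : ℕ) : ∃ r : ℤ, (P ^ n).coeff i * q ^ i = q ^ (5 * n) * r := by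
  obtain ⟨-, R, hR⟩ := h
  refine ⟨(R ^ n).coeff i, ?_⟩
  rw [← comp_C_mul_X_coeff, pow_comp, hR, mul_pow, ← C_pow, coeff_C_mul, ← pow_mul]

lemma natDegree_P : P.natDegree ≤ 10 := by
  unfold P
  compute_degree!

lemma natDegree_P_pow (n : ℕ) : (P ^ n).natDegree < 10 * n + 1 := by
  have h := natDegree_pow_le (p := P) (n := n)
  have := natDegree_P
  have : n * P.natDegree ≤ n * 10 := Nat.mul_le_mul_left _ this
  omega

lemma eval_P (x : ℝ) : aeval x P = (x-6)^4 * (x-8)^3 * (x-9)^2 * (5*x-36) := by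
  simp only [P, map_mul, map_pow, map_sub, aeval_X, map_ofNat]

/-- the part of the antiderivative coming from nonzero exponents -/
noncomputable def T (n : ℕ) (q : ℝ) : ℝ :=
  ∑ i ∈ (Finset.range (10 * n + 1)).erase (5 * n),
    ((P ^ n).coeff i : ℝ) * (q ^ ((i : ℤ) - 5 * n) / ((i : ℤ) - 5 * n : ℤ))

lemma exists_int_T {q : ℤ} (hq : Good q) (n : ℕ) : ∃ z : ℤ, (Nat.lcmUpto (5 * n) : ℝ) * T n q = z := by
  unfold T
  rw [Finset.mul_sum]
  have key : ∀ i ∈ (Finset.range (10 * n + 1)).erase (5 * n), ∃ z : ℤ,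
      (Nat.lcmUpto (5 * n) : ℝ) * (((P ^ n).coeff i : ℝ) *
        ((q : ℝ) ^ ((i : ℤ) - 5 * n) / ((i : ℤ) - 5 * n : ℤ))) = z := by
    intro i hi
    rw [Finset.mem_erase, Finset.mem_range] at hi
    have hq0 : (q : ℝ) ≠ 0 := by exact_mod_cast hq.1.ne'
    obtain ⟨r, hr⟩ := hq.coeff n i
    have hr' : ((P ^ n).coeff i : ℝ) * (q : ℝ) ^ ((i : ℤ) - 5 * n) = r := by
      have h1 : (((P ^ n).coeff i * q ^ i : ℤ) : ℝ) = ((q ^ (5 * n) * r : ℤ) : ℝ) := by rw [hr]
      push_cast at h1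
      have h2 : ((i : ℤ) - 5 * n) = (i : ℤ) - ((5 * n : ℕ) : ℤ) := by push_cast; ring
      rw [h2, zpow_sub₀ hq0, zpow_natCast, zpow_natCast]
      field_simp
      linarith
    have hdvd : ((i : ℤ) - 5 * n) ∣ (Nat.lcmUpto (5 * n) : ℤ) := by
      have h1 : ((i : ℤ) - 5 * n).natAbs ∈ Finset.Icc 1 (5 * n) := by
        rw [Finset.mem_Icc]
        omega
      have h2 : ((i : ℤ) - 5 * n).natAbs ∣ Nat.lcmUpto (5 * n) := Finset.dvd_lcm (f := id) h1
      rw [← Int.natAbs_dvd_natAbs]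
      simpa using h2
    obtain ⟨k, hk⟩ := hdvd
    refine ⟨r * k, ?_⟩
    have hne : (((i : ℤ) - 5 * n : ℤ) : ℝ) ≠ 0 := by
      have : ((i : ℤ) - 5 * n : ℤ) ≠ 0 := by omega
      exact_mod_cast this
    have hk' : (Nat.lcmUpto (5 * n) : ℝ) = (((i : ℤ) - 5 * n : ℤ) : ℝ) * (k : ℝ) := by
      have : ((Nat.lcmUpto (5 * n) : ℤ) : ℝ) = ((((i : ℤ) - 5 * n) * k : ℤ) : ℝ) := by rw [hk]
      rw [Int.cast_mul] at this
      simpa using this
    rw [← mul_div_assoc, hr', hk']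
    push_cast
    have hne' : ((i : ℝ) - 5 * n) ≠ 0 := by
      push_cast at hne
      exact hne
    field_simp
  choose! z hz using key
  refine ⟨∑ i ∈ (Finset.range (10 * n + 1)).erase (5 * n), z i, ?_⟩
  rw [Finset.sum_congr rfl hz]
  push_cast
  rfl

/-! ### the integrals -/

/-- the integrand `P(x)^n / x^(5n+1)` -/
noncomputable def f (n : ℕ) (x : ℝ) : ℝ := g x ^ n / x

lemma f_eq_sum (n : ℕ) {x : ℝ} (hx : 0 < x) :
    f n x = ∑ i ∈ Finset.range (10 * n + 1), ((P ^ n).coeff i : ℝ) * x ^ ((i : ℤ) - 5 * n - 1) := by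
  have h1 : aeval x (P ^ n) = ∑ i ∈ Finset.range (10 * n + 1), ((P ^ n).coeff i : ℝ) * x ^ i := by
    rw [aeval_eq_sum_range' (natDegree_P_pow n)]
    refine Finset.sum_congr rfl fun i _ => ?_
    rw [zsmul_eq_mul]
  have h2 : f n x = aeval x (P ^ n) * x ^ (-(5 * (n : ℤ) + 1)) := by
    unfold f g
    rw [map_pow, eval_P, div_pow, ← pow_mul, zpow_neg, zpow_add₀ hx.ne', zpow_one, div_div,
      div_eq_mul_inv]
    congr 3
  rw [h2, h1, Finset.sum_mul]
  refine Finset.sum_congr rfl fun i _ => ?_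
  rw [mul_assoc, ← zpow_natCast, ← zpow_add₀ hx.ne']
  congr 2
  ring

lemma integral_f (n : ℕ) {p q : ℝ} (hp : 0 < p) (hpq : p ≤ q) :
    ∫ x in p..q, f n x = ((P ^ n).coeff (5 * n) : ℝ) * Real.log (q / p) + T n q - T n p := by
  have hq : 0 < q := lt_of_lt_of_le hp hpq
  have h0 : (0 : ℝ) ∉ Set.uIcc p q := by
    rw [Set.uIcc_of_le hpq, Set.mem_Icc]
    intro h
    linarith [h.1]
  have h1 : ∫ x in p..q, f n x = ∫ x in p..q, ∑ i ∈ Finset.range (10 * n + 1),
      ((P ^ n).coeff i : ℝ) * x ^ ((i : ℤ) - 5 * n - 1) := by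
    apply intervalIntegral.integral_congr
    intro x hx
    rw [Set.uIcc_of_le hpq, Set.mem_Icc] at hx
    exact f_eq_sum n (lt_of_lt_of_le hp hx.1)
  have hint : ∀ k : ℤ, IntervalIntegrable (fun x : ℝ => x ^ k) MeasureTheory.volume p q := fun k =>
    intervalIntegral.intervalIntegrable_zpow (Or.inr h0)
  rw [h1, intervalIntegral.integral_finsetSum (fun i _ => (hint _).const_mul _)]
  have h5 : 5 * n ∈ Finset.range (10 * n + 1) := Finset.mem_range.mpr (by omega)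
  rw [← Finset.add_sum_erase _ _ h5]
  have e0 : ∫ x in p..q, ((P ^ n).coeff (5 * n) : ℝ) * x ^ (((5 * n : ℕ) : ℤ) - 5 * n - 1)
      = ((P ^ n).coeff (5 * n) : ℝ) * Real.log (q / p) := by
    rw [intervalIntegral.integral_const_mul]
    congr 1
    have : (((5 * n : ℕ) : ℤ) - 5 * n - 1) = -1 := by push_cast; ring
    rw [this]
    simp only [zpow_neg_one]
    exact integral_inv_of_pos hp hq
  rw [e0, add_sub_assoc]
  congr 1
  unfold T
  rw [← Finset.sum_sub_distrib]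
  refine Finset.sum_congr rfl fun i hi => ?_
  rw [Finset.mem_erase] at hi
  have hne : ((i : ℤ) - 5 * n - 1) ≠ -1 := by
    have := hi.1
    omega
  rw [intervalIntegral.integral_const_mul, integral_zpow (Or.inr ⟨hne, h0⟩)]
  have e2 : (i : ℤ) - 5 * n - 1 + 1 = (i : ℤ) - 5 * n := by ring
  rw [e2]
  push_cast
  have e3 : (i : ℝ) - 5 * n - 1 + 1 = (i : ℝ) - 5 * n := by ring
  rw [e3]
  ring

lemma f_cont (n : ℕ) {p q : ℝ} (hp : 0 < p) (hpq : p ≤ q) :
    IntervalIntegrable (f n) MeasureTheory.volume p q := by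
  apply ContinuousOn.intervalIntegrable
  rw [Set.uIcc_of_le hpq]
  have hpos : ∀ x ∈ Set.Icc p q, x ≠ 0 := fun x hx => (lt_of_lt_of_le hp hx.1).ne'
  unfold f g
  apply ContinuousOn.div
  · apply ContinuousOn.pow
    apply ContinuousOn.div
    · fun_prop
    · fun_prop
    · intro x hx
      exact pow_ne_zero _ (hpos x hx)
  · fun_prop
  · exact hpos

lemma f_nonneg (m : ℕ) {x : ℝ} (hx : 0 < x) : 0 ≤ f (2 * m) x := by
  unfold f
  rw [pow_mul]
  positivity

/-- upper bound of the integral over `[6, 8]` -/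
lemma int_a_le (m : ℕ) : ∫ x in (6 : ℝ)..8, f (2 * m) x ≤ (9 / 10000) ^ (2 * m) := by
  calc ∫ x in (6 : ℝ)..8, f (2 * m) x ≤ ∫ x in (6 : ℝ)..8, (9 / 10000 : ℝ) ^ (2 * m) / 6 := by
        apply intervalIntegral.integral_mono_on (by norm_num) (f_cont _ (by norm_num) (by norm_num))
          (by simp)
        intro x hx
        unfold f
        have h1 := abs_g_le_a x hx.1 hx.2
        have h2 : g x ^ (2 * m) ≤ (9 / 10000) ^ (2 * m) := by
          rw [← abs_of_nonneg (show 0 ≤ g x ^ (2 * m) by rw [pow_mul]; positivity), abs_pow]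
          exact pow_le_pow_left₀ (abs_nonneg _) h1 _
        have h3 : 0 < x := by linarith [hx.1]
        calc g x ^ (2 * m) / x ≤ (9 / 10000) ^ (2 * m) / x := by gcongr
          _ ≤ (9 / 10000) ^ (2 * m) / 6 := by
              apply div_le_div_of_nonneg_left (by positivity) (by norm_num) hx.1
    _ ≤ (9 / 10000) ^ (2 * m) := by
        rw [intervalIntegral.integral_const, smul_eq_mul]
        have : (0 : ℝ) ≤ (9 / 10000) ^ (2 * m) := by positivity
        linarith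

/-- upper bound of the integral over `[8, 9]` -/
lemma int_b_le (m : ℕ) : ∫ x in (8 : ℝ)..9, f (2 * m) x ≤ (4 / 10000) ^ (2 * m) := by
  calc ∫ x in (8 : ℝ)..9, f (2 * m) x ≤ ∫ x in (8 : ℝ)..9, (4 / 10000 : ℝ) ^ (2 * m) / 8 := by
        apply intervalIntegral.integral_mono_on (by norm_num) (f_cont _ (by norm_num) (by norm_num))
          (by simp)
        intro x hx
        unfold f
        have h1 := abs_g_le_b x hx.1 hx.2
        have h2 : g x ^ (2 * m) ≤ (4 / 10000) ^ (2 * m) := by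
          rw [← abs_of_nonneg (show 0 ≤ g x ^ (2 * m) by rw [pow_mul]; positivity), abs_pow]
          exact pow_le_pow_left₀ (abs_nonneg _) h1 _
        have h3 : 0 < x := by linarith [hx.1]
        calc g x ^ (2 * m) / x ≤ (4 / 10000) ^ (2 * m) / x := by gcongr
          _ ≤ (4 / 10000) ^ (2 * m) / 8 := by
              apply div_le_div_of_nonneg_left (by positivity) (by norm_num) hx.1
    _ ≤ (4 / 10000) ^ (2 * m) := by
        rw [intervalIntegral.integral_const, smul_eq_mul]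
        have : (0 : ℝ) ≤ (4 / 10000) ^ (2 * m) := by positivity
        linarith

lemma int_nonneg (m : ℕ) {p q : ℝ} (hp : 0 < p) (hpq : p ≤ q) : 0 ≤ ∫ x in p..q, f (2 * m) x := by
  apply intervalIntegral.integral_nonneg hpq
  intro x hx
  exact f_nonneg m (lt_of_lt_of_le hp hx.1)

/-- lower bound of the integral over `[6, 8]` -/
lemma le_int_a (m : ℕ) : (45 / 100000) ^ (2 * m) / 40 ≤ ∫ x in (6 : ℝ)..8, f (2 * m) x := by
  have h1 : ∫ x in (6 : ℝ)..8, f (2 * m) x = (∫ x in (6 : ℝ)..(33 / 5), f (2 * m) x)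
      + (∫ x in (33 / 5 : ℝ)..(34 / 5), f (2 * m) x) + ∫ x in (34 / 5 : ℝ)..8, f (2 * m) x := by
    rw [intervalIntegral.integral_add_adjacent_intervals, intervalIntegral.integral_add_adjacent_intervals]
    · exact f_cont _ (by norm_num) (by norm_num)
    · exact f_cont _ (by norm_num) (by norm_num)
    · exact f_cont _ (by norm_num) (by norm_num)
    · exact f_cont _ (by norm_num) (by norm_num)
  have h2 := int_nonneg m (p := 6) (q := 33 / 5) (by norm_num) (by norm_num)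
  have h3 := int_nonneg m (p := 34 / 5) (q := 8) (by norm_num) (by norm_num)
  have h4 : (45 / 100000) ^ (2 * m) / 40 ≤ ∫ x in (33 / 5 : ℝ)..(34 / 5), f (2 * m) x := by
    calc (45 / 100000 : ℝ) ^ (2 * m) / 40
        = ∫ x in (33 / 5 : ℝ)..(34 / 5), (45 / 100000 : ℝ) ^ (2 * m) / 8 := by
          rw [intervalIntegral.integral_const, smul_eq_mul]
          ring
      _ ≤ ∫ x in (33 / 5 : ℝ)..(34 / 5), f (2 * m) x := by
          apply intervalIntegral.integral_mono_on (by norm_num) (by simp)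
            (f_cont _ (by norm_num) (by norm_num))
          intro x hx
          unfold f
          have h5 := le_g x hx.1 hx.2
          have h6 : (45 / 100000 : ℝ) ^ (2 * m) ≤ g x ^ (2 * m) :=
            pow_le_pow_left₀ (by norm_num) h5 _
          have h7 : 0 < x := by linarith [hx.1]
          calc (45 / 100000 : ℝ) ^ (2 * m) / 8 ≤ (45 / 100000 : ℝ) ^ (2 * m) / x := by
                apply div_le_div_of_nonneg_left (by positivity) h7
                linarith [hx.2]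
            _ ≤ g x ^ (2 * m) / x := by gcongr
  rw [h1]
  linarith

/-! ### size of the coefficients -/

/-- the coefficients of `P ^ n` grow at most exponentially -/
lemma coeff_le : ∃ B : ℝ, 1 ≤ B ∧ ∀ n i : ℕ, |((P ^ n).coeff i : ℝ)| ≤ B ^ n := by
  set B : ℝ := 1 + ∑ i ∈ Finset.range 11, |(P.coeff i : ℝ)| with hB
  have hB1 : 1 ≤ B := by
    have : 0 ≤ ∑ i ∈ Finset.range 11, |(P.coeff i : ℝ)| := Finset.sum_nonneg fun _ _ => abs_nonneg _
    linarith
  have hsum : ∀ k : ℕ, ∑ i ∈ Finset.range (k + 1), |(P.coeff i : ℝ)| ≤ B := by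
    intro k
    have h1 : ∑ i ∈ Finset.range (k + 1), |(P.coeff i : ℝ)| ≤ ∑ i ∈ Finset.range 11, |(P.coeff i : ℝ)| := by
      rcases le_total (k + 1) 11 with h | h
      · exact Finset.sum_le_sum_of_subset_of_nonneg (Finset.range_mono h) fun _ _ _ => abs_nonneg _
      · rw [← Finset.sum_subset (Finset.range_mono h)]
        intro i _ hi
        rw [Finset.mem_range, not_lt] at hi
        rw [coeff_eq_zero_of_natDegree_lt (lt_of_le_of_lt natDegree_P (by omega))]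
        simp
    linarith
  refine ⟨B, hB1, fun n => ?_⟩
  induction n with
  | zero =>
    intro i
    rw [pow_zero, pow_zero, coeff_one]
    split_ifs <;> simp
  | succ n ih =>
    intro i
    rw [pow_succ', coeff_mul]
    push_cast
    calc |∑ x ∈ Finset.HasAntidiagonal.antidiagonal i, (P.coeff x.1 : ℝ) * ((P ^ n).coeff x.2 : ℝ)|
        ≤ ∑ x ∈ Finset.HasAntidiagonal.antidiagonal i, |(P.coeff x.1 : ℝ) * ((P ^ n).coeff x.2 : ℝ)| :=
          Finset.abs_sum_le_sum_abs _ _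
      _ ≤ ∑ x ∈ Finset.HasAntidiagonal.antidiagonal i, |(P.coeff x.1 : ℝ)| * B ^ n := by
          refine Finset.sum_le_sum fun x _ => ?_
          rw [abs_mul]
          exact mul_le_mul_of_nonneg_left (ih x.2) (abs_nonneg _)
      _ = (∑ k ∈ Finset.range (i + 1), |(P.coeff k : ℝ)|) * B ^ n := by
          have := Finset.Nat.sum_antidiagonal_eq_sum_range_succ
            (fun (a _ : ℕ) => |(P.coeff a : ℝ)| * B ^ n) i
          rw [this, Finset.sum_mul]
      _ ≤ B * B ^ n := mul_le_mul_of_nonneg_right (hsum i) (by positivity)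
      _ = B ^ (n + 1) := by rw [pow_succ]; ring

/-! ### the least common multiple -/

/-- `lcm (1, ..., 10 m) ≤ C (4^10 · 21/20)^m` -/
lemma lcm_le : ∃ C : ℝ, 1 ≤ C ∧ ∀ m : ℕ, (Nat.lcmUpto (5 * (2 * m)) : ℝ) ≤ C * (4 ^ 10 * (21 / 20)) ^ m := by
  -- eventually by Chebyshev's bound
  have h1 : Filter.Tendsto (fun m : ℕ => 2 * Real.sqrt (10 * m) * Real.log (10 * m) / m) Filter.atTop
      (nhds 0) := by
    have h2 : Filter.Tendsto (fun x : ℝ => Real.log x / x ^ (1 / 2 : ℝ)) Filter.atTop (nhds 0) :=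
      (isLittleO_log_rpow_atTop (by norm_num)).tendsto_div_nhds_zero
    have h3 : Filter.Tendsto (fun m : ℕ => (10 * m : ℝ)) Filter.atTop Filter.atTop :=
      tendsto_natCast_atTop_atTop.const_mul_atTop (by norm_num)
    have h4 := (h2.comp h3).const_mul 20
    rw [mul_zero] at h4
    refine h4.congr' ?_
    filter_upwards [Filter.eventually_gt_atTop 0] with m hm
    have hm' : (0 : ℝ) < 10 * m := by positivity
    have hm'' : (0 : ℝ) < m := by positivity
    simp only [Function.comp]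
    rw [← Real.sqrt_eq_rpow]
    have hs : 0 < Real.sqrt (10 * m) := Real.sqrt_pos.mpr hm'
    have hss : Real.sqrt (10 * m) * Real.sqrt (10 * m) = 10 * m := Real.mul_self_sqrt hm'.le
    field_simp
    rw [sq, hss]
    ring
  have h5 : ∀ᶠ m : ℕ in Filter.atTop, 2 * Real.sqrt (10 * m) * Real.log (10 * m) / m ≤ Real.log (21 / 20) :=
    (h1.eventually (gt_mem_nhds (Real.log_pos (by norm_num)))).mono fun _ h => le_of_lt h
  obtain ⟨M, hM⟩ := Filter.eventually_atTop.mp h5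
  set C : ℝ := 1 + ∑ m ∈ Finset.range (M + 1), (Nat.lcmUpto (5 * (2 * m)) : ℝ) with hC
  have hC1 : 1 ≤ C := by
    have : (0 : ℝ) ≤ ∑ m ∈ Finset.range (M + 1), (Nat.lcmUpto (5 * (2 * m)) : ℝ) :=
      Finset.sum_nonneg fun _ _ => Nat.cast_nonneg _
    linarith
  refine ⟨C, hC1, fun m => ?_⟩
  have hpow : (1 : ℝ) ≤ (4 ^ 10 * (21 / 20)) ^ m := one_le_pow₀ (by norm_num)
  rcases lt_or_ge m (M + 1) with hm | hm
  · have h6 : (Nat.lcmUpto (5 * (2 * m)) : ℝ) ≤ C := by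
      have := Finset.single_le_sum (f := fun m => (Nat.lcmUpto (5 * (2 * m)) : ℝ))
        (fun _ _ => Nat.cast_nonneg _) (Finset.mem_range.mpr hm)
      linarith
    calc (Nat.lcmUpto (5 * (2 * m)) : ℝ) ≤ C * 1 := by rw [mul_one]; exact h6
      _ ≤ _ := by gcongr
  · have hm0 : 0 < m := by omega
    have hm' : (0 : ℝ) < m := by exact_mod_cast hm0
    have h7 := hM m (by omega)
    rw [div_le_iff₀ hm'] at h7
    have h8 := Chebyshev.psi_le (x := ((5 * (2 * m) : ℕ) : ℝ)) (by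
      have : 1 ≤ 5 * (2 * m) := by omega
      exact_mod_cast this)
    rw [Chebyshev.psi_eq_log_lcmUpto] at h8
    have e1 : ((5 * (2 * m) : ℕ) : ℝ) = 10 * m := by push_cast; ring
    rw [e1] at h8
    have hl : (0 : ℝ) < Nat.lcmUpto (5 * (2 * m)) := by exact_mod_cast Nat.lcmUpto_pos _
    have h9 : Real.log (Nat.lcmUpto (5 * (2 * m))) ≤ Real.log ((4 ^ 10 * (21 / 20)) ^ m) := by
      rw [Real.log_pow, Real.log_mul (by norm_num) (by norm_num), Real.log_pow]
      push_cast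
      linarith
    have h10 := (Real.log_le_log_iff hl (by positivity)).mp h9
    calc (Nat.lcmUpto (5 * (2 * m)) : ℝ) ≤ 1 * (4 ^ 10 * (21 / 20)) ^ m := by rw [one_mul]; exact h10
      _ ≤ _ := by gcongr

end Pool.Agent.Lib.LogMeasure
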