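import Pool.Agent.Lib.MP_d0d59f_nt.Basic

/-!
Power-saving bound for `T_d`-invariant sets on which `T_d` is injective.
-/

namespace Pool.Agent.Lib.MP_d0d59f_nt

open Real Finset

/-- Chernoff bound for the number of subsets of `range n` with more than `α n` elements. -/
theorem card_large_subsets_le {α : ℝ} (h1 : 1 / 2 ≤ α) (h2 : α < 1) (n : ℕ) :
    ((((range n).powerset.filter fun A => α * n < (A.card : ℝ)).card : ℕ) : ℝ)
      ≤ exp (binEntropy α * n) := by
  set t : ℝ := α / (1 - α) with ht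
  have hα : 0 < α := by linarith
  have h1α : 0 < 1 - α := by linarith
  have ht1 : 1 ≤ t := by rw [ht, le_div_iff₀ h1α]; linarith
  have ht0 : 0 < t := by linarith
  have hsum : ∑ A ∈ (range n).powerset, t ^ A.card = (1 + t) ^ n := by
    have := Finset.sum_pow_mul_eq_add_pow t 1 (range n)
    simp only [one_pow, mul_one, card_range] at this
    rw [this, add_comm]
  have key : ∀ A ∈ (range n).powerset.filter (fun A => α * n < (A.card : ℝ)),
      (1 : ℝ) ≤ t ^ A.card * t ^ (-(α * n)) := by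
    intro A hA
    rw [Finset.mem_filter] at hA
    rw [← rpow_natCast, ← rpow_add ht0]
    apply one_le_rpow ht1
    linarith [hA.2]
  have hlog : (1 + t) ^ n * t ^ (-(α * n)) = exp (binEntropy α * n) := by
    have e1 : 1 + t = (1 - α)⁻¹ := by rw [ht]; field_simp; ring
    rw [rpow_def_of_pos ht0, e1, ← exp_log (show 0 < ((1 - α)⁻¹) ^ n by positivity), ← exp_add]
    congr 1
    rw [log_pow, log_inv, ht, log_div hα.ne' h1α.ne', binEntropy, log_inv, log_inv]
    ring
  calc ((((range n).powerset.filter fun A => α * n < (A.card : ℝ)).card : ℕ) : ℝ)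
      = ∑ A ∈ (range n).powerset.filter (fun A => α * n < (A.card : ℝ)), (1 : ℝ) := by simp
    _ ≤ ∑ A ∈ (range n).powerset.filter (fun A => α * n < (A.card : ℝ)),
          t ^ A.card * t ^ (-(α * n)) := Finset.sum_le_sum key
    _ ≤ ∑ A ∈ (range n).powerset, t ^ A.card * t ^ (-(α * n)) := by
        apply Finset.sum_le_sum_of_subset_of_nonneg (Finset.filter_subset _ _)
        intro A _ _
        positivity
    _ = exp (binEntropy α * n) := by rw [← Finset.sum_mul, hsum, hlog]

/-- The parity vector, as a set of positions. -/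
def parSet (d : ℤ) (n : ℕ) (y : ℤ) : Finset ℕ :=
  (Finset.range n).filter fun k => (T d)^[k] y % 2 = 1

theorem parSet_inj {d : ℤ} (hd : Odd d) {n : ℕ} {y z : ℤ}
    (hy : 2 * |y| < 2 ^ n) (hz : 2 * |z| < 2 ^ n) (h : parSet d n y = parSet d n z) : y = z := by
  have hdvd : (2 : ℤ) ^ n ∣ y - z := by
    apply dvd_of_parity hd
    intro k hk
    have hk' : k ∈ parSet d n y ↔ k ∈ parSet d n z := by rw [h]
    simp only [parSet, Finset.mem_filter, Finset.mem_range, hk, true_and] at hk'
    rcases Int.emod_two_eq_zero_or_one ((T d)^[k] y) with a | a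
    · rcases Int.emod_two_eq_zero_or_one ((T d)^[k] z) with b | b
      · rw [a, b]
      · rw [hk'.mpr b, b]
    · rw [a, hk'.mp a]
  by_contra hne
  have h1 : (2 : ℤ) ^ n ≤ |y - z| :=
    Int.le_of_dvd (abs_pos.mpr (sub_ne_zero.mpr hne)) ((dvd_abs _ _).mpr hdvd)
  have h2 : |y - z| ≤ |y| + |z| := abs_sub _ _
  linarith

/-- The elements of `S` with `2 |y| < 2 ^ n`. -/
def ball (n : ℕ) : Set ℤ := {y | 2 * |y| < 2 ^ n}

theorem ball_finite (n : ℕ) : (ball n).Finite := by
  apply (Set.finite_Icc (-(2 : ℤ) ^ n) (2 ^ n)).subset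
  intro y hy
  simp only [ball, Set.mem_ofPred_eq] at hy
  have := abs_nonneg y
  have h := abs_le.mp (show |y| ≤ 2 ^ n by linarith)
  exact ⟨h.1, h.2⟩

theorem ball_ncard_le (n : ℕ) : ((ball n).ncard : ℝ) ≤ 2 * 2 ^ n + 1 := by
  have h : ball n ⊆ Set.Icc (-(2 : ℤ) ^ n) (2 ^ n) := by
    intro y hy
    simp only [ball, Set.mem_ofPred_eq] at hy
    have := abs_nonneg y
    have h := abs_le.mp (show |y| ≤ 2 ^ n by linarith)
    exact ⟨h.1, h.2⟩
  have h1 := Set.ncard_le_ncard h (Set.finite_Icc _ _)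
  have h2 : (Set.Icc (-(2 : ℤ) ^ n) (2 ^ n)).ncard = 2 * 2 ^ n + 1 := by
    rw [← Finset.coe_Icc, Set.ncard_coe_finset, Int.card_Icc]
    have : (2 : ℤ) ^ n + 1 - -2 ^ n = ((2 * 2 ^ n + 1 : ℕ) : ℤ) := by push_cast; ring
    rw [this, Int.toNat_natCast]
  rw [h2] at h1
  exact_mod_cast h1

/-- One step of the recursion. -/
theorem ncard_step {d : ℤ} (hd : Odd d) {S : Set ℤ} (hS : Set.MapsTo (T d) S S)
    (hinj : Set.InjOn (T d) S) {α : ℝ} (h1 : 1 / 2 ≤ α) (h2 : α < 1) {n m : ℕ}
    (hm : (1 + 2 * |(d : ℝ)|) * 3 ^ (α * n) < 2 ^ m) :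
    ((S ∩ ball n).ncard : ℝ) ≤ exp (binEntropy α * n) + ((S ∩ ball m).ncard : ℝ) := by
  set A : Set ℤ := {y | y ∈ S ∩ ball n ∧ α * n < (ones d y n : ℝ)} with hA
  set B : Set ℤ := {y | y ∈ S ∩ ball n ∧ (ones d y n : ℝ) ≤ α * n} with hB
  have hAfin : A.Finite := (ball_finite n).subset fun y hy => hy.1.2
  have hBfin : B.Finite := (ball_finite n).subset fun y hy => hy.1.2
  have hAB : S ∩ ball n = A ∪ B := by
    ext y
    simp only [hA, hB, Set.mem_union, Set.mem_ofPred_eq]
    constructor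
    · intro h
      rcases lt_or_ge (α * n) (ones d y n : ℝ) with h' | h'
      · exact Or.inl ⟨h, h'⟩
      · exact Or.inr ⟨h, h'⟩
    · rintro (h | h) <;> exact h.1
  have hcA : (A.ncard : ℝ) ≤ exp (binEntropy α * n) := by
    refine le_trans ?_ (card_large_subsets_le h1 h2 n)
    have : A.ncard ≤ (((range n).powerset.filter fun A => α * n < (A.card : ℝ)) :
        Set (Finset ℕ)).ncard := by
      apply Set.ncard_le_ncard_of_injOn (parSet d n)
      · intro y hy
        simp only [Finset.coe_filter, Finset.mem_powerset, Set.mem_ofPred_eq]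
        exact ⟨Finset.filter_subset _ _, hy.2⟩
      · intro y hy z hz h
        exact parSet_inj hd hy.1.2 hz.1.2 h
    rw [Set.ncard_coe_finset] at this
    exact_mod_cast this
  have hcB : B.ncard ≤ (S ∩ ball m).ncard := by
    apply Set.ncard_le_ncard_of_injOn ((T d)^[n]) (ht := (ball_finite m).subset fun y hy => hy.2)
    · intro y hy
      refine ⟨(hS.iterate n) hy.1.1, ?_⟩
      have hy1 : (2 : ℝ) * |(y : ℝ)| < 2 ^ n := by
        have := hy.1.2
        simp only [ball, Set.mem_ofPred_eq] at this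
        exact_mod_cast this
      have hb := abs_iterate_le hd y n
      have hpow : (3 : ℝ) ^ (ones d y n) ≤ 3 ^ (α * n) := by
        rw [← rpow_natCast]
        exact rpow_le_rpow_of_exponent_le (by norm_num) hy.2
      have h3 : |(y : ℝ)| / 2 ^ n ≤ 1 / 2 := by
        rw [div_le_iff₀ (by positivity)]; linarith
      have h4 : (0 : ℝ) ≤ |(d : ℝ)| := abs_nonneg _
      have h5 : |((T d)^[n] y : ℝ)| ≤ 3 ^ (α * n) * (1 / 2 + |(d : ℝ)|) := by
        refine hb.trans ?_
        apply mul_le_mul hpow (by linarith) (by positivity) (by positivity)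
      have h6 : (2 : ℝ) * |((T d)^[n] y : ℝ)| < 2 ^ m := by
        refine lt_of_le_of_lt ?_ hm
        nlinarith
      simp only [ball, Set.mem_ofPred_eq]
      exact_mod_cast h6
    · intro y hy z hz h
      exact (hinj.iterate hS n) hy.1.1 hz.1.1 h
  rw [hAB]
  have := Set.ncard_union_le A B
  have h' : ((A ∪ B).ncard : ℝ) ≤ A.ncard + B.ncard := by exact_mod_cast this
  have hcB' : (B.ncard : ℝ) ≤ ((S ∩ ball m).ncard : ℝ) := by exact_mod_cast hcB
  linarith

/-- Counting bound with the exponent `binEntropy α / log 2`, `1/2 ≤ α < log 2 / log 3`. -/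
theorem ncard_ball_le {d : ℤ} (hd : Odd d) {α : ℝ} (h1 : 1 / 2 ≤ α) (h2 : α * log 3 < log 2) :
    ∃ K : ℝ, 0 ≤ K ∧ ∀ S : Set ℤ, Set.MapsTo (T d) S S → Set.InjOn (T d) S →
      ∀ n : ℕ, ((S ∩ ball n).ncard : ℝ) ≤ K * exp (binEntropy α * n) := by
  have hl2 : 0 < log 2 := log_pos (by norm_num)
  have hl3 : log 2 < log 3 := log_lt_log (by norm_num) (by norm_num)
  have hα0 : 0 < α := by linarith
  have hα1 : α < 1 := by
    by_contra h
    push Not at h
    nlinarith
  have hh : 0 < binEntropy α := binEntropy_pos hα0 hα1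
  set h := binEntropy α with hhdef
  set a : ℝ := α * log 3 / log 2 with ha
  have ha1 : a < 1 := by rw [ha, div_lt_one hl2]; exact h2
  have ha0 : 0 < a := by
    have : 0 < log 3 := by linarith
    positivity
  set D : ℝ := 1 + 2 * |(d : ℝ)| with hD
  have hD1 : 1 ≤ D := by
    have := abs_nonneg (d : ℝ)
    rw [hD]; linarith
  have hD0 : 0 < D := by linarith
  set c : ℝ := log D / log 2 with hc
  have hc0 : 0 ≤ c := div_nonneg (log_nonneg hD1) hl2.le
  -- threshold
  obtain ⟨n₁, hn₁⟩ := exists_nat_ge (((c + 1) + (log 2 / h + 1)) / (1 - a))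
  have h1a : 0 < 1 - a := by linarith
  refine ⟨2 * 2 ^ n₁ + 2, by positivity, ?_⟩
  intro S hS hinj n
  set K : ℝ := 2 * 2 ^ n₁ + 2 with hK
  have hK2 : 2 ≤ K := by
    have : (0 : ℝ) < 2 ^ n₁ := by positivity
    rw [hK]; linarith
  induction n using Nat.strong_induction_on with
  | _ n ih =>
    rcases lt_or_ge n n₁ with hlt | hge
    · have e1 : ((S ∩ ball n).ncard : ℝ) ≤ 2 * 2 ^ n + 1 := by
        refine le_trans ?_ (ball_ncard_le n)
        exact_mod_cast Set.ncard_le_ncard Set.inter_subset_right (ball_finite n)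
      have e2 : (2 : ℝ) ^ n ≤ 2 ^ n₁ := pow_le_pow_right₀ (by norm_num) hlt.le
      have e3 : 1 ≤ exp (h * n) := by
        rw [← exp_zero]; apply exp_le_exp.mpr; positivity
      calc ((S ∩ ball n).ncard : ℝ) ≤ K := by rw [hK]; linarith
        _ = K * 1 := by ring
        _ ≤ K * exp (h * n) := by gcongr
    · -- choose m
      have hn : ((c + 1) + (log 2 / h + 1)) / (1 - a) ≤ n := hn₁.trans (by exact_mod_cast hge)
      rw [div_le_iff₀ h1a] at hn
      set m : ℕ := ⌊a * n + c⌋₊ + 1 with hm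
      have hnn : (0 : ℝ) ≤ a * n + c := by positivity
      have hm1 : (m : ℝ) ≤ a * n + c + 1 := by
        rw [hm]; push_cast
        linarith [Nat.floor_le hnn]
      have hm2 : a * n + c < (m : ℝ) := by
        rw [hm]; push_cast
        exact Nat.lt_floor_add_one _
      have hdiv : 0 < log 2 / h := by positivity
      have hmn : m < n := by
        have : (m : ℝ) < n := by nlinarith
        exact_mod_cast this
      have hstep : D * 3 ^ (α * n) < 2 ^ m := by
        rw [← exp_log hD0, rpow_def_of_pos (by norm_num : (0:ℝ) < 3), ← exp_add,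
          ← rpow_natCast, rpow_def_of_pos (by norm_num : (0:ℝ) < 2)]
        apply exp_lt_exp.mpr
        have e1 : log D = c * log 2 := by rw [hc]; field_simp
        have e2 : log 3 * (α * n) = a * n * log 2 := by rw [ha]; field_simp
        rw [e1, e2]
        nlinarith
      have := ncard_step hd hS hinj h1 hα1 (n := n) (m := m) hstep
      refine this.trans ?_
      have ihm := ih m hmn
      have e4 : exp (h * m) ≤ exp (h * n) / 2 := by
        have : h * m ≤ h * n + -log 2 := by
          have e5 : (m : ℝ) ≤ n - log 2 / h := by nlinarith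
          have e6 : h * m ≤ h * (n - log 2 / h) := by gcongr
          have e7 : h * (n - log 2 / h) = h * n - log 2 := by field_simp
          linarith
        have e8 := exp_le_exp.mpr this
        rw [exp_add, exp_neg, exp_log (by norm_num)] at e8
        linarith
      have e9 : 0 < exp (h * n) := exp_pos _
      calc exp (h * n) + ((S ∩ ball m).ncard : ℝ) ≤ exp (h * n) + K * exp (h * m) := by linarith
        _ ≤ exp (h * n) + K * (exp (h * n) / 2) := by gcongr
        _ ≤ K * exp (h * n) := by nlinarith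

/-- The exponent `H(log 2 / log 3)` (binary entropy in base 2), about `0.94996`. -/
noncomputable def E : ℝ := binEntropy (log 2 / log 3) / log 2

/-- Main counting theorem. -/
theorem sparse {d : ℤ} (hd : Odd d) {ε : ℝ} (hε : 0 < ε) :
    ∃ C : ℝ, ∀ S : Set ℤ, (∀ y ∈ S, T d y ∈ S) → Set.InjOn (T d) S →
      ∀ X : ℝ, 1 ≤ X → ((S ∩ {y : ℤ | |(y : ℝ)| ≤ X}).ncard : ℝ) ≤ C * X ^ (E + ε) := by
  have hl2 : 0 < log 2 := log_pos (by norm_num)
  have hl3 : 0 < log 3 := log_pos (by norm_num)
  have hl23 : log 2 < log 3 := log_lt_log (by norm_num) (by norm_num)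
  set θ : ℝ := log 2 / log 3 with hθ
  have hθ1 : 1 / 2 < θ := by
    rw [hθ, lt_div_iff₀ hl3]
    have : log 3 < log 4 := log_lt_log (by norm_num) (by norm_num)
    have h4 : log 4 = 2 * log 2 := by
      rw [show (4 : ℝ) = 2 ^ 2 by norm_num, log_pow]; norm_num
    linarith
  -- choose α
  obtain ⟨α, hα1, hα2, hα3⟩ : ∃ α, 1 / 2 ≤ α ∧ α < θ ∧
      binEntropy α < binEntropy θ + ε * log 2 := by
    have hcont : ContinuousAt binEntropy θ := binEntropy_continuous.continuousAt
    have h1 : ∀ᶠ x in nhds θ, binEntropy x < binEntropy θ + ε * log 2 :=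
      hcont.eventually (gt_mem_nhds (by
        have : 0 < ε * log 2 := by positivity
        linarith))
    obtain ⟨δ, hδ, h2⟩ := Metric.eventually_nhds_iff.mp h1
    refine ⟨max (1 / 2) (θ - δ / 2), le_max_left _ _, ?_, ?_⟩
    · exact max_lt hθ1 (by linarith)
    · apply h2
      rw [Real.dist_eq, abs_lt]
      have ha := le_max_left (1 / 2) (θ - δ / 2)
      have hb := le_max_right (1 / 2) (θ - δ / 2)
      have hc : max (1 / 2) (θ - δ / 2) < θ := max_lt hθ1 (by linarith)
      constructor <;> linarith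
  have hα4 : α * log 3 < log 2 := by
    rw [hθ, lt_div_iff₀ hl3] at hα2; exact hα2
  obtain ⟨K, hK, hmain⟩ := ncard_ball_le hd hα1 hα4
  have hα5 : α < 1 := hα2.trans (by rw [hθ, div_lt_one hl3]; exact hl23)
  have hh : 0 < binEntropy α := binEntropy_pos (by linarith) hα5
  refine ⟨K * 4 ^ (binEntropy α / log 2), ?_⟩
  intro S hS hinj X hX
  have hX0 : 0 < X := by linarith
  set n : ℕ := ⌊log (2 * X) / log 2⌋₊ + 1 with hn
  have hlog2X : 0 ≤ log (2 * X) := log_nonneg (by linarith)
  have hn1 : (n : ℝ) ≤ log (2 * X) / log 2 + 1 := by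
    rw [hn]; push_cast
    linarith [Nat.floor_le (div_nonneg hlog2X hl2.le)]
  have hn2 : log (2 * X) / log 2 < n := by
    rw [hn]; push_cast
    exact Nat.lt_floor_add_one _
  have hpow : 2 * X < 2 ^ n := by
    rw [← exp_log (show 0 < 2 * X by positivity), ← rpow_natCast,
      rpow_def_of_pos (by norm_num : (0:ℝ) < 2)]
    apply exp_lt_exp.mpr
    rw [div_lt_iff₀ hl2] at hn2
    linarith
  have hsub : S ∩ {y : ℤ | |(y : ℝ)| ≤ X} ⊆ S ∩ ball n := by
    rintro y ⟨hy1, hy2⟩
    refine ⟨hy1, ?_⟩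
    simp only [Set.mem_ofPred_eq] at hy2
    simp only [ball, Set.mem_ofPred_eq]
    have : (2 : ℝ) * |(y : ℝ)| < 2 ^ n := by linarith
    exact_mod_cast this
  have hle : ((S ∩ {y : ℤ | |(y : ℝ)| ≤ X}).ncard : ℝ) ≤ ((S ∩ ball n).ncard : ℝ) := by
    exact_mod_cast Set.ncard_le_ncard hsub ((ball_finite n).subset Set.inter_subset_right)
  refine hle.trans ((hmain S hS hinj n).trans ?_)
  rw [mul_assoc]
  apply mul_le_mul_of_nonneg_left _ hK
  have e1 : exp (binEntropy α * n) ≤ exp (binEntropy α * (log (2 * X) / log 2 + 1)) := by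
    apply exp_le_exp.mpr
    gcongr
  refine e1.trans ?_
  have e2 : exp (binEntropy α * (log (2 * X) / log 2 + 1))
      = 4 ^ (binEntropy α / log 2) * X ^ (binEntropy α / log 2) := by
    rw [← mul_rpow (by norm_num) hX0.le, rpow_def_of_pos (by positivity)]
    congr 1
    have h4 : log (4 * X) = log 2 + log (2 * X) := by
      rw [← log_mul (by norm_num) (by positivity)]; congr 1; ring
    rw [h4]
    field_simp
    ring
  rw [e2]
  apply mul_le_mul_of_nonneg_left _ (by positivity)
  apply rpow_le_rpow_of_exponent_le hX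
  rw [E, div_add' _ _ _ hl2.ne', div_le_div_iff_of_pos_right hl2]
  linarith

end Pool.Agent.Lib.MP_d0d59f_nt
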